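import Mathlib

/-!
# Alexandrov spaces, extremal subsets, bounded constructible complexes

The definitions used in the statements about compact Alexandrov spaces.
-/

open CategoryTheory TopologicalSpace Opposite TopCat Limits Topology

namespace Run7.h642

/-- The comparison angle in the hyperbolic plane of curvature `-K ^ 2`: the angle of the triangle
with sides `a`, `b`, `c` opposite to the side `c`. -/
noncomputable def cmpAngle (K a b c : ℝ) : ℝ :=
  Real.arccos ((Real.cosh (K * a) * Real.cosh (K * b) - Real.cosh (K * c)) /
    (Real.sinh (K * a) * Real.sinh (K * b)))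

/-- Compact finite-dimensional Alexandrov spaces: compact metric spaces with midpoints (so that,
being complete, they are geodesic), with curvature bounded below by some real number (expressed by
the four point condition with comparison angles in a hyperbolic plane of curvature `-K ^ 2`), and
of finite Hausdorff dimension. -/
structure IsAlexandrov (X : Type) [MetricSpace X] : Prop where
  compact : CompactSpace X
  midpoint : ∀ x y : X, ∃ m : X, dist x m = dist x y / 2 ∧ dist m y = dist x y / 2
  comparison : ∃ K : ℝ, 0 < K ∧ ∀ p x y z : X, p ≠ x → p ≠ y → p ≠ z →
    cmpAngle K (dist p x) (dist p y) (dist x y) + cmpAngle K (dist p y) (dist p z) (dist y z) +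
      cmpAngle K (dist p z) (dist p x) (dist z x) ≤ 2 * Real.pi
  finiteDim : dimH (Set.univ : Set X) < ⊤

variable {X : Type} [MetricSpace X]

/-- `p` is a critical point of the distance function from `q`:
`limsup (dist q x - dist q p) / dist p x ≤ 0` as `x` tends to `p`. -/
def IsCriticalPt (q p : X) : Prop :=
  ∀ ε > 0, ∀ᶠ x in 𝓝 p, dist q x - dist q p ≤ ε * dist p x

/-- Extremal subsets: closed subsets `E` such that, for every `q` outside `E`, every point of `E`
at which the restriction of the distance from `q` to `E` has a local minimum is a critical point
of the distance from `q` on `X`. -/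
structure IsExtremal (E : Set X) : Prop where
  closed : IsClosed E
  critical : ∀ q : X, q ∉ E → ∀ p ∈ E, IsLocalMinOn (dist q) E p → IsCriticalPt q p

/-- The intersection of all extremal subsets containing `x`. -/
def extremalHull (x : X) : Set X := ⋂₀ {E : Set X | IsExtremal E ∧ x ∈ E}

/-- The stratum of `x` in the extremal stratification: the points lying in the same extremal
subsets as `x`. -/
def stratum (x : X) : Set X := {y : X | extremalHull y = extremalHull x}

variable (k : Type) [Field k]

/-- Sheaves of vector spaces over `k` on a topological space. -/
abbrev ShV (X : TopCat.{0}) := TopCat.Sheaf (ModuleCat.{0} k) X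

variable {k}

/-- Local systems of rank at most `N`: every point has an open neighbourhood with at most `N`
sections whose germs form a basis of the stalk at every point of that neighbourhood. -/
def IsLocalSystem {S : TopCat.{0}} (N : ℕ) (F : ShV k S) : Prop :=
  ∀ x : S, ∃ (r : ℕ) (_ : r ≤ N) (U : Opens S) (_ : x ∈ U) (s : Fin r → F.1.obj (op U)),
    ∀ (y : S) (hy : y ∈ U), Function.Bijective
      (fun c : Fin r → k => ∑ i, c i • (F.presheaf.germ U y hy).hom (s i))

/-- The restriction of a sheaf to a subset. -/
noncomputable def restrictTo (S : Set X) (F : ShV k (TopCat.of X)) : ShV k (TopCat.of S) :=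
  (TopCat.Sheaf.pullback (ModuleCat.{0} k)
    (TopCat.ofHom ⟨Subtype.val, continuous_subtype_val⟩ : TopCat.of S ⟶ TopCat.of X)).obj F

/-- The objects of the derived category of sheaves that occur in the question: cohomology sheaves
vanish outside `[-N, N]`, and restrict to local systems of rank at most `N` on every stratum of
the extremal stratification. -/
structure IsBddConstr.{w} [HasDerivedCategory.{w} (ShV k (TopCat.of X))] (N : ℕ)
    (K : DerivedCategory (ShV k (TopCat.of X))) : Prop where
  vanish : ∀ i : ℤ, i < -(N : ℤ) ∨ (N : ℤ) < i →
    IsZero ((DerivedCategory.homologyFunctor (ShV k (TopCat.of X)) i).obj K)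
  locsys : ∀ (i : ℤ) (x : X), IsLocalSystem N
    (restrictTo (stratum x) ((DerivedCategory.homologyFunctor (ShV k (TopCat.of X)) i).obj K))

/-- The finiteness statement of the question for the space `X` and the number `N`: finitely many
objects represent all isomorphism classes. -/
def FinitelyManyClasses.{w} (k : Type) [Field k] (X : Type) [MetricSpace X]
    [HasDerivedCategory.{w} (ShV k (TopCat.of X))] (N : ℕ) : Prop :=
  ∃ (F : Type) (_ : Finite F) (R : F → DerivedCategory (ShV k (TopCat.of X))),
    (∀ f, IsBddConstr N (R f)) ∧
      ∀ K : DerivedCategory (ShV k (TopCat.of X)), IsBddConstr N K → ∃ f, Nonempty (K ≅ R f)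

end Run7.h642
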