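import Mathlib

/-!
# Sheaves of vector spaces: sections, germs, sheaves of functions
-/

open CategoryTheory TopologicalSpace Opposite TopCat Limits

namespace Run7.h642

/-- sheaves of `k`-vector spaces on a topological space -/
abbrev Sh (k : Type) [Field k] (X : TopCat.{0}) := TopCat.Sheaf (ModuleCat.{0} k) X

variable {k : Type} [Field k] {X : TopCat.{0}}

section sections

/-- restriction of sections -/
noncomputable def res (F : Sh k X) {U V : Opens X} (h : U ≤ V) :
    F.1.obj (op V) →ₗ[k] F.1.obj (op U) := (F.1.map (homOfLE h).op).hom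

theorem res_res (F : Sh k X) {U V W : Opens X} (h : U ≤ V) (h' : V ≤ W) (s : F.1.obj (op W)) :
    res F h (res F h' s) = res F (h.trans h') s := by
  unfold res
  have : (homOfLE (h.trans h')).op = (homOfLE h').op ≫ (homOfLE h).op := rfl
  rw [this, Functor.map_comp]
  rfl

theorem res_self (F : Sh k X) {U : Opens X} (s : F.1.obj (op U)) :
    res F (le_refl U) s = s := by
  unfold res
  have : (homOfLE (le_refl U)).op = 𝟙 (op U) := rfl
  rw [this, F.1.map_id]
  rfl

/-- the action of a morphism of sheaves on sections -/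
noncomputable def sec {F G : Sh k X} (f : F ⟶ G) (U : Opens X) :
    F.1.obj (op U) →ₗ[k] G.1.obj (op U) := (f.1.app (op U)).hom

theorem sec_res {F G : Sh k X} (f : F ⟶ G) {U V : Opens X} (h : U ≤ V) (s : F.1.obj (op V)) :
    sec f U (res F h s) = res G h (sec f V s) := by
  have := f.1.naturality (homOfLE h).op
  exact congrArg (fun q => q.hom s) this

theorem sec_comp {F G H : Sh k X} (f : F ⟶ G) (g : G ⟶ H) (U : Opens X) (s : F.1.obj (op U)) :
    sec (f ≫ g) U s = sec g U (sec f U s) := rfl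

theorem sec_id {F : Sh k X} (U : Opens X) (s : F.1.obj (op U)) : sec (𝟙 F) U s = s := rfl

theorem sec_zero {F G : Sh k X} (U : Opens X) (s : F.1.obj (op U)) :
    sec (0 : F ⟶ G) U s = 0 := rfl

theorem sec_add {F G : Sh k X} (f g : F ⟶ G) (U : Opens X) (s : F.1.obj (op U)) :
    sec (f + g) U s = sec f U s + sec g U s := rfl

theorem sec_neg {F G : Sh k X} (f : F ⟶ G) (U : Opens X) (s : F.1.obj (op U)) :
    sec (-f) U s = - sec f U s := rfl

theorem sec_sub {F G : Sh k X} (f g : F ⟶ G) (U : Opens X) (s : F.1.obj (op U)) :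
    sec (f - g) U s = sec f U s - sec g U s := rfl

theorem hom_ext_sec {F G : Sh k X} (f g : F ⟶ G) (h : ∀ U s, sec f U s = sec g U s) : f = g := by
  apply CategoryTheory.Sheaf.hom_ext
  ext U s
  exact h U.unop s

/-- local equality implies equality -/
theorem eq_of_loc (F : Sh k X) {W : Opens X} (s t : F.1.obj (op W))
    (h : ∀ x ∈ W, ∃ (V : Opens X) (hV : V ≤ W), x ∈ V ∧ res F hV s = res F hV t) : s = t := by
  apply TopCat.Presheaf.IsSheaf.section_ext F.2
  intro x hx
  obtain ⟨V, hV, hxV, h⟩ := h x hx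
  exact ⟨V, hV, hxV, h⟩

/-- the germ of a section -/
noncomputable def grm (F : Sh k X) {U : Opens X} (y : X) (hy : y ∈ U) :
    F.1.obj (op U) →ₗ[k] (F.presheaf.stalk y) := (F.presheaf.germ U y hy).hom

theorem grm_res (F : Sh k X) {U V : Opens X} (h : U ≤ V) (y : X) (hy : y ∈ U)
    (s : F.1.obj (op V)) : grm F y hy (res F h s) = grm F y (h hy) s :=
  TopCat.Presheaf.germ_res_apply F.presheaf (homOfLE h) y hy s

theorem exists_res_eq_of_grm (F : Sh k X) {U V : Opens X} (y : X) (hU : y ∈ U) (hV : y ∈ V)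
    (s : F.1.obj (op U)) (t : F.1.obj (op V)) (h : grm F y hU s = grm F y hV t) :
    ∃ (W : Opens X) (h1 : W ≤ U) (h2 : W ≤ V), y ∈ W ∧ res F h1 s = res F h2 t := by
  obtain ⟨W, hW, i1, i2, h⟩ := TopCat.Presheaf.germ_eq F.presheaf y hU hV s t h
  exact ⟨W, i1.le, i2.le, hW, h⟩

theorem exists_grm_eq (F : Sh k X) (y : X) (t : F.presheaf.stalk y) :
    ∃ (U : Opens X) (hy : y ∈ U) (s : F.1.obj (op U)), grm F y hy s = t :=
  TopCat.Presheaf.exists_germ_eq F.presheaf t

theorem ext_grm (F : Sh k X) {U : Opens X} (s t : F.1.obj (op U))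
    (h : ∀ (y : X) (hy : y ∈ U), grm F y hy s = grm F y hy t) : s = t := by
  apply eq_of_loc
  intro y hy
  obtain ⟨W, h1, h2, hyW, h⟩ := exists_res_eq_of_grm F y hy hy s t (h y hy)
  exact ⟨W, h1, hyW, h⟩

/-- gluing of sections from germs -/
theorem exists_section_of_grm (F : Sh k X) {U : Opens X} (g : ∀ y : X, F.presheaf.stalk y)
    (h : ∀ y ∈ U, ∃ (V : Opens X) (_ : V ≤ U), y ∈ V ∧ ∃ s : F.1.obj (op V),
      ∀ (z : X) (hz : z ∈ V), grm F z hz s = g z) :
    ∃ s : F.1.obj (op U), ∀ (z : X) (hz : z ∈ U), grm F z hz s = g z := by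
  choose V hVU hyV s hs using h
  let ι := {y : X // y ∈ U}
  let c : ι → Opens X := fun i => V i.1 i.2
  let sf : ∀ i : ι, F.1.obj (op (c i)) := fun i => s i.1 i.2
  have hcov : U ≤ iSup c := by
    intro y hy
    exact Opens.mem_iSup.mpr ⟨⟨y, hy⟩, hyV y hy⟩
  have hcomp : TopCat.Presheaf.IsCompatible F.1 c sf := by
    intro i j
    apply ext_grm F
    intro z hz
    have h1 := grm_res F (inf_le_left : c i ⊓ c j ≤ c i) z hz (sf i)
    have h2 := grm_res F (inf_le_right : c i ⊓ c j ≤ c j) z hz (sf j)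
    have h3 := hs i.1 i.2 z hz.1
    have h4 := hs j.1 j.2 z hz.2
    exact h1.trans (h3.trans (h4.symm.trans h2.symm))
  obtain ⟨r, hr, -⟩ := TopCat.Sheaf.existsUnique_gluing' F c U (fun i => homOfLE (hVU i.1 i.2))
    hcov sf hcomp
  refine ⟨r, fun z hz => ?_⟩
  have h1 : res F (hVU z hz) r = s z hz := hr ⟨z, hz⟩
  rw [← hs z hz z (hyV z hz), ← h1, grm_res]

/-- the map on stalks -/
noncomputable def stk {F G : Sh k X} (f : F ⟶ G) (y : X) :
    F.presheaf.stalk y →ₗ[k] G.presheaf.stalk y :=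
  ((TopCat.Presheaf.stalkFunctor (ModuleCat.{0} k) y).map f.1).hom

theorem stk_grm {F G : Sh k X} (f : F ⟶ G) {U : Opens X} (y : X) (hy : y ∈ U)
    (s : F.1.obj (op U)) : stk f y (grm F y hy s) = grm G y hy (sec f U s) := by
  have h := TopCat.Presheaf.stalkFunctor_map_germ (C := ModuleCat.{0} k) U y hy f.1
  exact congrArg (fun q => q.hom s) h

theorem stk_comp {F G H : Sh k X} (f : F ⟶ G) (g : G ⟶ H) (y : X) (s : F.presheaf.stalk y) :
    stk (f ≫ g) y s = stk g y (stk f y s) := by
  obtain ⟨U, hy, s, rfl⟩ := exists_grm_eq F y s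
  rw [stk_grm, stk_grm, stk_grm, sec_comp]

theorem stk_id {F : Sh k X} (y : X) (s : F.presheaf.stalk y) : stk (𝟙 F) y s = s := by
  obtain ⟨U, hy, s, rfl⟩ := exists_grm_eq F y s
  rw [stk_grm, sec_id]

theorem stk_zero {F G : Sh k X} (y : X) (s : F.presheaf.stalk y) :
    stk (0 : F ⟶ G) y s = 0 := by
  obtain ⟨U, hy, s, rfl⟩ := exists_grm_eq F y s
  rw [stk_grm, sec_zero, map_zero]

theorem hom_ext_stk {F G : Sh k X} (f g : F ⟶ G) (h : ∀ y s, stk f y s = stk g y s) : f = g := by
  apply hom_ext_sec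
  intro U s
  apply ext_grm
  intro y hy
  rw [← stk_grm, ← stk_grm, h]

theorem sec_injective_of_stk {F G : Sh k X} (f : F ⟶ G) {U : Opens X}
    (h : ∀ y ∈ U, Function.Injective (stk f y)) : Function.Injective (sec f U) := by
  intro s t hst
  apply ext_grm
  intro y hy
  apply h y hy
  rw [stk_grm, stk_grm, hst]

theorem mono_of_stk {F G : Sh k X} (f : F ⟶ G) (h : ∀ y, Function.Injective (stk f y)) :
    Mono f := by
  constructor
  intro H a b hab
  apply hom_ext_stk
  intro y s
  apply h y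
  rw [← stk_comp, ← stk_comp, hab]

theorem stk_injective_of_mono {F G : Sh k X} (f : F ⟶ G) [Mono f] (y : X) :
    Function.Injective (stk f y) := by
  have h1 : Mono ((Sheaf.forget (ModuleCat.{0} k) X ⋙
    TopCat.Presheaf.stalkFunctor (ModuleCat.{0} k) y).map f) := inferInstance
  exact (ModuleCat.mono_iff_injective _).mp h1

theorem stk_surjective_of_epi {F G : Sh k X} (f : F ⟶ G) [Epi f] (y : X) :
    Function.Surjective (stk f y) := by
  have h1 : Epi ((Sheaf.forget (ModuleCat.{0} k) X ⋙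
    TopCat.Presheaf.stalkFunctor (ModuleCat.{0} k) y).map f) := inferInstance
  exact (ModuleCat.epi_iff_surjective _).mp h1

theorem isIso_of_stk {F G : Sh k X} (f : F ⟶ G) (h : ∀ y, Function.Bijective (stk f y)) :
    IsIso f := by
  have : ∀ y : X, IsIso ((TopCat.Presheaf.stalkFunctor (ModuleCat.{0} k) y).map f.1) := by
    intro y
    rw [ConcreteCategory.isIso_iff_bijective]
    exact h y
  exact TopCat.Presheaf.isIso_of_stalkFunctor_map_iso f

theorem stk_bijective_of_isIso {F G : Sh k X} (f : F ⟶ G) [IsIso f] (y : X) :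
    Function.Bijective (stk f y) := by
  constructor
  · intro a b hab
    have := congrArg (stk (inv f) y) hab
    rwa [← stk_comp, ← stk_comp, IsIso.hom_inv_id, stk_id, stk_id] at this
  · intro b
    exact ⟨stk (inv f) y b, by rw [← stk_comp, IsIso.inv_hom_id, stk_id]⟩

theorem epi_of_stk {F G : Sh k X} (f : F ⟶ G) (h : ∀ y, Function.Surjective (stk f y)) :
    Epi f := by
  rw [← TopCat.Sheaf.isLocallySurjective_iff_epi]
  rw [TopCat.Presheaf.isLocallySurjective_iff]
  intro U t x hx
  obtain ⟨a, ha⟩ := h x (grm G x hx t)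
  obtain ⟨V, hV, s, rfl⟩ := exists_grm_eq F x a
  rw [stk_grm] at ha
  obtain ⟨W, h1, h2, hxW, h3⟩ := exists_res_eq_of_grm G x hV hx _ _ ha
  refine ⟨W, h2, ⟨res F h1 s, ?_⟩, hxW⟩
  have := sec_res f h1 s
  exact this.trans h3

theorem exists_local_lift {F G : Sh k X} (g : F ⟶ G) [Epi g] {U : Opens X}
    (s : G.1.obj (op U)) {x : X} (hx : x ∈ U) :
    ∃ (V : Opens X) (hV : V ≤ U), x ∈ V ∧ ∃ t : F.1.obj (op V), sec g V t = res G hV s := by
  have h := (TopCat.Sheaf.isLocallySurjective_iff_epi g).mpr inferInstance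
  obtain ⟨V, hV, ⟨t, ht⟩, hx⟩ := (TopCat.Presheaf.isLocallySurjective_iff g.hom).mp h U s x hx
  exact ⟨V, hV, hx, t, ht⟩

/-- the cokernel short exact sequence of a monomorphism -/
theorem shortExact_coker {F G : Sh k X} (f : F ⟶ G) [Mono f] :
    (ShortComplex.mk f (cokernel.π f) (cokernel.condition f)).ShortExact where
  exact := ShortComplex.exact_cokernel f
  mono_f := by dsimp; infer_instance
  epi_g := by dsimp; infer_instance

theorem exists_of_sec_eq_zero {S : ShortComplex (Sh k X)} (hS : S.Exact) [Mono S.f] {U : Opens X}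
    (s : S.X₂.1.obj (op U)) (h : sec S.g U s = 0) :
    ∃ t : S.X₁.1.obj (op U), sec S.f U t = s := by
  have h1 := (((Functor.preservesFiniteLimits_tfae (Sheaf.forget (ModuleCat.{0} k) X)).out 1 3
    rfl rfl).mpr inferInstance S ⟨hS, inferInstance⟩).left
  let F := (evaluation (Opens X)ᵒᵖ (ModuleCat.{0} k)).obj (op U)
  have h2 := ((Functor.exact_tfae F).out 1 3 rfl rfl).mpr ⟨inferInstance, inferInstance⟩ _ h1
  exact (ShortComplex.moduleCat_exact_iff _).mp h2 s h

/-- a sequence is exact if it is so on stalks -/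
theorem exact_of_stk {S : ShortComplex (Sh k X)}
    (h : ∀ (y : X) (t : S.X₂.presheaf.stalk y), stk S.g y t = 0 → ∃ u, stk S.f y u = t) :
    S.Exact := by
  rw [TopCat.Sheaf.exact_iff_stalkFunctor_map_exact]
  intro y
  rw [ShortComplex.moduleCat_exact_iff]
  intro t ht
  exact h y t ht

theorem stk_exact {S : ShortComplex (Sh k X)} (hS : S.Exact) (y : X)
    (t : S.X₂.presheaf.stalk y) (ht : stk S.g y t = 0) : ∃ u, stk S.f y u = t := by
  rw [TopCat.Sheaf.exact_iff_stalkFunctor_map_exact] at hS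
  exact (ShortComplex.moduleCat_exact_iff _).mp (hS y) t ht

end sections

section functions

variable (k)
variable (N : X → Type) [∀ x, AddCommGroup (N x)] [∀ x, Module k (N x)]

/-- restriction of dependent functions -/
def resFun {U V : Opens X} (h : U ≤ V) : (∀ y : V, N y) →ₗ[k] (∀ y : U, N y) where
  toFun f := fun y => f ⟨y.1, h y.2⟩
  map_add' _ _ := rfl
  map_smul' _ _ := rfl

/-- a local submodule condition on dependent functions -/
structure LocSub where
  S : ∀ U : Opens X, Submodule k (∀ y : U, N y)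
  restr : ∀ {U V : Opens X} (h : U ≤ V) (f : ∀ y : V, N y), f ∈ S V → resFun k N h f ∈ S U
  loc : ∀ {U : Opens X} (f : ∀ y : U, N y),
    (∀ y ∈ U, ∃ (V : Opens X) (h : V ≤ U), y ∈ V ∧ resFun k N h f ∈ S V) → f ∈ S U

variable {k N}

/-- the presheaf of sections -/
def LocSub.presheaf (P : LocSub k N) : TopCat.Presheaf (ModuleCat.{0} k) X where
  obj U := ModuleCat.of k (P.S U.unop)
  map {U V} i := ModuleCat.ofHom
    ((resFun k N i.unop.le).restrict (fun f hf => P.restr i.unop.le f hf))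
  map_id U := by ext; rfl
  map_comp f g := by ext; rfl

theorem LocSub.presheaf_isSheaf (P : LocSub k N) : P.presheaf.IsSheaf := by
  rw [TopCat.Presheaf.isSheaf_iff_isSheafUniqueGluing]
  intro ι U sf hsf
  have key : ∀ (i j : ι) (y : X) (hi : y ∈ U i) (hj : y ∈ U j),
      (show P.S (U i) from sf i).1 ⟨y, hi⟩ = (show P.S (U j) from sf j).1 ⟨y, hj⟩ := by
    intro i j y hi hj
    have h := hsf i j
    have h2 := congrArg Subtype.val (show (show P.S (U i ⊓ U j) from _) = _ from h)
    exact congrFun h2 ⟨y, ⟨hi, hj⟩⟩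
  choose index hindex using fun y : ↑(iSup U) => Opens.mem_iSup.mp y.2
  let f : ∀ y : ↑(iSup U), N y := fun y => (show P.S (U (index y)) from sf (index y)).1 ⟨y.1, hindex y⟩
  have hf : f ∈ P.S (iSup U) := by
    apply P.loc
    intro y hy
    obtain ⟨i, hi⟩ := Opens.mem_iSup.mp hy
    refine ⟨U i, le_iSup U i, hi, ?_⟩
    have : resFun k N (le_iSup U i) f = (show P.S (U i) from sf i).1 := by
      funext z
      exact key _ _ _ _ _
    rw [this]
    exact (show P.S (U i) from sf i).2
  refine ⟨(⟨f, hf⟩ : P.S (iSup U)), ?_, ?_⟩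
  · intro i
    apply Subtype.ext
    funext z
    exact key _ _ _ _ _
  · intro g hg
    apply Subtype.ext
    funext y
    have h := hg (index y)
    have h2 := congrArg Subtype.val (show (show P.S (U (index y)) from _) = _ from h)
    exact congrFun h2 ⟨y.1, hindex y⟩

/-- the sheaf of sections -/
def LocSub.sheaf (P : LocSub k N) : Sh k X := ⟨P.presheaf, P.presheaf_isSheaf⟩

/-- inclusion of sheaves of functions -/
def LocSub.incl {P Q : LocSub k N} (h : ∀ U, P.S U ≤ Q.S U) : P.sheaf ⟶ Q.sheaf where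
  hom :=
    { app := fun U => ModuleCat.ofHom (Submodule.inclusion (h U.unop))
      naturality := by intro U V i; ext; rfl }

end functions

end Run7.h642
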