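import Pool.Agent.Run7.h642.Mdim
import Pool.Agent.Run7.h642.Alex

/-!
# Spaces with conical charts
-/

open Metric Topology Filter
open scoped ENNReal NNReal

namespace Run7.h642

open OCone ConeSp

variable {X : Type} [MetricSpace X]

/-- a small ball around `x` is a ball around the apex of a cone -/
structure MChart (x : X) {C : Type} [MetricSpace C] (K : ConeSp C) (r : ℝ) (f : C → X) :
    Prop where
  pos : 0 < r
  apex : f K.o = x
  isom : ∀ p q, dist K.o p < r → dist K.o q < r → dist (f p) (f q) = dist p q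
  surj : ∀ y, dist x y < r → ∃ p, dist K.o p < r ∧ f p = y

section chart

variable {x : X} {C : Type} [MetricSpace C] {K : ConeSp C} {r : ℝ} {f : C → X}

theorem MChart.dist_apex (h : MChart x K r f) {p : C} (hp : dist K.o p < r) :
    dist x (f p) = dist K.o p := by
  rw [← h.apex, h.isom K.o p (by rw [dist_self]; exact h.pos) hp]

theorem MChart.mdim_eq (h : MChart x K r f) {w : C} (hw : dist K.o w < r) :
    mdim (f w) = mdim w := by
  symm
  apply mdim_eq_of_sim (ρ0 := r - dist K.o w) (by linarith) one_pos f rfl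
  · intro p q hp hq
    rw [one_mul]
    apply h.isom
    · linarith [dist_triangle K.o w p]
    · linarith [dist_triangle K.o w q]
  · intro p' hp'
    rw [one_mul] at hp'
    have h1 : dist x p' < r := by
      have := dist_triangle x (f w) p'
      rw [h.dist_apex hw] at this
      linarith
    obtain ⟨p, hp, rfl⟩ := h.surj p' h1
    refine ⟨p, ?_, rfl⟩
    rwa [h.isom w p hw hp] at hp'

theorem MChart.mdim_apex [ProperSpace C] (h : MChart x K r f) :
    mdim x = (Module.finrank ℝ K.WS : ℝ≥0∞) := by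
  rw [← h.apex, h.mdim_eq (by rw [dist_self]; exact h.pos), mdim_o]

theorem mem_V_of_mdim [ProperSpace C] {w : C} (hw : mdim w = mdim K.o) :
    ∃ g : K.WS, w = toV g := by
  refine ⟨proj w, ?_⟩
  have h1 := tr_neg_proj_mem (K := K) w
  have h2 : tr (-proj (K := K) w) w = K.o := by
    by_contra hne
    have h3 := mdim_C0 h1 hne
    rw [mdim_tr, hw, mdim_o] at h3
    have h4 : (Module.finrank ℝ K.WS : ℝ≥0∞) < Module.finrank ℝ K.WS + 1 :=
      ENNReal.lt_add_right (ENNReal.natCast_ne_top _) one_ne_zero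
    exact absurd h3 (not_le.mpr h4)
  rw [← tr_o, ← h2, tr_tr, add_neg_cancel, tr_zero]

/-- no critical points near a point of the same stratum -/
theorem MChart.not_critical [ProperSpace C] (h : MChart x K r f) {p q : X}
    (hq : dist x q < r / 8) (hp : dist x p < r / 8) (hpq : p ≠ q) (hm : mdim q = mdim x) :
    ¬ IsCriticalPt q p := by
  have hr := h.pos
  obtain ⟨v, hv, rfl⟩ := h.surj q (by linarith)
  obtain ⟨w, hw, rfl⟩ := h.surj p (by linarith)
  rw [h.dist_apex hv] at hq
  rw [h.dist_apex hw] at hp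
  rw [h.mdim_eq hv, ← h.apex, h.mdim_eq (by rw [dist_self]; exact h.pos)] at hm
  obtain ⟨g, rfl⟩ := mem_V_of_mdim hm
  let u := tr (-g) w
  have hwu : w = tr g u := by
    change w = tr g (tr (-g) w)
    rw [tr_tr, add_neg_cancel, tr_zero]
  have hvu : toV g = tr g K.o := (tr_o g).symm
  have hdu : dist (toV g) w = dist K.o u := by rw [hwu, hvu, dist_tr_tr]
  have hupos : 0 < dist K.o u := by
    rw [← hdu]
    apply dist_pos.mpr
    rintro e
    exact hpq (by rw [e])
  have hu1 : dist K.o u < r / 4 := by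
    rw [← hdu]
    have := dist_triangle (toV g) K.o w
    rw [dist_comm (toV g) K.o] at this
    linarith
  let z : ℝ → C := fun s => tr g (K.dil (1 + s) u)
  have z1 : ∀ s, 0 ≤ s → dist (toV g) (z s) = (1 + s) * dist K.o u := by
    intro s hs
    rw [hvu]
    change dist (tr g K.o) (tr g (K.dil (1 + s) u)) = _
    rw [dist_tr_tr, K.dist_o_dil (by linarith)]
  have z2 : ∀ s, 0 ≤ s → dist w (z s) = s * dist K.o u := by
    intro s hs
    change dist w (tr g (K.dil (1 + s) u)) = _
    conv_lhs => rw [hwu]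
    rw [dist_tr_tr]
    conv_lhs => rw [← K.dil_one u]
    rw [K.dil_dil (by linarith) zero_le_one, mul_one, K.dist_dil_same zero_le_one (by linarith)]
    congr 1
    rw [abs_sub_comm, abs_of_nonneg (by linarith)]
    ring
  have z3 : ∀ s, 0 ≤ s → s ≤ 1 → dist K.o (z s) < r := by
    intro s hs hs1
    have h1 := dist_triangle K.o (toV g) (z s)
    rw [z1 s hs] at h1
    nlinarith
  intro hcrit
  have hev := hcrit (1 / 2) (by norm_num)
  have hlim : Tendsto (fun s => f (z s)) (𝓝[>] (0 : ℝ)) (𝓝 (f w)) := by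
    rw [tendsto_iff_dist_tendsto_zero]
    have h1 : Tendsto (fun s : ℝ => s * dist K.o u) (𝓝[>] (0 : ℝ)) (𝓝 0) := by
      have : Continuous fun s : ℝ => s * dist K.o u := by fun_prop
      have h2 := this.tendsto 0
      rw [zero_mul] at h2
      exact h2.mono_left nhdsWithin_le_nhds
    apply h1.congr'
    have h3 : Set.Ioo (0 : ℝ) 1 ∈ 𝓝[>] (0 : ℝ) := Ioo_mem_nhdsGT one_pos
    filter_upwards [h3] with s hs
    rw [dist_comm (f (z s)), h.isom w (z s) hw (z3 s hs.1.le hs.2.le), z2 s hs.1.le]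
  have h4 := hlim.eventually hev
  have h3 : Set.Ioo (0 : ℝ) 1 ∈ 𝓝[>] (0 : ℝ) := Ioo_mem_nhdsGT one_pos
  obtain ⟨s, hs1, hs2⟩ := (h4.and h3).exists
  rw [h.isom _ _ hv (z3 s hs2.1.le hs2.2.le), h.isom _ _ hv hw,
    h.isom _ _ hw (z3 s hs2.1.le hs2.2.le), z1 s hs2.1.le, z2 s hs2.1.le, hdu] at hs1
  nlinarith [mul_pos hs2.1 hupos]

theorem MChart.extremal_mem [ProperSpace C] [CompactSpace X] (h : MChart x K r f) {E : Set X}
    (hE : IsExtremal E) (hx : x ∈ E) {q : X} (hq : dist x q < r / 16) (hm : mdim q = mdim x) :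
    q ∈ E := by
  by_contra hqE
  have hc : IsCompact E := hE.closed.isCompact
  obtain ⟨p, hp, hmin⟩ := hc.exists_isMinOn ⟨x, hx⟩
    (f := fun y => dist q y) (by fun_prop)
  have h1 : dist q p ≤ dist q x := hmin hx
  rw [dist_comm q x] at h1
  have hpq : p ≠ q := by
    rintro rfl
    exact hqE hp
  have hr := h.pos
  apply h.not_critical (p := p) (q := q) (by linarith) _ hpq hm
  · exact hE.critical q hqE p hp hmin.localize
  · linarith [dist_triangle x q p]

/-- the topological chart -/
theorem MChart.exists_conelike [ProperSpace C] (h : MChart x K r f) :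
    ∃ (m : ℕ) (L : Type) (_ : TopologicalSpace L) (_ : CompactSpace L)
      (φ : (Fin m → ℝ) × OCone L → X) (τ : L → ℝ≥0∞),
      IsOpenEmbedding φ ∧ φ (0, OCone.apex) = x ∧ (∀ v, mdim (φ (v, OCone.apex)) = mdim x) ∧
      (∀ v z, mdim (φ (v, pt z)) = τ z.1) ∧ ∀ l, mdim x < τ l := by
  let e : (Fin (Module.finrank ℝ K.WS) → ℝ) ≃L[ℝ] K.WS :=
    ContinuousLinearEquiv.ofFinrankEq (by simp)
  let Φ : (Fin (Module.finrank ℝ K.WS) → ℝ) × OCone K.Lk → C := fun p => psi (e p.1, p.2)
  have hΦ : IsHomeomorph Φ := psi_isHomeomorph.comp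
    (e.toHomeomorph.prodCongr (Homeomorph.refl (OCone K.Lk))).isHomeomorph
  let φ : (Fin (Module.finrank ℝ K.WS) → ℝ) × OCone K.Lk → X := fun p => f (K.cmp r (Φ p))
  have hfe : IsOpenEmbedding (fun p : ball K.o r => f p.1) := by
    refine ⟨Isometry.isEmbedding (Isometry.of_dist_eq ?_), ?_⟩
    · rintro ⟨p, hp⟩ ⟨q, hq⟩
      exact h.isom p q (by rw [dist_comm]; exact hp) (by rw [dist_comm]; exact hq)
    · have : Set.range (fun p : ball K.o r => f p.1) = ball x r := by
        ext y
        constructor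
        · rintro ⟨⟨p, hp⟩, rfl⟩
          have hp' : dist K.o p < r := by rw [dist_comm]; exact hp
          rw [mem_ball, dist_comm, h.dist_apex hp']
          exact hp'
        · intro hy
          obtain ⟨p, hp, rfl⟩ := h.surj y (by rw [dist_comm]; exact hy)
          exact ⟨⟨p, by rw [mem_ball, dist_comm]; exact hp⟩, rfl⟩
      rw [this]
      exact isOpen_ball
  have hφ : IsOpenEmbedding φ :=
    (hfe.comp (K.cmpHomeo h.pos).isOpenEmbedding).comp hΦ.isOpenEmbedding
  have hm : ∀ z : C, mdim (f (K.cmp r z)) = mdim z := by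
    intro z
    rw [h.mdim_eq (dist_cmp_lt h.pos z), ConeSp.cmp, mdim_dil]
    have h0 : 0 ≤ dist K.o z := dist_nonneg
    have := h.pos
    positivity
  refine ⟨_, K.Lk, inferInstance, inferInstance, φ, fun l => mdim l.1, hφ, ?_, ?_, ?_, ?_⟩
  · change f (K.cmp r (psi (e 0, OCone.apex))) = x
    rw [map_zero]
    have : psi ((0 : K.WS), (OCone.apex : OCone K.Lk)) = K.o := by
      change tr (0 : K.WS) K.o = K.o
      rw [tr_zero]
    have h0 := h.pos
    rw [this, ConeSp.cmp, K.dil_o (by rw [dist_self]; positivity), h.apex]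
  · intro v
    change mdim (f (K.cmp r (tr (e v) K.o))) = mdim x
    rw [hm, mdim_tr, ← h.apex, h.mdim_eq (by rw [dist_self]; exact h.pos)]
  · intro v z
    change mdim (f (K.cmp r (tr (e v) (K.dil z.2.1 z.1.1)))) = mdim z.1.1
    rw [hm, mdim_tr, mdim_dil z.2.2]
  · intro l
    have h1 := mdim_C0 l.2.1 (by
      intro e0
      have := l.2.2
      rw [e0, dist_self] at this
      exact zero_ne_one this)
    rw [← h.apex, h.mdim_eq (by rw [dist_self]; exact h.pos)]
    refine lt_of_lt_of_le ?_ h1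
    rw [mdim_o]
    exact ENNReal.lt_add_right (ENNReal.natCast_ne_top _) one_ne_zero

end chart

end Run7.h642
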