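import Pool.Agent.Run7.h642.Alex

/-!
# The midpoint inequality
-/

open Real

namespace Run7.h642

theorem add_nonneg_of_arccos {a b : ℝ} (ha : -1 ≤ a) (hb : -1 ≤ b)
    (h : arccos a + arccos b ≤ π) : 0 ≤ a + b := by
  by_contra hlt
  push Not at hlt
  have h1 : arccos b ≤ arccos (-a) := by rw [arccos_neg]; linarith
  have h2 : arccos (-a) ≤ arccos b := arccos_le_arccos (by linarith)
  have h3 := arccos_injOn (x₁ := b) ⟨hb, by linarith⟩ (x₂ := -a) ⟨by linarith, by linarith⟩
    (le_antisymm h1 h2)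
  linarith

theorem one_add_le_cosh (x : ℝ) : 1 + x ^ 2 / 2 ≤ cosh x := by
  have h1 : cosh x = 1 + 2 * sinh (x / 2) ^ 2 := by
    have := cosh_two_mul (x / 2)
    rw [cosh_sq, mul_div_cancel₀ x two_ne_zero] at this
    rw [this]
    ring
  have h2 : (x / 2) ^ 2 ≤ sinh (x / 2) ^ 2 := by
    rcases le_total 0 (x / 2) with h | h
    · exact pow_le_pow_left₀ h (self_le_sinh_iff.mpr h) 2
    · have h3 : -(x / 2) ≤ sinh (-(x / 2)) := self_le_sinh_iff.mpr (by linarith)
      rw [sinh_neg] at h3
      nlinarith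
  rw [h1]
  nlinarith

theorem sq_le_of_cosh {K A B P h s0 : ℝ} (hK : 0 < K) (hs0 : 0 < s0)
    (H : ∀ s, 0 < s → s < s0 → cosh (K * (s * A)) + cosh (K * (s * B)) ≤
      2 * (cosh (K * (s * P)) * cosh (K * (s * h)))) :
    (A ^ 2 + B ^ 2) / 2 ≤ P ^ 2 + h ^ 2 := by
  by_contra hlt
  push Not at hlt
  let a := (A ^ 2 + B ^ 2) / 2
  let b := P ^ 2 + h ^ 2
  have hab : b < a := hlt
  have hb : 0 ≤ b := by positivity
  have key : ∀ s, 0 < s → s < s0 → K ^ 2 * s ^ 2 / 2 * b ≤ 1 →
      a - b ≤ K ^ 2 * s ^ 2 / 2 * b ^ 2 := by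
    intro s hs hs1 hsb
    let v := K ^ 2 * s ^ 2 / 2
    have hv : 0 < v := by positivity
    have h1 := H s hs hs1
    have h2 := one_add_le_cosh (K * (s * A))
    have h3 := one_add_le_cosh (K * (s * B))
    have h4 := cosh_le_exp_half_sq (K * (s * P))
    have h5 := cosh_le_exp_half_sq (K * (s * h))
    have h6 : cosh (K * (s * P)) * cosh (K * (s * h)) ≤
        exp ((K * (s * P)) ^ 2 / 2) * exp ((K * (s * h)) ^ 2 / 2) :=
      mul_le_mul h4 h5 (cosh_pos _).le (exp_pos _).le
    rw [← exp_add] at h6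
    have h7 : (K * (s * P)) ^ 2 / 2 + (K * (s * h)) ^ 2 / 2 = v * b := by
      simp only [v, b]; ring
    rw [h7] at h6
    have h8 : 1 + v * a ≤ exp (v * b) := by
      have : 2 + 2 * (v * a) = 1 + (K * (s * A)) ^ 2 / 2 + (1 + (K * (s * B)) ^ 2 / 2) := by
        simp only [v, a]; ring
      linarith
    have hvb : |v * b| ≤ 1 := by
      rw [abs_of_nonneg (by positivity)]
      exact hsb
    have h9 := (abs_le.mp (abs_exp_sub_one_sub_id_le hvb)).2
    have h10 : v * (a - b) ≤ v * (v * b ^ 2) := by nlinarith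
    exact le_of_mul_le_mul_left h10 hv
  have hpos : 0 < a - b := by linarith
  -- choose a small scale
  obtain ⟨s, hs, hs1, hs2, hs3⟩ : ∃ s, 0 < s ∧ s < s0 ∧ K ^ 2 * s ^ 2 / 2 * b ≤ 1 ∧
      K ^ 2 * s ^ 2 / 2 * b ^ 2 < a - b := by
    let f1 : ℝ → ℝ := fun s => K ^ 2 * s ^ 2 / 2 * b
    let f2 : ℝ → ℝ := fun s => K ^ 2 * s ^ 2 / 2 * b ^ 2
    have c1 : Continuous f1 := by fun_prop
    have c2 : Continuous f2 := by fun_prop
    have e1 : ∀ᶠ s in nhds (0 : ℝ), f1 s < 1 :=
      c1.continuousAt.eventually_lt continuousAt_const (by simp [f1])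
    have e2 : ∀ᶠ s in nhds (0 : ℝ), f2 s < a - b :=
      c2.continuousAt.eventually_lt continuousAt_const (by simp only [f2]; simpa using hpos)
    have e3 : ∀ᶠ s in nhds (0 : ℝ), s < s0 := eventually_lt_nhds hs0
    have e4 : ∀ᶠ s in nhdsWithin (0 : ℝ) (Set.Ioi 0), 0 < s := self_mem_nhdsWithin
    obtain ⟨s, ⟨h1, h2, h3⟩, h4⟩ :=
      (((e1.and (e2.and e3)).filter_mono nhdsWithin_le_nhds).and e4).exists
    exact ⟨s, h4, h3, h1.le, h2⟩
  have := key s hs hs1 hs2
  linarith

/-- the midpoint inequality in curvature bounded below -/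
theorem exists_cosh_mid {X : Type} [MetricSpace X] (hX : IsAlexandrov X) :
    ∃ K : ℝ, 0 < K ∧ ∀ p y z u : X, dist y u = dist y z / 2 → dist u z = dist y z / 2 →
      cosh (K * dist p y) + cosh (K * dist p z) ≤
        2 * (cosh (K * dist p u) * cosh (K * (dist y z / 2))) := by
  obtain ⟨K, hK, hcmp⟩ := hX.comparison
  refine ⟨K, hK, fun p y z u h1 h2 => ?_⟩
  rcases eq_or_ne (dist y z) 0 with h0 | h0
  · rw [h0, zero_div] at h1 h2
    have e1 : y = u := dist_eq_zero.mp h1
    have e2 : u = z := dist_eq_zero.mp h2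
    subst e1
    subst e2
    simp
    linarith
  have hpos : 0 < dist y z := lt_of_le_of_ne dist_nonneg (Ne.symm h0)
  rcases eq_or_ne u p with rfl | hup
  · rw [dist_self, mul_zero, cosh_zero, dist_comm u y, h1, h2]
    linarith
  have hP : 0 < dist u p := dist_pos.mpr hup
  have hc := hcmp u y z p (by
      rintro rfl
      rw [dist_self] at h1
      linarith) (by
      rintro rfl
      rw [dist_self] at h2
      linarith) hup
  set h := dist y z / 2 with hh
  have hhpos : 0 < h := by positivity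
  have huy : dist u y = h := by rw [dist_comm]; exact h1
  rw [huy, h2] at hc
  have hyz : dist y z = 2 * h := by rw [hh]; ring
  rw [hyz] at hc
  have hs1 : 0 < sinh (K * h) := sinh_pos_iff.mpr (by positivity)
  have hs2 : 0 < sinh (K * dist u p) := sinh_pos_iff.mpr (by positivity)
  have e1 : cmpAngle K h h (2 * h) = π := by
    unfold cmpAngle
    have : (cosh (K * h) * cosh (K * h) - cosh (K * (2 * h))) / (sinh (K * h) * sinh (K * h)) =
        -1 := by
      have e2 : K * (2 * h) = 2 * (K * h) := by ring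
      rw [e2, cosh_two_mul]
      field_simp
      ring
    rw [this, arccos_neg_one]
  rw [e1] at hc
  have hc' : cmpAngle K h (dist u p) (dist z p) + cmpAngle K (dist u p) h (dist p y) ≤ π := by
    linarith
  unfold cmpAngle at hc'
  have b1 : -1 ≤ (cosh (K * h) * cosh (K * dist u p) - cosh (K * dist z p)) /
      (sinh (K * h) * sinh (K * dist u p)) := by
    rw [le_div_iff₀ (by positivity)]
    have : cosh (K * dist z p) ≤ cosh (K * h + K * dist u p) := by
      rw [cosh_le_cosh, abs_of_nonneg (by positivity), abs_of_nonneg (by positivity), ← mul_add]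
      apply mul_le_mul_of_nonneg_left _ hK.le
      calc dist z p ≤ dist z u + dist u p := dist_triangle _ _ _
        _ = h + dist u p := by rw [dist_comm z u, h2]
    rw [cosh_add] at this
    linarith
  have b2 : -1 ≤ (cosh (K * dist u p) * cosh (K * h) - cosh (K * dist p y)) /
      (sinh (K * dist u p) * sinh (K * h)) := by
    rw [le_div_iff₀ (by positivity)]
    have : cosh (K * dist p y) ≤ cosh (K * dist u p + K * h) := by
      rw [cosh_le_cosh, abs_of_nonneg (by positivity), abs_of_nonneg (by positivity), ← mul_add]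
      apply mul_le_mul_of_nonneg_left _ hK.le
      calc dist p y ≤ dist p u + dist u y := dist_triangle _ _ _
        _ = dist u p + h := by rw [dist_comm p u, huy]
    rw [cosh_add] at this
    linarith
  have h3 := add_nonneg_of_arccos b1 b2 hc'
  rw [mul_comm (sinh (K * dist u p)) (sinh (K * h)), ← add_div] at h3
  have h4 := (div_nonneg_iff.mp h3)
  have hss : 0 < sinh (K * h) * sinh (K * dist u p) := by positivity
  have h5 : 0 ≤ cosh (K * h) * cosh (K * dist u p) - cosh (K * dist z p) +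
      (cosh (K * dist u p) * cosh (K * h) - cosh (K * dist p y)) := by
    rcases h4 with h4 | h4
    · exact h4.1
    · exact absurd h4.2 (not_le.mpr hss)
  rw [dist_comm p u, dist_comm p z]
  linarith

end Run7.h642
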