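import Mathlib

/-!
# Open cones and locally cone-like stratifications
-/

open TopologicalSpace Topology

namespace Run7.h642

/-- the open cone over a space -/
def OCone (L : Type) : Type := Option (L × Set.Ioi (0 : ℝ))

namespace OCone

variable {L : Type}

/-- the apex -/
def apex : OCone L := none

/-- the point of the cone on the ray of `l` at distance `t` from the apex -/
def pt (z : L × Set.Ioi (0 : ℝ)) : OCone L := some z

/-- the distance to the apex -/
def rad : OCone L → ℝ
  | none => 0
  | some z => z.2.1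

theorem rad_apex : rad (apex : OCone L) = 0 := rfl

theorem rad_pt (z : L × Set.Ioi (0 : ℝ)) : rad (pt z) = z.2.1 := rfl

theorem rad_nonneg (w : OCone L) : 0 ≤ rad w := by
  rcases w with _ | z
  · exact le_rfl
  · exact le_of_lt z.2.2

theorem eq_apex_or (w : OCone L) : w = apex ∨ ∃ z, w = pt z := by
  rcases w with _ | z
  · exact Or.inl rfl
  · exact Or.inr ⟨z, rfl⟩

theorem pt_injective : Function.Injective (pt : L × Set.Ioi (0 : ℝ) → OCone L) :=
  Option.some_injective _

variable [TopologicalSpace L]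

/-- the cone topology: near the apex a set is a neighbourhood when it contains all points
at small distance from the apex -/
instance : TopologicalSpace (OCone L) where
  IsOpen U := IsOpen {z : L × Set.Ioi (0 : ℝ) | pt z ∈ U} ∧
    (apex ∈ U → ∃ ε > 0, ∀ z : L × Set.Ioi (0 : ℝ), z.2.1 < ε → pt z ∈ U)
  isOpen_univ := ⟨isOpen_univ, fun _ => ⟨1, one_pos, fun _ _ => trivial⟩⟩
  isOpen_inter := by
    rintro U V ⟨hU, hU'⟩ ⟨hV, hV'⟩
    refine ⟨hU.inter hV, fun h => ?_⟩
    obtain ⟨ε, hε, h1⟩ := hU' h.1
    obtain ⟨ε', hε', h2⟩ := hV' h.2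
    exact ⟨min ε ε', lt_min hε hε', fun z hz =>
      ⟨h1 z (hz.trans_le (min_le_left _ _)), h2 z (hz.trans_le (min_le_right _ _))⟩⟩
  isOpen_sUnion := by
    intro S hS
    refine ⟨?_, ?_⟩
    · have : {z : L × Set.Ioi (0 : ℝ) | pt z ∈ ⋃₀ S} =
          ⋃ U ∈ S, {z : L × Set.Ioi (0 : ℝ) | pt z ∈ U} := by
        ext z
        simp
      rw [this]
      exact isOpen_biUnion fun U hU => (hS U hU).1
    · rintro ⟨U, hU, h⟩
      obtain ⟨ε, hε, h1⟩ := (hS U hU).2 h
      exact ⟨ε, hε, fun z hz => ⟨U, hU, h1 z hz⟩⟩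

end OCone


open OCone

/-- a stratification `σ` (with strata the level sets) is locally cone-like: every point has an
open neighbourhood which is a product of a Euclidean space and the open cone over a compact
space, compatibly with the strata -/
def LocallyConelike {X ι : Type} [TopologicalSpace X] [PartialOrder ι] (σ : X → ι) : Prop :=
  ∀ x : X, ∃ (m : ℕ) (L : Type) (_ : TopologicalSpace L) (_ : CompactSpace L)
    (φ : (Fin m → ℝ) × OCone L → X) (τ : L → ι),
    IsOpenEmbedding φ ∧ φ (0, apex) = x ∧ (∀ v, σ (φ (v, apex)) = σ x) ∧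
    (∀ v z, σ (φ (v, pt z)) = τ z.1) ∧ ∀ l, σ x < τ l

end Run7.h642
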