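import Pool.Agent.Run7.h642.Local2
import Pool.Agent.Run7.h642.ConeDef

/-!
# Cone-like charts give good neighbourhoods
-/

open CategoryTheory TopologicalSpace Opposite TopCat Limits Abelian Topology


namespace Run7.h642

namespace OCone

variable {L : Type} [TopologicalSpace L]

theorem isOpen_iff {U : Set (OCone L)} : IsOpen U ↔
    IsOpen {z : L × Set.Ioi (0 : ℝ) | pt z ∈ U} ∧
    (apex ∈ U → ∃ ε > 0, ∀ z : L × Set.Ioi (0 : ℝ), z.2.1 < ε → pt z ∈ U) := Iff.rfl

theorem continuous_pt : Continuous (pt : L × Set.Ioi (0 : ℝ) → OCone L) :=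
  ⟨fun _ hU => hU.1⟩

theorem isOpenMap_pt : IsOpenMap (pt : L × Set.Ioi (0 : ℝ) → OCone L) := by
  intro U hU
  refine ⟨?_, ?_⟩
  · have : {z : L × Set.Ioi (0 : ℝ) | pt z ∈ pt '' U} = U := by
      ext z
      exact ⟨fun ⟨w, hw, h⟩ => pt_injective h ▸ hw, fun h => ⟨z, h, rfl⟩⟩
    rw [this]
    exact hU
  · rintro ⟨z, _, h⟩
    exact absurd h (Option.some_ne_none z)

theorem isOpenEmbedding_pt : IsOpenEmbedding (pt : L × Set.Ioi (0 : ℝ) → OCone L) :=
  IsOpenEmbedding.of_continuous_injective_isOpenMap continuous_pt pt_injective isOpenMap_pt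

theorem isOpen_rad_lt (ε : ℝ) : IsOpen {w : OCone L | rad w < ε} := by
  refine ⟨?_, ?_⟩
  · exact isOpen_lt (continuous_subtype_val.comp continuous_snd) continuous_const
  · intro h
    have h' : (0 : ℝ) < ε := h
    exact ⟨ε, h', fun z hz => hz⟩

theorem continuous_rad : Continuous (rad : OCone L → ℝ) := by
  rw [continuous_iff_continuousAt]
  intro w
  rcases eq_apex_or w with rfl | ⟨z, rfl⟩
  · rw [ContinuousAt, rad_apex, Metric.tendsto_nhds]
    intro ε hε
    have h1 : {w : OCone L | rad w < ε} ∈ 𝓝 (apex : OCone L) :=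
      (isOpen_rad_lt ε).mem_nhds (by rw [Set.mem_ofPred_eq, rad_apex]; exact hε)
    filter_upwards [h1] with w hw
    rw [Real.dist_eq, sub_zero, abs_of_nonneg (rad_nonneg w)]
    exact hw
  · have h2 : ContinuousAt (rad ∘ pt) z :=
      (continuous_subtype_val.comp continuous_snd).continuousAt
    exact (isOpenEmbedding_pt.continuousAt_iff).mp h2

/-- scaling -/
def scale (c : Set.Ioc (0 : ℝ) 1) : OCone L → OCone L
  | none => none
  | some z => some (z.1, ⟨c.1 * z.2.1, mul_pos c.2.1 z.2.2⟩)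

omit [TopologicalSpace L] in
theorem scale_apex (c : Set.Ioc (0 : ℝ) 1) : scale c (apex : OCone L) = apex := rfl

omit [TopologicalSpace L] in
theorem scale_pt (c : Set.Ioc (0 : ℝ) 1) (z : L × Set.Ioi (0 : ℝ)) :
    scale c (pt z) = pt (z.1, ⟨c.1 * z.2.1, mul_pos c.2.1 z.2.2⟩) := rfl

omit [TopologicalSpace L] in
theorem rad_scale (c : Set.Ioc (0 : ℝ) 1) (w : OCone L) : rad (scale c w) = c.1 * rad w := by
  rcases eq_apex_or w with rfl | ⟨z, rfl⟩
  · rw [scale_apex, rad_apex, mul_zero]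
  · rw [scale_pt, rad_pt, rad_pt]

theorem continuous_scale :
    Continuous (fun p : Set.Ioc (0 : ℝ) 1 × OCone L => scale p.1 p.2) := by
  rw [continuous_iff_continuousAt]
  rintro ⟨c, w⟩
  rcases eq_apex_or w with rfl | ⟨z, rfl⟩
  · rw [ContinuousAt]
    intro U hU
    rw [scale_apex] at hU
    obtain ⟨U', hU'U, hU', hmem⟩ := mem_nhds_iff.mp hU
    obtain ⟨ε, hε, h1⟩ := hU'.2 hmem
    have h2 : {p : Set.Ioc (0 : ℝ) 1 × OCone L | rad p.2 < ε} ∈ 𝓝 ((c, apex) :
        Set.Ioc (0 : ℝ) 1 × OCone L) := by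
      apply IsOpen.mem_nhds
      · exact (isOpen_rad_lt ε).preimage continuous_snd
      · exact hε
    rw [Filter.mem_map]
    filter_upwards [h2] with p hp
    apply hU'U
    obtain ⟨d, w⟩ := p
    rcases eq_apex_or w with rfl | ⟨z, rfl⟩
    · exact hmem
    · apply h1
      have hp' : z.2.1 < ε := hp
      have hz : 0 < z.2.1 := z.2.2
      calc d.1 * z.2.1 ≤ 1 * z.2.1 := mul_le_mul_of_nonneg_right d.2.2 hz.le
        _ < ε := by rw [one_mul]; exact hp'
  · have hemb : IsOpenEmbedding (Prod.map (id : Set.Ioc (0 : ℝ) 1 → _)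
        (pt : L × Set.Ioi (0 : ℝ) → OCone L)) := IsOpenEmbedding.id.prodMap isOpenEmbedding_pt
    have h2 : ContinuousAt ((fun p : Set.Ioc (0 : ℝ) 1 × OCone L => scale p.1 p.2) ∘
        (Prod.map (id : Set.Ioc (0 : ℝ) 1 → _) (pt : L × Set.Ioi (0 : ℝ) → OCone L))) (c, z) := by
      apply Continuous.continuousAt
      have : ((fun p : Set.Ioc (0 : ℝ) 1 × OCone L => scale p.1 p.2) ∘
        (Prod.map (id : Set.Ioc (0 : ℝ) 1 → _) (pt : L × Set.Ioi (0 : ℝ) → OCone L))) =
        fun q => pt (q.2.1, ⟨q.1.1 * q.2.2.1, mul_pos q.1.2.1 q.2.2.2⟩) := rfl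
      rw [this]
      apply continuous_pt.comp
      fun_prop
    exact (hemb.continuousAt_iff).mp h2

end OCone

open OCone

section good

variable {X : TopCat.{0}} {ι : Type} [PartialOrder ι] {σ : X → ι} {x : X} {m : ℕ} {L : Type}
  [TopologicalSpace L] {φ : (Fin m → ℝ) × OCone L → X}

/-- conical neighbourhoods -/
def Om (hφ : IsOpenEmbedding φ) (ρ : ℝ) : Opens X :=
  ⟨φ '' {p | ‖p.1‖ < ρ ∧ rad p.2 < ρ}, hφ.isOpenMap _ (by
    apply IsOpen.inter
    · exact isOpen_lt (continuous_norm.comp continuous_fst) continuous_const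
    · exact (isOpen_rad_lt ρ).preimage continuous_snd)⟩

/-- the complement of the stratum inside the chart -/
def Oc (hφ : IsOpenEmbedding φ) : Opens X :=
  ⟨φ '' {p | 0 < rad p.2}, hφ.isOpenMap _
    (isOpen_lt continuous_const (continuous_rad.comp continuous_snd))⟩

theorem mem_Om (hφ : IsOpenEmbedding φ) {ρ : ℝ} {p : (Fin m → ℝ) × OCone L} :
    φ p ∈ Om hφ ρ ↔ ‖p.1‖ < ρ ∧ rad p.2 < ρ :=
  ⟨fun ⟨_, hq, h⟩ => hφ.injective h ▸ hq, fun h => ⟨p, h, rfl⟩⟩

theorem mem_Oc (hφ : IsOpenEmbedding φ) {p : (Fin m → ℝ) × OCone L} :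
    φ p ∈ Oc hφ ↔ 0 < rad p.2 :=
  ⟨fun ⟨_, hq, h⟩ => hφ.injective h ▸ hq, fun h => ⟨p, h, rfl⟩⟩

theorem Om_mono (hφ : IsOpenEmbedding φ) {ρ ρ' : ℝ} (h : ρ ≤ ρ') : Om hφ ρ ≤ Om hφ ρ' := by
  rintro _ ⟨p, hp, rfl⟩
  exact ⟨p, ⟨hp.1.trans_le h, hp.2.trans_le h⟩, rfl⟩

/-- the inverse of the chart on a subset of the range -/
theorem exists_inv (hφ : IsOpenEmbedding φ) (A : Opens X) (hA : ∀ a ∈ A, a ∈ Set.range φ) :
    ∃ ψ : A → (Fin m → ℝ) × OCone L, Continuous ψ ∧ ∀ a, φ (ψ a) = a.1 := by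
  let e := hφ.toIsEmbedding.toHomeomorph
  refine ⟨fun a => e.symm ⟨a.1, hA a.1 a.2⟩, ?_, fun a => ?_⟩
  · exact e.symm.continuous.comp (Continuous.subtype_mk continuous_subtype_val _)
  · have h1 := e.apply_symm_apply ⟨a.1, hA a.1 a.2⟩
    exact congrArg Subtype.val h1

theorem exists_box (hφ : IsOpenEmbedding φ) {V : Opens X} (h : φ (0, apex) ∈ V) :
    ∃ δ > 0, Om hφ δ ≤ V := by
  have hopen : IsOpen (φ ⁻¹' (V : Set X)) := V.2.preimage hφ.continuous
  obtain ⟨u, v, hu, hv, h0u, h0v, huv⟩ := isOpen_prod_iff.mp hopen 0 apex h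
  obtain ⟨δ1, hδ1, hb1⟩ := Metric.isOpen_iff.mp hu 0 h0u
  obtain ⟨δ2, hδ2, hb2⟩ := hv.2 h0v
  refine ⟨min δ1 δ2, lt_min hδ1 hδ2, ?_⟩
  rintro _ ⟨⟨a, w⟩, ⟨ha, hw⟩, rfl⟩
  apply huv
  refine ⟨hb1 ?_, ?_⟩
  · rw [Metric.mem_ball, dist_zero_right]
    exact ha.trans_le (min_le_left _ _)
  · rcases eq_apex_or w with rfl | ⟨z, rfl⟩
    · exact h0v
    · exact hb2 z (lt_of_lt_of_le hw (min_le_right _ _))

theorem good_of_chart [T2Space X] [CompactSpace L] (hφ : IsOpenEmbedding φ)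
    (hx : φ (0, apex) = x) {τ : L → ι} (h1 : ∀ v, σ (φ (v, apex)) = σ x)
    (h2 : ∀ v z, σ (φ (v, pt z)) = τ z.1) (h3 : ∀ l, σ x < τ l) :
    Good σ x {Ω | ∃ ρ > 0, Ω = Om hφ ρ} (Oc hφ) where
  mem := by
    rintro _ ⟨ρ, hρ, rfl⟩
    rw [← hx, mem_Om]
    simp only [norm_zero, rad_apex]
    exact ⟨hρ, hρ⟩
  basis := by
    intro U hU
    rw [← hx] at hU
    obtain ⟨δ, hδ, h⟩ := exists_box hφ hU
    exact ⟨_, ⟨δ, hδ, rfl⟩, h⟩
  inside := by
    rintro _ ⟨ρ, hρ, rfl⟩ _ ⟨⟨v, w⟩, hp, rfl⟩ hO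
    rcases eq_apex_or w with rfl | ⟨z, rfl⟩
    · exact h1 v
    · exact absurd ((mem_Oc hφ (p := (v, pt z))).mpr z.2.2) hO
  outside := by
    rintro _ ⟨ρ, hρ, rfl⟩ _ ⟨⟨v, w⟩, hp, rfl⟩ hO
    rw [mem_Oc] at hO
    rcases eq_apex_or w with rfl | ⟨z, rfl⟩
    · exact absurd hO (lt_irrefl _)
    · rw [h2]
      exact h3 _
  contract := by
    rintro _ ⟨ρ, hρ, rfl⟩ V hV
    rw [← hx] at hV
    obtain ⟨δ, hδ, hδV⟩ := exists_box hφ hV
    obtain ⟨ψ, hψ, hφψ⟩ := exists_inv hφ (Om hφ ρ) (by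
      rintro _ ⟨p, -, rfl⟩
      exact ⟨p, rfl⟩)
    -- the scaling factor
    obtain ⟨c0, hc0, hc01, hc0δ⟩ : ∃ c0 : ℝ, 0 < c0 ∧ c0 ≤ 1 ∧ c0 * ρ ≤ δ := by
      refine ⟨min 1 (δ / ρ), lt_min one_pos (div_pos hδ hρ), min_le_left _ _, ?_⟩
      calc min 1 (δ / ρ) * ρ ≤ δ / ρ * ρ := mul_le_mul_of_nonneg_right (min_le_right _ _) hρ.le
        _ = δ := div_mul_cancel₀ δ hρ.ne'
    let c : unitInterval → Set.Ioc (0 : ℝ) 1 := fun s => ⟨1 - s.1 * (1 - c0), by
      have s0 := s.2.1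
      have s1 := s.2.2
      have e1 : s.1 * (1 - c0) ≤ 1 * (1 - c0) := mul_le_mul_of_nonneg_right s1 (by linarith)
      have e2 : 0 ≤ s.1 * (1 - c0) := mul_nonneg s0 (by linarith)
      constructor <;> linarith⟩
    have hc : Continuous c := by
      apply Continuous.subtype_mk
      fun_prop
    let H : (Om hφ ρ) × unitInterval → X := fun p =>
      φ ((c p.2).1 • (ψ p.1).1, scale (c p.2) (ψ p.1).2)
    have hH : Continuous H := by
      apply hφ.continuous.comp
      apply Continuous.prodMk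
      · exact (continuous_subtype_val.comp (hc.comp continuous_snd)).smul
          (continuous_fst.comp (hψ.comp continuous_fst))
      · exact continuous_scale.comp ((hc.comp continuous_snd).prodMk
          (continuous_snd.comp (hψ.comp continuous_fst)))
    have hle : ∀ s : unitInterval, (c s).1 ≤ 1 := fun s => (c s).2.2
    have hpos : ∀ s : unitInterval, 0 < (c s).1 := fun s => (c s).2.1
    have hmem : ∀ a : Om hφ ρ, ‖(ψ a).1‖ < ρ ∧ rad (ψ a).2 < ρ := by
      intro a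
      have := a.2
      rw [← hφψ a] at this
      exact (mem_Om hφ).mp this
    have hnorm : ∀ (a : Om hφ ρ) (s : unitInterval),
        ‖(c s).1 • (ψ a).1‖ = (c s).1 * ‖(ψ a).1‖ := by
      intro a s
      rw [norm_smul, Real.norm_of_nonneg (hpos s).le]
    refine ⟨TopCat.ofHom ⟨H, hH⟩, ?_, ?_, ?_, ?_⟩
    · ext a
      have hc00 : c 0 = ⟨1, one_pos, le_rfl⟩ := by
        apply Subtype.ext
        simp [c]
      have hsc : ∀ w : OCone L, scale ⟨1, one_pos, le_rfl⟩ w = w := by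
        intro w
        rcases eq_apex_or w with rfl | ⟨z, rfl⟩
        · rfl
        · rw [scale_pt]
          congr 1
          ext
          · rfl
          · simp
      change φ ((c 0).1 • (ψ a).1, scale (c 0) (ψ a).2) = a.1
      rw [hc00, hsc, one_smul]
      exact hφψ a
    · rintro ⟨a, s⟩
      change φ ((c s).1 • (ψ a).1, scale (c s) (ψ a).2) ∈ Om hφ ρ
      rw [mem_Om]
      obtain ⟨m1, m2⟩ := hmem a
      constructor
      · dsimp only
        rw [hnorm]
        calc (c s).1 * ‖(ψ a).1‖ ≤ 1 * ‖(ψ a).1‖ :=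
              mul_le_mul_of_nonneg_right (hle s) (norm_nonneg _)
          _ < ρ := by rw [one_mul]; exact m1
      · dsimp only
        rw [rad_scale]
        calc (c s).1 * rad (ψ a).2 ≤ 1 * rad (ψ a).2 :=
              mul_le_mul_of_nonneg_right (hle s) (rad_nonneg _)
          _ < ρ := by rw [one_mul]; exact m2
    · intro a s
      change σ (φ ((c s).1 • (ψ a).1, scale (c s) (ψ a).2)) = σ a.1
      have e0 : σ a.1 = σ (φ (ψ a)) := by rw [hφψ a]
      rw [e0]
      obtain ⟨v, w⟩ := ψ a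
      rcases eq_apex_or w with rfl | ⟨z, rfl⟩
      · dsimp only
        rw [scale_apex, h1, h1]
      · dsimp only
        rw [scale_pt, h2, h2]
    · intro a
      change φ ((c 1).1 • (ψ a).1, scale (c 1) (ψ a).2) ∈ V
      apply hδV
      have hc1 : (c 1).1 = c0 := by simp [c]
      rw [mem_Om]
      obtain ⟨m1, m2⟩ := hmem a
      constructor
      · dsimp only
        rw [hnorm, hc1]
        calc c0 * ‖(ψ a).1‖ < c0 * ρ := mul_lt_mul_of_pos_left m1 hc0
          _ ≤ δ := hc0δ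
      · dsimp only
        rw [rad_scale, hc1]
        calc c0 * rad (ψ a).2 < c0 * ρ := mul_lt_mul_of_pos_left m2 hc0
          _ ≤ δ := hc0δ
  stretch := by
    rintro _ ⟨ρ, hρ, rfl⟩
    refine ⟨Om hφ (ρ / 2), ⟨ρ / 2, by positivity, rfl⟩, Om_mono hφ (by linarith), ?_⟩
    -- the compact set
    let K0 : Set ((Fin m → ℝ) × (L × Set.Ioi (0 : ℝ))) :=
      {p | ‖p.1‖ ≤ ρ / 2 ∧ ρ / 4 ≤ p.2.2.1 ∧ p.2.2.1 ≤ ρ / 2}
    have hK0 : IsCompact K0 := by
      have e1 : IsCompact (Metric.closedBall (0 : Fin m → ℝ) (ρ / 2)) := isCompact_closedBall _ _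
      have e2 : IsCompact {t : Set.Ioi (0 : ℝ) | ρ / 4 ≤ t.1 ∧ t.1 ≤ ρ / 2} := by
        rw [Subtype.isCompact_iff]
        have : (Subtype.val '' {t : Set.Ioi (0 : ℝ) | ρ / 4 ≤ t.1 ∧ t.1 ≤ ρ / 2}) =
            Set.Icc (ρ / 4) (ρ / 2) := by
          ext t
          constructor
          · rintro ⟨t, ht, rfl⟩
            exact ht
          · intro ht
            exact ⟨⟨t, lt_of_lt_of_le (by positivity) ht.1⟩, ht, rfl⟩
        rw [this]
        exact isCompact_Icc
      have e3 : K0 = Metric.closedBall (0 : Fin m → ℝ) (ρ / 2) ×ˢ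
          ((Set.univ : Set L) ×ˢ {t : Set.Ioi (0 : ℝ) | ρ / 4 ≤ t.1 ∧ t.1 ≤ ρ / 2}) := by
        ext p
        simp only [K0, Set.mem_ofPred_eq, Set.mem_prod, Metric.mem_closedBall, dist_zero_right,
          Set.mem_univ, true_and]
      rw [e3]
      exact e1.prod (isCompact_univ.prod e2)
    have hcont : Continuous (fun p : (Fin m → ℝ) × (L × Set.Ioi (0 : ℝ)) => φ (p.1, pt p.2)) :=
      hφ.continuous.comp (continuous_fst.prodMk (continuous_pt.comp continuous_snd))
    refine ⟨(fun p : (Fin m → ℝ) × (L × Set.Ioi (0 : ℝ)) => φ (p.1, pt p.2)) '' K0,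
      hK0.image hcont, ?_, ?_⟩
    · rintro _ ⟨p, hp, rfl⟩
      obtain ⟨q1, q2, q3⟩ := hp
      refine ⟨(mem_Om hφ).mpr ⟨?_, ?_⟩, (mem_Oc hφ).mpr p.2.2.2⟩
      · dsimp only; linarith
      · rw [rad_pt]; linarith
    · obtain ⟨ψ, hψ, hφψ⟩ := exists_inv hφ (Om hφ (ρ / 2) ⊓ Oc hφ) (by
        rintro _ ⟨⟨p, -, rfl⟩, -⟩
        exact ⟨p, rfl⟩)
      have hmem : ∀ a : (Om hφ (ρ / 2) ⊓ Oc hφ : Opens X),
          ‖(ψ a).1‖ < ρ / 2 ∧ rad (ψ a).2 < ρ / 2 ∧ 0 < rad (ψ a).2 := by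
        intro a
        have := a.2
        rw [← hφψ a] at this
        exact ⟨((mem_Om hφ).mp this.1).1, ((mem_Om hφ).mp this.1).2, (mem_Oc hφ).mp this.2⟩
      -- coordinates in the cone without apex
      have hz : ∀ a : (Om hφ (ρ / 2) ⊓ Oc hφ : Opens X), ∃ z, (ψ a).2 = pt z := by
        intro a
        rcases eq_apex_or (ψ a).2 with h | h
        · exact absurd (hmem a).2.2 (by rw [h, rad_apex]; exact lt_irrefl _)
        · exact h
      choose z hz using hz
      have hzc : Continuous z := by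
        rw [isOpenEmbedding_pt.toIsEmbedding.continuous_iff]
        have : pt ∘ z = fun a => (ψ a).2 := funext fun a => (hz a).symm
        rw [this]
        exact continuous_snd.comp hψ
      have hrad : ∀ a, rad (ψ a).2 = (z a).2.1 := fun a => by rw [hz a, rad_pt]
      have hpos : ∀ (a : (Om hφ (ρ / 2) ⊓ Oc hφ : Opens X)) (s : unitInterval),
          0 < (1 - s.1) * (z a).2.1 + s.1 * max (z a).2.1 (ρ / 4) := by
        intro a s
        have g1 : 0 < (z a).2.1 := (z a).2.2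
        have g2 : (z a).2.1 ≤ max (z a).2.1 (ρ / 4) := le_max_left _ _
        have g3 := s.2.1
        have g4 : (1 - s.1) * (z a).2.1 + s.1 * max (z a).2.1 (ρ / 4) =
            (z a).2.1 + s.1 * (max (z a).2.1 (ρ / 4) - (z a).2.1) := by ring
        have g5 : 0 ≤ s.1 * (max (z a).2.1 (ρ / 4) - (z a).2.1) := mul_nonneg g3 (by linarith)
        rw [g4]
        linarith
      have hlt : ∀ (a : (Om hφ (ρ / 2) ⊓ Oc hφ : Opens X)) (s : unitInterval),
          (1 - s.1) * (z a).2.1 + s.1 * max (z a).2.1 (ρ / 4) < ρ / 2 := by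
        intro a s
        have g1 : (z a).2.1 < ρ / 2 := by rw [← hrad]; exact (hmem a).2.1
        have g2 : max (z a).2.1 (ρ / 4) < ρ / 2 := max_lt g1 (by linarith)
        have g3 := s.2.1
        have g4 := s.2.2
        rcases eq_or_lt_of_le g4 with h | h
        · rw [h]; simpa using g2
        · have e1 : (1 - s.1) * (z a).2.1 < (1 - s.1) * (ρ / 2) :=
            mul_lt_mul_of_pos_left g1 (by linarith)
          have e2 : s.1 * max (z a).2.1 (ρ / 4) ≤ s.1 * (ρ / 2) :=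
            mul_le_mul_of_nonneg_left g2.le g3
          linarith
      let H : (Om hφ (ρ / 2) ⊓ Oc hφ : Opens X) × unitInterval → X := fun p =>
        φ ((ψ p.1).1, pt ((z p.1).1, ⟨_, hpos p.1 p.2⟩))
      have hH : Continuous H := by
        apply hφ.continuous.comp
        apply Continuous.prodMk
        · exact continuous_fst.comp (hψ.comp continuous_fst)
        · apply continuous_pt.comp
          apply Continuous.prodMk
          · exact continuous_fst.comp (hzc.comp continuous_fst)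
          · apply Continuous.subtype_mk
            have c1 : Continuous (fun p : (Om hφ (ρ / 2) ⊓ Oc hφ : Opens X) × unitInterval =>
                (z p.1).2.1) := continuous_subtype_val.comp
              (continuous_snd.comp (hzc.comp continuous_fst))
            have c2 : Continuous (fun p : (Om hφ (ρ / 2) ⊓ Oc hφ : Opens X) × unitInterval =>
                p.2.1) := continuous_subtype_val.comp continuous_snd
            exact ((continuous_const.sub c2).mul c1).add (c2.mul (c1.max continuous_const))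
      refine ⟨TopCat.ofHom ⟨H, hH⟩, ?_, ?_, ?_, ?_⟩
      · ext a
        change φ ((ψ a).1, pt ((z a).1, ⟨_, hpos a 0⟩)) = a.1
        rw [← hφψ a]
        congr 1
        ext1
        · rfl
        · dsimp only
          rw [hz a]
          congr 1
          ext
          · rfl
          · simp
      · rintro ⟨a, s⟩
        change φ ((ψ a).1, pt ((z a).1, ⟨_, hpos a s⟩)) ∈ Om hφ ρ ⊓ Oc hφ
        refine ⟨(mem_Om hφ).mpr ⟨?_, ?_⟩, (mem_Oc hφ).mpr (hpos a s)⟩
        · have := (hmem a).1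
          dsimp only; linarith
        · have := hlt a s
          rw [rad_pt]
          dsimp only; linarith
      · intro a s
        change σ (φ ((ψ a).1, pt ((z a).1, ⟨_, hpos a s⟩))) = σ a.1
        have e0 : σ a.1 = σ (φ ((ψ a).1, pt (z a))) := by rw [← hz a, Prod.mk.eta, hφψ a]
        rw [e0, h2, h2]
      · intro a
        change φ ((ψ a).1, pt ((z a).1, ⟨_, hpos a 1⟩)) ∈ _
        refine ⟨((ψ a).1, ((z a).1, ⟨_, hpos a 1⟩)), ⟨?_, ?_, ?_⟩, rfl⟩
        · exact (hmem a).1.le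
        · dsimp only
          simp
        · exact (hlt a 1).le

end good

theorem allGood_of_conelike {X : TopCat.{0}} [T2Space X] {ι : Type} [PartialOrder ι] {σ : X → ι}
    (h : LocallyConelike σ) : AllGood σ := by
  intro x
  obtain ⟨m, L, tL, cL, φ, τ, hφ, hx, h1, h2, h3⟩ := h x
  exact ⟨_, _, good_of_chart hφ hx h1 h2 h3⟩

end Run7.h642
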