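import Pool.Agent.Run7.h642.ConeDef

/-!
# Conical neighbourhoods
-/

namespace Run7.h642

open OCone

/-- The cosine of the angle at the apex between two points of the Euclidean cone over a metric
space: the cosine of the minimum of `π` and the distance of the two directions. -/
noncomputable def cosAngle {S : Type} [MetricSpace S] : OCone S → OCone S → ℝ
  | some z, some z' => Real.cos (min (dist z.1 z'.1) Real.pi)
  | _, _ => 0

/-- The distance of two points of the Euclidean cone over a metric space. -/
noncomputable def coneDist {S : Type} [MetricSpace S] (w w' : OCone S) : ℝ :=
  Real.sqrt (rad w ^ 2 + rad w' ^ 2 - 2 * rad w * rad w' * cosAngle w w')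

/-- A conical neighbourhood of `x`: some ball around `x` is isometric to the ball of the same
radius around the apex of the Euclidean cone over some metric space. -/
def HasConicalNhd {X : Type} [MetricSpace X] (x : X) : Prop :=
  ∃ (S : Type) (_ : MetricSpace S) (r : ℝ) (f : OCone S → X), 0 < r ∧ f apex = x ∧
    (∀ w w', rad w < r → rad w' < r → dist (f w) (f w') = coneDist w w') ∧
    ∀ y, dist x y < r → ∃ w, rad w < r ∧ f w = y

end Run7.h642
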