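import Pool.Agent.Run7.h642.Comp
import Pool.Agent.Run7.h642.Chart
import Pool.Agent.Run7.h642.ConicDef

/-!
# Conical neighbourhoods in Alexandrov spaces give charts
-/

open Metric Topology Filter

namespace Run7.h642

open OCone

/-- the Euclidean cone, without topology -/
def MC (S : Type) : Type := OCone S

namespace MC

variable {S : Type} [MetricSpace S]

/-- the squared distance -/
noncomputable def sq (w w' : OCone S) : ℝ :=
  rad w ^ 2 + rad w' ^ 2 - 2 * rad w * rad w' * cosAngle w w'

theorem cosAngle_le (w w' : OCone S) : cosAngle w w' ≤ 1 := by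
  rcases w with _ | z
  · rcases w' with _ | z' <;> exact zero_le_one
  · rcases w' with _ | z'
    · exact zero_le_one
    · exact Real.cos_le_one _

theorem cosAngle_comm (w w' : OCone S) : cosAngle w w' = cosAngle w' w := by
  rcases w with _ | z
  · rcases w' with _ | z' <;> rfl
  · rcases w' with _ | z'
    · rfl
    · change Real.cos (min (dist z.1 z'.1) Real.pi) = Real.cos (min (dist z'.1 z.1) Real.pi)
      rw [dist_comm]

theorem sq_nonneg' (w w' : OCone S) : 0 ≤ sq w w' := by
  have h1 := rad_nonneg w
  have h2 := rad_nonneg w'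
  have h3 : 0 ≤ rad w * rad w' * (1 - cosAngle w w') :=
    mul_nonneg (mul_nonneg h1 h2) (by linarith [cosAngle_le w w'])
  unfold sq
  nlinarith [sq_nonneg (rad w - rad w')]

theorem coneDist_sq (w w' : OCone S) : coneDist w w' ^ 2 = sq w w' :=
  Real.sq_sqrt (sq_nonneg' w w')

theorem coneDist_nonneg (w w' : OCone S) : 0 ≤ coneDist w w' := Real.sqrt_nonneg _

theorem coneDist_comm (w w' : OCone S) : coneDist w w' = coneDist w' w := by
  unfold coneDist
  rw [cosAngle_comm]
  congr 1
  ring

theorem cosAngle_self {w : OCone S} (h : 0 < rad w) : cosAngle w w = 1 := by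
  rcases w with _ | z
  · exact absurd h (lt_irrefl _)
  · change Real.cos (min (dist z.1 z.1) Real.pi) = 1
    rw [dist_self, min_eq_left Real.pi_pos.le, Real.cos_zero]

theorem coneDist_self (w : OCone S) : coneDist w w = 0 := by
  have h : sq w w = 0 := by
    rcases (rad_nonneg w).eq_or_lt with h | h
    · unfold sq
      rw [← h]
      ring
    · unfold sq
      rw [cosAngle_self h]
      ring
  have := coneDist_sq w w
  rw [h] at this
  exact pow_eq_zero_iff two_ne_zero |>.mp this

theorem rad_apex_dist (w : OCone S) : coneDist apex w = rad w := by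
  have h1 : coneDist apex w ^ 2 = rad w ^ 2 := by
    rw [coneDist_sq]
    unfold sq
    rw [rad_apex]
    ring
  exact (pow_left_inj₀ (coneDist_nonneg _ _) (rad_nonneg _) two_ne_zero).mp h1

theorem eq_of_coneDist {w w' : OCone S} (h : coneDist w w' = 0) : w = w' := by
  have h0 : sq w w' = 0 := by rw [← coneDist_sq, h]; ring
  have h1 := rad_nonneg w
  have h2 := rad_nonneg w'
  have h3 : 0 ≤ rad w * rad w' * (1 - cosAngle w w') :=
    mul_nonneg (mul_nonneg h1 h2) (by linarith [cosAngle_le w w'])
  unfold sq at h0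
  have h4 : (rad w - rad w') ^ 2 = 0 := by nlinarith [sq_nonneg (rad w - rad w')]
  have h5 : rad w = rad w' := sub_eq_zero.mp (pow_eq_zero_iff two_ne_zero |>.mp h4)
  have h6 : rad w * rad w' * (1 - cosAngle w w') = 0 := by nlinarith
  rcases w with _ | z
  · rcases w' with _ | z'
    · rfl
    · have e1 : z'.2.1 = 0 := h5.symm
      have e2 : (0 : ℝ) < z'.2.1 := z'.2.2
      exact absurd e2 (by rw [e1]; exact lt_irrefl (0 : ℝ))
  · rcases w' with _ | z'
    · have e1 : z.2.1 = 0 := h5
      have e2 : (0 : ℝ) < z.2.1 := z.2.2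
      exact absurd e2 (by rw [e1]; exact lt_irrefl (0 : ℝ))
    · have hz : 0 < z.2.1 := z.2.2
      have hz' : 0 < z'.2.1 := z'.2.2
      have h7 : z.2.1 * z'.2.1 * (1 - Real.cos (min (dist z.1 z'.1) Real.pi)) = 0 := h6
      have h8 : Real.cos (min (dist z.1 z'.1) Real.pi) = Real.cos 0 := by
        rw [Real.cos_zero]
        have := (mul_eq_zero.mp h7).resolve_left (by positivity)
        linarith
      have h9 : min (dist z.1 z'.1) Real.pi = 0 :=
        Real.injOn_cos ⟨le_min dist_nonneg Real.pi_pos.le, min_le_right _ _⟩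
          ⟨le_rfl, Real.pi_pos.le⟩ h8
      have h10 : dist z.1 z'.1 = 0 := by
        rcases min_choice (dist z.1 z'.1) Real.pi with h | h
        · rw [h] at h9
          exact h9
        · rw [h] at h9
          exact absurd h9 Real.pi_ne_zero
      congr 1
      exact Prod.ext (dist_eq_zero.mp h10) (Subtype.ext h5)

open Classical in
/-- dilations -/
noncomputable def dl (s : ℝ) (w : OCone S) : OCone S :=
  if h : 0 < s then
    match w with
    | none => none
    | some z => some (z.1, ⟨s * z.2.1, mul_pos h z.2.2⟩)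
  else none

theorem dl_of_not_pos {s : ℝ} (h : ¬ 0 < s) (w : OCone S) : dl s w = apex := dif_neg h

theorem dl_apex {s : ℝ} : dl s (apex : OCone S) = apex := by
  by_cases h : 0 < s
  · unfold dl
    rw [dif_pos h]
    rfl
  · exact dl_of_not_pos h _

theorem dl_pt {s : ℝ} (h : 0 < s) (z : S × Set.Ioi (0 : ℝ)) :
    dl s (pt z) = pt (z.1, ⟨s * z.2.1, mul_pos h z.2.2⟩) := by
  unfold dl
  rw [dif_pos h]
  rfl

theorem rad_dl {s : ℝ} (hs : 0 ≤ s) (w : OCone S) : rad (dl s w) = s * rad w := by
  rcases hs.eq_or_lt with h | h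
  · rw [← h, dl_of_not_pos (lt_irrefl _), rad_apex, zero_mul]
  · rcases eq_apex_or w with rfl | ⟨z, rfl⟩
    · rw [dl_apex, rad_apex, mul_zero]
    · rw [dl_pt h, rad_pt, rad_pt]

theorem cosAngle_dl {s : ℝ} (h : 0 < s) (w w' : OCone S) :
    cosAngle (dl s w) w' = cosAngle w w' := by
  rcases eq_apex_or w with rfl | ⟨z, rfl⟩
  · rw [dl_apex]
  · rw [dl_pt h]
    rcases w' with _ | z'
    · rfl
    · rfl

theorem ip_formula_dl {s : ℝ} (hs : 0 ≤ s) (w w' : OCone S) :
    rad (dl s w) * rad w' * cosAngle (dl s w) w' = s * (rad w * rad w' * cosAngle w w') := by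
  rw [rad_dl hs]
  rcases hs.eq_or_lt with h | h
  · rw [← h]
    ring
  · rw [cosAngle_dl h]
    ring

theorem coneDist_dl {s : ℝ} (hs : 0 ≤ s) (w w' : OCone S) :
    coneDist (dl s w) (dl s w') = s * coneDist w w' := by
  have h1 : coneDist (dl s w) (dl s w') ^ 2 = (s * coneDist w w') ^ 2 := by
    rw [coneDist_sq, mul_pow, coneDist_sq]
    unfold sq
    have e1 := ip_formula_dl hs w (dl s w')
    have e2 := ip_formula_dl hs w' w
    rw [cosAngle_comm w (dl s w')] at e1
    rw [cosAngle_comm w' w] at e2
    have e3 : rad (dl s w) * rad (dl s w') * cosAngle (dl s w) (dl s w') =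
        s ^ 2 * (rad w * rad w' * cosAngle w w') := by
      rw [e1]
      linear_combination s * e2
    rw [rad_dl hs, rad_dl hs] at e3 ⊢
    linear_combination -2 * e3
  exact (pow_left_inj₀ (coneDist_nonneg _ _) (mul_nonneg hs (coneDist_nonneg _ _))
    two_ne_zero).mp h1

theorem dl_dl {s t : ℝ} (hs : 0 < s) (ht : 0 < t) (w : OCone S) :
    dl s (dl t w) = dl (s * t) w := by
  rcases eq_apex_or w with rfl | ⟨z, rfl⟩
  · rw [dl_apex, dl_apex, dl_apex]
  · rw [dl_pt ht, dl_pt hs, dl_pt (mul_pos hs ht)]
    congr 1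
    ext
    · rfl
    · simp only [mul_assoc]

theorem dl_one (w : OCone S) : dl 1 w = w := by
  rcases eq_apex_or w with rfl | ⟨z, rfl⟩
  · exact dl_apex
  · rw [dl_pt one_pos]
    congr 1
    ext
    · rfl
    · simp

end MC

open MC

variable {X : Type} [MetricSpace X]

section

variable {S : Type} [MetricSpace S] {x : X} {r : ℝ} {f : OCone S → X}

theorem coneDist_triangle (hr : 0 < r)
    (hf : ∀ w w', rad w < r → rad w' < r → dist (f w) (f w') = coneDist w w')
    (a b c : OCone S) : coneDist a c ≤ coneDist a b + coneDist b c := by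
  obtain ⟨s, hs, h1⟩ : ∃ s : ℝ, 0 < s ∧ s * (rad a + rad b + rad c + 1) = r / 2 := by
    have := rad_nonneg a
    have := rad_nonneg b
    have := rad_nonneg c
    refine ⟨r / 2 / (rad a + rad b + rad c + 1), by positivity, ?_⟩
    field_simp
  have ha := rad_nonneg a
  have hb := rad_nonneg b
  have hc := rad_nonneg c
  have la : rad (dl s a) < r := by rw [rad_dl hs.le]; nlinarith
  have lb : rad (dl s b) < r := by rw [rad_dl hs.le]; nlinarith
  have lc : rad (dl s c) < r := by rw [rad_dl hs.le]; nlinarith
  have h2 := dist_triangle (f (dl s a)) (f (dl s b)) (f (dl s c))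
  rw [hf _ _ la lc, hf _ _ la lb, hf _ _ lb lc, coneDist_dl hs.le, coneDist_dl hs.le,
    coneDist_dl hs.le, ← mul_add] at h2
  exact le_of_mul_le_mul_left h2 hs

/-- the metric of the cone -/
@[instance_reducible]
noncomputable def mcMetric (hr : 0 < r)
    (hf : ∀ w w', rad w < r → rad w' < r → dist (f w) (f w') = coneDist w w') :
    MetricSpace (MC S) where
  dist w w' := coneDist (S := S) w w'
  dist_self w := coneDist_self w
  dist_comm w w' := coneDist_comm w w'
  dist_triangle a b c := coneDist_triangle hr hf a b c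
  eq_of_dist_eq_zero := fun h => eq_of_coneDist h

theorem exists_chart_of_cone (hX : IsAlexandrov X) (hr : 0 < r) (hfx : f apex = x)
    (hf : ∀ w w', rad w < r → rad w' < r → dist (f w) (f w') = coneDist w w')
    (hsurj : ∀ y, dist x y < r → ∃ w, rad w < r ∧ f w = y) :
    ∃ (C : Type) (_ : MetricSpace C) (_ : ProperSpace C) (K : ConeSp C) (f' : C → X),
      MChart x K r f' := by
  let _ : MetricSpace (MC S) := mcMetric hr hf
  have _ : CompactSpace X := hX.compact
  let apx : MC S := (apex : OCone S)
  let dlM : ℝ → MC S → MC S := fun s w => (dl s (show OCone S from w) : OCone S)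
  let R : MC S → ℝ := fun w => rad (show OCone S from w)
  have hdist : ∀ w w' : MC S, dist w w' = coneDist (S := S) w w' := fun _ _ => rfl
  have hR0 : ∀ w : MC S, 0 ≤ R w := fun w => rad_nonneg (L := S) w
  have hRd : ∀ (s : ℝ), 0 ≤ s → ∀ w, R (dlM s w) = s * R w := fun s hs w => rad_dl (S := S) hs w
  have hapx : ∀ w : MC S, dist apx w = R w := fun w => rad_apex_dist (S := S) w
  have hf' : ∀ w w' : MC S, R w < r → R w' < r → dist (f w) (f w') = dist w w' :=
    fun w w' h h' => hf w w' h h'
  have hdd : ∀ s : ℝ, 0 ≤ s → ∀ w w' : MC S, dist (dlM s w) (dlM s w') = s * dist w w' :=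
    fun s hs w w' => coneDist_dl (S := S) hs w w'
  have hxf : ∀ w : MC S, R w < r → dist x (f w) = R w := by
    intro w hw
    rw [← hfx, hf' apx w (by rw [show R apx = 0 from rad_apex]; exact hr) hw, hapx]
  have hip : ∀ w w' : MC S, ip apx w w' =
      R w * R w' * cosAngle (S := S) w w' := by
    intro w w'
    have e3 : dist w w' ^ 2 = MC.sq (S := S) w w' := coneDist_sq (S := S) w w'
    unfold ip
    rw [hapx, hapx, e3]
    unfold MC.sq
    simp only [R]
    ring
  obtain ⟨K0, hK0, hmid⟩ := exists_cosh_mid hX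
  let K : ConeSp (MC S) :=
    { o := apx
      dil := dlM
      ip_dil := by
        intro s hs y z
        rw [hip, hip]
        exact ip_formula_dl (S := S) hs y z
      mid := by
        intro y z
        have hy := hR0 y
        have hz := hR0 z
        obtain ⟨s, hs, h1⟩ : ∃ s : ℝ, 0 < s ∧ s * (R y + R z + 1) = r / 4 :=
          ⟨r / 4 / (R y + R z + 1), by positivity, by field_simp⟩
        have ly : R (dlM s y) < r := by rw [hRd s hs.le]; nlinarith
        have lz : R (dlM s z) < r := by rw [hRd s hs.le]; nlinarith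
        obtain ⟨m, hm1, hm2⟩ := hX.midpoint (f (dlM s y)) (f (dlM s z))
        have hxm : dist x m < r := by
          have e1 := dist_triangle x (f (dlM s y)) m
          have e2 := dist_triangle (f (dlM s y)) x (f (dlM s z))
          rw [dist_comm (f (dlM s y)) x] at e2
          rw [hxf _ ly, hRd s hs.le] at e1 e2
          rw [hxf _ lz, hRd s hs.le] at e2
          rw [hm1] at e1
          nlinarith
        obtain ⟨w, hw, hwm⟩ := hsurj m hxm
        have hw' : R w < r := hw
        have hdl : dlM s (dlM s⁻¹ w) = w := by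
          change dl s (dl s⁻¹ w) = w
          rw [dl_dl hs (by positivity), mul_inv_cancel₀ hs.ne', dl_one]
        refine ⟨dlM s⁻¹ w, ?_, ?_⟩
        · have e1 := hdd s hs.le y (dlM s⁻¹ w)
          rw [hdl, ← hf' _ _ ly hw', hwm, hm1, hf' _ _ ly lz, hdd s hs.le] at e1
          apply mul_left_cancel₀ hs.ne'
          rw [← e1]
          ring
        · have e1 := hdd s hs.le (dlM s⁻¹ w) z
          rw [hdl, ← hf' _ _ hw' lz, hwm, hm2, hf' _ _ ly lz, hdd s hs.le] at e1
          apply mul_left_cancel₀ hs.ne'
          rw [← e1]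
          ring
      conc := by
        intro p y z u h1 h2
        have hp := hR0 p
        have hy := hR0 y
        have hz := hR0 z
        have hu := hR0 u
        obtain ⟨s0, hs0, hs1⟩ : ∃ s : ℝ, 0 < s ∧ s * (R p + R y + R z + R u + 1) = r :=
          ⟨r / (R p + R y + R z + R u + 1), by positivity, by field_simp⟩
        have key := sq_le_of_cosh (K := K0) (A := dist p y) (B := dist p z) (P := dist p u)
          (h := dist y z / 2) (s0 := s0) hK0 hs0 (by
            intro s hs hlt
            have lp : R (dlM s p) < r := by rw [hRd s hs.le]; nlinarith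
            have ly : R (dlM s y) < r := by rw [hRd s hs.le]; nlinarith
            have lz : R (dlM s z) < r := by rw [hRd s hs.le]; nlinarith
            have lu : R (dlM s u) < r := by rw [hRd s hs.le]; nlinarith
            have e1 := hmid (f (dlM s p)) (f (dlM s y)) (f (dlM s z)) (f (dlM s u))
              (by rw [hf' _ _ ly lu, hf' _ _ ly lz, hdd s hs.le, hdd s hs.le, h1]; ring)
              (by rw [hf' _ _ lu lz, hf' _ _ ly lz, hdd s hs.le, hdd s hs.le, h2]; ring)
            rw [hf' _ _ lp ly, hf' _ _ lp lz, hf' _ _ lp lu, hf' _ _ ly lz, hdd s hs.le,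
              hdd s hs.le, hdd s hs.le, hdd s hs.le] at e1
            have e2 : s * dist y z / 2 = s * (dist y z / 2) := by ring
            rw [e2] at e1
            exact e1)
        linarith [key, show (dist y z / 2) ^ 2 = dist y z ^ 2 / 4 by ring] }
  have hball : IsCompact (closedBall apx (r / 2)) := by
    have hA : IsCompact (closedBall x (r / 2)) := isClosed_closedBall.isCompact
    have _ : CompactSpace (closedBall x (r / 2)) := isCompact_iff_compactSpace.mp hA
    have hex : ∀ y : closedBall x (r / 2), ∃ w : MC S, R w < r ∧ f w = y.1 := fun y =>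
      hsurj y.1 (by
        have h1 : dist y.1 x ≤ r / 2 := y.2
        rw [dist_comm]
        linarith)
    choose g hg1 hg2 using hex
    have hiso : Isometry g := by
      apply Isometry.of_dist_eq
      intro y y'
      rw [← hf' _ _ (hg1 y) (hg1 y'), hg2, hg2]
      rfl
    have hrange : Set.range g = closedBall apx (r / 2) := by
      ext w
      rw [mem_closedBall, dist_comm, hapx]
      constructor
      · rintro ⟨y, rfl⟩
        rw [← hxf _ (hg1 y), hg2, dist_comm]
        exact y.2
      · intro hw
        have hw' : R w < r := by linarith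
        have hmem : f w ∈ closedBall x (r / 2) := by
          rw [mem_closedBall, dist_comm, hxf w hw']
          exact hw
        refine ⟨⟨f w, hmem⟩, ?_⟩
        apply dist_eq_zero.mp
        rw [← hf' _ _ (hg1 _) hw', hg2, dist_self]
    rw [← hrange]
    exact isCompact_range hiso.continuous
  have hballR : ∀ ρ : ℝ, 0 < ρ → IsCompact (closedBall apx ρ) := by
    intro ρ hρ
    have ht : 0 < 2 * ρ / r := by positivity
    have hcont : Continuous (dlM (2 * ρ / r)) := by
      apply (LipschitzWith.of_dist_le_mul (K := Real.toNNReal (2 * ρ / r)) ?_).continuous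
      intro w w'
      rw [hdd _ ht.le, Real.coe_toNNReal _ ht.le]
    have himg := hball.image hcont
    convert himg using 1
    ext w
    rw [mem_closedBall, dist_comm, hapx]
    constructor
    · intro hw
      refine ⟨dlM (2 * ρ / r)⁻¹ w, ?_, ?_⟩
      · rw [mem_closedBall, dist_comm, hapx, hRd _ (by positivity)]
        calc (2 * ρ / r)⁻¹ * R w ≤ (2 * ρ / r)⁻¹ * ρ := by gcongr
          _ = r / 2 := by field_simp
      · change dl (2 * ρ / r) (dl (2 * ρ / r)⁻¹ w) = w
        rw [dl_dl ht (by positivity), mul_inv_cancel₀ ht.ne', dl_one]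
    · rintro ⟨w', hw', rfl⟩
      rw [mem_closedBall, dist_comm, hapx] at hw'
      rw [hRd _ ht.le]
      calc (2 * ρ / r) * R w' ≤ (2 * ρ / r) * (r / 2) := by gcongr
        _ = ρ := by field_simp
  have hproper : ProperSpace (MC S) := by
    apply ProperSpace.of_isCompact_closedBall_of_le 1
    intro w ρ hρ
    apply (hballR (ρ + dist w apx) (by linarith [dist_nonneg (x := w) (y := apx)])).of_isClosed_subset
      isClosed_closedBall
    intro w' hw'
    rw [mem_closedBall] at hw' ⊢
    linarith [dist_triangle w' w apx]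
  refine ⟨MC S, _, hproper, K, f, hr, hfx, ?_, ?_⟩
  · intro p q hp hq
    exact hf' p q (by rw [← hapx]; exact hp) (by rw [← hapx]; exact hq)
  · intro y hy
    obtain ⟨w, hw, hwy⟩ := hsurj y hy
    exact ⟨w, by rw [show dist K.o w = R w from hapx w]; exact hw, hwy⟩

end

theorem HasConicalNhd.exists_chart (hX : IsAlexandrov X) {x : X} (h : HasConicalNhd x) :
    ∃ (C : Type) (_ : MetricSpace C) (_ : ProperSpace C) (K : ConeSp C) (r : ℝ) (f : C → X),
      MChart x K r f := by
  obtain ⟨S, mS, r, f, hr, hfx, hf, hsurj⟩ := h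
  obtain ⟨C, mC, pC, K, f', hf'⟩ := exists_chart_of_cone hX hr hfx hf hsurj
  exact ⟨C, mC, pC, K, r, f', hf'⟩

end Run7.h642
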