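import Pool.Agent.Run7.h642.Cut

/-!
# Constant sheaves and local vanishing
-/

open CategoryTheory TopologicalSpace Opposite TopCat Limits Abelian

namespace Run7.h642

variable {k : Type} [Field k] {X : TopCat.{0}}

variable (k X) in
/-- locally constant functions -/
def cstSub (r : ℕ) : LocSub (X := X) k (fun _ => (Fin r → k)) where
  S W :=
    { carrier := {s | ∀ (y : X) (hy : y ∈ W), ∃ (V : Opens X) (hV : V ≤ W), y ∈ V ∧
        ∀ (z : X) (hz : z ∈ V), s ⟨z, hV hz⟩ = s ⟨y, hy⟩}
      add_mem' := by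
        rintro a b ha hb y hy
        obtain ⟨V, hV, hyV, h1⟩ := ha y hy
        obtain ⟨V', hV', hyV', h2⟩ := hb y hy
        refine ⟨V ⊓ V', inf_le_left.trans hV, ⟨hyV, hyV'⟩, fun z hz => ?_⟩
        have e1 := h1 z hz.1
        have e2 := h2 z hz.2
        simp only [Pi.add_apply]
        rw [e1, e2]
      zero_mem' := by
        intro y hy
        exact ⟨W, le_refl _, hy, fun z hz => rfl⟩
      smul_mem' := by
        rintro c a ha y hy
        obtain ⟨V, hV, hyV, h1⟩ := ha y hy
        refine ⟨V, hV, hyV, fun z hz => ?_⟩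
        have e1 := h1 z hz
        simp only [Pi.smul_apply]
        rw [e1] }
  restr := by
    intro W W' h f hf y hy
    obtain ⟨V, hV, hyV, h1⟩ := hf y (h hy)
    exact ⟨V ⊓ W, inf_le_right, ⟨hyV, hy⟩, fun z hz => h1 z hz.1⟩
  loc := by
    intro W f hf y hy
    obtain ⟨W', hW', hyW', h1⟩ := hf y hy
    obtain ⟨V, hV, hyV, h2⟩ := h1 y hyW'
    exact ⟨V, hV.trans hW', hyV, fun z hz => h2 z hz⟩

theorem cstSub_disc (r : ℕ) : (cstSub k X r).Disc := by
  intro W s hs y hy h0
  obtain ⟨V, hV, hyV, h1⟩ := hs y hy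
  exact ⟨V, hV, hyV, fun z hz => (h1 z hz).trans h0⟩

variable (k X) in
/-- the constant sheaf of rank `r` -/
def cst (r : ℕ) : Sh k X := (cstSub k X r).sheaf

/-- the coordinates of a germ of the constant sheaf -/
noncomputable def cstEv (r : ℕ) (y : X) : (cst k X r).presheaf.stalk y →ₗ[k] (Fin r → k) :=
  (cstSub k X r).ev y

theorem cstEv_injective (r : ℕ) (y : X) :
    Function.Injective (cstEv (k := k) (X := X) r y) :=
  (cstSub k X r).ev_injective (cstSub_disc r) y

/-- constant sections -/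
def cstSec (r : ℕ) (c : Fin r → k) : (cst k X r).1.obj (op ⊤) :=
  (⟨fun _ => c, fun y _ => ⟨⊤, le_refl _, trivial, fun _ _ => rfl⟩⟩ : (cstSub k X r).S ⊤)

theorem cstEv_sec (r : ℕ) (c : Fin r → k) (y : X) :
    cstEv r y (grm (cst k X r) y (show y ∈ (⊤ : Opens X) from trivial) (cstSec r c)) = c :=
  (cstSub k X r).ev_grm y ⊤ trivial _

theorem cstEv_surjective (r : ℕ) (y : X) :
    Function.Surjective (cstEv (k := k) (X := X) r y) :=
  fun c => ⟨_, cstEv_sec r c y⟩

/-- coordinates on the cut-off constant sheaf -/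
noncomputable def co (r : ℕ) (U : Opens X) (y : X) :
    (cut (cst k X r) U).presheaf.stalk y →ₗ[k] (Fin r → k) :=
  (cstEv r y).comp (stk (cutι (cst k X r) U) y)

theorem co_apply (r : ℕ) (U : Opens X) (y : X) (x : (cut (cst k X r) U).presheaf.stalk y) :
    co r U y x = cstEv r y (stk (cutι (cst k X r) U) y x) := rfl

theorem co_injective (r : ℕ) (U : Opens X) (y : X) :
    Function.Injective (co (k := k) r U y) :=
  (cstEv_injective r y).comp (stk_cutι_injective _ _ _)

theorem co_cutMap (r : ℕ) {U V : Opens X} (h : U ≤ V) (y : X)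
    (x : (cut (cst k X r) U).presheaf.stalk y) :
    co r V y (stk (cutMap (cst k X r) h) y x) = co r U y x := by
  rw [co_apply, co_apply, ← stk_comp, cutMap_ι]

/-- the germs of a section of the cut-off constant sheaf have locally constant coordinates -/
theorem co_locally_const (r : ℕ) (U : Opens X) {W : Opens X} (s : (cut (cst k X r) U).1.obj (op W))
    (y : X) (hy : y ∈ W) : ∃ (V : Opens X) (hV : V ≤ W), y ∈ V ∧ ∀ (z : X) (hz : z ∈ V),
      co r U z (grm (cut (cst k X r) U) z (hV hz) s) =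
        co r U y (grm (cut (cst k X r) U) y hy s) := by
  let s' := sec (cutι (cst k X r) U) W s
  obtain ⟨V, hV, hyV, h1⟩ := (show (cstSub k X r).S W from s').2 y hy
  refine ⟨V, hV, hyV, fun z hz => ?_⟩
  have e1 : ∀ (w : X) (hw : w ∈ W), co r U w (grm (cut (cst k X r) U) w hw s) =
      (show (cstSub k X r).S W from s').1 ⟨w, hw⟩ := by
    intro w hw
    rw [co_apply, stk_grm]
    exact (cstSub k X r).ev_grm w W hw s'
  rw [e1, e1, h1 z hz]

theorem exists_cutB (r : ℕ) (U : Opens X) (c : Fin r → k) :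
    ∃ s : (cut (cst k X r) U).1.obj (op U), ∀ (y : X) (hy : y ∈ U),
      co r U y (grm (cut (cst k X r) U) y hy s) = c := by
  let s : (cutSub (cst k X r) U).S U :=
    ⟨fun z => grm (cst k X r) z.1 (show z.1 ∈ (⊤ : Opens X) from trivial) (cstSec r c), by
      refine ⟨fun z hz => ⟨U, le_refl _, hz, res (cst k X r) le_top (cstSec r c),
        fun w hw => (grm_res (cst k X r) le_top w hw _).symm⟩, fun z hz hzU => absurd hz hzU⟩⟩
  refine ⟨s, fun y hy => ?_⟩
  rw [co_apply, stk_cutι]
  have := (cutSub (cst k X r) U).ev_grm y U hy s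
  exact (congrArg (cstEv r y) this).trans (cstEv_sec r c y)

/-- basis sections of the cut-off constant sheaf -/
noncomputable def cutB (r : ℕ) (U : Opens X) (i : Fin r) : (cut (cst k X r) U).1.obj (op U) :=
  (exists_cutB r U (Pi.single i 1)).choose

theorem co_cutB (r : ℕ) (U : Opens X) (i : Fin r) (y : X) (hy : y ∈ U) :
    co (k := k) r U y (grm (cut (cst k X r) U) y hy (cutB r U i)) = Pi.single i 1 :=
  (exists_cutB r U (Pi.single i 1)).choose_spec y hy

theorem eq_sum_cutB (r : ℕ) (U : Opens X) (y : X) (hy : y ∈ U)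
    (x : (cut (cst k X r) U).presheaf.stalk y) :
    x = ∑ i, co r U y x i • grm (cut (cst k X r) U) y hy (cutB r U i) := by
  apply co_injective r U y
  rw [map_sum]
  simp only [map_smul, co_cutB]
  funext j
  simp [Finset.sum_apply, Pi.single_apply]

theorem grm_cutB_cutMap (r : ℕ) {U V : Opens X} (h : U ≤ V) (y : X) (hy : y ∈ U) (i : Fin r) :
    stk (cutMap (cst k X r) h) y (grm (cut (cst k X r) U) y hy (cutB r U i)) =
      grm (cut (cst k X r) V) y (h hy) (cutB r V i) := by
  apply co_injective r V y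
  rw [co_cutMap, co_cutB, co_cutB]

theorem exists_fromSec {N : Sh k X} {r : ℕ} {U : Opens X} (n : Fin r → N.1.obj (op U)) :
    ∃ f : cut (cst k X r) U ⟶ N, ∀ (y : X) (hy : y ∈ U)
      (x : (cut (cst k X r) U).presheaf.stalk y),
      stk f y x = ∑ i, co r U y x i • grm N y hy (n i) := by
  classical
  obtain ⟨f, hf⟩ := exists_homMk (F := cut (cst k X r) U) (G := N)
    (fun y => if hy : y ∈ U then
      ∑ i, (LinearMap.proj i ∘ₗ co r U y).smulRight (grm N y hy (n i)) else 0) (by
        intro W s y hy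
        by_cases hyU : y ∈ U
        · obtain ⟨V, hV, hyV, h1⟩ := co_locally_const r U s y hy
          refine ⟨V ⊓ U, inf_le_left.trans hV, ⟨hyV, hyU⟩,
            ∑ i, co r U y (grm (cut (cst k X r) U) y hy s) i • res N inf_le_right (n i),
            fun z hz => ?_⟩
          rw [dif_pos (show z ∈ U from hz.2)]
          rw [map_sum]
          simp only [LinearMap.sum_apply, LinearMap.smulRight_apply, LinearMap.comp_apply,
            LinearMap.proj_apply, map_smul]
          refine Finset.sum_congr rfl fun i _ => ?_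
          rw [h1 z hz.1, grm_res]
        · have h0 : grm (cut (cst k X r) U) y hy s = grm (cut (cst k X r) U) y hy 0 := by
            rw [map_zero]; exact cut_stalk_eq_zero _ U y hyU _
          obtain ⟨V, h1, h2, hyV, h3⟩ := exists_res_eq_of_grm _ y hy hy _ _ h0
          refine ⟨V, h1, hyV, 0, fun z hz => ?_⟩
          rw [← grm_res _ h1 z hz s, h3, map_zero, map_zero, map_zero, map_zero])
  refine ⟨f, fun y hy x => ?_⟩
  rw [hf y x, dif_pos hy]
  simp only [LinearMap.sum_apply, LinearMap.smulRight_apply, LinearMap.comp_apply,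
    LinearMap.proj_apply]

/-- the map from the cut-off constant sheaf given by sections -/
noncomputable def fromSec {N : Sh k X} {r : ℕ} {U : Opens X} (n : Fin r → N.1.obj (op U)) :
    cut (cst k X r) U ⟶ N := (exists_fromSec n).choose

theorem stk_fromSec {N : Sh k X} {r : ℕ} {U : Opens X} (n : Fin r → N.1.obj (op U)) (y : X)
    (hy : y ∈ U) (x : (cut (cst k X r) U).presheaf.stalk y) :
    stk (fromSec n) y x = ∑ i, co r U y x i • grm N y hy (n i) :=
  (exists_fromSec n).choose_spec y hy x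

/-- the sections given by a map from the cut-off constant sheaf -/
noncomputable def toSec {N : Sh k X} {r : ℕ} {U : Opens X} (f : cut (cst k X r) U ⟶ N)
    (i : Fin r) : N.1.obj (op U) := sec f U (cutB r U i)

theorem toSec_fromSec {N : Sh k X} {r : ℕ} {U : Opens X} (n : Fin r → N.1.obj (op U)) (i : Fin r) :
    toSec (fromSec n) i = n i := by
  apply ext_grm
  intro y hy
  unfold toSec
  rw [← stk_grm, stk_fromSec n y hy, co_cutB]
  simp [Pi.single_apply]

theorem stk_eq_sum {N : Sh k X} {r : ℕ} {U : Opens X} (f : cut (cst k X r) U ⟶ N) (y : X)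
    (hy : y ∈ U) (x : (cut (cst k X r) U).presheaf.stalk y) :
    stk f y x = ∑ i, co r U y x i • grm N y hy (toSec f i) := by
  conv_lhs => rw [eq_sum_cutB r U y hy x, map_sum]
  refine Finset.sum_congr rfl fun i _ => ?_
  rw [map_smul, stk_grm]
  rfl

theorem hom_ext_toSec {N : Sh k X} {r : ℕ} {U : Opens X} (f g : cut (cst k X r) U ⟶ N)
    (h : ∀ i, toSec f i = toSec g i) : f = g := by
  apply hom_ext_stk
  intro y x
  by_cases hy : y ∈ U
  · rw [stk_eq_sum f y hy, stk_eq_sum g y hy]
    simp only [h]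
  · rw [cut_stalk_eq_zero _ U y hy x, map_zero, map_zero]

theorem fromSec_toSec {N : Sh k X} {r : ℕ} {U : Opens X} (f : cut (cst k X r) U ⟶ N) :
    fromSec (toSec f) = f := hom_ext_toSec _ _ fun i => toSec_fromSec _ i

theorem toSec_cutMap {N : Sh k X} {r : ℕ} {U V : Opens X} (h : U ≤ V)
    (f : cut (cst k X r) V ⟶ N) (i : Fin r) :
    toSec (cutMap (cst k X r) h ≫ f) i = res N h (toSec f i) := by
  apply ext_grm
  intro y hy
  rw [grm_res]
  unfold toSec
  rw [← stk_grm, ← stk_grm, stk_comp, grm_cutB_cutMap]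

theorem toSec_comp {N N' : Sh k X} {r : ℕ} {U : Opens X}
    (f : cut (cst k X r) U ⟶ N) (g : N ⟶ N') (i : Fin r) :
    toSec (f ≫ g) i = sec g U (toSec f i) := rfl

theorem cutMap_fromSec {N : Sh k X} {r : ℕ} {U V : Opens X} (h : U ≤ V)
    (n : Fin r → N.1.obj (op V)) :
    cutMap (cst k X r) h ≫ fromSec n = fromSec (fun i => res N h (n i)) := by
  apply hom_ext_toSec
  intro i
  rw [toSec_cutMap, toSec_fromSec, toSec_fromSec]

/-- restriction of Ext classes -/
noncomputable def rs {G N : Sh k X} {U V : Opens X} (h : U ≤ V) {n : ℕ}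
    (a : Ext.{0} (cut G V) N n) : Ext.{0} (cut G U) N n :=
  (Ext.mk₀ (cutMap G h)).comp a (zero_add n)

theorem rs_rs {G N : Sh k X} {U V W : Opens X} (h : U ≤ V) (h' : V ≤ W) {n : ℕ}
    (a : Ext.{0} (cut G W) N n) : rs h (rs h' a) = rs (h.trans h') a := by
  unfold rs
  rw [← Ext.comp_assoc_of_second_deg_zero, Ext.mk₀_comp_mk₀, cutMap_comp]

theorem rs_self {G N : Sh k X} {U : Opens X} {n : ℕ}
    (a : Ext.{0} (cut G U) N n) : rs (le_refl U) a = a := by
  unfold rs
  rw [cutMap_self, Ext.mk₀_id_comp]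

theorem rs_add {G N : Sh k X} {U V : Opens X} (h : U ≤ V) {n : ℕ}
    (a b : Ext.{0} (cut G V) N n) : rs h (a + b) = rs h a + rs h b := by
  unfold rs
  rw [Ext.comp_add]

theorem rs_sub {G N : Sh k X} {U V : Opens X} (h : U ≤ V) {n : ℕ}
    (a b : Ext.{0} (cut G V) N n) : rs h (a - b) = rs h a - rs h b := by
  unfold rs
  rw [sub_eq_add_neg, Ext.comp_add, Ext.comp_neg, sub_eq_add_neg]

theorem rs_zero {G N : Sh k X} {U V : Opens X} (h : U ≤ V) {n : ℕ} :
    rs h (0 : Ext.{0} (cut G V) N n) = 0 := by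
  unfold rs
  rw [Ext.comp_zero]

theorem rs_comp {G N N' : Sh k X} {U V : Opens X} (h : U ≤ V) {n m p : ℕ}
    (a : Ext.{0} (cut G V) N n) (b : Ext.{0} N N' m) (hp : n + m = p) :
    rs h (a.comp b hp) = (rs h a).comp b hp := by
  unfold rs
  rw [Ext.comp_assoc (a₁₂ := n) (a₂₃ := p) _ _ _ (by lia) (by lia) (by lia)]

/-- local vanishing of cohomology classes -/
theorem local_vanishing {r : ℕ} {x : X} : ∀ (n : ℕ) {N : Sh k X} {U : Opens X} (_ : x ∈ U)
    (a : Ext.{0} (cut (cst k X r) U) N (n + 1)),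
    ∃ (V : Opens X) (hV : V ≤ U), x ∈ V ∧ rs hV a = 0 := by
  intro n
  induction n with
  | zero =>
    intro N U hx a
    let I := Injective.under N
    have hS := shortExact_coker (Injective.ι N)
    obtain ⟨b, hb⟩ := Ext.covariant_sequence_exact₁ (cut (cst k X r) U) hS a
      (Ext.eq_zero_of_injective _) (zero_add 1)
    obtain ⟨b, rfl⟩ := (Ext.mk₀_bijective _ _).2 b
    have e1 : Epi (cokernel.π (Injective.ι N)) := inferInstance
    have h1 : ∀ i, ∃ (V : Opens X) (hV : V ≤ U), x ∈ V ∧ ∃ t : (Injective.under N).1.obj (op V),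
        sec (cokernel.π (Injective.ι N)) V t = res _ hV (toSec b i) := fun i =>
      exists_local_lift (cokernel.π (Injective.ι N)) (toSec b i) hx
    choose V hV hxV t ht using h1
    have hfin : ∃ (W : Opens X), x ∈ W ∧ ∀ i, W ≤ V i ⊓ U := by
      refine ⟨⟨(⋂ i, (V i : Set X)) ∩ U, ?_⟩, ?_, ?_⟩
      · exact (isOpen_iInter_of_finite fun i => (V i).2).inter U.2
      · exact ⟨Set.mem_iInter.mpr hxV, hx⟩
      · intro i z hz
        exact ⟨Set.mem_iInter.mp hz.1 i, hz.2⟩
    obtain ⟨W0, hxW0, hW0⟩ := hfin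
    have hWV : ∀ i, W0 ⊓ U ≤ V i := fun i => inf_le_left.trans ((hW0 i).trans inf_le_left)
    refine ⟨W0 ⊓ U, inf_le_right, ⟨hxW0, hx⟩, ?_⟩
    rw [← hb]
    unfold rs
    rw [← Ext.comp_assoc_of_second_deg_zero, Ext.mk₀_comp_mk₀]
    have e2 : cutMap (cst k X r) (inf_le_right : W0 ⊓ U ≤ U) ≫ b =
        fromSec (fun i => res _ (hWV i) (t i)) ≫ cokernel.π (Injective.ι N) := by
      apply hom_ext_toSec
      intro i
      rw [toSec_cutMap, toSec_comp, toSec_fromSec, sec_res, ht, res_res]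
    rw [e2, ← Ext.mk₀_comp_mk₀, Ext.comp_assoc_of_second_deg_zero, hS.comp_extClass, Ext.comp_zero]
  | succ n ih =>
    intro N U hx a
    have hS := shortExact_coker (Injective.ι N)
    obtain ⟨b, hb⟩ := Ext.covariant_sequence_exact₁ (cut (cst k X r) U) hS a
      (Ext.eq_zero_of_injective _) rfl
    obtain ⟨V, hV, hxV, h⟩ := ih hx b
    refine ⟨V, hV, hxV, ?_⟩
    rw [← hb, rs_comp, h, Ext.zero_comp]

end Run7.h642
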