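import Pool.Agent.Run7.h642.Local2

/-!
# Restriction to subspaces and local systems
-/

open CategoryTheory TopologicalSpace Opposite TopCat Limits Abelian

namespace Run7.h642

variable {k : Type} [Field k] {X Y : TopCat.{0}} {ι : Type}

variable (k) in
/-- the explicit pullback is left adjoint to the direct image -/
noncomputable def pbAdj (f : Y ⟶ X) :
    pbF k f ⊣ TopCat.Sheaf.pushforward (ModuleCat.{0} k) f :=
  Adjunction.mkOfHomEquiv
    { homEquiv := fun G F =>
        { toFun := fun a => flat f a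
          invFun := fun b => sharp f b
          left_inv := fun a => sharp_flat f a
          right_inv := fun b => flat_sharp f b }
      homEquiv_naturality_left_symm := by
        intro G' G F c b
        change sharp f (c ≫ b) = pbMap f c ≫ sharp f b
        apply flat_injective
        rw [flat_sharp, flat_pbMap, flat_sharp]
      homEquiv_naturality_right := by
        intro G F F' a c
        change flat f (a ≫ c) = flat f a ≫ puMap f c
        exact flat_comp f a c }

/-- the pullback of Mathlib agrees with the explicit one -/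
theorem exists_pbIso (f : Y ⟶ X) (G : Sh k X) :
    Nonempty ((TopCat.Sheaf.pullback (ModuleCat.{0} k) f).obj G ≅ pb f G) :=
  ⟨((TopCat.Sheaf.pullbackPushforwardAdjunction (ModuleCat.{0} k) f).leftAdjointUniq
    (pbAdj k f)).app G⟩

/-- local systems of rank at most `N` -/
def LocSys (N : ℕ) (F : Sh k X) : Prop :=
  ∀ x : X, ∃ (r : ℕ) (_ : r ≤ N) (U : Opens X) (_ : x ∈ U) (s : Fin r → F.1.obj (op U)),
    ∀ (y : X) (hy : y ∈ U), IsBas F s y hy

theorem IsBas.of_hom {F G : Sh k X} (f : F ⟶ G) {r : ℕ} {U : Opens X}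
    {s : Fin r → F.1.obj (op U)} {y : X} {hy : y ∈ U} (hf : Function.Bijective (stk f y))
    (h : IsBas F s y hy) : IsBas G (fun i => sec f U (s i)) y hy := by
  unfold IsBas at h ⊢
  have h1 : (fun c : Fin r → k => ∑ i, c i • grm G y hy (sec f U (s i))) =
      stk f y ∘ (fun c : Fin r → k => ∑ i, c i • grm F y hy (s i)) := by
    funext c
    simp only [Function.comp, map_sum, map_smul, stk_grm]
  rw [h1]
  exact hf.comp h

theorem LocSys.of_iso {N : ℕ} {F G : Sh k X} (e : F ≅ G) (h : LocSys N F) : LocSys N G := by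
  intro x
  obtain ⟨r, hr, U, hx, s, hs⟩ := h x
  exact ⟨r, hr, U, hx, fun i => sec e.hom U (s i), fun y hy =>
    (hs y hy).of_hom e.hom (stk_bijective_of_isIso e.hom y)⟩

theorem Cons.of_iso {σ : X → ι} {N : ℕ} {F G : Sh k X} (e : F ≅ G) (h : Cons σ N F) :
    Cons σ N G := by
  intro x
  obtain ⟨r, hr, U, hx, s, hs⟩ := h x
  exact ⟨r, hr, U, hx, fun i => sec e.hom U (s i), fun y hy hσ =>
    (hs y hy hσ).of_hom e.hom (stk_bijective_of_isIso e.hom y)⟩

theorem cons_of_isZero (σ : X → ι) (N : ℕ) {F : Sh k X} (h : IsZero F) : Cons σ N F := by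
  intro x
  refine ⟨0, Nat.zero_le _, ⊤, trivial, Fin.elim0, fun y hy _ => ?_⟩
  have h1 : ∀ a : F.presheaf.stalk y, a = 0 := by
    intro a
    have h2 : 𝟙 F = 0 := h.eq_of_src _ _
    rw [← stk_id (F := F) y a, h2, stk_zero]
  unfold IsBas
  constructor
  · intro a b _
    exact Subsingleton.elim a b
  · intro a
    exact ⟨0, by simp [h1 a]⟩

/-- the inclusion of a subset -/
def incl (S : Set X) : TopCat.of S ⟶ X := TopCat.ofHom ⟨Subtype.val, continuous_subtype_val⟩

theorem cons_of_locSys {σ : X → ι} {N : ℕ} {G : Sh k X}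
    (h : ∀ x : X, ∃ S : Set X, (∀ y, σ y = σ x → y ∈ S) ∧ LocSys N (pb (incl S) G)) :
    Cons σ N G := by
  intro x
  obtain ⟨S, hS, hloc⟩ := h x
  have hxS : x ∈ S := hS x rfl
  obtain ⟨r, hr, U, hxU, s, hs⟩ := hloc (⟨x, hxS⟩ : S)
  have h1 := fun i : Fin r => pb_sec_loc (incl S) G (s i) (⟨x, hxS⟩ : S) hxU
  choose V hV hxV O hO t ht using h1
  have h2 : ∀ i : Fin r, ∃ W : Set X, IsOpen W ∧ Subtype.val ⁻¹' W = (V i : Set S) := fun i =>
    isOpen_induced_iff.mp (V i).2
  choose W hW hWV using h2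
  have hxW : ∀ i, x ∈ W i := fun i => by
    have : (⟨x, hxS⟩ : S) ∈ Subtype.val ⁻¹' W i := by rw [hWV i]; exact hxV i
    exact this
  obtain ⟨U', hU', hUU'⟩ := isOpen_induced_iff.mp U.2
  have hxU' : x ∈ U' := by
    have : (⟨x, hxS⟩ : S) ∈ Subtype.val ⁻¹' U' := by rw [hUU']; exact hxU
    exact this
  let Ω : Opens X := ⟨(⋂ i, (W i ∩ (O i : Set X))) ∩ U',
    (isOpen_iInter_of_finite fun i => (hW i).inter (O i).2).inter hU'⟩
  have hΩO : ∀ i, Ω ≤ O i := fun i z hz => (Set.mem_iInter.mp hz.1 i).2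
  have hΩW : ∀ i, ∀ z ∈ Ω, z ∈ W i := fun i z hz => (Set.mem_iInter.mp hz.1 i).1
  refine ⟨r, hr, Ω, ⟨Set.mem_iInter.mpr fun i => ⟨hxW i, hO i _ (hxV i)⟩, hxU'⟩,
    fun i => res G (hΩO i) (t i), fun y hy hσ => ?_⟩
  have hyS : y ∈ S := hS y hσ
  have hyU : (⟨y, hyS⟩ : S) ∈ U := by
    have : (⟨y, hyS⟩ : S) ∈ Subtype.val ⁻¹' U' := hy.2
    rw [hUU'] at this
    exact this
  have hyV : ∀ i, (⟨y, hyS⟩ : S) ∈ V i := fun i => by
    have : (⟨y, hyS⟩ : S) ∈ Subtype.val ⁻¹' W i := hΩW i y hy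
    rw [hWV i] at this
    exact this
  have h3 := hs (⟨y, hyS⟩ : S) hyU
  unfold IsBas at h3 ⊢
  have h4 : (fun c : Fin r → k => ∑ i, c i • grm G y hy (res G (hΩO i) (t i))) =
      pe (incl S) G (⟨y, hyS⟩ : S) ∘ (fun c : Fin r → k => ∑ i, c i •
        grm (pb (incl S) G) (⟨y, hyS⟩ : S) hyU (s i)) := by
    funext c
    simp only [Function.comp, map_sum, map_smul]
    refine Finset.sum_congr rfl fun i _ => ?_
    congr 1
    rw [grm_res]
    exact (ht i (⟨y, hyS⟩ : S) (hyV i)).symm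
  rw [h4]
  exact (show Function.Bijective (pe (incl S) G (⟨y, hyS⟩ : S)) from
    ⟨pe_injective _ _ _, pe_surjective _ _ _⟩).comp h3

end Run7.h642
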