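import Mathlib

/-!
# Mayer-Vietoris squares in abelian categories
-/

open CategoryTheory Limits Abelian

namespace Run7.h642

universe w v u

variable {C : Type u} [Category.{v} C] [Abelian C]

/-- a morphism of short exact sequences which is an isomorphism on the third terms -/
structure Sq (C : Type u) [Category.{v} C] [Abelian C] where
  {S1 S2 : ShortComplex C}
  h1 : S1.ShortExact
  h2 : S2.ShortExact
  r : S1 ⟶ S2
  iso : IsIso r.τ₃

namespace Sq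

variable (T : Sq C)

abbrev A : C := T.S1.X₁
abbrev B : C := T.S1.X₂
abbrev P : C := T.S2.X₁
abbrev D : C := T.S2.X₂
abbrev i : T.A ⟶ T.B := T.S1.f
abbrev f : T.A ⟶ T.P := T.r.τ₁
abbrev g : T.B ⟶ T.D := T.r.τ₂
abbrev j : T.P ⟶ T.D := T.S2.f

theorem comm : T.i ≫ T.g = T.f ≫ T.j := T.r.comm₁₂.symm

theorem jointly_epi {N : C} (a : T.D ⟶ N) (h1 : T.j ≫ a = 0) (h2 : T.g ≫ a = 0) : a = 0 := by
  have := T.iso
  have := T.h1.epi_g
  have := T.h2.epi_g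
  obtain ⟨q, hq⟩ : ∃ q : T.S2.X₃ ⟶ N, T.S2.g ≫ q = a :=
    ⟨T.h2.exact.desc a h1, T.h2.exact.g_desc a h1⟩
  have h3 : q = 0 := by
    rw [← cancel_epi T.r.τ₃, ← cancel_epi T.S1.g, ← Category.assoc, ← T.r.comm₂₃, Category.assoc,
      hq, comp_zero, comp_zero]
    exact h2
  rw [← hq, h3, comp_zero]

theorem hom_ext {N : C} (a b : T.D ⟶ N) (h1 : T.j ≫ a = T.j ≫ b) (h2 : T.g ≫ a = T.g ≫ b) :
    a = b := by
  rw [← sub_eq_zero]
  apply T.jointly_epi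
  · rw [Preadditive.comp_sub, h1, sub_self]
  · rw [Preadditive.comp_sub, h2, sub_self]

section ext

variable [HasExt.{w} C]

/-- the class of the square -/
noncomputable def cls : Ext.{w} T.D T.A 1 :=
  have := T.iso
  (Ext.mk₀ (T.S2.g ≫ inv T.r.τ₃)).comp T.h1.extClass (zero_add 1)

theorem cls_comp_i : T.cls.comp (Ext.mk₀ T.i) (add_zero 1) = 0 := by
  unfold cls
  rw [Ext.comp_assoc_of_third_deg_zero, T.h1.extClass_comp, Ext.comp_zero]

theorem cls_comp_f : T.cls.comp (Ext.mk₀ T.f) (add_zero 1) = 0 := by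
  have := T.iso
  unfold cls
  rw [Ext.comp_assoc_of_third_deg_zero, ShortComplex.ShortExact.extClass_naturality T.h1 T.h2 T.r,
    ← Ext.comp_assoc_of_second_deg_zero, Ext.mk₀_comp_mk₀, Category.assoc, IsIso.inv_hom_id,
    Category.comp_id]
  exact T.h2.comp_extClass

theorem cls_comp_i_assoc {N : C} {n : ℕ} (b : Ext.{w} T.B N n) {m : ℕ} (h : 1 + n = m) :
    T.cls.comp ((Ext.mk₀ T.i).comp b (zero_add n)) h = 0 := by
  rw [← Ext.comp_assoc_of_second_deg_zero, cls_comp_i, Ext.zero_comp]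

theorem cls_comp_f_assoc {N : C} {n : ℕ} (b : Ext.{w} T.P N n) {m : ℕ} (h : 1 + n = m) :
    T.cls.comp ((Ext.mk₀ T.f).comp b (zero_add n)) h = 0 := by
  rw [← Ext.comp_assoc_of_second_deg_zero, cls_comp_f, Ext.zero_comp]

theorem exists_of_res_eq_zero {N : C} {n m : ℕ} (hm : 1 + n = m) (a : Ext.{w} T.D N m)
    (h1 : (Ext.mk₀ T.j).comp a (zero_add m) = 0) (h2 : (Ext.mk₀ T.g).comp a (zero_add m) = 0) :
    ∃ b : Ext.{w} T.A N n, T.cls.comp b hm = a := by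
  have := T.iso
  obtain ⟨q, hq⟩ := Ext.contravariant_sequence_exact₂ T.h2 N a h1
  have h3 : (Ext.mk₀ T.S1.g).comp ((Ext.mk₀ T.r.τ₃).comp q (zero_add m)) (zero_add m) = 0 := by
    rw [← Ext.comp_assoc_of_second_deg_zero, Ext.mk₀_comp_mk₀, ← T.r.comm₂₃, ← Ext.mk₀_comp_mk₀,
      Ext.comp_assoc_of_second_deg_zero, hq, h2]
  obtain ⟨b, hb⟩ := Ext.contravariant_sequence_exact₃ T.h1 N _ h3 hm
  refine ⟨b, ?_⟩
  unfold cls
  rw [Ext.comp_assoc (a₁₂ := 1) (a₂₃ := m) _ _ _ (by lia) (by lia) (by lia), hb,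
    ← Ext.comp_assoc_of_second_deg_zero, Ext.mk₀_comp_mk₀, Category.assoc, IsIso.inv_hom_id,
    Category.comp_id]
  exact hq

end ext

end Sq

/-- morphisms of squares -/
structure SqHom (T T' : Sq C) where
  a : T.A ⟶ T'.A
  b : T.B ⟶ T'.B
  p : T.P ⟶ T'.P
  d : T.D ⟶ T'.D
  hi : T.i ≫ b = a ≫ T'.i
  hg : T.g ≫ d = b ≫ T'.g
  hj : T.j ≫ d = p ≫ T'.j

namespace SqHom

variable {T T' : Sq C} (φ : SqHom T T')

include φ in
theorem exists_rows : ∃ (r1 : T.S1 ⟶ T'.S1) (r2 : T.S2 ⟶ T'.S2), r1.τ₁ = φ.a ∧ r2.τ₂ = φ.d ∧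
    r1.τ₃ ≫ T'.r.τ₃ = T.r.τ₃ ≫ r2.τ₃ := by
  have e1 := T.h1.epi_g
  have e2 := T.h2.epi_g
  have e3 := T'.h1.epi_g
  have e4 := T'.h2.epi_g
  have hq1 : T.S1.f ≫ φ.b ≫ T'.S1.g = 0 := by
    have := φ.hi
    rw [← Category.assoc, this, Category.assoc, T'.S1.zero, comp_zero]
  have hq2 : T.S2.f ≫ φ.d ≫ T'.S2.g = 0 := by
    have := φ.hj
    rw [← Category.assoc, this, Category.assoc, T'.S2.zero, comp_zero]
  let q1 : T.S1.X₃ ⟶ T'.S1.X₃ := T.h1.exact.desc _ hq1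
  have hq1' : T.S1.g ≫ q1 = φ.b ≫ T'.S1.g := T.h1.exact.g_desc _ hq1
  let q2 : T.S2.X₃ ⟶ T'.S2.X₃ := T.h2.exact.desc _ hq2
  have hq2' : T.S2.g ≫ q2 = φ.d ≫ T'.S2.g := T.h2.exact.g_desc _ hq2
  refine ⟨⟨φ.a, φ.b, q1, φ.hi.symm, hq1'.symm⟩, ⟨φ.p, φ.d, q2, φ.hj.symm, hq2'.symm⟩,
    rfl, rfl, ?_⟩
  dsimp
  rw [← cancel_epi T.S1.g, ← Category.assoc, hq1', Category.assoc, ← T'.r.comm₂₃,
    ← Category.assoc T.S1.g, ← T.r.comm₂₃, Category.assoc, hq2', ← Category.assoc, ← Category.assoc]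
  congr 1
  exact φ.hg.symm

theorem cls_naturality [HasExt.{w} C] :
    T.cls.comp (Ext.mk₀ φ.a) (add_zero 1) = (Ext.mk₀ φ.d).comp T'.cls (zero_add 1) := by
  have i1 := T.iso
  have i2 := T'.iso
  obtain ⟨r1, r2, ha, hd, h⟩ := φ.exists_rows
  unfold Sq.cls
  have h2 := ShortComplex.ShortExact.extClass_naturality.{w} T.h1 T'.h1 r1
  rw [ha] at h2
  rw [Ext.comp_assoc_of_third_deg_zero, h2]
  rw [← Ext.comp_assoc_of_second_deg_zero, ← Ext.comp_assoc_of_second_deg_zero]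
  rw [Ext.mk₀_comp_mk₀, Ext.mk₀_comp_mk₀]
  congr 2
  rw [← hd, ← Category.assoc, r2.comm₂₃, Category.assoc, Category.assoc]
  congr 1
  rw [IsIso.inv_comp_eq, ← Category.assoc, ← h, Category.assoc, IsIso.hom_inv_id, Category.comp_id]

theorem cls_naturality_assoc [HasExt.{w} C] {N : C} {n m : ℕ} (β : Ext.{w} T'.A N n)
    (hm : 1 + n = m) :
    T.cls.comp ((Ext.mk₀ φ.a).comp β (zero_add n)) hm =
      (Ext.mk₀ φ.d).comp (T'.cls.comp β hm) (zero_add m) := by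
  rw [← Ext.comp_assoc_of_second_deg_zero, cls_naturality]
  rw [Ext.comp_assoc (a₁₂ := 1) (a₂₃ := m) _ _ _ (by lia) (by lia) (by lia)]

end SqHom

end Run7.h642
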