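import Pool.Agent.Run7.h642.Stk
import Pool.Agent.Run7.h642.Sq

/-!
# Cut-off sheaves
-/

open CategoryTheory TopologicalSpace Opposite TopCat Limits Abelian

namespace Run7.h642

variable {k : Type} [Field k] {X : TopCat.{0}}

/-- sections of `G` vanishing outside `U` -/
noncomputable def cutSub (G : Sh k X) (U : Opens X) :
    LocSub k (fun y : X => (G.presheaf.stalk y : Type)) where
  S W :=
    { carrier := {s | (∀ (y : X) (_ : y ∈ W), ∃ (V : Opens X) (hV : V ≤ W) (_ : y ∈ V)
        (t : G.1.obj (op V)), ∀ (z : X) (hz : z ∈ V), s ⟨z, hV hz⟩ = grm G z hz t) ∧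
        ∀ (y : X) (hy : y ∈ W), y ∉ U → s ⟨y, hy⟩ = 0}
      add_mem' := by
        rintro a b ⟨ha, ha'⟩ ⟨hb, hb'⟩
        refine ⟨fun y hy => ?_, fun y hy hyU => ?_⟩
        · obtain ⟨V, hV, hyV, t, ht⟩ := ha y hy
          obtain ⟨V', hV', hyV', t', ht'⟩ := hb y hy
          refine ⟨V ⊓ V', inf_le_left.trans hV, ⟨hyV, hyV'⟩,
            res G inf_le_left t + res G inf_le_right t', fun z hz => ?_⟩
          rw [map_add, grm_res, grm_res, ← ht, ← ht']
          rfl
        · have h1 := ha' y hy hyU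
          have h2 := hb' y hy hyU
          simp only [Pi.add_apply, h1, h2, add_zero]
      zero_mem' := by
        refine ⟨fun y hy => ⟨W, le_refl W, hy, 0, fun z hz => ?_⟩, fun y hy hyU => rfl⟩
        rw [map_zero]
        rfl
      smul_mem' := by
        rintro c a ⟨ha, ha'⟩
        refine ⟨fun y hy => ?_, fun y hy hyU => ?_⟩
        · obtain ⟨V, hV, hyV, t, ht⟩ := ha y hy
          refine ⟨V, hV, hyV, c • t, fun z hz => ?_⟩
          rw [map_smul, ← ht]
          rfl
        · have h1 := ha' y hy hyU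
          simp only [Pi.smul_apply, h1, smul_zero] }
  restr := by
    rintro W W' h f ⟨hf, hf'⟩
    refine ⟨fun y hy => ?_, fun y hy hyU => hf' y (h hy) hyU⟩
    obtain ⟨V, hV, hyV, t, ht⟩ := hf y (h hy)
    refine ⟨V ⊓ W, inf_le_right, ⟨hyV, hy⟩, res G inf_le_left t, fun z hz => ?_⟩
    rw [grm_res, ← ht]
    rfl
  loc := by
    intro W f hf
    refine ⟨fun y hy => ?_, fun y hy hyU => ?_⟩
    · obtain ⟨W', hW', hyW', h1, h2⟩ := hf y hy
      obtain ⟨V, hV, hyV, t, ht⟩ := h1 y hyW'
      exact ⟨V, hV.trans hW', hyV, t, fun z hz => ht z hz⟩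
    · obtain ⟨W', hW', hyW', h1, h2⟩ := hf y hy
      exact h2 y hyW' hyU

theorem cutSub_disc (G : Sh k X) (U : Opens X) : (cutSub G U).Disc := by
  intro W s hs y hy h0
  obtain ⟨V, hV, hyV, t, ht⟩ := hs.1 y hy
  rw [ht y hyV] at h0
  rw [← map_zero (grm G y hyV)] at h0
  obtain ⟨V', h1, h2, hyV', h3⟩ := exists_res_eq_of_grm G y hyV hyV t 0 h0
  refine ⟨V', h1.trans hV, hyV', fun z hz => ?_⟩
  rw [ht z (h1 hz), ← grm_res G h1 z hz, h3, map_zero, map_zero]

/-- the subsheaf of sections of `G` vanishing outside `U` -/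
noncomputable def cut (G : Sh k X) (U : Opens X) : Sh k X := (cutSub G U).sheaf

theorem exists_cutι (G : Sh k X) (U : Opens X) :
    ∃ f : cut G U ⟶ G, ∀ (y : X) (s : (cut G U).presheaf.stalk y),
      stk f y s = (cutSub G U).ev y s := by
  refine exists_homMk (fun y => (cutSub G U).ev y) ?_
  intro W s y hy
  obtain ⟨V, hV, hyV, t, ht⟩ := (show (cutSub G U).S W from s).2.1 y hy
  refine ⟨V, hV, hyV, t, fun z hz => ?_⟩
  rw [← ht z hz]
  exact ((cutSub G U).ev_grm z W (hV hz) s).symm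

/-- the inclusion -/
noncomputable def cutι (G : Sh k X) (U : Opens X) : cut G U ⟶ G := (exists_cutι G U).choose

theorem stk_cutι (G : Sh k X) (U : Opens X) (y : X) (s : (cut G U).presheaf.stalk y) :
    stk (cutι G U) y s = (cutSub G U).ev y s := (exists_cutι G U).choose_spec y s

theorem stk_cutι_injective (G : Sh k X) (U : Opens X) (y : X) :
    Function.Injective (stk (cutι G U) y) := by
  have := (cutSub G U).ev_injective (cutSub_disc G U) y
  intro a b hab
  rw [stk_cutι, stk_cutι] at hab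
  exact this hab

instance (G : Sh k X) (U : Opens X) : Mono (cutι G U) :=
  mono_of_stk _ (stk_cutι_injective G U)

theorem stk_cutι_surjective (G : Sh k X) (U : Opens X) (y : X) (hy : y ∈ U) :
    Function.Surjective (stk (cutι G U) y) := by
  intro a
  obtain ⟨V, hyV, t, rfl⟩ := exists_grm_eq G y a
  let s : (cutSub G U).S (V ⊓ U) := ⟨fun z => grm G z.1 z.2.1 t, by
    refine ⟨fun z hz => ?_, fun z hz hzU => ?_⟩
    · exact ⟨V ⊓ U, le_refl _, hz, res G inf_le_left t,
        fun w hw => (grm_res G inf_le_left w hw t).symm⟩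
    · exact absurd hz.2 hzU⟩
  have hy' : y ∈ V ⊓ U := ⟨hyV, hy⟩
  refine ⟨grm (cut G U) y hy' (show (cut G U).1.obj (op (V ⊓ U)) from s), ?_⟩
  rw [stk_cutι]
  exact (cutSub G U).ev_grm y (V ⊓ U) hy' s

theorem stk_cutι_eq_zero (G : Sh k X) (U : Opens X) (y : X) (hy : y ∉ U)
    (s : (cut G U).presheaf.stalk y) : stk (cutι G U) y s = 0 := by
  obtain ⟨V, hyV, t, rfl⟩ := exists_grm_eq (cut G U) y s
  rw [stk_cutι]
  have h := (cutSub G U).ev_grm y V hyV t
  exact h.trans ((show (cutSub G U).S V from t).2.2 y hyV hy)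

theorem cut_stalk_eq_zero (G : Sh k X) (U : Opens X) (y : X) (hy : y ∉ U)
    (s : (cut G U).presheaf.stalk y) : s = 0 := by
  apply stk_cutι_injective G U y
  rw [stk_cutι_eq_zero G U y hy, map_zero]

theorem exists_cutLift {F G : Sh k X} {U : Opens X} (f : F ⟶ G)
    (h : ∀ y : X, y ∉ U → ∀ s, stk f y s = 0) : ∃ g : F ⟶ cut G U, g ≫ cutι G U = f := by
  obtain ⟨g, hg⟩ := (cutSub G U).exists_lift (F := F) (fun y => stk f y) (by
    intro W s
    refine ⟨fun y hy => ?_, fun y hy hyU => h y hyU _⟩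
    refine ⟨W, le_refl _, hy, sec f W s, fun z hz => ?_⟩
    rw [← stk_grm])
  refine ⟨g, hom_ext_stk _ _ fun y s => ?_⟩
  rw [stk_comp, stk_cutι]
  exact hg y s

/-- factorisation through the cut-off sheaf -/
noncomputable def cutLift {F G : Sh k X} {U : Opens X} (f : F ⟶ G)
    (h : ∀ y : X, y ∉ U → ∀ s, stk f y s = 0) : F ⟶ cut G U := (exists_cutLift f h).choose

@[reassoc (attr := simp)]
theorem cutLift_ι {F G : Sh k X} {U : Opens X} (f : F ⟶ G)
    (h : ∀ y : X, y ∉ U → ∀ s, stk f y s = 0) : cutLift f h ≫ cutι G U = f :=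
  (exists_cutLift f h).choose_spec

theorem cut_hom_ext {F G : Sh k X} {U : Opens X} (f g : F ⟶ cut G U)
    (h : f ≫ cutι G U = g ≫ cutι G U) : f = g := by
  rwa [cancel_mono] at h

/-- extension by zero -/
noncomputable def cutMap (G : Sh k X) {U V : Opens X} (h : U ≤ V) : cut G U ⟶ cut G V :=
  cutLift (cutι G U) (fun y hy s => stk_cutι_eq_zero G U y (fun hy' => hy (h hy')) s)

@[reassoc (attr := simp)]
theorem cutMap_ι (G : Sh k X) {U V : Opens X} (h : U ≤ V) :
    cutMap G h ≫ cutι G V = cutι G U := cutLift_ι _ _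

@[reassoc (attr := simp)]
theorem cutMap_comp (G : Sh k X) {U V W : Opens X} (h : U ≤ V) (h' : V ≤ W) :
    cutMap G h ≫ cutMap G h' = cutMap G (h.trans h') := by
  apply cut_hom_ext
  rw [Category.assoc, cutMap_ι, cutMap_ι, cutMap_ι]

@[simp]
theorem cutMap_self (G : Sh k X) (U : Opens X) : cutMap G (le_refl U) = 𝟙 _ := by
  apply cut_hom_ext
  rw [cutMap_ι, Category.id_comp]

instance (G : Sh k X) {U V : Opens X} (h : U ≤ V) : Mono (cutMap G h) := by
  have : Mono (cutMap G h ≫ cutι G V) := by rw [cutMap_ι]; infer_instance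
  exact mono_of_mono _ (cutι G V)

/-- functoriality of cut-off sheaves -/
noncomputable def cutFun {G G' : Sh k X} (f : G ⟶ G') (U : Opens X) : cut G U ⟶ cut G' U :=
  cutLift (cutι G U ≫ f) (fun y hy s => by
    rw [stk_comp, stk_cutι_eq_zero G U y hy, map_zero])

@[reassoc (attr := simp)]
theorem cutFun_ι {G G' : Sh k X} (f : G ⟶ G') (U : Opens X) :
    cutFun f U ≫ cutι G' U = cutι G U ≫ f := cutLift_ι _ _

theorem stk_cutι_bijective (G : Sh k X) (U : Opens X) (y : X) (hy : y ∈ U) :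
    Function.Bijective (stk (cutι G U) y) :=
  ⟨stk_cutι_injective G U y, stk_cutι_surjective G U y hy⟩

theorem stk_cutMap_bijective (G : Sh k X) {U V : Opens X} (h : U ≤ V) (y : X) (hy : y ∈ U) :
    Function.Bijective (stk (cutMap G h) y) := by
  have h1 := stk_cutι_bijective G U y hy
  have h2 := stk_cutι_bijective G V y (h hy)
  have h3 : ∀ s, stk (cutι G V) y (stk (cutMap G h) y s) = stk (cutι G U) y s := by
    intro s
    rw [← stk_comp, cutMap_ι]
  have h4 : Function.Bijective (stk (cutι G V) y ∘ stk (cutMap G h) y) := by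
    have : (stk (cutι G V) y ∘ stk (cutMap G h) y) = stk (cutι G U) y := funext h3
    rw [this]
    exact h1
  exact (Function.Bijective.of_comp_iff' h2 _).mp h4

section sqMk

variable {A B P D : Sh k X} (i : A ⟶ B) (f : A ⟶ P) (g : B ⟶ D) (j : P ⟶ D)
    (w : i ≫ g = f ≫ j) [Mono i] [Mono j]
    (h1 : ∀ (y : X) b p, stk g y b = stk j y p → ∃ a, stk i y a = b)
    (h2 : ∀ (y : X) d, ∃ b p, d = stk g y b + stk j y p)

include h1 h2 in
theorem isIso_coker : IsIso (cokernel.map i j f g w) := by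
  apply isIso_of_stk
  intro y
  have e1 := stk_surjective_of_epi (cokernel.π i) y
  have e2 := stk_surjective_of_epi (cokernel.π j) y
  have x1 := stk_exact (shortExact_coker i).exact y
  have x2 := stk_exact (shortExact_coker j).exact y
  have c1 : ∀ b, stk (cokernel.map i j f g w) y (stk (cokernel.π i) y b) =
      stk (cokernel.π j) y (stk g y b) := by
    intro b
    rw [← stk_comp, ← stk_comp]
    congr 1
    simp
  have c2 : ∀ p, stk (cokernel.π j) y (stk j y p) = 0 := by
    intro p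
    rw [← stk_comp, cokernel.condition, stk_zero]
  have c3 : ∀ p, stk (cokernel.π i) y (stk i y p) = 0 := by
    intro p
    rw [← stk_comp, cokernel.condition, stk_zero]
  constructor
  · rw [injective_iff_map_eq_zero]
    intro a ha
    obtain ⟨b, rfl⟩ := e1 a
    rw [c1] at ha
    obtain ⟨p, hp⟩ := x2 _ ha
    obtain ⟨a, rfl⟩ := h1 y b p hp.symm
    exact c3 a
  · intro d
    obtain ⟨d, rfl⟩ := e2 d
    obtain ⟨b, p, rfl⟩ := h2 y d
    refine ⟨stk (cokernel.π i) y b, ?_⟩
    rw [c1, map_add, c2, add_zero]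

/-- construction of squares -/
noncomputable def sqMk : Sq (Sh k X) where
  S1 := ShortComplex.mk i (cokernel.π i) (cokernel.condition i)
  S2 := ShortComplex.mk j (cokernel.π j) (cokernel.condition j)
  h1 := shortExact_coker i
  h2 := shortExact_coker j
  r := ⟨f, g, cokernel.map i j f g w, w.symm, by simp⟩
  iso := isIso_coker i f g j w h1 h2

end sqMk

/-- the Mayer-Vietoris square -/
noncomputable def mv (G : Sh k X) (U V : Opens X) : Sq (Sh k X) :=
  sqMk (cutMap G (inf_le_left : U ⊓ V ≤ U)) (cutMap G (inf_le_right : U ⊓ V ≤ V))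
    (cutMap G (le_sup_left : U ≤ U ⊔ V)) (cutMap G (le_sup_right : V ≤ U ⊔ V))
    (by simp) (by
      intro y b p h
      by_cases hU : y ∈ U
      · by_cases hV : y ∈ V
        · exact (stk_cutMap_bijective G (inf_le_left : U ⊓ V ≤ U) y ⟨hU, hV⟩).2 b
        · have hp := cut_stalk_eq_zero G V y hV p
          rw [hp, map_zero] at h
          rw [(injective_iff_map_eq_zero _).mp
            (stk_cutMap_bijective G (le_sup_left : U ≤ U ⊔ V) y hU).1 b h]
          exact ⟨0, map_zero _⟩
      · rw [cut_stalk_eq_zero G U y hU b]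
        exact ⟨0, map_zero _⟩) (by
      intro y d
      by_cases hU : y ∈ U
      · obtain ⟨b, hb⟩ := (stk_cutMap_bijective G (le_sup_left : U ≤ U ⊔ V) y hU).2 d
        exact ⟨b, 0, by rw [hb, map_zero, add_zero]⟩
      · by_cases hV : y ∈ V
        · obtain ⟨b, hb⟩ := (stk_cutMap_bijective G (le_sup_right : V ≤ U ⊔ V) y hV).2 d
          exact ⟨0, b, by rw [hb, map_zero, zero_add]⟩
        · exact ⟨0, 0, by
            rw [map_zero, map_zero, add_zero]
            exact cut_stalk_eq_zero G (U ⊔ V) y (fun (h : y ∈ U ∨ y ∈ V) => h.elim hU hV) d⟩)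

/-- naturality of Mayer-Vietoris squares -/
noncomputable def mvMap (G : Sh k X) {U V U' V' : Opens X} (hU : U ≤ U') (hV : V ≤ V') :
    SqHom (mv G U V) (mv G U' V') where
  a := cutMap G (inf_le_inf hU hV)
  b := cutMap G hU
  p := cutMap G hV
  d := cutMap G (sup_le_sup hU hV)
  hi := (cutMap_comp G (inf_le_left : U ⊓ V ≤ U) hU).trans
    (cutMap_comp G (inf_le_inf hU hV) (inf_le_left : U' ⊓ V' ≤ U')).symm
  hg := (cutMap_comp G (le_sup_left : U ≤ U ⊔ V) (sup_le_sup hU hV)).trans
    (cutMap_comp G hU (le_sup_left : U' ≤ U' ⊔ V')).symm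
  hj := (cutMap_comp G (le_sup_right : V ≤ U ⊔ V) (sup_le_sup hU hV)).trans
    (cutMap_comp G hV (le_sup_right : V' ≤ U' ⊔ V')).symm

end Run7.h642
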