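import Pool.Agent.Run7.h642.OpenEmb

/-!
# Cylinders
-/

open CategoryTheory TopologicalSpace Opposite TopCat Limits Abelian

namespace Run7.h642

variable {k : Type} [Field k] {Y : TopCat.{0}}

/-- the cylinder -/
abbrev cyl (Y : TopCat.{0}) : TopCat.{0} := TopCat.of (Y × unitInterval)

/-- the projection -/
def pr (Y : TopCat.{0}) : cyl Y ⟶ Y := TopCat.ofHom ⟨Prod.fst, continuous_fst⟩

/-- the slice inclusions -/
def it (Y : TopCat.{0}) (t : unitInterval) : Y ⟶ cyl Y :=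
  TopCat.ofHom ⟨fun y => (y, t), by fun_prop⟩

theorem it_pr (Y : TopCat.{0}) (t : unitInterval) : it Y t ≫ pr Y = 𝟙 Y := rfl

/-- boxes -/
def bx (V : Opens Y) (a b : ℝ) : Opens (cyl Y) :=
  ⟨{z | z.1 ∈ V ∧ a < (z.2 : ℝ) ∧ (z.2 : ℝ) < b}, by
    apply IsOpen.inter
    · exact V.2.preimage continuous_fst
    · apply IsOpen.inter
      · exact isOpen_lt continuous_const (continuous_subtype_val.comp continuous_snd)
      · exact isOpen_lt (continuous_subtype_val.comp continuous_snd) continuous_const⟩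

theorem mem_bx {V : Opens Y} {a b : ℝ} {z : cyl Y} :
    z ∈ bx V a b ↔ z.1 ∈ V ∧ a < (z.2 : ℝ) ∧ (z.2 : ℝ) < b := Iff.rfl

theorem bx_mono {V V' : Opens Y} {a b a' b' : ℝ} (h : V ≤ V') (ha : a' ≤ a) (hb : b ≤ b') :
    bx V a b ≤ bx V' a' b' := fun _ hz => ⟨h hz.1, ha.trans_lt hz.2.1, hz.2.2.trans_le hb⟩

theorem bx_inf {V : Opens Y} {a b a' b' : ℝ} (ha : a ≤ a') (hb : b ≤ b') :
    bx V a b ⊓ bx V a' b' = bx V a' b := by
  ext z
  constructor
  · rintro ⟨h1, h2⟩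
    exact ⟨h1.1, h2.2.1, h1.2.2⟩
  · rintro ⟨h1, h2, h3⟩
    exact ⟨⟨h1, ha.trans_lt h2, h3⟩, ⟨h1, h2, h3.trans_le hb⟩⟩

theorem bx_sup {V : Opens Y} {a b a' b' : ℝ} (ha : a ≤ a') (hab : a' < b) (hb : b ≤ b') :
    bx V a b ⊔ bx V a' b' = bx V a b' := by
  ext z
  constructor
  · rintro (h | h)
    · exact ⟨h.1, h.2.1, h.2.2.trans_le hb⟩
    · exact ⟨h.1, ha.trans_lt h.2.1, h.2.2⟩
  · rintro ⟨h1, h2, h3⟩
    rcases lt_or_ge (z.2 : ℝ) b with h | h
    · exact Or.inl ⟨h1, h2, h⟩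
    · exact Or.inr ⟨h1, hab.trans_le h, h3⟩

theorem exists_bx {O : Opens (cyl Y)} {y : Y} {c : unitInterval} (h : (y, c) ∈ O) :
    ∃ (V : Opens Y) (ε : ℝ), y ∈ V ∧ 0 < ε ∧ bx V (c - ε) (c + ε) ≤ O := by
  obtain ⟨u, v, hu, hv, hyu, hcv, huv⟩ := isOpen_prod_iff.mp O.2 y c h
  obtain ⟨ε, hε, hball⟩ := Metric.isOpen_iff.mp hv c hcv
  refine ⟨⟨u, hu⟩, ε, hyu, hε, ?_⟩
  intro z hz
  apply huv
  refine ⟨hz.1, hball ?_⟩
  rw [Metric.mem_ball, Subtype.dist_eq, Real.dist_eq, abs_lt]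
  constructor
  · linarith [hz.2.1]
  · linarith [hz.2.2]

theorem tube {O : Opens (cyl Y)} {y : Y} (h : ∀ t : unitInterval, (y, t) ∈ O) :
    ∃ V : Opens Y, y ∈ V ∧ bx V (-1) 2 ≤ O := by
  obtain ⟨u, v, hu, hv, hyu, hcv, huv⟩ := generalized_tube_lemma (s := {y})
    (isCompact_singleton) (t := (Set.univ : Set unitInterval)) isCompact_univ (n := (O : Set _))
    O.2 (by
      rintro ⟨a, b⟩ ⟨ha, -⟩
      rw [Set.mem_singleton_iff] at ha
      subst ha
      exact h b)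
  exact ⟨⟨u, hu⟩, hyu rfl, fun z hz => huv ⟨hz.1, hcv trivial⟩⟩

theorem mem_bx_full {V : Opens Y} {y : Y} (hy : y ∈ V) (t : unitInterval) :
    ((y, t) : cyl Y) ∈ bx V (-1) 2 :=
  ⟨hy, by linarith [t.2.1], by linarith [t.2.2]⟩

/-- induction along the unit interval -/
theorem tube_ind (Q : unitInterval → Prop) {a : unitInterval} (h0 : Q a)
    (h : ∀ c : unitInterval, ∃ ε > (0 : ℝ), ∀ c1 c2 : unitInterval, |(c1 : ℝ) - c| < ε →
      |(c2 : ℝ) - c| < ε → Q c1 → Q c2) (b : unitInterval) : Q b := by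
  have hcl : IsClopen {c | Q c} := by
    constructor
    · rw [← isOpen_compl_iff, Metric.isOpen_iff]
      intro c hc
      obtain ⟨ε, hε, h1⟩ := h c
      refine ⟨ε, hε, fun d hd hQ => hc ?_⟩
      rw [Metric.mem_ball, Subtype.dist_eq, Real.dist_eq] at hd
      exact h1 d c hd (by simpa using hε) hQ
    · rw [Metric.isOpen_iff]
      intro c hc
      obtain ⟨ε, hε, h1⟩ := h c
      refine ⟨ε, hε, fun d hd => ?_⟩
      rw [Metric.mem_ball, Subtype.dist_eq, Real.dist_eq] at hd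
      exact h1 c d (by simpa using hε) hd hc
  have := hcl.eq_univ ⟨a, h0⟩
  have h2 : b ∈ {c | Q c} := by rw [this]; trivial
  exact h2

/-- gluing two sections along a box -/
theorem glue_box {N : Sh k (cyl Y)} {V : Opens Y} {a b a' b' : ℝ} (ha : a ≤ a') (hab : a' < b)
    (hb : b ≤ b') (r : N.1.obj (op (bx V a b))) (s : N.1.obj (op (bx V a' b')))
    (h : res N (bx_mono le_rfl ha le_rfl : bx V a' b ≤ bx V a b) r =
      res N (bx_mono le_rfl le_rfl hb : bx V a' b ≤ bx V a' b') s) :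
    ∃ q : N.1.obj (op (bx V a b')),
      res N (bx_mono le_rfl le_rfl hb : bx V a b ≤ bx V a b') q = r ∧
      res N (bx_mono le_rfl ha le_rfl : bx V a' b' ≤ bx V a b') q = s := by
  classical
  obtain ⟨q, hq⟩ := exists_section_of_grm N (U := bx V a b')
    (fun z => if hz : z ∈ bx V a b then grm N z hz r else
      if hz' : z ∈ bx V a' b' then grm N z hz' s else 0) (by
        intro z hz
        rcases lt_or_ge (z.2 : ℝ) b with h1 | h1
        · refine ⟨bx V a b, bx_mono le_rfl le_rfl hb, ⟨hz.1, hz.2.1, h1⟩, r, fun w hw => ?_⟩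
          rw [dif_pos hw]
        · refine ⟨bx V a' b', bx_mono le_rfl ha le_rfl, ⟨hz.1, hab.trans_le h1, hz.2.2⟩, s,
            fun w hw => ?_⟩
          by_cases hw' : w ∈ bx V a b
          · rw [dif_pos hw']
            have hw2 : w ∈ bx V a' b := ⟨hw.1, hw.2.1, hw'.2.2⟩
            have h3 := congrArg (grm N w hw2) h
            rw [grm_res, grm_res] at h3
            exact h3.symm
          · rw [dif_neg hw', dif_pos hw])
  refine ⟨q, ?_, ?_⟩
  · apply ext_grm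
    intro w hw
    rw [grm_res, hq, dif_pos hw]
  · apply ext_grm
    intro w hw
    rw [grm_res, hq]
    by_cases hw' : w ∈ bx V a b
    · rw [dif_pos hw']
      have hw2 : w ∈ bx V a' b := ⟨hw.1, hw.2.1, hw'.2.2⟩
      have h3 := congrArg (grm N w hw2) h
      rw [grm_res, grm_res] at h3
      exact h3
    · rw [dif_neg hw', dif_pos hw]

/-- every germ extends to a full fibre -/
def PSurj (N : Sh k (cyl Y)) : Prop :=
  ∀ (y : Y) (t : unitInterval) (n : N.presheaf.stalk ((y, t) : cyl Y)), ∃ (V : Opens Y) (hy : y ∈ V)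
    (s : N.1.obj (op (bx V (-1) 2))), grm N ((y, t) : cyl Y) (mem_bx_full hy t) s = n

/-- a section over a full fibre is determined by one germ -/
def PInj (N : Sh k (cyl Y)) : Prop :=
  ∀ (y : Y) (t t' : unitInterval) (V : Opens Y) (hy : y ∈ V) (s : N.1.obj (op (bx V (-1) 2))),
    grm N ((y, t) : cyl Y) (mem_bx_full hy t) s = 0 →
    grm N ((y, t') : cyl Y) (mem_bx_full hy t') s = 0

theorem pSurj_pb (B : Sh k Y) : PSurj (pb (pr Y) B) := by
  intro y t n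
  obtain ⟨V, hy, b, hb⟩ := exists_grm_eq B y (pe (pr Y) B ((y, t) : cyl Y) n)
  refine ⟨V, hy, pbS (pr Y) b (bx V (-1) 2) (fun z hz => hz.1), ?_⟩
  apply pe_injective
  rw [pe_pbS]
  exact hb

theorem pInj_pb (B : Sh k Y) : PInj (pb (pr Y) B) := by
  intro y t t' V hy s h0
  refine tube_ind (fun c => grm (pb (pr Y) B) ((y, c) : cyl Y) (mem_bx_full hy c) s = 0) h0 ?_ t'
  intro c
  obtain ⟨O, hO, hcO, U, hU, b, hb⟩ := pb_sec_loc (pr Y) B s ((y, c) : cyl Y) (mem_bx_full hy c)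
  obtain ⟨V', ε, hyV', hε, hbx⟩ := exists_bx hcO
  refine ⟨ε, hε, fun c1 c2 h1 h2 h3 => ?_⟩
  have m1 : ((y, c1) : cyl Y) ∈ O := hbx ⟨hyV', by
    rw [abs_lt] at h1; constructor <;> dsimp only <;> linarith⟩
  have m2 : ((y, c2) : cyl Y) ∈ O := hbx ⟨hyV', by
    rw [abs_lt] at h2; constructor <;> dsimp only <;> linarith⟩
  have e1 := hb _ m1
  have e2 := hb _ m2
  apply pe_injective
  dsimp only at h3
  rw [map_zero]
  refine e2.trans ?_
  refine Eq.trans ?_ (e1.symm.trans ((congrArg _ h3).trans (map_zero _)))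
  rfl

/-- cohomology classes over full fibres vanish locally -/
theorem box_vanishing {N : Sh k (cyl Y)} (hN : PSurj N) {n : ℕ} {W : Opens Y} {y : Y}
    (hy : y ∈ W) (γ : Ext.{0} (cut (cst k (cyl Y) 1) (bx W (-1) 2)) N (n + 1)) :
    ∃ (V : Opens Y) (hV : V ≤ W), y ∈ V ∧
      rs (bx_mono hV le_rfl le_rfl : bx V (-1) 2 ≤ bx W (-1) 2) γ = 0 := by
  have key := tube_ind (fun c : unitInterval => ∃ (V : Opens Y) (hV : V ≤ W) (δ : ℝ)
    (hδ : (c : ℝ) + δ ≤ 2), y ∈ V ∧ 0 < δ ∧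
      rs (bx_mono hV le_rfl hδ : bx V (-1) (c + δ) ≤ bx W (-1) 2) γ = 0) (a := 0) ?_ ?_ 1
  · obtain ⟨V, hV, δ, hδ, hyV, hδ0, h⟩ := key
    refine ⟨V, hV, hyV, ?_⟩
    have hle : bx V (-1) 2 ≤ bx V (-1) (((1 : unitInterval) : ℝ) + δ) := by
      intro z hz
      refine ⟨hz.1, hz.2.1, ?_⟩
      have := z.2.2.2
      simp only [Set.Icc.coe_one]
      linarith
    rw [← rs_rs hle (bx_mono hV le_rfl hδ), h, rs_zero]
  · obtain ⟨O, hO, hcO, h⟩ := local_vanishing n (x := ((y, 0) : cyl Y)) (mem_bx_full hy 0) γ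
    obtain ⟨V, ε, hyV, hε, hbx⟩ := exists_bx hcO
    have e1 : V ⊓ W ≤ W := inf_le_right
    have e2 : bx (V ⊓ W) (-1) (((0 : unitInterval) : ℝ) + min ε 1) ≤ O := by
      intro z hz
      apply hbx
      have h1 := z.2.2.1
      have h2 := hz.2.2
      simp only [Set.Icc.coe_zero] at h2 ⊢
      refine ⟨hz.1.1, ?_, ?_⟩
      · linarith
      · linarith [min_le_left ε 1]
    refine ⟨V ⊓ W, e1, min ε 1, ?_, ⟨hyV, hy⟩, by positivity, ?_⟩
    · simp only [Set.Icc.coe_zero]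
      linarith [min_le_right ε 1]
    · rw [← rs_rs e2 hO, h, rs_zero]
  · intro c
    obtain ⟨O, hO, hcO, h⟩ := local_vanishing n (x := ((y, c) : cyl Y)) (mem_bx_full hy c) γ
    obtain ⟨V0, ε, hyV0, hε, hbx⟩ := exists_bx hcO
    refine ⟨min ε 1, by positivity, fun c1 c2 h1 h2 h3 => ?_⟩
    obtain ⟨V, hV, δ, hδ, hyV, hδ0, h4⟩ := h3
    have ε1 := min_le_left ε 1
    have ε2 := min_le_right ε 1
    have hc1 := c.2.2
    rw [abs_lt] at h1 h2
    set E := min ε 1 with hE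
    obtain ⟨δ1, hδ1, hδ1', hδ2, hδ3⟩ : ∃ δ1 > 0, δ1 ≤ δ ∧ (c : ℝ) - E ≤ c1 - δ1 ∧
        (c1 : ℝ) + δ1 ≤ c + E := by
      refine ⟨min δ (min ((c1 : ℝ) - c + E) (c + E - c1)), ?_, min_le_left _ _, ?_, ?_⟩
      · refine lt_min hδ0 (lt_min ?_ ?_) <;> linarith
      · have := (min_le_right δ (min ((c1 : ℝ) - c + E) (c + E - c1))).trans (min_le_left _ _)
        linarith
      · have := (min_le_right δ (min ((c1 : ℝ) - c + E) (c + E - c1))).trans (min_le_right _ _)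
        linarith
    -- the two pieces
    have hmem : ∀ δ' > 0, ∀ V' : Opens Y, y ∈ V' →
        ((y, c1) : cyl Y) ∈ bx V' ((c1 : ℝ) - δ') (c1 + δ') := by
      intro δ' hδ' V' hV'
      refine ⟨hV', ?_, ?_⟩ <;> dsimp only <;> linarith
    have c10 := c1.2.1
    let V1 : Opens Y := V ⊓ V0
    have hV1 : V1 ≤ W := inf_le_left.trans hV
    have k1 : bx V1 (-1) (c1 + δ1) ≤ bx W (-1) 2 := bx_mono hV1 le_rfl (by linarith)
    have k2 : bx V1 (c1 - δ1) (c + E) ≤ bx W (-1) 2 := bx_mono hV1 (by linarith) (by linarith)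
    have v1 : rs k1 γ = 0 := by
      rw [← rs_rs (bx_mono inf_le_left le_rfl (by linarith) :
        bx V1 (-1) (c1 + δ1) ≤ bx V (-1) (c1 + δ)) (bx_mono hV le_rfl hδ), h4, rs_zero]
    have v2 : rs k2 γ = 0 := by
      have e3 : bx V1 (c1 - δ1) (c + E) ≤ O :=
        (bx_mono inf_le_right (by linarith) (by linarith)).trans hbx
      rw [← rs_rs e3 hO, h, rs_zero]
    let T := mv (cst k (cyl Y) 1) (bx V1 (-1) (c1 + δ1)) (bx V1 (c1 - δ1) (c + E))
    have k3 : bx V1 (-1) (c1 + δ1) ⊔ bx V1 (c1 - δ1) (c + E) ≤ bx W (-1) 2 := sup_le k1 k2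
    obtain ⟨η, hη⟩ := T.exists_of_res_eq_zero (add_comm 1 n) (rs k3 γ)
      ((rs_rs (le_sup_right : bx V1 (c1 - δ1) (c + E) ≤
          bx V1 (-1) (c1 + δ1) ⊔ bx V1 (c1 - δ1) (c + E)) k3 γ).trans v2)
      ((rs_rs (le_sup_left : bx V1 (-1) (c1 + δ1) ≤
          bx V1 (-1) (c1 + δ1) ⊔ bx V1 (c1 - δ1) (c + E)) k3 γ).trans v1)
    have hinf : bx V1 ((c1 : ℝ) - δ1) (c1 + δ1) ≤
        bx V1 (-1) (c1 + δ1) ⊓ bx V1 (c1 - δ1) (c + E) := by
      rw [bx_inf (by linarith) (by linarith)]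
    -- extension of the class near the point
    obtain ⟨V3, δ3, hyV3, hδ30, hδ31, hV3, ζ, hζ⟩ : ∃ (V3 : Opens Y) (δ3 : ℝ) (_ : y ∈ V3)
        (_ : 0 < δ3) (hδ31 : δ3 ≤ δ1) (hV3 : V3 ≤ V1)
        (ζ : Ext.{0} (cut (cst k (cyl Y) 1) (bx V3 (-1) 2)) N n),
        rs (bx_mono le_rfl (by linarith) (by linarith) :
          bx V3 (c1 - δ3) (c1 + δ3) ≤ bx V3 (-1) 2) ζ =
        rs ((bx_mono hV3 (by linarith) (by linarith) : bx V3 (c1 - δ3) (c1 + δ3) ≤
          bx V1 (c1 - δ1) (c1 + δ1)).trans hinf) η := by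
      rcases n with _ | n
      · obtain ⟨e, rfl⟩ := (Ext.mk₀_bijective _ _).2 η
        have hm := hinf (hmem δ1 hδ1 V1 ⟨hyV, hyV0⟩)
        obtain ⟨V2, hyV2, s, hs⟩ := hN y c1 (grm N ((y, c1) : cyl Y) hm (toSec e 0))
        obtain ⟨O', i1, i2, hO', hres⟩ := exists_res_eq_of_grm N ((y, c1) : cyl Y)
          (mem_bx_full hyV2 c1) hm s (toSec e 0) hs
        obtain ⟨V3, δ3, hyV3, hδ30, hbx3⟩ := exists_bx hO'
        refine ⟨V3 ⊓ V2 ⊓ V1, min δ3 δ1, ⟨⟨hyV3, hyV2⟩, hyV, hyV0⟩, lt_min hδ30 hδ1,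
          min_le_right _ _, inf_le_right,
          Ext.mk₀ (cutMap _ (bx_mono (inf_le_left.trans inf_le_right) le_rfl le_rfl) ≫
            fromSec (fun _ => s)), ?_⟩
        refine (Ext.mk₀_comp_mk₀ _ _).trans (Eq.trans (congrArg Ext.mk₀ ?_)
          (Ext.mk₀_comp_mk₀ (cutMap _ _) (show cut (cst k (cyl Y) 1) _ ⟶ N from e)).symm)
        apply hom_ext_toSec
        intro i
        have hi : i = 0 := Subsingleton.elim _ _
        subst hi
        rw [← Category.assoc, cutMap_comp, toSec_cutMap, toSec_cutMap, toSec_fromSec]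
        have i3 : bx (V3 ⊓ V2 ⊓ V1) (c1 - min δ3 δ1) (c1 + min δ3 δ1) ≤ O' :=
          (bx_mono (inf_le_left.trans inf_le_left) (by linarith [min_le_left δ3 δ1])
            (by linarith [min_le_left δ3 δ1])).trans hbx3
        have := congrArg (res N i3) hres
        rw [res_res, res_res] at this
        exact this
      · obtain ⟨O', i1, hO', hres⟩ := local_vanishing n
          (hinf (hmem δ1 hδ1 V1 ⟨hyV, hyV0⟩)) η
        obtain ⟨V3, δ3, hyV3, hδ30, hbx3⟩ := exists_bx hO'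
        refine ⟨V3 ⊓ V1, min δ3 δ1, ⟨hyV3, hyV, hyV0⟩, lt_min hδ30 hδ1,
          min_le_right _ _, inf_le_right, 0, ?_⟩
        have i3 : bx (V3 ⊓ V1) (c1 - min δ3 δ1) (c1 + min δ3 δ1) ≤ O' :=
          (bx_mono inf_le_left (by linarith [min_le_left δ3 δ1])
            (by linarith [min_le_left δ3 δ1])).trans hbx3
        rw [rs_zero, ← rs_rs i3 i1, hres, rs_zero]
    let T' := mv (cst k (cyl Y) 1) (bx V3 (-1) (c1 + δ3)) (bx V3 (c1 - δ3) (c + E))
    let Φ : SqHom T' T := mvMap _ (bx_mono hV3 le_rfl (by linarith))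
      (bx_mono hV3 (by linarith) le_rfl)
    have e4 := Φ.cls_naturality_assoc η (add_comm 1 n)
    rw [hη] at e4
    have e5 : (Ext.mk₀ Φ.a).comp η (zero_add n) = (Ext.mk₀ T'.i).comp
        (rs (bx_mono le_rfl le_rfl (by linarith) : bx V3 (-1) (c1 + δ3) ≤ bx V3 (-1) 2) ζ)
          (zero_add n) := by
      have hle : bx V3 (-1) (c1 + δ3) ⊓ bx V3 (c1 - δ3) (c + E) ≤
          bx V3 (c1 - δ3) (c1 + δ3) := by
        rw [bx_inf (by linarith) (by linarith)]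
      have e6 := congrArg (rs hle) hζ
      rw [rs_rs, rs_rs] at e6
      refine Eq.trans ?_ (e6.symm.trans ?_)
      · rfl
      · exact (rs_rs (inf_le_left : bx V3 (-1) (c1 + δ3) ⊓ bx V3 (c1 - δ3) (c + E) ≤
          bx V3 (-1) (c1 + δ3)) _ ζ).symm
    rw [e5, T'.cls_comp_i_assoc] at e4
    have c20 := c2.2.2
    refine ⟨V3, hV3.trans hV1, c + E - c2, by linarith, hyV3, by linarith, ?_⟩
    have hle2 : bx V3 (-1) ((c2 : ℝ) + (c + E - c2)) ≤
        bx V3 (-1) (c1 + δ3) ⊔ bx V3 (c1 - δ3) (c + E) := by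
      rw [bx_sup (by linarith) (by linarith) (by linarith)]
      exact bx_mono le_rfl le_rfl (by linarith)
    have e7 : rs (sup_le_sup (bx_mono hV3 le_rfl (by linarith))
      (bx_mono hV3 (by linarith) le_rfl) : bx V3 (-1) (c1 + δ3) ⊔ bx V3 (c1 - δ3) (c + E) ≤
        bx V1 (-1) (c1 + δ1) ⊔ bx V1 (c1 - δ1) (c + E)) (rs k3 γ) = 0 := e4.symm
    have e8 := congrArg (rs hle2) e7
    rw [rs_rs, rs_rs, rs_zero] at e8
    exact e8

end Run7.h642
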