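import Mathlib

/-!
# Finiteness in derived categories
-/

open CategoryTheory Limits Abelian DerivedCategory Pretriangulated Triangulated

namespace Run7.h642

universe w w' v u

section

variable {C : Type u} [Category.{v} C] [Abelian C] [HasDerivedCategory.{w} C]

theorem der_exists_trunc (K : DerivedCategory C) (n : ℤ) :
    ∃ (A B : DerivedCategory C) (_ : A.IsLE n) (_ : B.IsGE (n + 1)) (f : A ⟶ K) (g : K ⟶ B)
      (h : B ⟶ A⟦(1 : ℤ)⟧), Triangle.mk f g h ∈ distTriang (DerivedCategory C) ∧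
      (∀ i, i ≤ n → IsIso ((homologyFunctor C i).map f)) ∧
      (∀ i, n + 1 ≤ i → IsIso ((homologyFunctor C i).map g)) := by
  obtain ⟨A, B, hA, hB, f, g, h, hT⟩ := (TStructure.t (C := C)).exists_triangle K n (n + 1) rfl
  have hA' : A.IsLE n := ⟨hA⟩
  have hB' : B.IsGE (n + 1) := ⟨hB⟩
  have zA : ∀ i, n < i → IsZero ((homologyFunctor C i).obj A) := fun i hi => isZero_of_isLE A n i hi
  have zB : ∀ i, i < n + 1 → IsZero ((homologyFunctor C i).obj B) :=
    fun i hi => isZero_of_isGE B (n + 1) i hi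
  refine ⟨A, B, hA', hB', f, g, h, hT, ?_, ?_⟩
  · intro i hi
    have h1 : Epi ((homologyFunctor C i).map f) :=
      (HomologySequence.epi_homologyMap_mor₁_iff _ hT i).mpr ((zB i (by lia)).eq_of_tgt _ _)
    have h2 : Mono ((homologyFunctor C i).map f) :=
      (HomologySequence.mono_homologyMap_mor₁_iff _ hT (i - 1) i (by lia)).mpr
        ((zB (i - 1) (by lia)).eq_of_src _ _)
    exact isIso_of_mono_of_epi _
  · intro i hi
    have h1 : Mono ((homologyFunctor C i).map g) :=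
      (HomologySequence.mono_homologyMap_mor₂_iff _ hT i).mpr ((zA i (by lia)).eq_of_src _ _)
    have h2 : Epi ((homologyFunctor C i).map g) :=
      (HomologySequence.epi_homologyMap_mor₂_iff _ hT i (i + 1) (by lia)).mpr
        ((zA (i + 1) (by lia)).eq_of_tgt _ _)
    exact isIso_of_mono_of_epi _

theorem finite_hom_of_src {A K B S : DerivedCategory C} {i : A ⟶ K} {p : K ⟶ B}
    {d : B ⟶ A⟦(1 : ℤ)⟧} (hT : Triangle.mk i p d ∈ distTriang (DerivedCategory C))
    (h1 : Finite (A ⟶ S)) (h2 : Finite (B ⟶ S)) : Finite (K ⟶ S) := by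
  classical
  -- representatives of the restrictions
  have hrep : ∀ a : A ⟶ S, ∃ r : K ⟶ S, (∃ f : K ⟶ S, i ≫ f = a) → i ≫ r = a := by
    intro a
    by_cases h : ∃ f : K ⟶ S, i ≫ f = a
    · obtain ⟨f, hf⟩ := h
      exact ⟨f, fun _ => hf⟩
    · exact ⟨0, fun h' => absurd h' h⟩
  choose r hr using hrep
  refine Finite.of_surjective (fun q : (A ⟶ S) × (B ⟶ S) => r q.1 + p ≫ q.2) ?_
  intro f
  have h3 : i ≫ (f - r (i ≫ f)) = 0 := by
    rw [Preadditive.comp_sub, hr _ ⟨f, rfl⟩, sub_self]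
  obtain ⟨g, hg⟩ : ∃ g : B ⟶ S, f - r (i ≫ f) = p ≫ g := Triangle.yoneda_exact₂ _ hT _ h3
  refine ⟨(i ≫ f, g), ?_⟩
  dsimp only
  rw [← hg]
  abel

theorem finite_hom_of_tgt {A K B S : DerivedCategory C} {i : A ⟶ K} {p : K ⟶ B}
    {d : B ⟶ A⟦(1 : ℤ)⟧} (hT : Triangle.mk i p d ∈ distTriang (DerivedCategory C))
    (h1 : Finite (S ⟶ A)) (h2 : Finite (S ⟶ B)) : Finite (S ⟶ K) := by
  classical
  have hrep : ∀ a : S ⟶ B, ∃ r : S ⟶ K, (∃ f : S ⟶ K, f ≫ p = a) → r ≫ p = a := by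
    intro a
    by_cases h : ∃ f : S ⟶ K, f ≫ p = a
    · obtain ⟨f, hf⟩ := h
      exact ⟨f, fun _ => hf⟩
    · exact ⟨0, fun h' => absurd h' h⟩
  choose r hr using hrep
  refine Finite.of_surjective (fun q : (S ⟶ B) × (S ⟶ A) => r q.1 + q.2 ≫ i) ?_
  intro f
  have h3 : (f - r (f ≫ p)) ≫ p = 0 := by
    rw [Preadditive.sub_comp, hr _ ⟨f, rfl⟩, sub_self]
  obtain ⟨g, hg⟩ : ∃ g : S ⟶ A, f - r (f ≫ p) = g ≫ i := Triangle.coyoneda_exact₂ _ hT _ h3
  refine ⟨(f ≫ p, g), ?_⟩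
  dsimp only
  rw [← hg]
  abel

theorem finite_hom_of_iso {K K' L L' : DerivedCategory C} (e : K ≅ K') (e' : L ≅ L')
    (h : Finite (K' ⟶ L')) : Finite (K ⟶ L) := by
  refine Finite.of_injective (fun f => e.inv ≫ f ≫ e'.hom) ?_
  intro f g hfg
  dsimp only at hfg
  rw [cancel_epi, cancel_mono] at hfg
  exact hfg

variable [HasExt.{w'} C]

theorem finite_single {A B : C} (h : ∀ n, Finite (Ext.{w'} A B n)) (a b : ℤ) :
    Finite ((singleFunctor C a).obj A ⟶ (singleFunctor C b).obj B) := by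
  rcases lt_or_ge a b with hab | hab
  · have h0 : ∀ f : (singleFunctor C a).obj A ⟶ (singleFunctor C b).obj B, f = 0 := fun f =>
      (TStructure.t (C := C)).zero_of_isLE_of_isGE f a b hab inferInstance inferInstance
    have : Subsingleton ((singleFunctor C a).obj A ⟶ (singleFunctor C b).obj B) :=
      ⟨fun f g => by rw [h0 f, h0 g]⟩
    infer_instance
  · obtain ⟨n, hn⟩ := Int.eq_ofNat_of_zero_le (sub_nonneg.mpr hab)
    have hn' : a - b = n := hn
    have hfn := h n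
    have h1 : Finite (ShiftedHom ((singleFunctor C 0).obj A) ((singleFunctor C 0).obj B)
        (n : ℤ)) := Finite.of_surjective (fun x : Ext.{w'} A B n => x.hom)
          (fun g => Ext.homEquiv.surjective g)
    have h2 : Finite ((singleFunctor C 0).obj A ⟶ ((singleFunctor C 0).obj B)⟦(n : ℤ)⟧) := h1
    let e0 : ((singleFunctor C 0).obj B)⟦(n : ℤ)⟧ ≅ (singleFunctor C (b - a)).obj B :=
      ((singleFunctors C).shiftIso n (b - a) 0 (by lia)).app B
    let e1 : ((singleFunctor C a).obj A)⟦a⟧ ≅ (singleFunctor C 0).obj A :=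
      ((singleFunctors C).shiftIso a 0 a (by lia)).app A
    let e2 : ((singleFunctor C b).obj B)⟦a⟧ ≅ (singleFunctor C (b - a)).obj B :=
      ((singleFunctors C).shiftIso a (b - a) b (by lia)).app B
    have h3 : Finite (((singleFunctor C a).obj A)⟦a⟧ ⟶ ((singleFunctor C b).obj B)⟦a⟧) :=
      finite_hom_of_iso e1 (e2 ≪≫ e0.symm) h2
    exact Finite.of_injective (fun f => (shiftFunctor (DerivedCategory C) a).map f)
      (fun f g hfg => (shiftFunctor (DerivedCategory C) a).map_injective hfg)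

variable (P : C → Prop)

/-- bounded complexes with cohomology in `P` -/
structure InD (a b : ℤ) (K : DerivedCategory C) : Prop where
  ge : K.IsGE a
  le : K.IsLE b
  coh : ∀ i, P ((homologyFunctor C i).obj K)

variable {P}

omit [HasExt.{w'} C] in
theorem inD_trunc (hP0 : ∀ Z, IsZero Z → P Z) (hPi : ∀ A B, Nonempty (A ≅ B) → P A → P B)
    {a b n : ℤ} (han : a ≤ n + 1) (hnb : n ≤ b) {K : DerivedCategory C} (hK : InD P a b K) :
    ∃ (A B : DerivedCategory C) (_ : InD P a n A) (_ : InD P (n + 1) b B) (f : A ⟶ K) (g : K ⟶ B)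
      (h : B ⟶ A⟦(1 : ℤ)⟧), Triangle.mk f g h ∈ distTriang (DerivedCategory C) := by
  have hKge := hK.ge
  have hKle := hK.le
  obtain ⟨A, B, hA, hB, f, g, h, hT, hf, hg⟩ := der_exists_trunc K n
  have cA : ∀ i, P ((homologyFunctor C i).obj A) ∧
      (i < a → IsZero ((homologyFunctor C i).obj A)) := by
    intro i
    rcases le_or_gt i n with hi | hi
    · have := hf i hi
      have e := asIso ((homologyFunctor C i).map f)
      exact ⟨hPi _ _ ⟨e.symm⟩ (hK.coh i), fun hia => (isZero_of_isGE K a i hia).of_iso e⟩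
    · have hz : IsZero ((homologyFunctor C i).obj A) := isZero_of_isLE A n i hi
      exact ⟨hP0 _ hz, fun _ => hz⟩
  have cB : ∀ i, P ((homologyFunctor C i).obj B) ∧
      (b < i → IsZero ((homologyFunctor C i).obj B)) := by
    intro i
    rcases lt_or_ge i (n + 1) with hi | hi
    · have hz : IsZero ((homologyFunctor C i).obj B) := isZero_of_isGE B (n + 1) i hi
      exact ⟨hP0 _ hz, fun _ => hz⟩
    · have := hg i hi
      have e := asIso ((homologyFunctor C i).map g)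
      exact ⟨hPi _ _ ⟨e⟩ (hK.coh i), fun hib => (isZero_of_isLE K b i hib).of_iso e.symm⟩
  refine ⟨A, B, ⟨?_, hA, fun i => (cA i).1⟩, ⟨hB, ?_, fun i => (cB i).1⟩, f, g, h, hT⟩
  · rw [isGE_iff]
    exact fun i hi => (cA i).2 hi
  · rw [isLE_iff]
    exact fun i hi => (cB i).2 hi

omit [HasExt.{w'} C] in
theorem inD_single (hPi : ∀ A B, Nonempty (A ≅ B) → P A → P B)
    {a : ℤ} {K : DerivedCategory C} (hK : InD P a a K) :
    ∃ Y : C, P Y ∧ Nonempty (K ≅ (singleFunctor C a).obj Y) := by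
  have hKge := hK.ge
  have hKle := hK.le
  obtain ⟨Y, ⟨e⟩⟩ := exists_iso_singleFunctor_obj_of_isGE_of_isLE K a
  refine ⟨Y, ?_, ⟨e⟩⟩
  have e2 : Y ≅ (homologyFunctor C a).obj K :=
    ((singleFunctorCompHomologyFunctorIso C a).app Y).symm ≪≫
      (homologyFunctor C a).mapIso e.symm
  exact hPi _ _ ⟨e2.symm⟩ (hK.coh a)

theorem finite_hom (hP0 : ∀ Z, IsZero Z → P Z) (hPi : ∀ A B, Nonempty (A ≅ B) → P A → P B)
    (hE : ∀ A B n, P A → P B → Finite (Ext.{w'} A B n)) : ∀ (m n : ℕ) (a b : ℤ)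
      (K L : DerivedCategory C) (_ : InD P a (a + m) K) (_ : InD P b (b + n) L),
      Finite (K ⟶ L) := by
  intro m
  induction m with
  | zero =>
    intro n
    induction n with
    | zero =>
      intro a b K L hK hL
      have hK' : InD P a a K := by simpa using hK
      have hL' : InD P b b L := by simpa using hL
      obtain ⟨Y, hY, ⟨e⟩⟩ := inD_single hPi hK'
      obtain ⟨Z, hZ, ⟨e'⟩⟩ := inD_single hPi hL'
      exact finite_hom_of_iso e e' (finite_single (fun n => hE Y Z n hY hZ) a b)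
    | succ n ih =>
      intro a b K L hK hL
      obtain ⟨A, B, hA, hB, f, g, h, hT⟩ := inD_trunc hP0 hPi (n := b + n) (by lia)
        (by push_cast; lia) hL
      refine finite_hom_of_tgt hT (ih a b K A hK hA) (finite_hom_of_iso (Iso.refl K) (Iso.refl B) ?_)
      have hB' : InD P (b + n + 1) (b + n + 1) B := by
        have : b + (n + 1 : ℕ) = b + n + 1 := by push_cast; ring
        rwa [this] at hB
      have hK' : InD P a a K := by simpa using hK
      obtain ⟨Y, hY, ⟨e⟩⟩ := inD_single hPi hK'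
      obtain ⟨Z, hZ, ⟨e'⟩⟩ := inD_single hPi hB'
      exact finite_hom_of_iso e e' (finite_single (fun n => hE Y Z n hY hZ) _ _)
  | succ m ih =>
    intro n a b K L hK hL
    obtain ⟨A, B, hA, hB, f, g, h, hT⟩ := inD_trunc hP0 hPi (n := a + m) (by lia)
      (by push_cast; lia) hK
    refine finite_hom_of_src hT (ih n a b A L hA hL) ?_
    have hB' : InD P (a + m + 1) (a + m + 1) B := by
      have : a + (m + 1 : ℕ) = a + m + 1 := by push_cast; ring
      rwa [this] at hB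
    -- reduce to amplitude zero
    have key : ∀ (n : ℕ) (b : ℤ) (L : DerivedCategory C) (_ : InD P b (b + n) L),
        Finite (B ⟶ L) := by
      intro n
      induction n with
      | zero =>
        intro b L hL
        have hL' : InD P b b L := by simpa using hL
        obtain ⟨Y, hY, ⟨e⟩⟩ := inD_single hPi hB'
        obtain ⟨Z, hZ, ⟨e'⟩⟩ := inD_single hPi hL'
        exact finite_hom_of_iso e e' (finite_single (fun n => hE Y Z n hY hZ) _ _)
      | succ n ih' =>
        intro b L hL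
        obtain ⟨A', B2, hA2, hB2, f2, g2, h2, hT2⟩ := inD_trunc hP0 hPi (n := b + n) (by lia)
          (by push_cast; lia) hL
        refine finite_hom_of_tgt hT2 (ih' b A' hA2) ?_
        have hB3 : InD P (b + n + 1) (b + n + 1) B2 := by
          have : b + (n + 1 : ℕ) = b + n + 1 := by push_cast; ring
          rwa [this] at hB2
        obtain ⟨Y, hY, ⟨e⟩⟩ := inD_single hPi hB'
        obtain ⟨Z, hZ, ⟨e'⟩⟩ := inD_single hPi hB3
        exact finite_hom_of_iso e e' (finite_single (fun n => hE Y Z n hY hZ) _ _)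
    exact key n b L hL

/-- finitely many isomorphism classes -/
def FinCl (Q : DerivedCategory C → Prop) : Prop :=
  ∃ (F : Type) (_ : Finite F) (R : F → DerivedCategory C), (∀ f, Q (R f)) ∧
    ∀ K, Q K → ∃ f, Nonempty (K ≅ R f)

omit [HasExt.{w'} C] in
theorem finCl_of (Q : DerivedCategory C → Prop) (F : Type) [Finite F] (c : ∀ K, Q K → F)
    (h : ∀ K K' (hK : Q K) (hK' : Q K'), c K hK = c K' hK' → Nonempty (K ≅ K')) : FinCl Q := by
  let F' := {f : F // ∃ (K : DerivedCategory C) (hK : Q K), c K hK = f}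
  have h1 : ∀ f : F', ∃ (K : DerivedCategory C) (hK : Q K), c K hK = f.1 := fun f => f.2
  choose R hR hRc using h1
  exact ⟨F', inferInstance, R, hR, fun K hK =>
    ⟨⟨c K hK, K, hK, rfl⟩, h K _ hK (hR _) (hRc ⟨c K hK, K, hK, rfl⟩).symm⟩⟩

theorem finCl_inD (hP0 : ∀ Z, IsZero Z → P Z) (hPi : ∀ A B, Nonempty (A ≅ B) → P A → P B)
    (hE : ∀ A B n, P A → P B → Finite (Ext.{w'} A B n))
    (hI : ∃ (F : Type) (_ : Finite F) (R : F → C), (∀ f, P (R f)) ∧
      ∀ A, P A → ∃ f, Nonempty (A ≅ R f)) : ∀ (m : ℕ) (a : ℤ),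
      FinCl (InD (C := C) P a (a + m)) := by
  have hsing : ∀ a : ℤ, FinCl (InD (C := C) P a a) := by
    intro a
    obtain ⟨F, hF, R, hR, hcl⟩ := hI
    have h1 : ∀ K : DerivedCategory C, InD P a a K → ∃ f, Nonempty
        (K ≅ (singleFunctor C a).obj (R f)) := by
      intro K hK
      obtain ⟨Y, hY, ⟨e⟩⟩ := inD_single hPi hK
      obtain ⟨f, ⟨e'⟩⟩ := hcl Y hY
      exact ⟨f, ⟨e ≪≫ (singleFunctor C a).mapIso e'⟩⟩
    choose c hc using h1
    refine finCl_of _ F c fun K K' hK hK' h => ?_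
    obtain ⟨e⟩ := hc K hK
    obtain ⟨e'⟩ := hc K' hK'
    rw [h] at e
    exact ⟨e ≪≫ e'.symm⟩
  intro m
  induction m with
  | zero =>
    intro a
    simpa using hsing a
  | succ m ih =>
    intro a
    obtain ⟨F1, hF1, R1, hR1, hcl1⟩ := ih a
    obtain ⟨F2, hF2, R2, hR2, hcl2⟩ := hsing (a + m + 1)
    have h1 : ∀ K : DerivedCategory C, InD P a (a + (m + 1 : ℕ)) K →
        ∃ (p : F1 × F2) (f : R1 p.1 ⟶ K) (g : K ⟶ R2 p.2) (h : R2 p.2 ⟶ (R1 p.1)⟦(1 : ℤ)⟧),
          Triangle.mk f g h ∈ distTriang (DerivedCategory C) := by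
      intro K hK
      obtain ⟨A, B, hA, hB, f, g, h, hT⟩ := inD_trunc hP0 hPi (n := a + m) (by lia)
        (by push_cast; lia) hK
      have hB' : InD P (a + m + 1) (a + m + 1) B := by
        have : a + (m + 1 : ℕ) = a + m + 1 := by push_cast; ring
        rwa [this] at hB
      obtain ⟨f1, ⟨e1⟩⟩ := hcl1 A hA
      obtain ⟨f2, ⟨e2⟩⟩ := hcl2 B hB'
      refine ⟨(f1, f2), e1.inv ≫ f, g ≫ e2.hom, e2.inv ≫ h ≫ e1.hom⟦(1 : ℤ)⟧', ?_⟩
      refine isomorphic_distinguished _ hT _ ?_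
      refine Triangle.isoMk _ _ e1.symm (Iso.refl _) e2.symm ?_ ?_ ?_
      · change (e1.inv ≫ f) ≫ 𝟙 K = e1.inv ≫ f
        rw [Category.comp_id]
      · change (g ≫ e2.hom) ≫ e2.inv = 𝟙 K ≫ g
        rw [Category.assoc, Iso.hom_inv_id, Category.comp_id, Category.id_comp]
      · change (e2.inv ≫ h ≫ e1.hom⟦(1 : ℤ)⟧') ≫ e1.inv⟦(1 : ℤ)⟧' = e2.inv ≫ h
        rw [Category.assoc, Category.assoc, ← Functor.map_comp, Iso.hom_inv_id,
          CategoryTheory.Functor.map_id, Category.comp_id]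
    choose p f g h hT using h1
    have hfin : ∀ q : F1 × F2, Finite (R2 q.2 ⟶ (R1 q.1)⟦(1 : ℤ)⟧) := by
      intro q
      have hs : InD P (a - 1) (a - 1 + m) ((R1 q.1)⟦(1 : ℤ)⟧) := by
        have i1 := (hR1 q.1).ge
        have i2 := (hR1 q.1).le
        refine ⟨?_, ?_, ?_⟩
        · exact (TStructure.t (C := C)).isGE_shift (R1 q.1) a 1 (a - 1) (by lia)
        · exact (TStructure.t (C := C)).isLE_shift (R1 q.1) (a + m) 1 (a - 1 + m) (by lia)
        · intro i
          exact hPi _ _ ⟨((homologyFunctor C 0).shiftIso 1 i (i + 1) (by lia)).symm.app (R1 q.1)⟩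
            ((hR1 q.1).coh (i + 1))
      exact finite_hom hP0 hPi hE 0 m (a + m + 1) (a - 1) _ _ (by simpa using hR2 q.2) hs
    -- encode the finite sets of morphisms
    have henc : ∀ q : F1 × F2, ∃ (E : Type) (_ : Finite E)
        (enc : (R2 q.2 ⟶ (R1 q.1)⟦(1 : ℤ)⟧) → E), Function.Injective enc := by
      intro q
      have := hfin q
      obtain ⟨n, ⟨e⟩⟩ := Finite.exists_equiv_fin (R2 q.2 ⟶ (R1 q.1)⟦(1 : ℤ)⟧)
      exact ⟨Fin n, inferInstance, e, e.injective⟩
    choose E hE' enc henc using henc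
    refine finCl_of _ (Σ q : F1 × F2, E q) (fun K hK => ⟨p K hK, enc _ (h K hK)⟩) ?_
    intro K K' hK hK' heq
    have key : ∀ (q q' : F1 × F2) (f : R1 q.1 ⟶ K) (g : K ⟶ R2 q.2)
        (h : R2 q.2 ⟶ (R1 q.1)⟦(1 : ℤ)⟧) (f' : R1 q'.1 ⟶ K') (g' : K' ⟶ R2 q'.2)
        (h' : R2 q'.2 ⟶ (R1 q'.1)⟦(1 : ℤ)⟧)
        (_ : Triangle.mk f g h ∈ distTriang (DerivedCategory C))
        (_ : Triangle.mk f' g' h' ∈ distTriang (DerivedCategory C)),
        (⟨q, enc q h⟩ : Σ q : F1 × F2, E q) = ⟨q', enc q' h'⟩ → Nonempty (K ≅ K') := by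
      intro q q' f g h f' g' h' hT hT' heq
      have h3 : q = q' := congrArg Sigma.fst heq
      subst h3
      have h4 := henc q (eq_of_heq (Sigma.mk.inj_iff.mp heq).2)
      subst h4
      obtain ⟨φ, hφ1, hφ2⟩ := complete_distinguished_triangle_morphism₂ _ _ hT hT' (𝟙 _) (𝟙 _)
        (by
          change h ≫ (𝟙 (R1 q.1))⟦(1 : ℤ)⟧' = 𝟙 _ ≫ h
          rw [CategoryTheory.Functor.map_id, Category.comp_id, Category.id_comp])
      let Φ : Triangle.mk f g h ⟶ Triangle.mk f' g' h :=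
        { hom₁ := 𝟙 _
          hom₂ := φ
          hom₃ := 𝟙 _
          comm₁ := hφ1
          comm₂ := hφ2
          comm₃ := by
            change h ≫ (𝟙 (R1 q.1))⟦(1 : ℤ)⟧' = 𝟙 _ ≫ h
            rw [CategoryTheory.Functor.map_id, Category.comp_id, Category.id_comp] }
      have hiso : IsIso φ := isIso₂_of_isIso₁₃ Φ hT hT' (inferInstanceAs (IsIso (𝟙 (R1 q.1))))
        (inferInstanceAs (IsIso (𝟙 (R2 q.2))))
      exact ⟨@asIso _ _ K K' φ hiso⟩
    exact key _ _ _ _ _ _ _ _ (hT K hK) (hT K' hK') heq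

end

end Run7.h642
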