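import Mathlib

/-!
# Ext groups and exact functors
-/

open CategoryTheory Limits Abelian

namespace Run7.h642

universe w w' w'' v v' v'' u u' u''

section

variable {C : Type u} [Category.{v} C] [Abelian C] {D : Type u'} [Category.{v'} D] [Abelian D]
  {E : Type u''} [Category.{v''} E] [Abelian E]
  [HasExt.{w} C] [HasExt.{w'} D] [HasExt.{w''} E] [EnoughInjectives C]

omit [HasExt.{w} C] in
/-- the cokernel sequence of an embedding into an injective object -/
theorem injSeq (B : C) : (ShortComplex.mk (Injective.ι B) (cokernel.π (Injective.ι B))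
    (cokernel.condition _)).ShortExact where
  exact := ShortComplex.exact_cokernel _
  mono_f := by dsimp; infer_instance
  epi_g := by dsimp; infer_instance

/-- dimension shifting -/
theorem ext_shift (motive : ∀ (n : ℕ) (A B : C), Ext.{w} A B n → Prop)
    (h0 : ∀ (A B : C) (f : A ⟶ B), motive 0 A B (Ext.mk₀ f))
    (h1 : ∀ (S : ShortComplex C) (hS : S.ShortExact) (_ : Injective S.X₂), motive 1 _ _ hS.extClass)
    (h2 : ∀ (A B Q : C) (n : ℕ) (b : Ext.{w} A Q n) (e : Ext.{w} Q B 1), motive n A Q b →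
      motive 1 Q B e → motive (n + 1) A B (b.comp e rfl)) :
    ∀ (n : ℕ) (A B : C) (a : Ext.{w} A B n), motive n A B a := by
  intro n
  induction n with
  | zero =>
    intro A B a
    obtain ⟨a, rfl⟩ := (Ext.mk₀_bijective _ _).2 a
    exact h0 A B a
  | succ n ih =>
    intro A B a
    obtain ⟨b, hb⟩ := Ext.covariant_sequence_exact₁ A (injSeq B) a (Ext.eq_zero_of_injective _) rfl
    rw [← hb]
    exact h2 _ _ _ _ _ _ (ih _ _ b) (h1 _ (injSeq B) (by dsimp; infer_instance))

theorem ext_nat (F F' : C ⥤ D) [F.Additive] [PreservesFiniteLimits F] [PreservesFiniteColimits F]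
    [F'.Additive] [PreservesFiniteLimits F'] [PreservesFiniteColimits F'] (τ : F ⟶ F') :
    ∀ (n : ℕ) (A B : C) (a : Ext.{w} A B n),
      (a.mapExactFunctor F : Ext.{w'} _ _ n).comp (Ext.mk₀ (τ.app B)) (add_zero n) =
        (Ext.mk₀ (τ.app A)).comp (a.mapExactFunctor F') (zero_add n) := by
  apply ext_shift
  · intro A B a
    rw [Ext.mapExactFunctor_mk₀, Ext.mapExactFunctor_mk₀, Ext.mk₀_comp_mk₀, Ext.mk₀_comp_mk₀,
      τ.naturality]
  · intro S hS _
    rw [Ext.mapExactFunctor_extClass, Ext.mapExactFunctor_extClass]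
    exact ShortComplex.ShortExact.extClass_naturality.{w'} (hS.map_of_exact F)
      (hS.map_of_exact F') (S.mapNatTrans τ)
  · intro A B Q n b e hb he
    rw [Ext.mapExactFunctor_comp, Ext.mapExactFunctor_comp, Ext.comp_assoc_of_third_deg_zero, he,
      ← Ext.comp_assoc_of_second_deg_zero, hb]
    rw [Ext.comp_assoc (a₁₂ := n) (a₂₃ := n + 1) _ _ _ (by lia) (by lia) (by lia)]

theorem ext_nat_zero (F F' : C ⥤ D) [F.Additive] [PreservesFiniteLimits F]
    [PreservesFiniteColimits F]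
    [F'.Additive] [PreservesFiniteLimits F'] [PreservesFiniteColimits F'] (τ : F ≅ F') {n : ℕ}
    {A B : C} (a : Ext.{w} A B n) (h : (a.mapExactFunctor F : Ext.{w'} _ _ n) = 0) :
    (a.mapExactFunctor F' : Ext.{w'} _ _ n) = 0 := by
  have h1 := ext_nat F F' τ.hom n A B a
  rw [h, Ext.zero_comp] at h1
  have h2 : (Ext.mk₀ (τ.inv.app A)).comp ((Ext.mk₀ (τ.hom.app A)).comp
      (a.mapExactFunctor F') (zero_add n)) (zero_add n) =
      (a.mapExactFunctor F' : Ext.{w'} _ _ n) := by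
    rw [← Ext.comp_assoc_of_second_deg_zero, Ext.mk₀_comp_mk₀, Iso.inv_hom_id_app,
      Ext.mk₀_id_comp]
  rw [← h2, ← h1, Ext.comp_zero]

theorem ext_comp_fun (F : C ⥤ D) [F.Additive] [PreservesFiniteLimits F]
    [PreservesFiniteColimits F] (G : D ⥤ E)
    [G.Additive] [PreservesFiniteLimits G] [PreservesFiniteColimits G] :
    ∀ (n : ℕ) (A B : C) (a : Ext.{w} A B n),
      (a.mapExactFunctor (F ⋙ G) : Ext.{w''} _ _ n) =
        (a.mapExactFunctor F : Ext.{w'} _ _ n).mapExactFunctor G := by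
  apply ext_shift
  · intro A B a
    rw [Ext.mapExactFunctor_mk₀, Ext.mapExactFunctor_mk₀, Ext.mapExactFunctor_mk₀]
    rfl
  · intro S hS _
    exact (Ext.mapExactFunctor_extClass (F ⋙ G) hS).trans
      ((congrArg (Ext.mapExactFunctor G) (Ext.mapExactFunctor_extClass F hS)).trans
        (Ext.mapExactFunctor_extClass G (hS.map_of_exact F))).symm
  · intro A B Q n b e hb he
    rw [Ext.mapExactFunctor_comp, Ext.mapExactFunctor_comp, Ext.mapExactFunctor_comp, hb, he]

theorem ext_id_fun : ∀ (n : ℕ) (A B : C) (a : Ext.{w} A B n),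
      a.mapExactFunctor (𝟭 C) = a := by
  apply ext_shift
  · intro A B a
    rw [Ext.mapExactFunctor_mk₀]
    rfl
  · intro S hS _
    exact Ext.mapExactFunctor_extClass (𝟭 C) hS
  · intro A B Q n b e hb he
    rw [Ext.mapExactFunctor_comp, hb, he]

theorem ext_inj_fun (F : C ⥤ D) [F.Additive] [PreservesFiniteLimits F]
    [PreservesFiniteColimits F] (hF : ∀ I : C, Injective I → Injective (F.obj I)) (A : C)
    (hA : ∀ N : C, Function.Bijective (fun g : A ⟶ N => F.map g)) :
    ∀ (n : ℕ) {B : C} (a : Ext.{w} A B n) (_ : (a.mapExactFunctor F : Ext.{w'} _ _ n) = 0),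
      a = 0 := by
  intro n
  induction n with
  | zero =>
    intro B a ha
    obtain ⟨a, rfl⟩ := (Ext.mk₀_bijective _ _).2 a
    rw [Ext.mapExactFunctor_mk₀] at ha
    have h1 : F.map a = 0 := (Ext.mk₀_eq_zero_iff _).mp ha
    have h2 : a = 0 := by
      apply (hA B).1
      dsimp only
      rw [h1, F.map_zero]
    rw [h2, Ext.mk₀_zero]
  | succ n ih =>
    intro B a ha
    obtain ⟨S, hS, hI, hSB, b, hb⟩ : ∃ (S : ShortComplex C) (hS : S.ShortExact)
      (_ : Injective S.X₂) (hB : S.X₁ = B) (b : Ext.{w} A S.X₃ n), b.comp hS.extClass rfl =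
        cast (by rw [hB]) a := by
      obtain ⟨b, hb⟩ := Ext.covariant_sequence_exact₁ A (injSeq B) a
        (Ext.eq_zero_of_injective _) rfl
      exact ⟨_, injSeq B, (by dsimp; infer_instance), rfl, b, hb⟩
    subst hSB
    simp only [cast_eq] at hb
    subst hb
    have hI' : Injective (S.map F).X₂ := hF _ hI
    rw [Ext.mapExactFunctor_comp, Ext.mapExactFunctor_extClass] at ha
    obtain ⟨c, hc⟩ := Ext.covariant_sequence_exact₃ (F.obj A) (hS.map_of_exact F)
      (b.mapExactFunctor F) rfl ha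
    rcases n with _ | n
    · obtain ⟨c, rfl⟩ := (Ext.mk₀_bijective _ _).2 c
      obtain ⟨c', hc'⟩ := (hA S.X₂).2 c
      obtain ⟨b, rfl⟩ := (Ext.mk₀_bijective _ _).2 b
      have h1 : b = c' ≫ S.g := by
        apply (hA S.X₃).1
        dsimp only at hc' ⊢
        rw [F.map_comp, hc']
        apply (Ext.mk₀_bijective _ _).1
        rw [← Ext.mapExactFunctor_mk₀, ← hc]
        exact (Ext.mk₀_comp_mk₀ _ _)
      rw [h1, ← Ext.mk₀_comp_mk₀, Ext.comp_assoc_of_second_deg_zero, hS.comp_extClass,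
        Ext.comp_zero]
    · have hc0 : c = 0 := Ext.eq_zero_of_injective c
      rw [hc0, Ext.zero_comp] at hc
      rw [ih b hc.symm, Ext.zero_comp]

omit [EnoughInjectives C] in
theorem exists_lift_of_extClass {S : ShortComplex C} (hS : S.ShortExact) {A : C} (q : A ⟶ S.X₃)
    (h : (Ext.mk₀ q : Ext.{w} A S.X₃ 0).comp hS.extClass (zero_add 1) = 0) :
    ∃ l : A ⟶ S.X₂, l ≫ S.g = q := by
  obtain ⟨l, hl⟩ := Ext.covariant_sequence_exact₃ A hS (Ext.mk₀ q) (zero_add 1) h
  obtain ⟨l, rfl⟩ := (Ext.mk₀_bijective _ _).2 l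
  refine ⟨l, ?_⟩
  rw [Ext.mk₀_comp_mk₀] at hl
  exact (Ext.mk₀_bijective _ _).1 hl

omit [EnoughInjectives C] in
theorem exists_lift_of_extClass' {S : ShortComplex C} (hS : S.ShortExact) {A A' : C}
    (j : A' ⟶ A) (q : A ⟶ S.X₃)
    (h : (Ext.mk₀ j).comp ((Ext.mk₀ q : Ext.{w} A S.X₃ 0).comp hS.extClass (zero_add 1))
      (zero_add 1) = 0) :
    ∃ l : A' ⟶ S.X₂, l ≫ S.g = j ≫ q := by
  apply exists_lift_of_extClass.{w} hS
  rw [← Ext.mk₀_comp_mk₀, Ext.comp_assoc_of_second_deg_zero]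
  exact h

theorem ext_surj_fun (F : C ⥤ D) [F.Additive] [PreservesFiniteLimits F]
    [PreservesFiniteColimits F] (A : C)
    (h0 : ∀ N : C, Function.Surjective (fun g : A ⟶ N => F.map g))
    (hF : ∀ (I : C), Injective I → ∀ (n : ℕ) (a : Ext.{w'} (F.obj A) (F.obj I) (n + 1)), a = 0) :
    ∀ (n : ℕ) {B : C} (a : Ext.{w'} (F.obj A) (F.obj B) n), ∃ b : Ext.{w} A B n,
      b.mapExactFunctor F = a := by
  intro n
  induction n with
  | zero =>
    intro B a
    obtain ⟨a, rfl⟩ := (Ext.mk₀_bijective _ _).2 a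
    obtain ⟨b, hb⟩ := h0 B a
    refine ⟨Ext.mk₀ b, ?_⟩
    rw [Ext.mapExactFunctor_mk₀]
    congr 1
  | succ n ih =>
    intro B a
    obtain ⟨c, hc⟩ := Ext.covariant_sequence_exact₁ (F.obj A) ((injSeq B).map_of_exact F) a
      (hF _ inferInstance n _) rfl
    obtain ⟨b, hb⟩ := ih (B := cokernel (Injective.ι B)) c
    refine ⟨b.comp (injSeq B).extClass rfl, ?_⟩
    rw [Ext.mapExactFunctor_comp, Ext.mapExactFunctor_extClass, hb]
    exact hc

end

end Run7.h642
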