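import Pool.Agent.Run7.h929.G3.Iface

/-!
# Tools for the count of quintics

Fibres over the coordinates, residue classes, the formula of Lagrange for the leading coefficient.
-/

set_option autoImplicit false

namespace Run7.h642.Cnt

open Polynomial Run7.h929.G2 Run7.h929.G3

/-- the interval of the coordinate `i` -/
noncomputable def II (B : ℕ) (i : Fin 5) : Finset ℤ :=
  Finset.Icc (-(B : ℤ) ^ (5 - (i : ℕ))) ((B : ℤ) ^ (5 - (i : ℕ)))

theorem mem_Box {B : ℕ} {a : Fin 5 → ℤ} : a ∈ Box B ↔ ∀ i, a i ∈ II B i := by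
  simp [Box, II, Fintype.mem_piFinset]

theorem mem_II {B : ℕ} {i : Fin 5} {t : ℤ} : t ∈ II B i ↔ |t| ≤ (B : ℤ) ^ (5 - (i : ℕ)) := by
  simp [II, abs_le]

theorem card_II (B : ℕ) (i : Fin 5) : (II B i).card = 2 * B ^ (5 - (i : ℕ)) + 1 := by
  have h : ((II B i).card : ℤ) = ((2 * B ^ (5 - (i : ℕ)) + 1 : ℕ) : ℤ) := by
    rw [II, Int.card_Icc]
    have h0 : (0 : ℤ) ≤ (B : ℤ) ^ (5 - (i : ℕ)) := by positivity
    rw [Int.toNat_of_nonneg (by linarith)]
    push_cast
    ring
  exact_mod_cast h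

theorem card_II_zero (B : ℕ) : ((II B 0).card : ℝ) = 2 * (B : ℝ) ^ 5 + 1 := by
  rw [card_II]
  push_cast
  norm_num

theorem card_II_one (B : ℕ) : ((II B 1).card : ℝ) = 2 * (B : ℝ) ^ 4 + 1 := by
  rw [card_II]
  push_cast
  norm_num

theorem card_Box_pos (B : ℕ) : 0 < (Box B).card := by
  rw [Finset.card_pos]
  refine ⟨0, mem_Box.2 fun i => mem_II.2 ?_⟩
  simp

theorem update_mem {B : ℕ} {a : Fin 5 → ℤ} (ha : a ∈ Box B) {i : Fin 5} {t : ℤ}
    (ht : t ∈ II B i) : Function.update a i t ∈ Box B := by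
  rw [mem_Box] at *
  intro j
  by_cases h : j = i
  · subst h
    simpa using ht
  · simpa [Function.update_of_ne h] using ha j

open scoped Classical in
/-- counting along a coordinate -/
theorem fib (B : ℕ) (i : Fin 5) (P : (Fin 5 → ℤ) → Prop) (m : ℝ)
    (h : ∀ a ∈ Box B, (((II B i).filter fun t => P (Function.update a i t)).card : ℝ) ≤ m) :
    (((Box B).filter P).card : ℝ) * (II B i).card ≤ m * (Box B).card := by
  have h1 : (((Box B).filter P) ×ˢ (II B i)).card =
      ((Box B ×ˢ II B i).filter fun x => P (Function.update x.1 i x.2)).card := by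
    refine Finset.card_bij' (fun x _ => (Function.update x.1 i x.2, x.1 i))
      (fun x _ => (Function.update x.1 i x.2, x.1 i)) ?_ ?_ ?_ ?_
    · rintro ⟨a, t⟩ hx
      simp only [Finset.mem_product, Finset.mem_filter] at hx ⊢
      exact ⟨⟨update_mem hx.1.1 hx.2, mem_Box.1 hx.1.1 i⟩, by simpa using hx.1.2⟩
    · rintro ⟨a, t⟩ hx
      simp only [Finset.mem_product, Finset.mem_filter] at hx ⊢
      exact ⟨⟨update_mem hx.1.1 hx.1.2, hx.2⟩, mem_Box.1 hx.1.1 i⟩
    · rintro ⟨a, t⟩ hx
      simp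
    · rintro ⟨a, t⟩ hx
      simp
  have h2 : ((Box B ×ˢ II B i).filter fun x => P (Function.update x.1 i x.2)).card =
      ∑ a ∈ Box B, ((II B i).filter fun t => P (Function.update a i t)).card := by
    rw [Finset.card_filter, Finset.sum_product]
    exact Finset.sum_congr rfl fun a _ => (Finset.card_filter _ _).symm
  have h3 : (((Box B).filter P).card : ℝ) * (II B i).card =
      ∑ a ∈ Box B, (((II B i).filter fun t => P (Function.update a i t)).card : ℝ) := by
    rw [← Nat.cast_mul, ← Finset.card_product, h1, h2]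
    push_cast
    rfl
  rw [h3]
  calc _ ≤ ∑ a ∈ Box B, m := Finset.sum_le_sum h
    _ = m * (Box B).card := by rw [Finset.sum_const, nsmul_eq_mul, mul_comm]

open scoped Classical in
/-- counting along the coordinates `1` and `0` -/
theorem fib2 (B : ℕ) (P : (Fin 5 → ℤ) → Prop) (m : ℝ)
    (h : ∀ a ∈ Box B, (((II B 1 ×ˢ II B 0).filter fun t =>
      P (Function.update (Function.update a 1 t.1) 0 t.2)).card : ℝ) ≤ m) :
    (((Box B).filter P).card : ℝ) * ((II B 1).card * (II B 0).card) ≤ m * (Box B).card := by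
  have h1 : (((Box B).filter P) ×ˢ (II B 1 ×ˢ II B 0)).card =
      ((Box B ×ˢ (II B 1 ×ˢ II B 0)).filter fun x =>
        P (Function.update (Function.update x.1 1 x.2.1) 0 x.2.2)).card := by
    refine Finset.card_bij'
      (fun x _ => (Function.update (Function.update x.1 1 x.2.1) 0 x.2.2, (x.1 1, x.1 0)))
      (fun x _ => (Function.update (Function.update x.1 1 x.2.1) 0 x.2.2, (x.1 1, x.1 0)))
      ?_ ?_ ?_ ?_
    · rintro ⟨a, t⟩ hx
      simp only [Finset.mem_product, Finset.mem_filter] at hx ⊢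
      refine ⟨⟨update_mem (update_mem hx.1.1 hx.2.1) hx.2.2, mem_Box.1 hx.1.1 1,
        mem_Box.1 hx.1.1 0⟩, ?_⟩
      convert hx.1.2 using 1
      funext j
      fin_cases j <;> simp [Function.update]
    · rintro ⟨a, t⟩ hx
      simp only [Finset.mem_product, Finset.mem_filter] at hx ⊢
      exact ⟨⟨update_mem (update_mem hx.1.1 hx.1.2.1) hx.1.2.2, hx.2⟩, mem_Box.1 hx.1.1 1,
        mem_Box.1 hx.1.1 0⟩
    · rintro ⟨a, t⟩ hx
      refine Prod.ext ?_ (Prod.ext ?_ ?_)
      · funext j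
        fin_cases j <;> simp [Function.update]
      · simp [Function.update]
      · simp
    · rintro ⟨a, t⟩ hx
      refine Prod.ext ?_ (Prod.ext ?_ ?_)
      · funext j
        fin_cases j <;> simp [Function.update]
      · simp [Function.update]
      · simp
  have h2 : ((Box B ×ˢ (II B 1 ×ˢ II B 0)).filter fun x =>
        P (Function.update (Function.update x.1 1 x.2.1) 0 x.2.2)).card =
      ∑ a ∈ Box B, ((II B 1 ×ˢ II B 0).filter fun t =>
        P (Function.update (Function.update a 1 t.1) 0 t.2)).card := by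
    rw [Finset.card_filter, Finset.sum_product]
    exact Finset.sum_congr rfl fun a _ => (Finset.card_filter _ _).symm
  have h3 : (((Box B).filter P).card : ℝ) * ((II B 1).card * (II B 0).card) =
      ∑ a ∈ Box B, (((II B 1 ×ˢ II B 0).filter fun t =>
        P (Function.update (Function.update a 1 t.1) 0 t.2)).card : ℝ) := by
    rw [← Nat.cast_mul, ← Nat.cast_mul, ← Finset.card_product, ← Finset.card_product, h1, h2]
    push_cast
    rfl
  rw [h3]
  calc _ ≤ ∑ a ∈ Box B, m := Finset.sum_le_sum h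
    _ = m * (Box B).card := by rw [Finset.sum_const, nsmul_eq_mul, mul_comm]

open scoped Classical in
theorem ncard_Box (B : ℕ) (P : (Fin 5 → ℤ) → Prop) :
    {a ∈ (Box B : Set (Fin 5 → ℤ)) | P a}.ncard = ((Box B).filter P).card := by
  rw [← Set.ncard_coe_finset]
  congr 1
  ext a
  simp

/-- counting along a coordinate -/
theorem nfib (B : ℕ) (i : Fin 5) (P : (Fin 5 → ℤ) → Prop) (m : ℝ)
    (h : ∀ a ∈ Box B, ∀ T : Finset ℤ, (∀ t ∈ T, t ∈ II B i ∧ P (Function.update a i t)) →
      (T.card : ℝ) ≤ m) :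
    ({a ∈ (Box B : Set (Fin 5 → ℤ)) | P a}.ncard : ℝ) * (II B i).card ≤ m * (Box B).card := by
  classical
  rw [ncard_Box]
  exact fib B i P m fun a ha => h a ha _ fun t ht => Finset.mem_filter.1 ht

/-- counting along the coordinates `1` and `0` -/
theorem nfib2 (B : ℕ) (P : (Fin 5 → ℤ) → Prop) (m : ℝ)
    (h : ∀ a ∈ Box B, ∀ T : Finset (ℤ × ℤ), (∀ t ∈ T, t ∈ II B 1 ×ˢ II B 0 ∧
      P (Function.update (Function.update a 1 t.1) 0 t.2)) → (T.card : ℝ) ≤ m) :
    ({a ∈ (Box B : Set (Fin 5 → ℤ)) | P a}.ncard : ℝ) * ((II B 1).card * (II B 0).card) ≤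
      m * (Box B).card := by
  classical
  rw [ncard_Box]
  exact fib2 B P m fun a ha => h a ha _ fun t ht => Finset.mem_filter.1 ht

/-! ### The discriminant along the coordinate `0` -/

theorem DP_update (a : Fin 5 → ℤ) (t : ℤ) : DP (Function.update a 0 t) = DP a := by
  simp [DP]

theorem dis_update (h : S_D1) (a : Fin 5 → ℤ) (t : ℤ) :
    dis (Function.update a 0 t) = (DP a).eval t := by
  rw [← (h (Function.update a 0 t)).2.2, DP_update]
  simp

theorem dis0_update (a : Fin 5 → ℤ) (t : ℤ) :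
    dis0 (Function.update a 0 t) = (derivative (DP a)).eval t := by
  rw [dis0, DP_update]
  simp

/-! ### Residue classes -/

theorem card_congr (S : Finset ℤ) (N q : ℕ) (hq : 0 < q) (hS : ∀ t ∈ S, |t| ≤ N)
    (hc : ∀ s ∈ S, ∀ t ∈ S, (q : ℤ) ∣ s - t) : S.card ≤ 2 * N / q + 1 := by
  rcases S.eq_empty_or_nonempty with rfl | hne
  · simp
  set m := S.min' hne with hm
  have hmS : m ∈ S := S.min'_mem hne
  have hq' : (0 : ℤ) < q := by exact_mod_cast hq
  rw [← Finset.card_range (2 * N / q + 1)]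
  refine Finset.card_le_card_of_injOn (fun t => ((t - m) / q).toNat) ?_ ?_
  · intro t ht
    have ht' : t ∈ S := ht
    have h1 : m ≤ t := S.min'_le t ht'
    have h2 := abs_le.1 (hS t ht')
    have h3 := abs_le.1 (hS m hmS)
    have h4 : (t - m) / q ≤ (2 * N : ℤ) / q := Int.ediv_le_ediv hq' (by linarith)
    have h5 : 0 ≤ (t - m) / q := Int.ediv_nonneg (by linarith) hq'.le
    simp only [Finset.coe_range, Set.mem_Iio]
    have h6 : (((t - m) / q).toNat : ℤ) < ((2 * N / q + 1 : ℕ) : ℤ) := by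
      rw [Int.toNat_of_nonneg h5]
      push_cast
      linarith
    exact_mod_cast h6
  · intro s hs t ht hst
    have hs' : s ∈ S := hs
    have ht' : t ∈ S := ht
    have h1 : m ≤ s := S.min'_le s hs'
    have h2 : m ≤ t := S.min'_le t ht'
    have h3 : 0 ≤ (s - m) / q := Int.ediv_nonneg (by linarith) hq'.le
    have h4 : 0 ≤ (t - m) / q := Int.ediv_nonneg (by linarith) hq'.le
    have h5 : (s - m) / q = (t - m) / q := by
      have := congrArg (fun n : ℕ => (n : ℤ)) hst
      simpa [Int.toNat_of_nonneg h3, Int.toNat_of_nonneg h4] using this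
    have h6 := Int.ediv_mul_cancel (hc s hs' m hmS)
    have h7 := Int.ediv_mul_cancel (hc t ht' m hmS)
    rw [h5, h7] at h6
    linarith

theorem card_image {α : Type*} [DecidableEq α] (T : Finset ℤ) (N q r : ℕ) (hq : 0 < q)
    (hT : ∀ t ∈ T, |t| ≤ N) (f : ℤ → α) (hf : ∀ s ∈ T, ∀ t ∈ T, f s = f t → (q : ℤ) ∣ s - t)
    (hr : (T.image f).card ≤ r) : (T.card : ℝ) ≤ r * (2 * N / q + 1) := by
  have h1 : T.card ≤ (2 * N / q + 1) * (T.image f).card := by
    refine Finset.card_le_mul_card_image T _ fun y _ => ?_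
    refine card_congr _ N q hq (fun t ht => hT t (Finset.mem_filter.1 ht).1) ?_
    intro s hs t ht
    rw [Finset.mem_filter] at hs ht
    exact hf s hs.1 t ht.1 (hs.2.trans ht.2.symm)
  have h2 : T.card ≤ (2 * N / q + 1) * r := h1.trans (Nat.mul_le_mul_left _ hr)
  have h3 : ((2 * N / q : ℕ) : ℝ) ≤ 2 * N / q := by
    have := @Nat.cast_div_le ℝ _ _ _ (2 * N) q
    push_cast at this
    exact this
  calc (T.card : ℝ) ≤ (((2 * N / q + 1) * r : ℕ) : ℝ) := by exact_mod_cast h2
    _ = r * (((2 * N / q : ℕ) : ℝ) + 1) := by push_cast; ring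
    _ ≤ _ := by gcongr

/-- the roots modulo a prime -/
theorem card_roots (P : ℤ[X]) (p d : ℕ) [Fact p.Prime] (hd : P.natDegree ≤ d)
    (h0 : P.map (Int.castRingHom (ZMod p)) ≠ 0) (T : Finset ℤ)
    (hT : ∀ t ∈ T, (p : ℤ) ∣ P.eval t) :
    (T.image fun t : ℤ => (t : ZMod p)).card ≤ d := by
  have h1 : (T.image fun t : ℤ => (t : ZMod p)) ⊆
      (P.map (Int.castRingHom (ZMod p))).roots.toFinset := by
    intro y hy
    rw [Finset.mem_image] at hy
    obtain ⟨t, ht, rfl⟩ := hy
    rw [Multiset.mem_toFinset, mem_roots h0, IsRoot.def]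
    have h2 : ((P.eval t : ℤ) : ZMod p) = 0 := (ZMod.intCast_zmod_eq_zero_iff_dvd _ _).2 (hT t ht)
    rw [eval_map, ← h2]
    simp
  calc _ ≤ _ := Finset.card_le_card h1
    _ ≤ _ := Multiset.toFinset_card_le _
    _ ≤ _ := card_roots' _
    _ ≤ _ := natDegree_map_le
    _ ≤ d := hd

theorem map_ne_zero_of_lead (P : ℤ[X]) (p : ℕ) (h : ¬ (p : ℤ) ∣ P.leadingCoeff) :
    P.map (Int.castRingHom (ZMod p)) ≠ 0 := by
  intro h0
  apply h
  have h1 := congrArg (fun q => q.coeff P.natDegree) h0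
  simp only [coeff_map, coeff_natDegree, coeff_zero] at h1
  exact (ZMod.intCast_zmod_eq_zero_iff_dvd _ _).1 (by simpa using h1)

/-! ### The formula of Lagrange -/

theorem lagr {K : Type*} [Field K] [CharZero K] (P : ℤ[X]) (hP : P.natDegree = 4)
    (t : Fin 5 → ℤ) (ht : Function.Injective t) :
    (P.leadingCoeff : K) = ∑ i, ((P.eval (t i) : ℤ) : K) /
      ∏ j ∈ Finset.univ.erase i, ((t i : K) - (t j : K)) := by
  have h0 : P ≠ 0 := by
    rintro rfl
    simp at hP
  have hinj : Function.Injective (Int.castRingHom K) := (Int.castRingHom K).injective_int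
  have h1 : (P.map (Int.castRingHom K)).degree = 4 := by
    rw [degree_map_eq_of_injective hinj, degree_eq_natDegree h0, hP]
    rfl
  have h2 := Lagrange.leadingCoeff_eq_sum (s := (Finset.univ : Finset (Fin 5)))
    (v := fun i => (t i : K)) (P := P.map (Int.castRingHom K))
    (fun i _ j _ hij => ht (Int.cast_injective (α := K) hij)) (by rw [h1]; simp; rfl)
  rw [leadingCoeff_map_of_injective hinj] at h2
  rw [show (P.leadingCoeff : K) = Int.castRingHom K P.leadingCoeff from rfl, h2]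
  refine Finset.sum_congr rfl fun i _ => ?_
  congr 1
  simp

end Run7.h642.Cnt
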