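import Pool.Agent.Run7.h642.Prs

/-!
# The homotopy lemma
-/

open CategoryTheory TopologicalSpace Opposite TopCat Limits Abelian

namespace Run7.h642

variable {k : Type} [Field k] {X Y : TopCat.{0}}

/-- sections whose germs at a point form a basis -/
def IsBas (F : Sh k X) {r : ℕ} {U : Opens X} (s : Fin r → F.1.obj (op U)) (y : X) (hy : y ∈ U) :
    Prop := Function.Bijective (fun c : Fin r → k => ∑ i, c i • grm F y hy (s i))

theorem IsBas.finrank {F : Sh k X} {r : ℕ} {U : Opens X} {s : Fin r → F.1.obj (op U)} {y : X}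
    {hy : y ∈ U} (h : IsBas F s y hy) :
    FiniteDimensional k (F.presheaf.stalk y) ∧ Module.finrank k (F.presheaf.stalk y) = r := by
  let L : (Fin r → k) →ₗ[k] F.presheaf.stalk y :=
    { toFun := fun c => ∑ i, c i • grm F y hy (s i)
      map_add' := fun a b => by simp only [Pi.add_apply, add_smul, Finset.sum_add_distrib]
      map_smul' := fun a b => by
        simp only [Pi.smul_apply, smul_eq_mul, mul_smul, Finset.smul_sum, RingHom.id_apply] }
  let e : (Fin r → k) ≃ₗ[k] F.presheaf.stalk y := LinearEquiv.ofBijective L h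
  refine ⟨Module.Finite.equiv e, ?_⟩
  rw [← e.finrank_eq]
  simp

theorem IsBas.res {F : Sh k X} {r : ℕ} {U V : Opens X} {s : Fin r → F.1.obj (op U)} {y : X}
    {hy : y ∈ U} (h : IsBas F s y hy) (hVU : V ≤ U) (hyV : y ∈ V) :
    IsBas F (fun i => h642.res F hVU (s i)) y hyV := by
  unfold IsBas
  simp only [grm_res]
  exact h

/-- fibrewise locally constant sheaves on the cylinder -/
def FLC (N : Sh k (cyl Y)) : Prop :=
  ∀ (y : Y) (t : unitInterval), ∃ (r : ℕ) (V : Opens Y) (_ : y ∈ V) (ε : ℝ) (_ : 0 < ε)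
    (s : Fin r → N.1.obj (op (bx V (t - ε) (t + ε)))),
    ∀ (t' : unitInterval) (ht : ((y, t') : cyl Y) ∈ bx V (t - ε) (t + ε)), IsBas N s (y, t') ht

theorem mem_bx_of_abs {V : Opens Y} {y : Y} (hy : y ∈ V) {t t' : unitInterval} {ε : ℝ}
    (h : |(t' : ℝ) - t| < ε) : ((y, t') : cyl Y) ∈ bx V (t - ε) (t + ε) := by
  rw [abs_lt] at h
  refine ⟨hy, ?_, ?_⟩ <;> dsimp only <;> linarith

theorem FLC.pInj {N : Sh k (cyl Y)} (hN : FLC N) : PInj N := by
  intro y t t' V hy s h0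
  refine tube_ind (fun c => grm N ((y, c) : cyl Y) (mem_bx_full hy c) s = 0) h0 ?_ t'
  intro c
  obtain ⟨r, V1, hyV1, ε, hε, b, hb⟩ := hN y c
  have hc : ((y, c) : cyl Y) ∈ bx V1 (c - ε) (c + ε) :=
    mem_bx_of_abs hyV1 (by simpa using hε)
  obtain ⟨a, ha⟩ := (hb c hc).2 (grm N ((y, c) : cyl Y) (mem_bx_full hy c) s)
  have h1 : grm N ((y, c) : cyl Y) hc (∑ i, a i • b i) =
      grm N ((y, c) : cyl Y) (mem_bx_full hy c) s := by
    rw [← ha, map_sum]
    simp only [map_smul]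
  obtain ⟨O, i1, i2, hcO, h2⟩ := exists_res_eq_of_grm N ((y, c) : cyl Y) hc (mem_bx_full hy c) _ _ h1
  obtain ⟨V2, ε', hyV2, hε', hbx⟩ := exists_bx hcO
  refine ⟨ε', hε', fun c1 c2 h3 h4 h5 => ?_⟩
  have m1 := hbx (mem_bx_of_abs hyV2 h3)
  have m2 := hbx (mem_bx_of_abs hyV2 h4)
  have e1 := congrArg (grm N ((y, c1) : cyl Y) m1) h2
  have e2 := congrArg (grm N ((y, c2) : cyl Y) m2) h2
  rw [grm_res, grm_res] at e1 e2
  dsimp only at h5 ⊢
  rw [← e2]
  rw [h5, map_sum] at e1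
  simp only [map_smul] at e1
  have ha0 : a = 0 := by
    apply (hb c1 (i1 m1)).1
    dsimp only
    rw [e1]
    simp
  rw [ha0]
  simp

theorem FLC.surj_zero {N : Sh k (cyl Y)} (hN : FLC N) (y : Y)
    (n : N.presheaf.stalk ((y, 0) : cyl Y)) : ∃ (V : Opens Y) (hy : y ∈ V)
    (s : N.1.obj (op (bx V (-1) 2))), grm N ((y, 0) : cyl Y) (mem_bx_full hy 0) s = n := by
  have hmem : ∀ (V : Opens Y) (_ : y ∈ V) (c : unitInterval) (δ : ℝ) (_ : 0 < δ),
      ((y, 0) : cyl Y) ∈ bx V (-1) (c + δ) := by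
    intro V hy c δ hδ
    refine ⟨hy, ?_, ?_⟩
    · simp
    · have := c.2.1
      simp only [Set.Icc.coe_zero]
      linarith
  have key := tube_ind (fun c : unitInterval => ∃ (V : Opens Y) (hy : y ∈ V) (δ : ℝ) (hδ : 0 < δ)
    (s : N.1.obj (op (bx V (-1) (c + δ)))), grm N ((y, 0) : cyl Y) (hmem V hy c δ hδ) s = n)
    (a := 0) ?_ ?_ 1
  · obtain ⟨V, hy, δ, hδ, s, hs⟩ := key
    have hle : bx V (-1) 2 ≤ bx V (-1) (((1 : unitInterval) : ℝ) + δ) := by
      intro z hz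
      refine ⟨hz.1, hz.2.1, ?_⟩
      have := z.2.2.2
      simp only [Set.Icc.coe_one]
      linarith
    refine ⟨V, hy, res N hle s, ?_⟩
    rw [grm_res]
    exact hs
  · obtain ⟨O, hO, s, hs⟩ := exists_grm_eq N ((y, 0) : cyl Y) n
    obtain ⟨V, ε, hyV, hε, hbx⟩ := exists_bx hO
    have hle : bx V (-1) (((0 : unitInterval) : ℝ) + ε) ≤ O := by
      intro z hz
      apply hbx
      have h1 := z.2.2.1
      refine ⟨hz.1, ?_, hz.2.2⟩
      simp only [Set.Icc.coe_zero]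
      linarith
    refine ⟨V, hyV, ε, hε, res N hle s, ?_⟩
    rw [grm_res]
    exact hs
  · intro c
    obtain ⟨r, V1, hyV1, ε, hε, b, hb⟩ := hN y c
    refine ⟨ε, hε, fun c1 c2 h1 h2 h3 => ?_⟩
    obtain ⟨V, hyV, δ, hδ, s, hs⟩ := h3
    have m1 : ((y, c1) : cyl Y) ∈ bx V1 (c - ε) (c + ε) := mem_bx_of_abs hyV1 h1
    have m2 : ((y, c1) : cyl Y) ∈ bx V (-1) (c1 + δ) :=
      ⟨hyV, by dsimp only; linarith [c1.2.1], by dsimp only; linarith⟩
    obtain ⟨a, ha⟩ := (hb c1 m1).2 (grm N ((y, c1) : cyl Y) m2 s)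
    have e1 : grm N ((y, c1) : cyl Y) m2 s = grm N ((y, c1) : cyl Y) m1 (∑ i, a i • b i) := by
      rw [← ha, map_sum]
      simp only [map_smul]
    obtain ⟨O, i1, i2, hcO, e2⟩ := exists_res_eq_of_grm N ((y, c1) : cyl Y) m2 m1 _ _ e1
    obtain ⟨V2, δ2, hyV2, hδ2, hbx⟩ := exists_bx hcO
    rw [abs_lt] at h1 h2
    obtain ⟨δ1, hδ1, hδ1', hδ1'', hδ3, hδ4⟩ : ∃ δ1 > 0, δ1 ≤ δ ∧ δ1 ≤ δ2 ∧
        (c : ℝ) - ε ≤ c1 - δ1 ∧ (c1 : ℝ) + δ1 ≤ c + ε := by
      refine ⟨min (min δ δ2) (min ((c1 : ℝ) - c + ε) (c + ε - c1)), ?_,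
        (min_le_left _ _).trans (min_le_left _ _), (min_le_left _ _).trans (min_le_right _ _),
        ?_, ?_⟩
      · refine lt_min (lt_min hδ hδ2) (lt_min ?_ ?_) <;> linarith
      · have := (min_le_right (min δ δ2) (min ((c1 : ℝ) - c + ε) (c + ε - c1))).trans
          (min_le_left _ _)
        linarith
      · have := (min_le_right (min δ δ2) (min ((c1 : ℝ) - c + ε) (c + ε - c1))).trans
          (min_le_right _ _)
        linarith
    let V3 : Opens Y := V ⊓ V1 ⊓ V2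
    have hyV3 : y ∈ V3 := ⟨⟨hyV, hyV1⟩, hyV2⟩
    have w1 : V3 ≤ V := inf_le_left.trans inf_le_left
    have w2 : V3 ≤ V1 := inf_le_left.trans inf_le_right
    have w3 : V3 ≤ V2 := inf_le_right
    have c10 := c1.2.1
    have c11 := c1.2.2
    have j1 : bx V3 (-1) (c1 + δ1) ≤ bx V (-1) (c1 + δ) := bx_mono w1 le_rfl (by linarith)
    have j2 : bx V3 (max (-1) (c1 - δ1)) (c + ε) ≤ bx V1 (c - ε) (c + ε) :=
      bx_mono w2 (by linarith [le_max_right (-1 : ℝ) (c1 - δ1)]) le_rfl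
    obtain ⟨q, hq1, hq2⟩ := glue_box (V := V3) (a := -1) (b := c1 + δ1)
      (a' := max (-1) (c1 - δ1)) (b' := c + ε) (le_max_left _ _)
      (max_lt (by linarith) (by linarith)) (by linarith) (res N j1 s)
      (res N j2 (∑ i, a i • b i)) (by
        rw [res_res, res_res]
        have j3 : bx V3 (max (-1) (c1 - δ1)) (c1 + δ1) ≤ O :=
          (bx_mono w3 (by linarith [le_max_right (-1 : ℝ) (c1 - δ1)]) (by linarith)).trans hbx
        have e3 := congrArg (res N j3) e2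
        rw [res_res, res_res] at e3
        exact e3)
    have j4 : bx V3 (-1) (c2 + (c + ε - c2)) ≤ bx V3 (-1) (c + ε) :=
      bx_mono le_rfl le_rfl (by linarith)
    refine ⟨V3, hyV3, c + ε - c2, by linarith, res N j4 q, ?_⟩
    rw [grm_res]
    have m0 : ((y, 0) : cyl Y) ∈ bx V3 (-1) (c1 + δ1) := hmem V3 hyV3 c1 δ1 hδ1
    have e4 := congrArg (grm N ((y, 0) : cyl Y) m0) hq1
    rw [grm_res, grm_res] at e4
    rw [← hs]
    exact e4

theorem FLC.finrank_eq {N : Sh k (cyl Y)} (hN : FLC N) (y : Y) (t : unitInterval) :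
    FiniteDimensional k (N.presheaf.stalk ((y, t) : cyl Y)) ∧
    Module.finrank k (N.presheaf.stalk ((y, t) : cyl Y)) =
      Module.finrank k (N.presheaf.stalk ((y, 0) : cyl Y)) := by
  refine tube_ind (fun c => FiniteDimensional k (N.presheaf.stalk ((y, c) : cyl Y)) ∧
    Module.finrank k (N.presheaf.stalk ((y, c) : cyl Y)) =
      Module.finrank k (N.presheaf.stalk ((y, 0) : cyl Y))) (a := 0) ?_ ?_ t
  · obtain ⟨r, V1, hyV1, ε, hε, b, hb⟩ := hN y 0
    exact ⟨(hb 0 (mem_bx_of_abs hyV1 (by simpa using hε))).finrank.1, rfl⟩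
  · intro c
    obtain ⟨r, V1, hyV1, ε, hε, b, hb⟩ := hN y c
    refine ⟨ε, hε, fun c1 c2 h1 h2 h3 => ?_⟩
    have f1 := (hb c1 (mem_bx_of_abs hyV1 h1)).finrank
    have f2 := (hb c2 (mem_bx_of_abs hyV1 h2)).finrank
    exact ⟨f2.1, by rw [f2.2, ← h3.2, f1.2]⟩

theorem FLC.pSurj {N : Sh k (cyl Y)} (hN : FLC N) : PSurj N := by
  intro y t n
  have hinj : ∀ t : unitInterval, Function.Injective (pm (pr Y) N ((y, t) : cyl Y)) := by
    intro t
    rw [injective_iff_map_eq_zero]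
    intro b hb
    obtain ⟨V, hy, s, rfl⟩ := exists_grm_eq (pu (pr Y) N) y b
    have h3 := (pm_grm (pr Y) N ((y, t) : cyl Y) V hy s).symm.trans hb
    obtain ⟨V', hV', hy', h4⟩ := pInj_fib hN.pInj (y := y) hy s t h3
    have h5 : res (pu (pr Y) N) hV' s = 0 := h4
    rw [← grm_res (pu (pr Y) N) hV' y hy', h5, map_zero]
    rfl
  have hsurj0 : Function.Surjective (pm (pr Y) N ((y, 0) : cyl Y)) := by
    intro a
    obtain ⟨V, hy, s, hs⟩ := hN.surj_zero y a
    have hle : (Opens.map (pr Y)).obj V ≤ bx V (-1) 2 := (fib_eq V).le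
    refine ⟨grm (pu (pr Y) N) y hy (res N hle s), ?_⟩
    refine (pm_grm (pr Y) N ((y, 0) : cyl Y) V hy _).trans ?_
    rw [grm_res]
    exact hs
  let e0 := LinearEquiv.ofBijective (pm (pr Y) N ((y, 0) : cyl Y)) ⟨hinj 0, hsurj0⟩
  have f0 := (hN.finrank_eq y 0).1
  have ft := hN.finrank_eq y t
  have f1 := ft.1
  have fΓ : FiniteDimensional k ((pu (pr Y) N).presheaf.stalk ((pr Y) ((y, 0) : cyl Y))) :=
    Module.Finite.equiv e0.symm
  have hfr : Module.finrank k ((pu (pr Y) N).presheaf.stalk ((pr Y) ((y, 0) : cyl Y))) =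
      Module.finrank k (N.presheaf.stalk ((y, t) : cyl Y)) := by
    rw [e0.finrank_eq, ft.2]
  have hsurj : Function.Surjective (pm (pr Y) N ((y, t) : cyl Y)) :=
    (LinearMap.injective_iff_surjective_of_finrank_eq_finrank
      (f := (pm (pr Y) N ((y, t) : cyl Y))) hfr).mp (hinj t)
  obtain ⟨γ, hγ⟩ := hsurj n
  obtain ⟨V, hy, s, rfl⟩ := exists_grm_eq (pu (pr Y) N) y γ
  have h3 := (pm_grm (pr Y) N ((y, t) : cyl Y) V hy s).symm.trans hγ
  have hle : bx V (-1) 2 ≤ (Opens.map (pr Y)).obj V := (fib_eq V).ge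
  refine ⟨V, hy, res N hle s, ?_⟩
  rw [grm_res]
  exact h3

end Run7.h642
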