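import Pool.Agent.Run7.h642.Hmt

/-!
# The homotopy lemma, continued
-/

open CategoryTheory TopologicalSpace Opposite TopCat Limits Abelian

namespace Run7.h642

variable {k : Type} [Field k] {X Y : TopCat.{0}}

theorem pSurj_of_iso {N N' : Sh k (cyl Y)} (e : N ⟶ N') [IsIso e] (h : PSurj N) : PSurj N' := by
  intro y t n
  obtain ⟨m, rfl⟩ := (stk_bijective_of_isIso e ((y, t) : cyl Y)).2 n
  obtain ⟨V, hy, s, hs⟩ := h y t m
  refine ⟨V, hy, sec e _ s, ?_⟩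
  rw [← stk_grm, hs]

theorem pInj_of_iso {N N' : Sh k (cyl Y)} (e : N' ⟶ N) [IsIso e] (h : PInj N) : PInj N' := by
  intro y t t' V hy s h0
  apply (stk_bijective_of_isIso e ((y, t') : cyl Y)).1
  rw [map_zero, stk_grm]
  apply h y t t' V hy
  rw [← stk_grm, h0, map_zero]

theorem isIso_pbMap (f : Y ⟶ X) {G G' : Sh k X} (φ : G ⟶ G')
    (h : ∀ y, Function.Bijective (stk φ (f y))) : IsIso (pbMap f φ) := by
  apply isIso_of_stk
  intro y
  have h1 : Function.Bijective (stk φ (f y) ∘ pe f G y) :=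
    (h y).comp ⟨pe_injective _ _ _, pe_surjective _ _ _⟩
  have h2 : pe f G' y ∘ stk (pbMap f φ) y = stk φ (f y) ∘ pe f G y :=
    funext fun s => pe_pbMap f φ y s
  rw [← h2] at h1
  exact (Function.Bijective.of_comp_iff' ⟨pe_injective _ _ _, pe_surjective _ _ _⟩ _).mp h1

theorem isIso_pb_cutι (f : Y ⟶ X) (G : Sh k X) (U : Opens X) (h : ∀ y, f y ∈ U) :
    IsIso (pbMap f (cutι G U)) :=
  isIso_pbMap f _ fun y => stk_cutι_bijective G U (f y) (h y)

theorem isIso_pb_cutMap (f : Y ⟶ X) (G : Sh k X) {U V : Opens X} (hUV : U ≤ V)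
    (h : ∀ y, f y ∈ U) : IsIso (pbMap f (cutMap G hUV)) :=
  isIso_pbMap f _ fun y => stk_cutMap_bijective G hUV (f y) (h y)

theorem mapExact_rs {W : TopCat.{0}} (f : W ⟶ X) {G G' : Sh k X} {U V : Opens X} (hUV : U ≤ V)
    {n : ℕ} (a : Ext.{0} (cut G V) G' n) :
    ((rs hUV a).mapExactFunctor (pbF k f) : Ext.{0} _ _ n) =
      (Ext.mk₀ (pbMap f (cutMap G hUV))).comp (a.mapExactFunctor (pbF k f)) (zero_add n) := by
  unfold rs
  rw [Ext.mapExactFunctor_comp, Ext.mapExactFunctor_mk₀]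
  rfl

theorem mapExact_rs_zero {W : TopCat.{0}} (f : W ⟶ X) {G G' : Sh k X} {U V : Opens X} (hUV : U ≤ V)
    {n : ℕ} (a : Ext.{0} (cut G V) G' n) (h : (a.mapExactFunctor (pbF k f) : Ext.{0} _ _ n) = 0) :
    ((rs hUV a).mapExactFunctor (pbF k f) : Ext.{0} _ _ n) = 0 := by
  unfold rs
  rw [Ext.mapExactFunctor_comp, h, Ext.comp_zero]

theorem ext_cancel_left {C : Type*} [Category C] [Abelian C] [HasExt.{0} C] {A B N : C} {n : ℕ}
    (f : A ⟶ B) [IsIso f] (a : Ext.{0} B N n) (h : (Ext.mk₀ f).comp a (zero_add n) = 0) :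
    a = 0 := by
  have h1 : (Ext.mk₀ (inv f)).comp ((Ext.mk₀ f).comp a (zero_add n)) (zero_add n) = a := by
    rw [← Ext.comp_assoc_of_second_deg_zero, Ext.mk₀_comp_mk₀, IsIso.inv_hom_id, Ext.mk₀_id_comp]
  rw [← h1, h, Ext.comp_zero]

theorem ext_cancel_right {C : Type*} [Category C] [Abelian C] [HasExt.{0} C] {A N N' : C} {n : ℕ}
    (f : N ⟶ N') [IsIso f] (a : Ext.{0} A N n) (h : a.comp (Ext.mk₀ f) (add_zero n) = 0) :
    a = 0 := by
  have h1 : (a.comp (Ext.mk₀ f) (add_zero n)).comp (Ext.mk₀ (inv f)) (add_zero n) = a := by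
    rw [Ext.comp_assoc_of_third_deg_zero, Ext.mk₀_comp_mk₀, IsIso.hom_inv_id, Ext.comp_mk₀_id]
  rw [← h1, h, Ext.zero_comp]

/-- a class on the cylinder vanishing on one slice vanishes -/
theorem ext_cyl_eq_zero {M N : Sh k (cyl Y)} (hM : PSurj M) (hM' : PInj M) (hN : PSurj N)
    (hN' : PInj N) {n : ℕ} (a : Ext.{0} M N n) (t : unitInterval)
    (h : (a.mapExactFunctor (pbF k (it Y t)) : Ext.{0} _ _ n) = 0) : a = 0 := by
  have i1 := isIso_counit M hM hM'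
  have i2 := isIso_counit N hN hN'
  set cM := sharp (pr Y) (𝟙 (pu (pr Y) M))
  set cN := sharp (pr Y) (𝟙 (pu (pr Y) N))
  obtain ⟨b, hb⟩ := ext_pr_surjective (((Ext.mk₀ cM).comp a (zero_add n)).comp
    (Ext.mk₀ (inv cN)) (add_zero n))
  have hz : ((((Ext.mk₀ cM).comp a (zero_add n)).comp
      (Ext.mk₀ (inv cN)) (add_zero n)).mapExactFunctor (pbF k (it Y t)) : Ext.{0} _ _ n) = 0 := by
    rw [Ext.mapExactFunctor_comp, Ext.mapExactFunctor_comp, h, Ext.comp_zero,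
      Ext.zero_comp]
  have h1 : (b.mapExactFunctor (pbF k (pr Y) ⋙ pbF k (it Y t)) : Ext.{0} _ _ n) = 0 :=
    (ext_comp_fun (pbF k (pr Y)) (pbF k (it Y t)) n _ _ b).trans
      ((congrArg (Ext.mapExactFunctor (pbF k (it Y t))) hb).trans hz)
  have h2 : (b.mapExactFunctor (pbF k (𝟙 Y)) : Ext.{0} _ _ n) = 0 :=
    ext_nat_zero _ _ (pbFComp k (it Y t) (pr Y)).symm b h1
  have h3 : (b.mapExactFunctor (𝟭 (Sh k Y)) : Ext.{0} _ _ n) = 0 :=
    ext_nat_zero _ _ (pbFId k Y) b h2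
  rw [ext_id_fun] at h3
  rw [h3, Ext.mapExactFunctor_zero] at hb
  exact ext_cancel_left cM a (ext_cancel_right (inv cN) _ hb.symm)

/-- the homotopy lemma -/
theorem homotopy_ext {A U B : Opens X} (hBU : B ≤ U) (hAU : A ≤ U)
    (h : cyl (TopCat.of A) ⟶ X) (h0 : it (TopCat.of A) 0 ≫ h = jn A) (hU : ∀ z, h z ∈ U)
    (h1 : ∀ a : A, h ((a, 1) : cyl (TopCat.of A)) ∈ B) {G G' : Sh k X} (hG : FLC (pb h G))
    (hG' : FLC (pb h G')) {n : ℕ} (a : Ext.{0} (cut G U) G' n) (ha : rs hBU a = 0) :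
    rs hAU a = 0 := by
  have i1 := isIso_pb_cutι h G U hU
  have hM : PSurj (pb h (cut G U)) := pSurj_of_iso (inv (pbMap h (cutι G U))) hG.pSurj
  have hM' : PInj (pb h (cut G U)) := pInj_of_iso (pbMap h (cutι G U)) hG.pInj
  have e1 : (a.mapExactFunctor (pbF k (it (TopCat.of A) 1 ≫ h)) : Ext.{0} _ _ n) = 0 := by
    have i2 := isIso_pb_cutMap (it (TopCat.of A) 1 ≫ h) G hBU (fun y => h1 y)
    have e2 := mapExact_rs (it (TopCat.of A) 1 ≫ h) hBU a
    rw [ha, Ext.mapExactFunctor_zero] at e2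
    exact ext_cancel_left (pbMap (it (TopCat.of A) 1 ≫ h) (cutMap G hBU)) _ e2.symm
  have e3 : (a.mapExactFunctor (pbF k h ⋙ pbF k (it (TopCat.of A) 1)) : Ext.{0} _ _ n) = 0 :=
    ext_nat_zero _ _ (pbFComp k (it (TopCat.of A) 1) h) a e1
  rw [ext_comp_fun] at e3
  have e4 : (a.mapExactFunctor (pbF k h) : Ext.{0} _ _ n) = 0 :=
    ext_cyl_eq_zero hM hM' hG'.pSurj hG'.pInj _ 1 e3
  have e5 : (a.mapExactFunctor (pbF k h ⋙ pbF k (it (TopCat.of A) 0)) : Ext.{0} _ _ n) = 0 := by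
    rw [ext_comp_fun, e4, Ext.mapExactFunctor_zero]
  have e6 : (a.mapExactFunctor (pbF k (it (TopCat.of A) 0 ≫ h)) : Ext.{0} _ _ n) = 0 :=
    ext_nat_zero _ _ (pbFComp k (it (TopCat.of A) 0) h).symm a e5
  rw [h0] at e6
  apply ext_jn_injective
  exact mapExact_rs_zero (jn A) hAU a e6

/-- parallel transport along a homotopy -/
theorem exists_transport (h : cyl Y ⟶ X) {G : Sh k X} (hG : FLC (pb h G)) :
    ∃ e : pb (it Y 1 ≫ h) G ⟶ pb (it Y 0 ≫ h) G, IsIso e := by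
  have i1 := isIso_counit (pb h G) hG.pSurj hG.pInj
  set c := sharp (pr Y) (𝟙 (pu (pr Y) (pb h G)))
  have key : ∀ t : unitInterval, Nonempty (pb (it Y t ≫ h) G ≅ pb (𝟙 Y) (pu (pr Y) (pb h G))) := by
    intro t
    exact ⟨(pbFComp k (it Y t) h).app G ≪≫
      (pbF k (it Y t)).mapIso (asIso c).symm ≪≫
      ((pbFComp k (it Y t) (pr Y)).app (pu (pr Y) (pb h G))).symm⟩
  obtain ⟨e0⟩ := key 0
  obtain ⟨e1⟩ := key 1
  exact ⟨(e1 ≪≫ e0.symm).hom, inferInstance⟩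

/-- sections of the restriction to an open subspace are sections -/
theorem exists_sec_of_pb_jn (A : Opens X) (G : Sh k X) (s : (pb (jn A) G).1.obj (op ⊤)) :
    ∃ t : G.1.obj (op A), ∀ (a : A), grm G a.1 a.2 t =
      pe (jn A) G a (grm (pb (jn A) G) a (show a ∈ (⊤ : Opens (TopCat.of A)) from trivial) s) := by
  classical
  obtain ⟨t, ht⟩ := exists_section_of_grm G (U := A) (fun x => if hx : x ∈ A then
      pe (jn A) G (⟨x, hx⟩ : A) (grm (pb (jn A) G) (⟨x, hx⟩ : A)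
        (show (⟨x, hx⟩ : A) ∈ (⊤ : Opens (TopCat.of A)) from trivial) s) else 0) (by
    intro x hx
    obtain ⟨V, hV, hyV, U, hU, t, ht⟩ := pb_sec_loc (jn A) G s (⟨x, hx⟩ : A) trivial
    have e1 : im A V ≤ U := by
      rintro z ⟨y, hy, rfl⟩
      exact hU y hy
    have e2 : im A V ≤ A := by
      rintro z ⟨y, hy, rfl⟩
      exact y.2
    refine ⟨im A V, e2, mem_im.mpr ⟨hx, hyV⟩, res G e1 t, fun z hz => ?_⟩
    obtain ⟨hzA, hzV⟩ := mem_im.mp hz
    rw [grm_res, dif_pos hzA]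
    exact (ht (⟨z, hzA⟩ : A) hzV).symm)
  refine ⟨t, fun a => ?_⟩
  rw [ht a.1 a.2, dif_pos a.2]

/-- transport of sections along a homotopy -/
theorem transport_sections {A B : Opens X} (h : cyl (TopCat.of A) ⟶ X)
    (h0 : it (TopCat.of A) 0 ≫ h = jn A)
    (h1 : ∀ a : A, h ((a, 1) : cyl (TopCat.of A)) ∈ B) {G : Sh k X} (hG : FLC (pb h G)) {r : ℕ}
    (s : Fin r → G.1.obj (op B)) : ∃ t : Fin r → G.1.obj (op A), ∀ a : A,
      IsBas G s (h ((a, 1) : cyl (TopCat.of A))) (h1 a) → IsBas G t a.1 a.2 := by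
  obtain ⟨e, he⟩ := exists_transport h hG
  have key : ∀ i, ∃ t : G.1.obj (op A), ∀ a : A, ∀ (e' : pb (it (TopCat.of A) 1 ≫ h) G ⟶
      pb (jn A) G), e' = e ≫ eqToHom (by rw [h0]) → grm G a.1 a.2 t =
        pe (jn A) G a (stk e' a (grm (pb (it (TopCat.of A) 1 ≫ h) G) a
          (show a ∈ (⊤ : Opens (TopCat.of A)) from trivial)
          (pbS (it (TopCat.of A) 1 ≫ h) (s i) ⊤ (fun a _ => h1 a)))) := by
    intro i
    obtain ⟨t, ht⟩ := exists_sec_of_pb_jn A G (sec (e ≫ eqToHom (by rw [h0])) ⊤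
      (pbS (it (TopCat.of A) 1 ≫ h) (s i) ⊤ (fun a _ => h1 a)))
    refine ⟨t, fun a e' he' => ?_⟩
    rw [ht a, he', stk_grm]
  choose t ht using key
  refine ⟨t, fun a ha => ?_⟩
  set e' : pb (it (TopCat.of A) 1 ≫ h) G ⟶ pb (jn A) G := e ≫ eqToHom (by rw [h0]) with he'
  have i3 : IsIso e' := by rw [he']; infer_instance
  have hb := stk_bijective_of_isIso e' a
  let q := pe (it (TopCat.of A) 1 ≫ h) G a
  have hq : Function.Bijective q := ⟨pe_injective _ _ _, pe_surjective _ _ _⟩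
  let eq1 := LinearEquiv.ofBijective q hq
  let L : G.presheaf.stalk ((it (TopCat.of A) 1 ≫ h) a) →ₗ[k] G.presheaf.stalk (jn A a) :=
    (pe (jn A) G a).comp ((stk e' a).comp eq1.symm.toLinearMap)
  have hL : Function.Bijective L :=
    Function.Bijective.comp (g := pe (jn A) G a) ⟨pe_injective _ _ _, pe_surjective _ _ _⟩
      (hb.comp eq1.symm.bijective)
  have hLs : ∀ i, L (grm G ((it (TopCat.of A) 1 ≫ h) a) (h1 a) (s i)) = grm G a.1 a.2 (t i) := by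
    intro i
    rw [ht i a e' he']
    have e3 : eq1.symm (grm G ((it (TopCat.of A) 1 ≫ h) a) (h1 a) (s i)) =
        grm (pb (it (TopCat.of A) 1 ≫ h) G) a
          (show a ∈ (⊤ : Opens (TopCat.of A)) from trivial)
          (pbS (it (TopCat.of A) 1 ≫ h) (s i) ⊤ (fun a _ => h1 a)) := by
      rw [LinearEquiv.symm_apply_eq]
      exact (pe_pbS (it (TopCat.of A) 1 ≫ h) (s i) ⊤ (fun a _ => h1 a) a trivial).symm
    exact congrArg (fun w => pe (jn A) G a (stk e' a w)) e3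
  have h5 : (fun c : Fin r → k => ∑ i, c i • grm G a.1 a.2 (t i)) =
      L ∘ (fun c : Fin r → k => ∑ i, c i •
        grm G ((it (TopCat.of A) 1 ≫ h) a) (h1 a) (s i)) := by
    funext c
    simp only [Function.comp, map_sum, map_smul, hLs]
    rfl
  unfold IsBas
  rw [h5]
  exact hL.comp ha

/-- isomorphisms of cut-off sheaves from isomorphisms of restrictions -/
theorem cut_iso_of_pb_iso {A : Opens X} {G G' : Sh k X}
    (e : pb (jn A) G ≅ pb (jn A) G') : Nonempty (cut G A ≅ cut G' A) := by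
  have i1 := isIso_pb_cutι (jn A) G A (fun y => y.2)
  have i2 := isIso_pb_cutι (jn A) G' A (fun y => y.2)
  let e' : (pbF k (jn A)).obj (cut G A) ≅ (pbF k (jn A)).obj (cut G' A) :=
    (asIso (pbMap (jn A) (cutι G A)) : pb (jn A) (cut G A) ≅ pb (jn A) G) ≪≫ e ≪≫
      (asIso (pbMap (jn A) (cutι G' A)) : pb (jn A) (cut G' A) ≅ pb (jn A) G').symm
  obtain ⟨f, hf⟩ := (pb_jn_bijective G A (cut G' A)).2 e'.hom
  obtain ⟨g, hg⟩ := (pb_jn_bijective G' A (cut G A)).2 e'.inv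
  dsimp only at hf hg
  refine ⟨⟨f, g, ?_, ?_⟩⟩
  · apply (pb_jn_bijective G A (cut G A)).1
    dsimp only
    rw [Functor.map_comp, hf, hg, Iso.hom_inv_id, CategoryTheory.Functor.map_id]
  · apply (pb_jn_bijective G' A (cut G' A)).1
    dsimp only
    rw [Functor.map_comp, hf, hg, Iso.inv_hom_id, CategoryTheory.Functor.map_id]

/-- the homotopy lemma for objects -/
theorem homotopy_obj {A B : Opens X} (h : cyl (TopCat.of A) ⟶ X)
    (h0 : it (TopCat.of A) 0 ≫ h = jn A)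
    (h1 : ∀ a : A, h ((a, 1) : cyl (TopCat.of A)) ∈ B) {G G' : Sh k X} (hG : FLC (pb h G))
    (hG' : FLC (pb h G')) (e : cut G B ≅ cut G' B) : Nonempty (cut G A ≅ cut G' A) := by
  obtain ⟨e1, i1⟩ := exists_transport h hG
  obtain ⟨e2, i2⟩ := exists_transport h hG'
  have i3 := isIso_pb_cutι (it (TopCat.of A) 1 ≫ h) G B (fun y => h1 y)
  have i4 := isIso_pb_cutι (it (TopCat.of A) 1 ≫ h) G' B (fun y => h1 y)
  have e3 : pb (it (TopCat.of A) 1 ≫ h) G ≅ pb (it (TopCat.of A) 1 ≫ h) G' :=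
    (asIso (pbMap (it (TopCat.of A) 1 ≫ h) (cutι G B)) : pb (it (TopCat.of A) 1 ≫ h) (cut G B) ≅
        pb (it (TopCat.of A) 1 ≫ h) G).symm ≪≫
      (pbF k (it (TopCat.of A) 1 ≫ h)).mapIso e ≪≫
      (asIso (pbMap (it (TopCat.of A) 1 ≫ h) (cutι G' B)) :
        pb (it (TopCat.of A) 1 ≫ h) (cut G' B) ≅ pb (it (TopCat.of A) 1 ≫ h) G')
  have e4 : pb (it (TopCat.of A) 0 ≫ h) G ≅ pb (it (TopCat.of A) 0 ≫ h) G' :=
    (asIso e1).symm ≪≫ e3 ≪≫ asIso e2
  rw [h0] at e4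
  exact cut_iso_of_pb_iso e4

end Run7.h642
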