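import Pool.Agent.Run7.h642.Obj

/-!
# Constructible sheaves and local finiteness
-/

open CategoryTheory TopologicalSpace Opposite TopCat Limits Abelian

namespace Run7.h642

variable {k : Type} [Field k] {X : TopCat.{0}} {ι : Type}

/-- sheaves locally constant of bounded rank along the level sets of `σ` -/
def Cons (σ : X → ι) (N : ℕ) (G : Sh k X) : Prop :=
  ∀ x : X, ∃ (r : ℕ) (_ : r ≤ N) (U : Opens X) (_ : x ∈ U) (s : Fin r → G.1.obj (op U)),
    ∀ (y : X) (hy : y ∈ U), σ y = σ x → IsBas G s y hy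

theorem co_bijective (r : ℕ) (U : Opens X) (y : X) (hy : y ∈ U) :
    Function.Bijective (co (k := k) r U y) := by
  refine ⟨co_injective r U y, ?_⟩
  intro c
  obtain ⟨b, hb⟩ := cstEv_surjective (k := k) (X := X) r y c
  obtain ⟨a, ha⟩ := stk_cutι_surjective (cst k X r) U y hy b
  exact ⟨a, by rw [co_apply, ha, hb]⟩

theorem stk_fromSec_bijective {G : Sh k X} {r : ℕ} {U : Opens X} {s : Fin r → G.1.obj (op U)}
    {y : X} {hy : y ∈ U} (h : IsBas G s y hy) : Function.Bijective (stk (fromSec s) y) := by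
  have h1 : ⇑(stk (fromSec s) y) =
      (fun c : Fin r → k => ∑ i, c i • grm G y hy (s i)) ∘ co r U y := by
    funext x
    exact stk_fromSec s y hy x
  rw [h1]
  exact h.comp (co_bijective r U y hy)

theorem cst_cons (σ : X → ι) (r : ℕ) : Cons σ r (cst k X r) := by
  intro x
  refine ⟨r, le_rfl, ⊤, trivial, fun i => cstSec r (Pi.single i 1), fun y hy _ => ?_⟩
  have h1 : (cstEv (k := k) (X := X) r y) ∘ (fun c : Fin r → k => ∑ i, c i •
      grm (cst k X r) y hy (cstSec r (Pi.single i 1))) = id := by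
    funext c
    simp only [Function.comp, map_sum, map_smul]
    have h2 : ∀ i, cstEv (k := k) (X := X) r y
        (grm (cst k X r) y hy (cstSec r (Pi.single i 1))) = Pi.single i 1 :=
      fun i => cstEv_sec r (Pi.single i 1) y
    simp only [h2]
    funext j
    simp [Finset.sum_apply, Pi.single_apply]
  have h3 : Function.Bijective (cstEv (k := k) (X := X) r y) :=
    ⟨cstEv_injective r y, cstEv_surjective r y⟩
  exact (Function.Bijective.of_comp_iff' h3 _).mp (h1 ▸ Function.bijective_id)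

theorem Cons.flc {Y : TopCat.{0}} {σ : X → ι} {N : ℕ} {G : Sh k X} (hG : Cons σ N G)
    (h : cyl Y ⟶ X) (hσ : ∀ (y : Y) (t t' : unitInterval),
      σ (h ((y, t) : cyl Y)) = σ (h ((y, t') : cyl Y))) : FLC (pb h G) := by
  intro y t
  obtain ⟨r, -, U, hxU, s, hs⟩ := hG (h ((y, t) : cyl Y))
  obtain ⟨V, ε, hyV, hε, hbx⟩ := exists_bx (O := (Opens.map h).obj U) (y := y) (c := t) hxU
  refine ⟨r, V, hyV, ε, hε, fun i => pbS h (s i) (bx V (t - ε) (t + ε)) (fun z hz => hbx hz),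
    fun t' ht => ?_⟩
  have h1 := hs (h ((y, t') : cyl Y)) (hbx ht) (hσ y t' t)
  have h2 : pe h G ((y, t') : cyl Y) ∘ (fun c : Fin r → k => ∑ i, c i •
      grm (pb h G) ((y, t') : cyl Y) ht (pbS h (s i) (bx V (t - ε) (t + ε)) (fun z hz => hbx hz))) =
      (fun c : Fin r → k => ∑ i, c i • grm G (h ((y, t') : cyl Y)) (hbx ht) (s i)) := by
    funext c
    simp only [Function.comp, map_sum, map_smul]
    refine Finset.sum_congr rfl fun i _ => ?_
    congr 1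
    exact pe_pbS h (s i) _ _ _ ht
  unfold IsBas at h1
  rw [← h2] at h1
  exact (Function.Bijective.of_comp_iff' ⟨pe_injective _ _ _, pe_surjective _ _ _⟩ _).mp h1

/-- good neighbourhoods of a point -/
structure Good [PartialOrder ι] (σ : X → ι) (x : X) (𝒩 : Set (Opens X)) (O : Opens X) : Prop where
  mem : ∀ Ω ∈ 𝒩, x ∈ Ω
  basis : ∀ U : Opens X, x ∈ U → ∃ Ω ∈ 𝒩, Ω ≤ U
  inside : ∀ Ω ∈ 𝒩, ∀ y ∈ Ω, y ∉ O → σ y = σ x
  outside : ∀ Ω ∈ 𝒩, ∀ y ∈ Ω, y ∈ O → σ x < σ y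
  contract : ∀ Ω ∈ 𝒩, ∀ V : Opens X, x ∈ V → ∃ h : cyl (TopCat.of Ω) ⟶ X,
    it (TopCat.of Ω) 0 ≫ h = jn Ω ∧ (∀ z, h z ∈ Ω) ∧
    (∀ (a : Ω) (t : unitInterval), σ (h ((a, t) : cyl (TopCat.of Ω))) = σ a.1) ∧
    ∀ a : Ω, h ((a, 1) : cyl (TopCat.of Ω)) ∈ V
  stretch : ∀ Ω ∈ 𝒩, ∃ Ω' ∈ 𝒩, Ω' ≤ Ω ∧ ∃ K : Set X, IsCompact K ∧ K ⊆ ((Ω ⊓ O : Opens X) : Set X) ∧
    ∃ h : cyl (TopCat.of (Ω' ⊓ O : Opens X)) ⟶ X,
    it (TopCat.of (Ω' ⊓ O : Opens X)) 0 ≫ h = jn (Ω' ⊓ O) ∧ (∀ z, h z ∈ Ω ⊓ O) ∧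
    (∀ (a : (Ω' ⊓ O : Opens X)) (t : unitInterval),
      σ (h ((a, t) : cyl (TopCat.of (Ω' ⊓ O : Opens X)))) = σ a.1) ∧
    ∀ a : (Ω' ⊓ O : Opens X), h ((a, 1) : cyl (TopCat.of (Ω' ⊓ O : Opens X))) ∈ K

theorem finIm_of_ker {G N : Sh k X} {n : ℕ} {U V A : Opens X} (hV : V ≤ U) (hA : A ≤ U)
    (h : FinIm G N n hV) (hker : ∀ a : Ext.{0} (cut G U) N n, rs hV a = 0 → rs hA a = 0) :
    FinIm G N n hA := by
  have := finite_range_of_ladder (AddMonoidHom.id _) (pre (cutMap G hV) N n)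
    (pre (cutMap G hA) N n) h (by
      apply (Set.finite_singleton (0 : Ext.{0} (cut G A) N n)).subset
      rintro _ ⟨e, he, rfl⟩
      exact hker e he)
  exact this

section stretchfin

variable [CompactSpace X] [T2Space X] [PartialOrder ι] {σ : X → ι} {x : X} {𝒩 : Set (Opens X)}
  {O : Opens X}

theorem stretch_finIm (hg : Good σ x 𝒩 O)
    (ih : ∀ y : X, σ x < σ y → ∀ (N N' : ℕ) (G G' : Sh k X), Cons σ N G → Cons σ N' G' →
      LFin G G' y) {Ω : Opens X} (hΩ : Ω ∈ 𝒩) :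
    ∃ (Ω' : Opens X) (_ : Ω' ∈ 𝒩) (h : Ω' ≤ Ω), ∀ (N N' : ℕ) (G G' : Sh k X) (n : ℕ),
      Cons σ N G → Cons σ N' G' → FinIm G G' n (inf_le_inf_right O h) := by
  obtain ⟨Ω', hΩ', hle, K, hK, hKO, h, h0, hU, hσ, hK1⟩ := hg.stretch Ω hΩ
  refine ⟨Ω', hΩ', hle, fun N N' G G' n hG hG' => ?_⟩
  obtain ⟨V, hV, hKV, hfin⟩ := wilder n (G := G) (N := G') (U := Ω ⊓ O)
    (fun y hy => ih y (hg.outside Ω hΩ y hy.1 hy.2) N N' G G' hG hG') hK hKO
  have hσ' : ∀ (y : TopCat.of (Ω' ⊓ O : Opens X)) (t t' : unitInterval),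
      σ (h ((y, t) : cyl _)) = σ (h ((y, t') : cyl _)) := fun y t t' => by
    rw [hσ y t, hσ y t']
  refine finIm_of_ker hV _ hfin fun a ha => ?_
  exact homotopy_ext hV (inf_le_inf_right O hle) h h0 hU (fun a => hKV (hK1 a))
    (hG.flc h hσ') (hG'.flc h hσ') a ha

omit [CompactSpace X] [T2Space X] in
theorem cst_ext_eq_zero (hg : Good σ x 𝒩 O) {Ω : Opens X} (hΩ : Ω ∈ 𝒩) {N : ℕ} {G' : Sh k X}
    (hG' : Cons σ N G') {r n : ℕ} (a : Ext.{0} (cut (cst k X r) Ω) G' n) (V : Opens X)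
    (hV : V ≤ Ω) (hxV : x ∈ V) (ha : rs hV a = 0) : a = 0 := by
  obtain ⟨h, h0, hU, hσ, h1⟩ := hg.contract Ω hΩ V hxV
  have hσ' : ∀ (y : TopCat.of Ω) (t t' : unitInterval),
      σ (h ((y, t) : cyl _)) = σ (h ((y, t') : cyl _)) := fun y t t' => by
    rw [hσ y t, hσ y t']
  have := homotopy_ext hV (le_refl Ω) h h0 hU h1 ((cst_cons σ r).flc h hσ') (hG'.flc h hσ') a ha
  rwa [rs_self] at this

omit [CompactSpace X] [T2Space X] in
theorem cst_ext_finite [Finite k] (hg : Good σ x 𝒩 O) {Ω : Opens X} (hΩ : Ω ∈ 𝒩) {N : ℕ}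
    {G' : Sh k X} (hG' : Cons σ N G') (r n : ℕ) : Finite (Ext.{0} (cut (cst k X r) Ω) G' n) := by
  rcases n with _ | n
  · obtain ⟨r', -, U, hxU, s, hs⟩ := hG' x
    have hb := (hs x hxU rfl).finrank
    have hfd := hb.1
    have hfin : Finite (G'.presheaf.stalk x) := Module.finite_of_finite k
    let Φ : (cut (cst k X r) Ω ⟶ G') → (Fin r → G'.presheaf.stalk x) := fun a i =>
      grm G' x (hg.mem Ω hΩ) (toSec a i)
    have hΦ : Function.Injective Φ := by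
      intro f g hfg
      have h1 : ∀ i, ∃ (V : Opens X) (hV : V ≤ Ω), x ∈ V ∧
          res G' hV (toSec f i) = res G' hV (toSec g i) := by
        intro i
        obtain ⟨V, i1, i2, hxV, h2⟩ := exists_res_eq_of_grm G' x (hg.mem Ω hΩ) (hg.mem Ω hΩ)
          (toSec f i) (toSec g i) (congrFun hfg i)
        exact ⟨V, i1, hxV, h2⟩
      choose V hV hxV hres using h1
      let V0 : Opens X := ⟨(⋂ i, (V i : Set X)) ∩ Ω,
        (isOpen_iInter_of_finite fun i => (V i).2).inter Ω.2⟩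
      have hV0 : V0 ≤ Ω := fun z hz => hz.2
      have hV0i : ∀ i, V0 ≤ V i := fun i z hz => Set.mem_iInter.mp hz.1 i
      have h3 : cutMap (cst k X r) hV0 ≫ (f - g) = 0 := by
        rw [Preadditive.comp_sub, sub_eq_zero]
        apply hom_ext_toSec
        intro i
        rw [toSec_cutMap, toSec_cutMap]
        have := congrArg (res G' (hV0i i)) (hres i)
        rw [res_res, res_res] at this
        exact this
      have h4 : (Ext.mk₀ (f - g) : Ext.{0} (cut (cst k X r) Ω) G' 0) = 0 := by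
        apply cst_ext_eq_zero hg hΩ hG' _ V0 hV0 ⟨Set.mem_iInter.mpr hxV, hg.mem Ω hΩ⟩
        unfold rs
        rw [Ext.mk₀_comp_mk₀, h3, Ext.mk₀_zero]
      exact sub_eq_zero.mp ((Ext.mk₀_eq_zero_iff _).mp h4)
    have : Finite (cut (cst k X r) Ω ⟶ G') := Finite.of_injective Φ hΦ
    exact Finite.of_surjective _ (Ext.mk₀_bijective _ _).2
  · have : Subsingleton (Ext.{0} (cut (cst k X r) Ω) G' (n + 1)) := by
      constructor
      have h0 : ∀ a : Ext.{0} (cut (cst k X r) Ω) G' (n + 1), a = 0 := by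
        intro a
        obtain ⟨V, hV, hxV, ha⟩ := local_vanishing n (hg.mem Ω hΩ) a
        exact cst_ext_eq_zero hg hΩ hG' a V hV hxV ha
      intro a b
      rw [h0 a, h0 b]
    infer_instance

end stretchfin

section locsq

/-- the comparison map on `Ω` -/
noncomputable def lg {G : Sh k X} {r : ℕ} {Ω : Opens X} (s : Fin r → G.1.obj (op Ω)) :
    cut (cst k X r) Ω ⟶ cut G Ω :=
  cutLift (fromSec s) (fun y hy t => by rw [cut_stalk_eq_zero _ Ω y hy t, map_zero])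

@[reassoc]
theorem lg_ι {G : Sh k X} {r : ℕ} {Ω : Opens X} (s : Fin r → G.1.obj (op Ω)) :
    lg s ≫ cutι G Ω = fromSec s := cutLift_ι _ _

/-- the comparison map on `Ω ⊓ O` -/
noncomputable def lf {G : Sh k X} {r : ℕ} {Ω : Opens X} (O : Opens X)
    (s : Fin r → G.1.obj (op Ω)) :
    cut (cst k X r) (Ω ⊓ O) ⟶ cut G (Ω ⊓ O) :=
  cutLift (cutMap (cst k X r) (inf_le_left : Ω ⊓ O ≤ Ω) ≫ fromSec s)
    (fun y hy t => by rw [cut_stalk_eq_zero _ (Ω ⊓ O) y hy t, map_zero])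

@[reassoc]
theorem lf_ι {G : Sh k X} {r : ℕ} {Ω : Opens X} (O : Opens X) (s : Fin r → G.1.obj (op Ω)) :
    lf O s ≫ cutι G (Ω ⊓ O) = cutMap (cst k X r) (inf_le_left : Ω ⊓ O ≤ Ω) ≫ fromSec s :=
  cutLift_ι _ _

/-- the local square of a constructible sheaf -/
noncomputable def lsq {G : Sh k X} {r : ℕ} {Ω O : Opens X} (s : Fin r → G.1.obj (op Ω))
    (hs : ∀ (y : X) (hy : y ∈ Ω), y ∉ O → IsBas G s y hy) : Sq (Sh k X) :=
  sqMk (cutMap (cst k X r) (inf_le_left : Ω ⊓ O ≤ Ω)) (lf O s)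
    (lg s) (cutMap G (inf_le_left : Ω ⊓ O ≤ Ω))
    (by
      apply cut_hom_ext
      rw [Category.assoc, lg_ι, Category.assoc, cutMap_ι, lf_ι])
    (by
      intro y b p h
      by_cases hyO : y ∈ Ω ⊓ O
      · exact (stk_cutMap_bijective _ (inf_le_left : Ω ⊓ O ≤ Ω) y hyO).2 b
      · by_cases hyΩ : y ∈ Ω
        · have hb := stk_fromSec_bijective (hs y hyΩ (fun h => hyO ⟨hyΩ, h⟩))
          have hp : p = 0 := cut_stalk_eq_zero G (Ω ⊓ O) y hyO p
          rw [hp, map_zero] at h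
          have h2 : stk (fromSec s) y b = 0 := by
            rw [← lg_ι s, stk_comp, h, map_zero]
          have hb0 : b = 0 := hb.1 (by rw [h2, map_zero])
          exact ⟨0, by rw [hb0, map_zero]⟩
        · exact ⟨0, by rw [cut_stalk_eq_zero _ Ω y hyΩ b, map_zero]⟩)
    (by
      intro y d
      by_cases hyO : y ∈ Ω ⊓ O
      · obtain ⟨p, hp⟩ := (stk_cutMap_bijective G (inf_le_left : Ω ⊓ O ≤ Ω) y hyO).2 d
        exact ⟨0, p, by rw [hp, map_zero, zero_add]⟩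
      · by_cases hyΩ : y ∈ Ω
        · have hb := stk_fromSec_bijective (hs y hyΩ (fun h => hyO ⟨hyΩ, h⟩))
          obtain ⟨b, hb⟩ := hb.2 (stk (cutι G Ω) y d)
          refine ⟨b, 0, ?_⟩
          rw [map_zero, add_zero]
          apply stk_cutι_injective G Ω y
          rw [← stk_comp, lg_ι, hb]
        · exact ⟨0, 0, by
            rw [map_zero, map_zero, add_zero, cut_stalk_eq_zero _ Ω y hyΩ d]⟩)

/-- restriction of local squares -/
noncomputable def lsqMap {G : Sh k X} {r : ℕ} {Ω Ω' O : Opens X} (s : Fin r → G.1.obj (op Ω))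
    (hs : ∀ (y : X) (hy : y ∈ Ω), y ∉ O → IsBas G s y hy) (s' : Fin r → G.1.obj (op Ω'))
    (hs' : ∀ (y : X) (hy : y ∈ Ω'), y ∉ O → IsBas G s' y hy) (h : Ω' ≤ Ω)
    (hss' : ∀ i, res G h (s i) = s' i) : SqHom (lsq s' hs') (lsq s hs) where
  a := cutMap (cst k X r) (inf_le_inf_right O h)
  b := cutMap (cst k X r) h
  p := cutMap G (inf_le_inf_right O h)
  d := cutMap G h
  hi := (cutMap_comp (cst k X r) (inf_le_left : Ω' ⊓ O ≤ Ω') h).trans
    (cutMap_comp (cst k X r) (inf_le_inf_right O h) (inf_le_left : Ω ⊓ O ≤ Ω)).symm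
  hg := by
    have key : lg s' ≫ cutMap G h = cutMap (cst k X r) h ≫ lg s := by
      apply cut_hom_ext
      rw [Category.assoc, cutMap_ι, lg_ι, Category.assoc, lg_ι, cutMap_fromSec]
      congr 1
      funext i
      exact (hss' i).symm
    exact key
  hj := (cutMap_comp G (inf_le_left : Ω' ⊓ O ≤ Ω') h).trans
    (cutMap_comp G (inf_le_inf_right O h) (inf_le_left : Ω ⊓ O ≤ Ω)).symm

/-- gluing isomorphisms across a stratum -/
theorem glueLoc {G G' : Sh k X} {r : ℕ} {Ω O : Opens X} (s : Fin r → G.1.obj (op Ω))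
    (hs : ∀ (y : X) (hy : y ∈ Ω), y ∉ O → IsBas G s y hy) (s' : Fin r → G'.1.obj (op Ω))
    (hs' : ∀ (y : X) (hy : y ∈ Ω), y ∉ O → IsBas G' s' y hy)
    (e : cut G (Ω ⊓ O) ≅ cut G' (Ω ⊓ O)) (h : lf O s ≫ e.hom = lf O s') :
    Nonempty (cut G Ω ≅ cut G' Ω) := by
  have key : cutMap (cst k X r) (inf_le_left : Ω ⊓ O ≤ Ω) ≫ fromSec s' =
      lf O s ≫ e.hom ≫ cutι G' (Ω ⊓ O) := by
    rw [reassoc_of% h, lf_ι]
  obtain ⟨c, hc1, hc2⟩ := (lsq s hs).exists_desc (fromSec s') (e.hom ≫ cutι G' (Ω ⊓ O)) key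
  have hc1' : lg s ≫ c = fromSec s' := hc1
  obtain ⟨e', -⟩ := isIso_cutLift (V := Ω) (G := G) (G' := G') c (by
    intro y hy
    by_cases hyO : y ∈ Ω ⊓ O
    · have h1 := stk_cutMap_bijective G (inf_le_left : Ω ⊓ O ≤ Ω) y hyO
      have hc2' : cutMap G (inf_le_left : Ω ⊓ O ≤ Ω) ≫ c = e.hom ≫ cutι G' (Ω ⊓ O) := hc2
      have h2 : Function.Bijective (stk (cutMap G (inf_le_left : Ω ⊓ O ≤ Ω) ≫ c) y) := by
        rw [hc2']
        have h4 : stk (e.hom ≫ cutι G' (Ω ⊓ O)) y = stk (cutι G' (Ω ⊓ O)) y ∘ stk e.hom y := by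
          funext s
          exact stk_comp _ _ _ _
        rw [h4]
        exact (stk_cutι_bijective G' (Ω ⊓ O) y hyO).comp (stk_bijective_of_isIso e.hom y)
      have h5 : stk (cutMap G (inf_le_left : Ω ⊓ O ≤ Ω) ≫ c) y =
          stk c y ∘ stk (cutMap G (inf_le_left : Ω ⊓ O ≤ Ω)) y := by
        funext s
        exact stk_comp _ _ _ _
      rw [h5] at h2
      exact (Function.Bijective.of_comp_iff _ h1).mp h2
    · have hyO' : y ∉ O := fun h => hyO ⟨hy, h⟩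
      have h1 := stk_fromSec_bijective (hs y hy hyO')
      have h2 := stk_fromSec_bijective (hs' y hy hyO')
      have h3 : Function.Bijective (stk (lg s) y) := by
        rw [← lg_ι s] at h1
        have h4 : stk (lg s ≫ cutι G Ω) y = stk (cutι G Ω) y ∘ stk (lg s) y := by
          funext s
          exact stk_comp _ _ _ _
        rw [h4] at h1
        exact (Function.Bijective.of_comp_iff' (stk_cutι_bijective G Ω y hy) _).mp h1
      rw [← hc1'] at h2
      have h5 : stk (lg s ≫ c) y = stk c y ∘ stk (lg s) y := by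
        funext s
        exact stk_comp _ _ _ _
      rw [h5] at h2
      exact (Function.Bijective.of_comp_iff _ h3).mp h2)
  exact ⟨e'⟩

end locsq

end Run7.h642
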