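import Pool.Agent.Run7.h642.Local

/-!
# Local finiteness theorems
-/

open CategoryTheory TopologicalSpace Opposite TopCat Limits Abelian

namespace Run7.h642

variable {k : Type} [Field k] {X : TopCat.{0}} {ι : Type} [CompactSpace X] [T2Space X]
  [PartialOrder ι] {σ : X → ι} {x : X} {𝒩 : Set (Opens X)} {O : Opens X}

theorem lfin_of_good [Finite k] (hg : Good σ x 𝒩 O)
    (ih : ∀ y : X, σ x < σ y → ∀ (N N' : ℕ) (G G' : Sh k X), Cons σ N G → Cons σ N' G' →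
      LFin G G' y) {N N' : ℕ} {G G' : Sh k X} (hG : Cons σ N G) (hG' : Cons σ N' G') :
    LFin G G' x := by
  intro m U hxU
  obtain ⟨r, -, U1, hxU1, s, hs⟩ := hG x
  obtain ⟨Ω0, hΩ0, hle0⟩ := hg.basis (U ⊓ U1) ⟨hxU, hxU1⟩
  obtain ⟨Ω1, hΩ1, hle1, hf1⟩ := stretch_finIm hg ih hΩ0
  obtain ⟨Ω2, hΩ2, hle2, hf2⟩ := stretch_finIm hg ih hΩ1
  have h01 : Ω0 ≤ U1 := hle0.trans inf_le_right
  let s0 : Fin r → G.1.obj (op Ω0) := fun i => res G h01 (s i)
  let s1 : Fin r → G.1.obj (op Ω1) := fun i => res G (hle1.trans h01) (s i)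
  let s2 : Fin r → G.1.obj (op Ω2) := fun i => res G ((hle2.trans hle1).trans h01) (s i)
  have hs0 : ∀ (y : X) (hy : y ∈ Ω0), y ∉ O → IsBas G s0 y hy := fun y hy hyO =>
    (hs y (h01 hy) (hg.inside Ω0 hΩ0 y hy hyO)).res h01 hy
  have hs1 : ∀ (y : X) (hy : y ∈ Ω1), y ∉ O → IsBas G s1 y hy := fun y hy hyO =>
    (hs y (hle1.trans h01 hy) (hg.inside Ω1 hΩ1 y hy hyO)).res (hle1.trans h01) hy
  have hs2 : ∀ (y : X) (hy : y ∈ Ω2), y ∉ O → IsBas G s2 y hy := fun y hy hyO =>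
    (hs y ((hle2.trans hle1).trans h01 hy) (hg.inside Ω2 hΩ2 y hy hyO)).res
      ((hle2.trans hle1).trans h01) hy
  have hlad := ladder (lsqMap s0 hs0 s1 hs1 hle1 (fun i => res_res G _ _ _))
    (lsqMap s1 hs1 s2 hs2 hle2 (fun i => res_res G _ _ _)) G' m
    (hf1 N N' G G' m hG hG') (by
      have : Finite (Ext.{0} (lsq s0 hs0).B G' m) := cst_ext_finite hg hΩ0 hG' r m
      exact Set.finite_range _)
    (fun n _ => hf2 r N' (cst k X r) G' n (cst_cons σ r) hG')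
  have h6 : (lsqMap s1 hs1 s2 hs2 hle2 (fun i => res_res G _ _ _)).d ≫
      (lsqMap s0 hs0 s1 hs1 hle1 (fun i => res_res G _ _ _)).d =
        cutMap G (hle2.trans hle1) := cutMap_comp G hle2 hle1
  rw [h6] at hlad
  have h7 : FinIm G G' m (hle2.trans hle1) := hlad
  exact ⟨Ω2, (hle2.trans hle1).trans (hle0.trans inf_le_left), hg.mem Ω2 hΩ2,
    h7.mono (hle0.trans inf_le_left) le_rfl⟩

theorem finOb_of_good [Finite k] (hg : Good σ x 𝒩 O) {N : ℕ}
    (ih : ∀ y : X, σ x < σ y → ∀ (N N' : ℕ) (G G' : Sh k X), Cons σ N G → Cons σ N' G' →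
      LFin G G' y)
    (ih' : ∀ y : X, σ x < σ y → ∃ V : Opens X, y ∈ V ∧ FinOb (Cons (k := k) σ N) V) :
    ∃ V : Opens X, x ∈ V ∧ FinOb (Cons (k := k) σ N) V := by
  obtain ⟨Ω0, hΩ0, -⟩ := hg.basis ⊤ trivial
  obtain ⟨Ω1, hΩ1, hle1, K, hK, hKO, h, h0, hU, hσ, hK1⟩ := hg.stretch Ω0 hΩ0
  obtain ⟨Ω2, hΩ2, hle2, hf2⟩ := stretch_finIm hg ih hΩ1
  -- classification on the punctured neighbourhood
  obtain ⟨V, hV, hKV, F, hF, c, hc⟩ := wilder_ob (P := Cons (k := k) σ N) (U := Ω0 ⊓ O)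
    (fun y hy => ih' y (hg.outside Ω0 hΩ0 y hy.1 hy.2))
    (fun G G' hG hG' y hy => ih y (hg.outside Ω0 hΩ0 y hy.1 hy.2) N N G G' hG hG') hK hKO
  have hσ' : ∀ (y : TopCat.of (Ω1 ⊓ O : Opens X)) (t t' : unitInterval),
      σ (h ((y, t) : cyl _)) = σ (h ((y, t') : cyl _)) := fun y t t' => by
    rw [hσ y t, hσ y t']
  have hfo : FinOb (Cons (k := k) σ N) (Ω1 ⊓ O) := by
    refine ⟨F, hF, c, fun G G' hG hG' h1 => ?_⟩
    obtain ⟨e⟩ := hc G G' hG hG' h1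
    exact homotopy_obj h h0 (fun a => hKV (hK1 a)) (hG.flc h hσ') (hG'.flc h hσ') e
  obtain ⟨F', hF', R, hR, c', hc'⟩ := hfo.exists_rep
  -- basis sections over the whole neighbourhood
  have hbas : ∀ G : Sh k X, Cons σ N G → ∃ (r : Fin (N + 1)) (s : Fin r → G.1.obj (op Ω1)),
      ∀ (y : X) (hy : y ∈ Ω1), y ∉ O → IsBas G s y hy := by
    intro G hG
    obtain ⟨r, hr, U, hxU, s, hs⟩ := hG x
    obtain ⟨q, q0, qU, qσ, q1⟩ := hg.contract Ω1 hΩ1 U hxU
    have qσ' : ∀ (y : TopCat.of Ω1) (t t' : unitInterval),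
        σ (q ((y, t) : cyl _)) = σ (q ((y, t') : cyl _)) := fun y t t' => by
      rw [qσ y t, qσ y t']
    obtain ⟨t, ht⟩ := transport_sections q q0 q1 (hG.flc q qσ') s
    refine ⟨⟨r, by lia⟩, t, fun y hy hyO => ?_⟩
    apply ht ⟨y, hy⟩
    apply hs
    rw [qσ ⟨y, hy⟩ 1]
    exact hg.inside Ω1 hΩ1 y hy hyO
  choose r s hs using hbas
  refine ⟨Ω2, hg.mem Ω2 hΩ2, ?_⟩
  apply finOb_of_fibers (F := Fin (N + 1) × F') (fun G hG => (r G hG, c' G hG))
  rintro ⟨r0, f0⟩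
  -- models
  have hmod : ∀ G : Sh k X, (∃ hG : Cons σ N G, (r G hG, c' G hG) = (r0, f0)) →
      ∃ (s : Fin (r0 : ℕ) → G.1.obj (op Ω1)) (_ : ∀ (y : X) (hy : y ∈ Ω1), y ∉ O → IsBas G s y hy),
        Nonempty (cut G (Ω1 ⊓ O) ≅ cut (R f0) (Ω1 ⊓ O)) := by
    rintro G ⟨hG, hG2⟩
    have e1 : r G hG = r0 := congrArg Prod.fst hG2
    have e2 : c' G hG = f0 := congrArg Prod.snd hG2
    rw [← e1, ← e2]
    exact ⟨s G hG, hs G hG, hc' G hG⟩
  choose t ht hθ using hmod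
  let θ := fun G hG => Classical.choice (hθ G hG)
  let u : ∀ (G : Sh k X) (_ : ∃ hG : Cons σ N G, (r G hG, c' G hG) = (r0, f0)),
      cut (cst k X r0) (Ω1 ⊓ O) ⟶ R f0 := fun G hG =>
    lf O (t G hG) ≫ (θ G hG).hom ≫ cutι (R f0) (Ω1 ⊓ O)
  have hfin := hf2 r0 N (cst k X r0) (R f0) 0 (cst_cons σ r0) (hR f0)
  refine ⟨Set.range (fun a : Ext.{0} (cut (cst k X r0) (Ω1 ⊓ O)) (R f0) 0 =>
    rs (inf_le_inf_right O hle2) a), hfin,
    fun G hG => ⟨_, ⟨Ext.mk₀ (u G hG), rfl⟩⟩, fun G G' hG hG' h => ?_⟩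
  have h1 : cutMap (cst k X r0) (inf_le_inf_right O hle2) ≫ u G hG =
      cutMap (cst k X r0) (inf_le_inf_right O hle2) ≫ u G' hG' := by
    have h2 := congrArg Subtype.val h
    dsimp only at h2
    unfold rs at h2
    rw [Ext.mk₀_comp_mk₀, Ext.mk₀_comp_mk₀] at h2
    exact (Ext.mk₀_bijective _ _).1 h2
  obtain ⟨p, hp⟩ := isoRes (inf_le_inf_right O hle2 : Ω2 ⊓ O ≤ Ω1 ⊓ O) (θ G hG)
  obtain ⟨p', hp'⟩ := isoRes (inf_le_inf_right O hle2 : Ω2 ⊓ O ≤ Ω1 ⊓ O) (θ G' hG')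
  apply glueLoc (fun i => res G hle2 (t G hG i))
    (fun y hy hyO => (ht G hG y (hle2 hy) hyO).res hle2 hy)
    (fun i => res G' hle2 (t G' hG' i))
    (fun y hy hyO => (ht G' hG' y (hle2 hy) hyO).res hle2 hy) (p ≪≫ p'.symm)
  -- comparison of the two maps
  have key : ∀ (G : Sh k X) (hG : ∃ hG : Cons σ N G, (r G hG, c' G hG) = (r0, f0))
      (p : cut G (Ω2 ⊓ O) ≅ cut (R f0) (Ω2 ⊓ O))
      (_ : p.hom ≫ cutMap (R f0) (inf_le_inf_right O hle2) =
        cutMap G (inf_le_inf_right O hle2) ≫ (θ G hG).hom),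
      (lf O (fun i => res G hle2 (t G hG i)) ≫ p.hom) ≫ cutι (R f0) (Ω2 ⊓ O) =
        cutMap (cst k X r0) (inf_le_inf_right O hle2) ≫ u G hG := by
    intro G hG p hp
    have e1 : lf O (fun i => res G hle2 (t G hG i)) ≫
        cutMap G (inf_le_inf_right O hle2 : Ω2 ⊓ O ≤ Ω1 ⊓ O) =
        cutMap (cst k X r0) (inf_le_inf_right O hle2) ≫ lf O (t G hG) := by
      apply cut_hom_ext
      rw [Category.assoc, cutMap_ι, lf_ι, Category.assoc, lf_ι, cutMap_comp_assoc,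
        cutMap_fromSec, cutMap_fromSec]
      congr 1
      funext i
      exact res_res G _ _ _
    change _ = cutMap (cst k X r0) _ ≫ lf O (t G hG) ≫ (θ G hG).hom ≫ cutι (R f0) (Ω1 ⊓ O)
    rw [← reassoc_of% e1, ← reassoc_of% hp, cutMap_ι, Category.assoc]
  have k1 : lf O (fun i => res G hle2 (t G hG i)) ≫ p.hom =
      lf O (fun i => res G' hle2 (t G' hG' i)) ≫ p'.hom := by
    apply cut_hom_ext
    rw [key G hG p hp, key G' hG' p' hp', h1]
  rw [Iso.trans_hom, Iso.symm_hom, ← Category.assoc, k1, Category.assoc, Iso.hom_inv_id,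
    Category.comp_id]

variable (σ) in
/-- every point has good neighbourhoods -/
def AllGood : Prop := ∀ x : X, ∃ (𝒩 : Set (Opens X)) (O : Opens X), Good σ x 𝒩 O

theorem lfin_all [Finite k] [Finite ι] (h : AllGood σ) : ∀ (x : X) (N N' : ℕ) (G G' : Sh k X),
    Cons σ N G → Cons σ N' G' → LFin G G' x := by
  have key : ∀ (i : ι) (x : X), σ x = i → ∀ (N N' : ℕ) (G G' : Sh k X),
      Cons σ N G → Cons σ N' G' → LFin G G' x := by
    intro i
    induction i using WellFoundedGT.induction with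
    | ind i ih =>
      intro x hx N N' G G' hG hG'
      obtain ⟨𝒩, O, hg⟩ := h x
      exact lfin_of_good hg (fun y hy => ih (σ y) (by rw [← hx]; exact hy) y rfl) hG hG'
  exact fun x => key (σ x) x rfl

theorem finOb_all [Finite k] [Finite ι] (h : AllGood σ) (N : ℕ) :
    ∀ x : X, ∃ V : Opens X, x ∈ V ∧ FinOb (Cons (k := k) σ N) V := by
  have key : ∀ (i : ι) (x : X), σ x = i → ∃ V : Opens X, x ∈ V ∧ FinOb (Cons (k := k) σ N) V := by
    intro i
    induction i using WellFoundedGT.induction with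
    | ind i ih =>
      intro x hx
      obtain ⟨𝒩, O, hg⟩ := h x
      exact finOb_of_good hg (fun y hy => lfin_all h y)
        (fun y hy => ih (σ y) (by rw [← hx]; exact hy) y rfl)
  exact fun x => key (σ x) x rfl

omit [CompactSpace X] [T2Space X] in
theorem isIso_cutι_top (G : Sh k X) : IsIso (cutι G ⊤) :=
  isIso_of_stk _ fun y => stk_cutι_bijective G ⊤ y trivial

/-- finiteness of Ext groups between constructible sheaves -/
theorem ext_finite [Finite k] [Finite ι] (h : AllGood σ) {N N' : ℕ} {G G' : Sh k X}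
    (hG : Cons σ N G) (hG' : Cons σ N' G') (n : ℕ) : Finite (Ext.{0} G G' n) := by
  obtain ⟨V, hV, hKV, hf⟩ := wilder n (G := G) (N := G') (U := ⊤)
    (fun x _ => lfin_all h x N N' G G' hG hG') (K := Set.univ) isCompact_univ (fun x _ => trivial)
  have hVtop : V = ⊤ := by
    ext x
    exact ⟨fun _ => trivial, fun _ => hKV trivial⟩
  subst hVtop
  have i1 := isIso_cutι_top G
  have h1 : Finite (Ext.{0} (cut G ⊤) G' n) := by
    have h2 : (Set.univ : Set (Ext.{0} (cut G ⊤) G' n)) ⊆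
        Set.range (fun a : Ext.{0} (cut G ⊤) G' n => rs hV a) := by
      intro a _
      exact ⟨a, rs_self a⟩
    exact Set.finite_univ_iff.mp (Set.Finite.subset hf h2)
  refine Finite.of_injective (fun a : Ext.{0} G G' n => pre (cutι G ⊤) G' n a) ?_
  intro a b hab
  rw [← sub_eq_zero]
  apply ext_cancel_left (cutι G ⊤)
  have h3 : pre (cutι G ⊤) G' n (a - b) = 0 := by
    rw [map_sub, sub_eq_zero]
    exact hab
  exact h3

/-- finiteness of isomorphism classes of constructible sheaves -/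
theorem iso_finite [Finite k] [Finite ι] (h : AllGood σ) (N : ℕ) :
    ∃ (F : Type) (_ : Finite F) (R : F → Sh k X), (∀ f, Cons σ N (R f)) ∧
      ∀ G : Sh k X, Cons σ N G → ∃ f, Nonempty (G ≅ R f) := by
  obtain ⟨V, hV, hKV, hf⟩ := wilder_ob (P := Cons (k := k) σ N) (U := ⊤)
    (fun x _ => finOb_all h N x)
    (fun G G' hG hG' x _ => lfin_all h x N N G G' hG hG') (K := Set.univ) isCompact_univ
    (fun x _ => trivial)
  have hVtop : V = ⊤ := by
    ext x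
    exact ⟨fun _ => trivial, fun _ => hKV trivial⟩
  subst hVtop
  obtain ⟨F, hF, R, hR, c, hc⟩ := hf.exists_rep
  refine ⟨F, hF, R, hR, fun G hG => ⟨c G hG, ?_⟩⟩
  obtain ⟨e⟩ := hc G hG
  have i1 := isIso_cutι_top G
  have i2 := isIso_cutι_top (R (c G hG))
  exact ⟨(asIso (cutι G ⊤)).symm ≪≫ e ≪≫ asIso (cutι (R (c G hG)) ⊤)⟩

end Run7.h642
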