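import Pool.Agent.Run7.h642.Alex
import Pool.Agent.Run7.h642.Conv
import Pool.Agent.Run7.h642.Cone
import Pool.Agent.Run7.h642.Derv

/-!
# Finiteness of bounded constructible complexes: the general theorem
-/

open CategoryTheory TopologicalSpace Opposite TopCat Limits Abelian

namespace Run7.h642

universe w

theorem FinCl.mono {C : Type*} [Category C] [Abelian C] [HasDerivedCategory.{w} C]
    {Q Q' : DerivedCategory C → Prop} (h : FinCl Q') (hQ : ∀ K, Q K → Q' K) : FinCl Q := by
  obtain ⟨F, hF, R, -, hcl⟩ := h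
  choose c hc using hcl
  refine finCl_of Q F (fun K hK => c K (hQ K hK)) fun K K' hK hK' h => ?_
  obtain ⟨e⟩ := hc K (hQ K hK)
  obtain ⟨e'⟩ := hc K' (hQ K' hK')
  rw [h] at e
  exact ⟨e ≪≫ e'.symm⟩

variable {k : Type} [Field k] {X : Type} [MetricSpace X]

theorem isLocalSystem_iff {S : TopCat.{0}} {N : ℕ} {F : ShV k S} :
    IsLocalSystem N F ↔ LocSys N F := Iff.rfl

theorem finitelyManyClasses_of_good [Finite k] [CompactSpace X] {ι : Type} [PartialOrder ι]
    [Finite ι] {σ : X → ι} (h : AllGood (X := TopCat.of X) σ)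
    (hσ : ∀ x y : X, σ x = σ y → extremalHull x = extremalHull y)
    [HasDerivedCategory.{w} (ShV k (TopCat.of X))] (N : ℕ) : FinitelyManyClasses k X N := by
  have : CompactSpace (TopCat.of X) := inferInstanceAs (CompactSpace X)
  have : T2Space (TopCat.of X) := inferInstanceAs (T2Space X)
  have h1 := finCl_inD (C := Sh k (TopCat.of X))
    (P := Cons (k := k) (X := TopCat.of X) σ N)
    (fun Z hZ => cons_of_isZero σ N hZ)
    (fun A B ⟨e⟩ hA => hA.of_iso e)
    (fun A B n hA hB => ext_finite h hA hB n)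
    (iso_finite h N) (2 * N) (-(N : ℤ))
  refine FinCl.mono h1 fun K hK => ⟨?_, ?_, ?_⟩
  · rw [DerivedCategory.isGE_iff]
    exact fun i hi => hK.vanish i (Or.inl hi)
  · rw [DerivedCategory.isLE_iff]
    exact fun i hi => hK.vanish i (Or.inr (by push_cast at hi; lia))
  · intro i
    apply cons_of_locSys
    intro x
    refine ⟨stratum x, fun y hy => hσ y x hy, ?_⟩
    obtain ⟨e⟩ := exists_pbIso (incl (X := TopCat.of X) (stratum x))
      ((DerivedCategory.homologyFunctor (Sh k (TopCat.of X)) i).obj K)
    exact LocSys.of_iso e (hK.locsys i x)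

theorem finitelyManyClasses_of_conelike [Finite k] [CompactSpace X] {ι : Type} [PartialOrder ι]
    [Finite ι] {σ : X → ι} (h : LocallyConelike σ)
    (hσ : ∀ x y : X, σ x = σ y → extremalHull x = extremalHull y)
    [HasDerivedCategory.{w} (ShV k (TopCat.of X))] (N : ℕ) : FinitelyManyClasses k X N :=
  have : T2Space (TopCat.of X) := inferInstanceAs (T2Space X)
  finitelyManyClasses_of_good (allGood_of_conelike (X := TopCat.of X) h) hσ N

end Run7.h642
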