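import Pool.Agent.Run7.h642.Split3

/-!
# The local Euclidean dimension
-/

open Metric Topology Filter
open scoped ENNReal NNReal

namespace Run7.h642

section general

variable {Y Y' : Type} [MetricSpace Y] [MetricSpace Y']

/-- the points at distance less than `ρ` from `y` on segments with midpoint `y` -/
def thru (y : Y) (ρ : ℝ) : Set Y :=
  {p | dist y p < ρ ∧ ∃ p', dist y p' = dist y p ∧ dist p p' = 2 * dist y p}

/-- the local Euclidean dimension -/
noncomputable def mdim (y : Y) : ℝ≥0∞ := ⨅ (ρ : ℝ) (_ : 0 < ρ), dimH (thru y ρ)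

theorem thru_mono (y : Y) {ρ ρ' : ℝ} (h : ρ ≤ ρ') : thru y ρ ⊆ thru y ρ' :=
  fun _ hp => ⟨hp.1.trans_le h, hp.2⟩

theorem mdim_le (y : Y) {ρ : ℝ} (hρ : 0 < ρ) : mdim y ≤ dimH (thru y ρ) :=
  iInf₂_le ρ hρ

theorem dimH_le_of_antilip {A : Set Y} {θ : Y → Y'} {c : ℝ}
    (h : ∀ p ∈ A, ∀ q ∈ A, dist p q ≤ c * dist (θ p) (θ q)) : dimH A ≤ dimH (θ '' A) := by
  rcases A.eq_empty_or_nonempty with rfl | ⟨a, ha⟩
  · simp
  have : Nonempty Y := ⟨a⟩
  have hinj : Set.InjOn θ A := by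
    intro p hp q hq hpq
    have h1 := h p hp q hq
    rw [hpq, dist_self, mul_zero] at h1
    exact dist_le_zero.mp h1
  have hinv := hinj.leftInvOn_invFunOn
  have h1 : Function.invFunOn θ A '' (θ '' A) = A := hinv.image_image
  have h2 : LipschitzOnWith (Real.toNNReal c) (Function.invFunOn θ A) (θ '' A) := by
    apply LipschitzOnWith.of_dist_le_mul
    rintro _ ⟨p, hp, rfl⟩ _ ⟨q, hq, rfl⟩
    rw [hinv hp, hinv hq]
    refine (h p hp q hq).trans ?_
    exact mul_le_mul_of_nonneg_right (Real.le_coe_toNNReal c) dist_nonneg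
  calc dimH A = dimH (Function.invFunOn θ A '' (θ '' A)) := by rw [h1]
    _ ≤ dimH (θ '' A) := h2.dimH_image_le

theorem dimH_image_le_of_lip {A : Set Y} {θ : Y → Y'} {c : ℝ}
    (h : ∀ p ∈ A, ∀ q ∈ A, dist (θ p) (θ q) ≤ c * dist p q) : dimH (θ '' A) ≤ dimH A := by
  have h2 : LipschitzOnWith (Real.toNNReal c) θ A := by
    apply LipschitzOnWith.of_dist_le_mul
    intro p hp q hq
    refine (h p hp q hq).trans ?_
    exact mul_le_mul_of_nonneg_right (Real.le_coe_toNNReal c) dist_nonneg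
  exact h2.dimH_image_le

/-- invariance under local similarities -/
theorem mdim_eq_of_sim {y : Y} {y' : Y'} {ρ0 s : ℝ} (hρ0 : 0 < ρ0) (hs : 0 < s) (θ : Y → Y')
    (h0 : θ y = y') (hθ : ∀ p q, dist y p < ρ0 → dist y q < ρ0 →
      dist (θ p) (θ q) = s * dist p q)
    (hsurj : ∀ p', dist y' p' < s * ρ0 → ∃ p, dist y p < ρ0 ∧ θ p = p') :
    mdim y = mdim y' := by
  have hy : dist y y < ρ0 := by rw [dist_self]; exact hρ0
  have him : ∀ ρ, 0 < ρ → ρ ≤ ρ0 → dimH (thru y' (s * ρ)) = dimH (thru y ρ) := by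
    intro ρ hρ hρρ0
    have himage : θ '' thru y ρ = thru y' (s * ρ) := by
      ext p'
      constructor
      · rintro ⟨p, ⟨hp1, q, hq1, hq2⟩, rfl⟩
        have hp : dist y p < ρ0 := hp1.trans_le hρρ0
        have hq : dist y q < ρ0 := by rw [hq1]; exact hp
        refine ⟨?_, θ q, ?_, ?_⟩
        · rw [← h0, hθ y p hy hp]
          exact mul_lt_mul_of_pos_left hp1 hs
        · rw [← h0, hθ y p hy hp, hθ y q hy hq, hq1]
        · rw [← h0, hθ y p hy hp, hθ p q hp hq, hq2]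
          ring
      · rintro ⟨hp1, q', hq1, hq2⟩
        have hp' : dist y' p' < s * ρ0 := hp1.trans_le (mul_le_mul_of_nonneg_left hρρ0 hs.le)
        obtain ⟨p, hp, rfl⟩ := hsurj p' hp'
        obtain ⟨q, hq, rfl⟩ := hsurj q' (by rw [hq1]; exact hp')
        rw [← h0, hθ y p hy hp] at hp1 hq1 hq2
        rw [hθ y q hy hq] at hq1
        rw [hθ p q hp hq] at hq2
        refine ⟨p, ⟨?_, q, ?_, ?_⟩, rfl⟩
        · exact lt_of_mul_lt_mul_left hp1 hs.le
        · exact mul_left_cancel₀ hs.ne' hq1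
        · apply mul_left_cancel₀ hs.ne'
          rw [hq2]
          ring
    rw [← himage]
    have hin : ∀ p ∈ thru y ρ, dist y p < ρ0 := fun p hp => hp.1.trans_le hρρ0
    apply le_antisymm
    · apply dimH_image_le_of_lip (c := s)
      intro p hp q hq
      rw [hθ p q (hin p hp) (hin q hq)]
    · apply dimH_le_of_antilip (c := s⁻¹)
      intro p hp q hq
      rw [hθ p q (hin p hp) (hin q hq), inv_mul_cancel_left₀ hs.ne']
  apply le_antisymm
  · apply le_iInf₂
    intro ρ hρ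
    have h1 : 0 < min (ρ / s) ρ0 := lt_min (by positivity) hρ0
    calc mdim y ≤ dimH (thru y (min (ρ / s) ρ0)) := mdim_le y h1
      _ = dimH (thru y' (s * min (ρ / s) ρ0)) := (him _ h1 (min_le_right _ _)).symm
      _ ≤ dimH (thru y' ρ) := by
        apply dimH_mono (thru_mono y' _)
        calc s * min (ρ / s) ρ0 ≤ s * (ρ / s) := by gcongr; exact min_le_left _ _
          _ = ρ := by field_simp
  · apply le_iInf₂
    intro ρ hρ
    have h1 : 0 < min ρ ρ0 := lt_min hρ hρ0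
    calc mdim y' ≤ dimH (thru y' (s * min ρ ρ0)) := mdim_le y' (by positivity)
      _ = dimH (thru y (min ρ ρ0)) := him _ h1 (min_le_right _ _)
      _ ≤ dimH (thru y ρ) := dimH_mono (thru_mono y (min_le_left _ _))

end general

namespace ConeSp

variable {C : Type} [MetricSpace C] {K : ConeSp C}

theorem mdim_o [ProperSpace C] : mdim K.o = (Module.finrank ℝ K.WS : ℝ≥0∞) := by
  have h1 : ∀ ρ : ℝ, 0 < ρ → dimH (thru K.o ρ) = (Module.finrank ℝ K.WS : ℝ≥0∞) := by
    intro ρ hρ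
    have h2 : thru K.o ρ = toV '' ball (0 : K.WS) ρ := by
      ext p
      constructor
      · rintro ⟨hp, p', h3, h4⟩
        obtain ⟨g, rfl⟩ := exists_toV (K := K) (v := p) ⟨p', h3, h4⟩
        refine ⟨g, ?_, rfl⟩
        rw [mem_ball_zero_iff, norm_eq]
        exact hp
      · rintro ⟨g, hg, rfl⟩
        rw [mem_ball_zero_iff, norm_eq] at hg
        exact ⟨hg, toV_mem g⟩
    rw [h2, isometry_toV.dimH_image, Real.dimH_of_mem_nhds (ball_mem_nhds _ hρ)]
  apply le_antisymm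
  · exact (mdim_le K.o one_pos).trans (h1 1 one_pos).le
  · apply le_iInf₂
    intro ρ hρ
    rw [h1 ρ hρ]

theorem mdim_tr (g : K.WS) (z : C) : mdim (tr g z) = mdim z := by
  symm
  apply mdim_eq_of_sim one_pos one_pos (tr g) rfl
  · intro p q _ _
    rw [dist_tr_tr, one_mul]
  · intro p' hp'
    refine ⟨tr (-g) p', ?_, ?_⟩
    · rw [← dist_tr_tr g, tr_tr, add_neg_cancel, tr_zero]
      simpa using hp'
    · rw [tr_tr, add_neg_cancel, tr_zero]

theorem mdim_dil {s : ℝ} (hs : 0 < s) (z : C) : mdim (K.dil s z) = mdim z := by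
  symm
  apply mdim_eq_of_sim one_pos hs (K.dil s) rfl
  · intro p q _ _
    rw [K.dist_dil_dil hs.le]
  · intro p' hp'
    refine ⟨K.dil s⁻¹ p', ?_, ?_⟩
    · have h1 : dist (K.dil s z) (K.dil s (K.dil s⁻¹ p')) = s * dist z (K.dil s⁻¹ p') :=
        K.dist_dil_dil hs.le _ _
      rw [K.dil_dil hs.le (by positivity), mul_inv_cancel₀ hs.ne', K.dil_one] at h1
      rw [h1] at hp'
      exact lt_of_mul_lt_mul_left hp' hs.le
    · rw [K.dil_dil hs.le (by positivity), mul_inv_cancel₀ hs.ne', K.dil_one]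

theorem mdim_C0 [ProperSpace C] {w : C} (hw : w ∈ K.C0) (hwo : w ≠ K.o) :
    mdim K.o + 1 ≤ mdim w := by
  have hn : 0 < dist K.o w := dist_pos.mpr (Ne.symm hwo)
  let ψ : K.WS × ℝ → C := fun p => tr p.1 (K.dil (1 + p.2) w)
  have hψ : ∀ p q : K.WS × ℝ, -1 ≤ p.2 → -1 ≤ q.2 → dist (ψ p) (ψ q) ^ 2 =
      (p.2 - q.2) ^ 2 * dist K.o w ^ 2 + ‖p.1 - q.1‖ ^ 2 := by
    intro p q hp hq
    change dist (tr p.1 (K.dil (1 + p.2) w)) (tr q.1 (K.dil (1 + q.2) w)) ^ 2 = _
    rw [dist_C0_sq _ _ (dil_mem_C0 (by linarith) hw) (dil_mem_C0 (by linarith) hw),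
      K.dist_dil_same (by linarith) (by linarith), mul_pow, sq_abs]
    ring
  have hψ0 : ψ 0 = w := by
    change tr (0 : K.WS) (K.dil (1 + 0) w) = w
    rw [tr_zero, add_zero, K.dil_one]
  have hfin : Module.finrank ℝ (K.WS × ℝ) = Module.finrank ℝ K.WS + 1 := by
    rw [Module.finrank_prod, Module.finrank_self]
  apply le_iInf₂
  intro ρ hρ
  rw [mdim_o]
  obtain ⟨δ, hδ, hδ1, hδρ⟩ : ∃ δ : ℝ, 0 < δ ∧ δ ≤ 1 ∧ δ * (1 + dist K.o w) ≤ ρ := by
    refine ⟨min 1 (ρ / (1 + dist K.o w)), lt_min one_pos (by positivity), min_le_left _ _, ?_⟩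
    calc min 1 (ρ / (1 + dist K.o w)) * (1 + dist K.o w) ≤
        (ρ / (1 + dist K.o w)) * (1 + dist K.o w) := by gcongr; exact min_le_right _ _
      _ = ρ := by field_simp
  have hball : ∀ p ∈ ball (0 : K.WS × ℝ) δ, ‖p.1‖ < δ ∧ |p.2| < δ := by
    intro p hp
    rw [mem_ball_zero_iff, Prod.norm_def, max_lt_iff] at hp
    exact hp
  have hsub : ψ '' ball (0 : K.WS × ℝ) δ ⊆ thru w ρ := by
    rintro _ ⟨p, hp, rfl⟩
    obtain ⟨h1, h2⟩ := hball p hp
    have h2' := abs_lt.mp h2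
    have e1 := hψ 0 p (by simp) (by linarith [h2'.1])
    have e2 := hψ 0 (-p) (by simp) (by simp only [Prod.snd_neg]; linarith [h2'.2])
    have e3 := hψ p (-p) (by linarith [h2'.1]) (by simp only [Prod.snd_neg]; linarith [h2'.2])
    rw [hψ0] at e1 e2
    simp only [Prod.snd_zero, Prod.fst_zero, Prod.snd_neg, Prod.fst_neg, zero_sub, norm_neg,
      neg_neg] at e1 e2 e3
    have e4 : ‖p.1 - -p.1‖ = 2 * ‖p.1‖ := by
      rw [sub_neg_eq_add, ← two_smul ℝ p.1, norm_smul]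
      simp
    rw [e4] at e3
    refine ⟨?_, ψ (-p), ?_, ?_⟩
    · have h3 : dist w (ψ p) ^ 2 < ρ ^ 2 := by
        rw [e1]
        have h4 : (-p.2) ^ 2 * dist K.o w ^ 2 ≤ δ ^ 2 * dist K.o w ^ 2 := by
          apply mul_le_mul_of_nonneg_right _ (by positivity)
          rw [neg_sq, ← sq_abs]
          exact pow_le_pow_left₀ (abs_nonneg _) h2.le 2
        have h5 : ‖p.1‖ ^ 2 < δ ^ 2 := pow_lt_pow_left₀ h1 (norm_nonneg _) two_ne_zero
        have h6 : (δ * (1 + dist K.o w)) ^ 2 ≤ ρ ^ 2 := pow_le_pow_left₀ (by positivity) hδρ 2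
        nlinarith [mul_pos hδ hn]
      exact lt_of_pow_lt_pow_left₀ 2 hρ.le h3
    · exact (pow_left_inj₀ dist_nonneg dist_nonneg two_ne_zero).mp (by rw [e1, e2]; ring)
    · exact (pow_left_inj₀ dist_nonneg (by positivity) two_ne_zero).mp (by
        rw [e3, mul_pow 2 (dist w (ψ p)), e1]; ring)
  calc (Module.finrank ℝ K.WS : ℝ≥0∞) + 1 = (Module.finrank ℝ (K.WS × ℝ) : ℝ≥0∞) := by
        rw [hfin]; push_cast; rfl
    _ = dimH (ball (0 : K.WS × ℝ) δ) := (Real.dimH_of_mem_nhds (ball_mem_nhds _ hδ)).symm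
    _ ≤ dimH (ψ '' ball (0 : K.WS × ℝ) δ) := by
        apply dimH_le_of_antilip (c := 1 + (dist K.o w)⁻¹)
        intro p hp q hq
        have hp' := abs_lt.mp (hball p hp).2
        have hq' := abs_lt.mp (hball q hq).2
        have e := hψ p q (by linarith [hp'.1]) (by linarith [hq'.1])
        rw [Prod.dist_eq, max_le_iff]
        have h0 : 0 ≤ dist (ψ p) (ψ q) := dist_nonneg
        have hi : 0 < (dist K.o w)⁻¹ := by positivity
        constructor
        · rw [dist_eq_norm]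
          have h1 : ‖p.1 - q.1‖ ≤ dist (ψ p) (ψ q) := by
            apply abs_le_of_sq_le_sq' _ h0 |>.2
            rw [e]
            nlinarith [sq_nonneg ((p.2 - q.2) * dist K.o w)]
          nlinarith
        · rw [Real.dist_eq]
          have h1 : |p.2 - q.2| * dist K.o w ≤ dist (ψ p) (ψ q) := by
            apply abs_le_of_sq_le_sq' _ h0 |>.2
            rw [e, mul_pow, sq_abs]
            nlinarith [sq_nonneg ‖p.1 - q.1‖]
          have h2 : |p.2 - q.2| ≤ (dist K.o w)⁻¹ * dist (ψ p) (ψ q) := by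
            rw [inv_mul_eq_div, le_div_iff₀ hn]
            exact h1
          nlinarith
    _ ≤ dimH (thru w ρ) := dimH_mono hsub

end ConeSp

end Run7.h642
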