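import Pool.Agent.Run7.h642.Wilder

/-!
# Finiteness of isomorphism classes near compact sets
-/

open CategoryTheory TopologicalSpace Opposite TopCat Limits Abelian

namespace Run7.h642

variable {k : Type} [Field k] {X : TopCat.{0}}

/-- finitely many isomorphism classes of restrictions -/
def FinOb (P : Sh k X → Prop) (V : Opens X) : Prop :=
  ∃ (F : Type) (_ : Finite F) (c : ∀ G, P G → F), ∀ (G G' : Sh k X) (hG : P G) (hG' : P G'),
    c G hG = c G' hG' → Nonempty (cut G V ≅ cut G' V)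

theorem isIso_cutLift {G G' : Sh k X} {V : Opens X} (f : cut G V ⟶ G')
    (h : ∀ y ∈ V, Function.Bijective (stk f y)) :
    ∃ e : cut G V ≅ cut G' V, e.hom ≫ cutι G' V = f := by
  have h0 : ∀ y : X, y ∉ V → ∀ s, stk f y s = 0 := by
    intro y hy s
    rw [cut_stalk_eq_zero G V y hy s, map_zero]
  have : IsIso (cutLift f h0) := by
    apply isIso_of_stk
    intro y
    by_cases hy : y ∈ V
    · have h1 : stk (cutι G' V) y ∘ stk (cutLift f h0) y = stk f y := by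
        funext s
        simp only [Function.comp]
        rw [← stk_comp, cutLift_ι]
      have h2 := h y hy
      rw [← h1] at h2
      exact (Function.Bijective.of_comp_iff' (stk_cutι_bijective G' V y hy) _).mp h2
    · constructor
      · intro a b _
        rw [cut_stalk_eq_zero G V y hy a, cut_stalk_eq_zero G V y hy b]
      · intro a
        exact ⟨0, by rw [map_zero, cut_stalk_eq_zero G' V y hy a]⟩
  exact ⟨asIso (cutLift f h0), cutLift_ι f h0⟩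

theorem isoRes {G G' : Sh k X} {V W : Opens X} (h : W ≤ V) (e : cut G V ≅ cut G' V) :
    ∃ e' : cut G W ≅ cut G' W, e'.hom ≫ cutMap G' h = cutMap G h ≫ e.hom := by
  obtain ⟨e', he'⟩ := isIso_cutLift (V := W) (cutMap G h ≫ e.hom ≫ cutι G' V) (by
    intro y hy
    have h1 := stk_cutMap_bijective G h y hy
    have h2 := stk_bijective_of_isIso e.hom y
    have h3 := stk_cutι_bijective G' V y (h hy)
    have h4 : stk (cutMap G h ≫ e.hom ≫ cutι G' V) y =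
        stk (cutι G' V) y ∘ stk e.hom y ∘ stk (cutMap G h) y := by
      funext s
      simp only [Function.comp]
      rw [← stk_comp, ← stk_comp, ← Category.assoc]
    rw [h4]
    exact h3.comp (h2.comp h1))
  refine ⟨e', ?_⟩
  apply cut_hom_ext
  rw [Category.assoc, cutMap_ι, he', Category.assoc]

theorem FinOb.mono {P : Sh k X → Prop} {V W : Opens X} (hV : FinOb P V) (h : W ≤ V) :
    FinOb P W := by
  obtain ⟨F, hF, c, hc⟩ := hV
  refine ⟨F, hF, c, fun G G' hG hG' h1 => ?_⟩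
  obtain ⟨e⟩ := hc G G' hG hG' h1
  obtain ⟨e', -⟩ := isoRes h e
  exact ⟨e'⟩

theorem finOb_bot (P : Sh k X → Prop) : FinOb P ⊥ := by
  refine ⟨Unit, inferInstance, fun _ _ => (), fun G G' hG hG' _ => ?_⟩
  obtain ⟨e, -⟩ := isIso_cutLift (V := ⊥) (0 : cut G ⊥ ⟶ G') (fun y hy => hy.elim)
  exact ⟨e⟩

theorem FinOb.of_imp {P Q : Sh k X → Prop} {V : Opens X} (hV : FinOb P V)
    (h : ∀ G, Q G → P G) : FinOb Q V := by
  obtain ⟨F, hF, c, hc⟩ := hV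
  exact ⟨F, hF, fun G hG => c G (h G hG), fun G G' hG hG' h1 => hc G G' _ _ h1⟩

theorem FinOb.exists_rep {P : Sh k X → Prop} {V : Opens X} (hV : FinOb P V) :
    ∃ (F : Type) (_ : Finite F) (R : F → Sh k X) (_ : ∀ f, P (R f)) (c : ∀ G, P G → F),
      ∀ G hG, Nonempty (cut G V ≅ cut (R (c G hG)) V) := by
  obtain ⟨F, hF, c, hc⟩ := hV
  let F' := {f : F // ∃ (G : Sh k X) (hG : P G), c G hG = f}
  have h1 : ∀ f : F', ∃ (G : Sh k X) (hG : P G), c G hG = f.1 := fun f => f.2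
  choose R hR hRc using h1
  exact ⟨F', inferInstance, R, hR, fun G hG => ⟨c G hG, G, hG, rfl⟩, fun G hG =>
    hc G _ hG (hR _) (hRc ⟨c G hG, G, hG, rfl⟩).symm⟩

theorem finOb_of_fibers {P : Sh k X → Prop} {V : Opens X} {F : Type} [Finite F]
    (c : ∀ G, P G → F) (h : ∀ f, FinOb (fun G => ∃ hG : P G, c G hG = f) V) : FinOb P V := by
  choose F' hF' c' hc' using h
  refine ⟨Σ f, F' f, inferInstance, fun G hG => ⟨c G hG, c' (c G hG) G ⟨hG, rfl⟩⟩, ?_⟩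
  intro G G' hG hG' h1
  have key : ∀ (f f' : F) (hf : c G hG = f) (hf' : c G' hG' = f'),
      (⟨f, c' f G ⟨hG, hf⟩⟩ : Σ f, F' f) = ⟨f', c' f' G' ⟨hG', hf'⟩⟩ →
      Nonempty (cut G V ≅ cut G' V) := by
    intro f f' hf hf' h2
    have h3 : f = f' := congrArg Sigma.fst h2
    subst h3
    have h4 := Sigma.mk.inj_iff.mp h2
    exact hc' f G G' _ _ (eq_of_heq h4.2)
  exact key _ _ rfl rfl h1

/-- gluing of isomorphisms -/
theorem glue_iso {G G' : Sh k X} {W1 W2 : Opens X} (a : cut G W1 ≅ cut G' W1)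
    (b : cut G W2 ≅ cut G' W2)
    (h : cutMap G (inf_le_left : W1 ⊓ W2 ≤ W1) ≫ a.hom ≫ cutι G' W1 =
      cutMap G (inf_le_right : W1 ⊓ W2 ≤ W2) ≫ b.hom ≫ cutι G' W2) :
    Nonempty (cut G (W1 ⊔ W2) ≅ cut G' (W1 ⊔ W2)) := by
  obtain ⟨c, hc1, hc2⟩ := (mv G W1 W2).exists_desc (a.hom ≫ cutι G' W1) (b.hom ≫ cutι G' W2) h
  have hc1' : cutMap G (le_sup_left : W1 ≤ W1 ⊔ W2) ≫ c = a.hom ≫ cutι G' W1 := hc1
  have hc2' : cutMap G (le_sup_right : W2 ≤ W1 ⊔ W2) ≫ c = b.hom ≫ cutι G' W2 := hc2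
  obtain ⟨e, -⟩ := isIso_cutLift (V := W1 ⊔ W2) c (by
    rintro y (hy | hy)
    · have h1 := stk_cutMap_bijective G (le_sup_left : W1 ≤ W1 ⊔ W2) y hy
      have h2 : Function.Bijective (stk (cutMap G (le_sup_left : W1 ≤ W1 ⊔ W2) ≫ c) y) := by
        rw [hc1']
        have h4 : stk (a.hom ≫ cutι G' W1) y = stk (cutι G' W1) y ∘ stk a.hom y := by
          funext s
          exact stk_comp _ _ _ _
        rw [h4]
        exact (stk_cutι_bijective G' W1 y hy).comp (stk_bijective_of_isIso a.hom y)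
      have h5 : stk (cutMap G (le_sup_left : W1 ≤ W1 ⊔ W2) ≫ c) y =
          stk c y ∘ stk (cutMap G (le_sup_left : W1 ≤ W1 ⊔ W2)) y := by
        funext s
        exact stk_comp _ _ _ _
      rw [h5] at h2
      exact (Function.Bijective.of_comp_iff _ h1).mp h2
    · have h1 := stk_cutMap_bijective G (le_sup_right : W2 ≤ W1 ⊔ W2) y hy
      have h2 : Function.Bijective (stk (cutMap G (le_sup_right : W2 ≤ W1 ⊔ W2) ≫ c) y) := by
        rw [hc2']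
        have h4 : stk (b.hom ≫ cutι G' W2) y = stk (cutι G' W2) y ∘ stk b.hom y := by
          funext s
          exact stk_comp _ _ _ _
        rw [h4]
        exact (stk_cutι_bijective G' W2 y hy).comp (stk_bijective_of_isIso b.hom y)
      have h5 : stk (cutMap G (le_sup_right : W2 ≤ W1 ⊔ W2) ≫ c) y =
          stk c y ∘ stk (cutMap G (le_sup_right : W2 ≤ W1 ⊔ W2)) y := by
        funext s
        exact stk_comp _ _ _ _
      rw [h5] at h2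
      exact (Function.Bijective.of_comp_iff _ h1).mp h2)
  exact ⟨e⟩

/-- gluing with fixed models -/
theorem glue_models {R1 R2 : Sh k X} {V1 V2 W1 W2 : Opens X} (hW1 : W1 ≤ V1) (hW2 : W2 ≤ V2)
    {P : Sh k X → Prop} (θ1 : ∀ G, P G → Nonempty (cut G V1 ≅ cut R1 V1))
    (θ2 : ∀ G, P G → Nonempty (cut G V2 ≅ cut R2 V2))
    (hfin : FinIm R1 R2 0 (inf_le_inf hW1 hW2 : W1 ⊓ W2 ≤ V1 ⊓ V2)) : FinOb P (W1 ⊔ W2) := by
  have hr1 : ∀ G (hG : P G), ∃ (a : cut G V1 ≅ cut R1 V1) (a0 : cut G (V1 ⊓ V2) ≅ cut R1 (V1 ⊓ V2)),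
      a0.hom ≫ cutMap R1 inf_le_left = cutMap G inf_le_left ≫ a.hom := by
    intro G hG
    obtain ⟨a⟩ := θ1 G hG
    obtain ⟨a0, ha0⟩ := isoRes (inf_le_left : V1 ⊓ V2 ≤ V1) a
    exact ⟨a, a0, ha0⟩
  have hr2 : ∀ G (hG : P G), ∃ (b : cut G V2 ≅ cut R2 V2) (b0 : cut G (V1 ⊓ V2) ≅ cut R2 (V1 ⊓ V2)),
      b0.hom ≫ cutMap R2 inf_le_right = cutMap G inf_le_right ≫ b.hom := by
    intro G hG
    obtain ⟨b⟩ := θ2 G hG
    obtain ⟨b0, hb0⟩ := isoRes (inf_le_right : V1 ⊓ V2 ≤ V2) b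
    exact ⟨b, b0, hb0⟩
  choose a a0 ha0 using hr1
  choose b b0 hb0 using hr2
  let g : ∀ G, P G → (cut R1 (V1 ⊓ V2) ⟶ R2) := fun G hG =>
    (a0 G hG).inv ≫ (b0 G hG).hom ≫ cutι R2 (V1 ⊓ V2)
  refine ⟨Set.range (fun a : Ext.{0} (cut R1 (V1 ⊓ V2)) R2 0 => rs (inf_le_inf hW1 hW2) a), hfin,
    fun G hG => ⟨_, ⟨Ext.mk₀ (g G hG), rfl⟩⟩, fun G G' hG hG' h => ?_⟩
  have h1 : cutMap R1 (inf_le_inf hW1 hW2) ≫ g G hG =
      cutMap R1 (inf_le_inf hW1 hW2) ≫ g G' hG' := by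
    have h2 := congrArg Subtype.val h
    dsimp only at h2
    unfold rs at h2
    rw [Ext.mk₀_comp_mk₀, Ext.mk₀_comp_mk₀] at h2
    exact (Ext.mk₀_bijective _ _).1 h2
  obtain ⟨p, hp⟩ := isoRes hW1 (a G hG ≪≫ (a G' hG').symm)
  obtain ⟨q, hq⟩ := isoRes hW2 (b G hG ≪≫ (b G' hG').symm)
  apply glue_iso p q
  -- the two composites
  have e1 : p.hom ≫ cutι G' W1 = cutMap G hW1 ≫ (a G hG).hom ≫ (a G' hG').inv ≫ cutι G' V1 := by
    rw [← cutMap_ι G' hW1, ← Category.assoc, hp]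
    simp
  have e2 : q.hom ≫ cutι G' W2 = cutMap G hW2 ≫ (b G hG).hom ≫ (b G' hG').inv ≫ cutι G' V2 := by
    rw [← cutMap_ι G' hW2, ← Category.assoc, hq]
    simp
  rw [e1, e2]
  -- restrict the isomorphisms
  have f1 : ∀ G' (hG' : P G'), (a0 G' hG').inv ≫ cutMap G' (inf_le_left : V1 ⊓ V2 ≤ V1) =
      cutMap R1 inf_le_left ≫ (a G' hG').inv := by
    intro G' hG'
    rw [Iso.inv_comp_eq, ← Category.assoc, ha0, Category.assoc, Iso.hom_inv_id, Category.comp_id]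
  have f2 : ∀ G' (hG' : P G'), (b0 G' hG').inv ≫ cutMap G' (inf_le_right : V1 ⊓ V2 ≤ V2) =
      cutMap R2 inf_le_right ≫ (b G' hG').inv := by
    intro G' hG'
    rw [Iso.inv_comp_eq, ← Category.assoc, hb0, Category.assoc, Iso.hom_inv_id, Category.comp_id]
  have g1 : cutMap G (inf_le_left : V1 ⊓ V2 ≤ V1) ≫ (a G hG).hom ≫ (a G' hG').inv ≫ cutι G' V1 =
      (a0 G hG).hom ≫ (a0 G' hG').inv ≫ cutι G' (V1 ⊓ V2) := by
    rw [← Category.assoc, ← ha0 G hG, Category.assoc, ← Category.assoc (cutMap R1 _), ← f1,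
      Category.assoc, cutMap_ι]
  have g2 : cutMap G (inf_le_right : V1 ⊓ V2 ≤ V2) ≫ (b G hG).hom ≫ (b G' hG').inv ≫ cutι G' V2 =
      (b0 G hG).hom ≫ (b0 G' hG').inv ≫ cutι G' (V1 ⊓ V2) := by
    rw [← Category.assoc, ← hb0 G hG, Category.assoc, ← Category.assoc (cutMap R2 _), ← f2,
      Category.assoc, cutMap_ι]
  have e3 : cutMap G (inf_le_left : W1 ⊓ W2 ≤ W1) ≫ cutMap G hW1 =
      cutMap G (inf_le_inf hW1 hW2) ≫ cutMap G (inf_le_left : V1 ⊓ V2 ≤ V1) := by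
    rw [cutMap_comp, cutMap_comp]
  have e4 : cutMap G (inf_le_right : W1 ⊓ W2 ≤ W2) ≫ cutMap G hW2 =
      cutMap G (inf_le_inf hW1 hW2) ≫ cutMap G (inf_le_right : V1 ⊓ V2 ≤ V2) := by
    rw [cutMap_comp, cutMap_comp]
  rw [reassoc_of% e3, g1, reassoc_of% e4, g2]
  -- restrict the isomorphisms once more
  obtain ⟨r, hr⟩ := isoRes (inf_le_inf hW1 hW2 : W1 ⊓ W2 ≤ V1 ⊓ V2) (a0 G hG)
  obtain ⟨r', hr'⟩ := isoRes (inf_le_inf hW1 hW2 : W1 ⊓ W2 ≤ V1 ⊓ V2) (a0 G' hG')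
  obtain ⟨t, ht⟩ := isoRes (inf_le_inf hW1 hW2 : W1 ⊓ W2 ≤ V1 ⊓ V2) (b0 G hG)
  obtain ⟨t', ht'⟩ := isoRes (inf_le_inf hW1 hW2 : W1 ⊓ W2 ≤ V1 ⊓ V2) (b0 G' hG')
  have inv_of : ∀ {G R : Sh k X} (r : cut G (W1 ⊓ W2) ≅ cut R (W1 ⊓ W2))
      (a0 : cut G (V1 ⊓ V2) ≅ cut R (V1 ⊓ V2))
      (_ : r.hom ≫ cutMap R (inf_le_inf hW1 hW2) = cutMap G (inf_le_inf hW1 hW2) ≫ a0.hom),
      cutMap R (inf_le_inf hW1 hW2) ≫ a0.inv = r.inv ≫ cutMap G (inf_le_inf hW1 hW2) := by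
    intro G R r a0 h
    rw [← cancel_mono a0.hom, Category.assoc, Iso.inv_hom_id, Category.comp_id, Category.assoc,
      ← h, Iso.inv_hom_id_assoc]
  have k1 : r.inv ≫ t.hom = r'.inv ≫ t'.hom := by
    apply cut_hom_ext
    have l1 : ∀ (G : Sh k X) (hG : P G) (r : cut G (W1 ⊓ W2) ≅ cut R1 (W1 ⊓ W2))
        (t : cut G (W1 ⊓ W2) ≅ cut R2 (W1 ⊓ W2))
        (_ : r.hom ≫ cutMap R1 (inf_le_inf hW1 hW2) =
          cutMap G (inf_le_inf hW1 hW2) ≫ (a0 G hG).hom)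
        (_ : t.hom ≫ cutMap R2 (inf_le_inf hW1 hW2) =
          cutMap G (inf_le_inf hW1 hW2) ≫ (b0 G hG).hom),
        (r.inv ≫ t.hom) ≫ cutι R2 (W1 ⊓ W2) = cutMap R1 (inf_le_inf hW1 hW2) ≫ g G hG := by
      intro G hG r t hr ht
      have m1 := inv_of r (a0 G hG) hr
      change _ = cutMap R1 _ ≫ (a0 G hG).inv ≫ (b0 G hG).hom ≫ cutι R2 (V1 ⊓ V2)
      rw [reassoc_of% m1, ← reassoc_of% ht, cutMap_ι, Category.assoc]
    rw [l1 G hG r t hr ht, l1 G' hG' r' t' hr' ht', h1]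
  have k2 : r.hom ≫ r'.inv = t.hom ≫ t'.inv := by
    rw [← cancel_mono t'.hom, Category.assoc, Category.assoc, Iso.inv_hom_id, Category.comp_id,
      ← k1, Iso.hom_inv_id_assoc]
  have m2 := inv_of r' (a0 G' hG') hr'
  have m3 := inv_of t' (b0 G' hG') ht'
  rw [← reassoc_of% hr, reassoc_of% m2, cutMap_ι, ← reassoc_of% ht, reassoc_of% m3, cutMap_ι,
    reassoc_of% k2]

/-- finiteness of isomorphism classes near compact sets -/
theorem wilder_ob [CompactSpace X] [T2Space X] {P : Sh k X → Prop} {U : Opens X}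
    (h1 : ∀ x ∈ U, ∃ V : Opens X, x ∈ V ∧ FinOb P V)
    (h2 : ∀ G G', P G → P G' → ∀ x ∈ U, LFin G G' x) {K : Set X} (hK : IsCompact K)
    (hKU : K ⊆ U) : ∃ V : Opens X, V ≤ U ∧ K ⊆ V ∧ FinOb P V := by
  have key : ∃ K' : Set X, IsCompact K' ∧ K ⊆ K' ∧ K' ⊆ U ∧
      ∃ V : Opens X, V ≤ U ∧ K' ⊆ V ∧ FinOb P V := by
    refine hK.induction_on (p := fun S => ∃ K' : Set X, IsCompact K' ∧ S ⊆ K' ∧ K' ⊆ U ∧
      ∃ V : Opens X, V ≤ U ∧ K' ⊆ V ∧ FinOb P V) ?_ ?_ ?_ ?_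
    · exact ⟨∅, isCompact_empty, le_rfl, Set.empty_subset _, ⊥, bot_le, Set.empty_subset _,
        finOb_bot P⟩
    · rintro s t hst ⟨K', h1, h2, h3⟩
      exact ⟨K', h1, hst.trans h2, h3⟩
    · rintro s t ⟨K1, hK1, hs, hK1U, V1, hV1, hKV1, f1⟩ ⟨K2, hK2, ht, hK2U, V2, hV2, hKV2, f2⟩
      obtain ⟨F1, hF1, R1, hR1, c1, hc1⟩ := f1.exists_rep
      obtain ⟨F2, hF2, R2, hR2, c2, hc2⟩ := f2.exists_rep
      have hW : ∀ p : F1 × F2, ∃ (W0 : Opens X) (h : W0 ≤ V1 ⊓ V2), K1 ∩ K2 ⊆ W0 ∧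
          FinIm (R1 p.1) (R2 p.2) 0 h := by
        intro p
        exact wilder 0 (U := V1 ⊓ V2) (fun x hx => h2 _ _ (hR1 _) (hR2 _) x (hV1 hx.1)) (hK1.inter hK2)
          (fun x hx => ⟨hKV1 hx.1, hKV2 hx.2⟩)
      choose W0 hW0 hKW0 hf0 using hW
      let W : Opens X := ⟨⋂ p, (W0 p : Set X), isOpen_iInter_of_finite fun p => (W0 p).2⟩
      have hWle : ∀ p, W ≤ W0 p := fun p x hx => Set.mem_iInter.mp hx p
      obtain ⟨W1, W2, hW1, hW2, hKW1, hKW2, hW12⟩ := exists_separate (W0 := W) hK1 hK2 hKV1 hKV2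
        (fun x hx => Set.mem_iInter.mpr fun p => hKW0 p hx)
      refine ⟨K1 ∪ K2, hK1.union hK2, Set.union_subset_union hs ht,
        Set.union_subset hK1U hK2U, W1 ⊔ W2, (sup_le (hW1.trans hV1) (hW2.trans hV2)), ?_, ?_⟩
      · rintro x (hx | hx)
        · exact Or.inl (hKW1 hx)
        · exact Or.inr (hKW2 hx)
      · apply finOb_of_fibers (F := F1 × F2) (fun G hG => (c1 G hG, c2 G hG))
        rintro ⟨p1, p2⟩
        apply glue_models (R1 := R1 p1) (R2 := R2 p2) hW1 hW2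
        · rintro G ⟨hG, hG2⟩
          have e1 : c1 G hG = p1 := congrArg Prod.fst hG2
          rw [← e1]
          exact hc1 G hG
        · rintro G ⟨hG, hG2⟩
          have e1 : c2 G hG = p2 := congrArg Prod.snd hG2
          rw [← e1]
          exact hc2 G hG
        · exact (hf0 (p1, p2)).mono (le_refl _) (hW12.trans (hWle _))
    · intro x hx
      obtain ⟨V, hxV, hf⟩ := h1 x (hKU hx)
      have hf' := hf.mono (inf_le_left : V ⊓ U ≤ V)
      obtain ⟨C, hC, hxC, hCV⟩ := exists_compact_subset (V ⊓ U).2 (x := x) ⟨hxV, hKU hx⟩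
      exact ⟨C, mem_nhdsWithin_of_mem_nhds (mem_interior_iff_mem_nhds.mp hxC),
        C, hC, le_rfl, fun y hy => (hCV hy).2, V ⊓ U, inf_le_right, hCV, hf'⟩
  obtain ⟨K', hK', h1, h2, V, hV, h3, h4⟩ := key
  exact ⟨V, hV, h1.trans h3, h4⟩

end Run7.h642
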