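import Pool.Agent.Run7.h642.Pull

/-!
# Open subspaces
-/

open CategoryTheory TopologicalSpace Opposite TopCat Limits Abelian

namespace Run7.h642

variable {k : Type} [Field k] {X : TopCat.{0}}

/-- the inclusion of an open subspace -/
def jn (A : Opens X) : TopCat.of A ⟶ X := TopCat.ofHom ⟨Subtype.val, continuous_subtype_val⟩

theorem jn_apply (A : Opens X) (y : A) : jn A y = y.1 := rfl

/-- the image of an open subset of an open subspace -/
def im (A : Opens X) (V : Opens (TopCat.of A)) : Opens X :=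
  ⟨Subtype.val '' (V : Set A), A.2.isOpenMap_subtype_val V V.2⟩

theorem mem_im {A : Opens X} {V : Opens (TopCat.of A)} {x : X} :
    x ∈ im A V ↔ ∃ h : x ∈ A, (⟨x, h⟩ : A) ∈ V := by
  constructor
  · rintro ⟨y, hy, rfl⟩
    exact ⟨y.2, hy⟩
  · rintro ⟨h, hx⟩
    exact ⟨⟨x, h⟩, hx, rfl⟩

section ext0

variable {A : Opens X} (M : Sh k (TopCat.of A))

/-- sections of the extension by zero -/
noncomputable def zSub :
    LocSub k (fun x : X => (∀ h : PLift (x ∈ A), M.presheaf.stalk (⟨x, h.down⟩ : A) : Type)) where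
  S W :=
    { carrier := {s | ∀ (x : X) (_ : x ∈ W), ∃ (V : Opens X) (hV : V ≤ W) (_ : x ∈ V)
        (t : M.1.obj (op ((Opens.map (jn A)).obj V))),
          (∀ (z : X) (hz : z ∈ V) (h : z ∈ A), s ⟨z, hV hz⟩ ⟨h⟩ = grm M (⟨z, h⟩ : A) hz t) ∧
          (x ∉ A → t = 0)}
      add_mem' := by
        rintro a b ha hb x hx
        obtain ⟨V, hV, hxV, t, ht, h1⟩ := ha x hx
        obtain ⟨V', hV', hxV', t', ht', h1'⟩ := hb x hx
        have e1 : (Opens.map (jn A)).obj (V ⊓ V') ≤ (Opens.map (jn A)).obj V := fun z hz => hz.1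
        have e2 : (Opens.map (jn A)).obj (V ⊓ V') ≤ (Opens.map (jn A)).obj V' := fun z hz => hz.2
        refine ⟨V ⊓ V', inf_le_left.trans hV, ⟨hxV, hxV'⟩, res M e1 t + res M e2 t',
          fun z hz h => ?_, fun h => ?_⟩
        · rw [map_add, grm_res, grm_res, ← ht z hz.1 h, ← ht' z hz.2 h]
          rfl
        · rw [h1 h, h1' h, map_zero, map_zero, add_zero]
      zero_mem' := by
        intro x hx
        refine ⟨W, le_refl W, hx, 0, fun z hz h => ?_, fun _ => rfl⟩
        rw [map_zero]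
        rfl
      smul_mem' := by
        rintro c a ha x hx
        obtain ⟨V, hV, hxV, t, ht, h1⟩ := ha x hx
        refine ⟨V, hV, hxV, c • t, fun z hz h => ?_, fun h => ?_⟩
        · rw [map_smul, ← ht z hz h]
          rfl
        · rw [h1 h, smul_zero] }
  restr := by
    rintro W W' h s hs x hx
    obtain ⟨V, hV, hxV, t, ht, h1⟩ := hs x (h hx)
    have e1 : (Opens.map (jn A)).obj (V ⊓ W) ≤ (Opens.map (jn A)).obj V := fun z hz => hz.1
    refine ⟨V ⊓ W, inf_le_right, ⟨hxV, hx⟩, res M e1 t, fun z hz hA => ?_, fun h => ?_⟩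
    · rw [grm_res, ← ht z hz.1 hA]
      rfl
    · rw [h1 h, map_zero]
  loc := by
    intro W s hs x hx
    obtain ⟨W', hW', hxW', h1⟩ := hs x hx
    obtain ⟨V, hV, hxV, t, ht, h1⟩ := h1 x hxW'
    exact ⟨V, hV.trans hW', hxV, t, fun z hz h => ht z hz h, h1⟩

theorem zSub_disc : (zSub M).Disc := by
  intro W s hs x hx h0
  obtain ⟨V, hV, hxV, t, ht, h1⟩ := hs x hx
  by_cases hA : x ∈ A
  · have hxV' : (⟨x, hA⟩ : A) ∈ (Opens.map (jn A)).obj V := hxV
    have h2 : grm M (⟨x, hA⟩ : A) hxV' t = grm M (⟨x, hA⟩ : A) hxV' 0 := by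
      rw [← ht x hxV hA, h0, map_zero]
      rfl
    obtain ⟨V', e1, e2, hyV', h3⟩ := exists_res_eq_of_grm M (⟨x, hA⟩ : A) hxV hxV t 0 h2
    refine ⟨im A V', ?_, ⟨⟨x, hA⟩, hyV', rfl⟩, ?_⟩
    · rintro z ⟨y, hy, rfl⟩
      exact hV (e1 hy)
    · intro z hz
      obtain ⟨hzA, hzV⟩ := mem_im.mp hz
      funext h
      have h4 := ht z (e1 hzV) h.down
      rw [← grm_res M e1 (⟨z, h.down⟩ : A) hzV, h3, map_zero, map_zero] at h4
      exact h4
  · refine ⟨V, hV, hxV, fun z hz => ?_⟩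
    funext h
    have h4 := ht z hz h.down
    rw [h1 hA, map_zero] at h4
    exact h4

/-- extension by zero -/
noncomputable def ext0 : Sh k X := (zSub M).sheaf

/-- evaluation of germs of the extension by zero -/
noncomputable def e0 (x : X) (h : x ∈ A) :
    (ext0 M).presheaf.stalk x →ₗ[k] M.presheaf.stalk (⟨x, h⟩ : A) :=
  (LinearMap.proj (⟨h⟩ : PLift (x ∈ A))).comp ((zSub M).ev x)

theorem e0_injective (x : X) (h : x ∈ A) : Function.Injective (e0 M x h) := by
  intro a b hab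
  apply (zSub M).ev_injective (zSub_disc M) x
  funext h'
  exact hab

theorem e0_grm (x : X) (h : x ∈ A) (W : Opens X) (hx : x ∈ W) (s : (zSub M).S W) :
    e0 M x h (grm (ext0 M) x hx (show (ext0 M).1.obj (op W) from s)) = s.1 ⟨x, hx⟩ ⟨h⟩ :=
  congrFun ((zSub M).ev_grm x W hx s) ⟨h⟩

theorem ext0_stalk_eq_zero (x : X) (h : x ∉ A) (a : (ext0 M).presheaf.stalk x) : a = 0 := by
  apply (zSub M).ev_injective (zSub_disc M) x
  funext h'
  exact absurd h'.down h

/-- sections of the extension by zero -/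
theorem exists_zS (V : Opens (TopCat.of A)) (t : M.1.obj (op V)) :
    ∃ s : (ext0 M).1.obj (op (im A V)), ∀ (x : X) (h : x ∈ A) (hx : (⟨x, h⟩ : A) ∈ V),
      e0 M x h (grm (ext0 M) x (mem_im.mpr ⟨h, hx⟩) s) = grm M (⟨x, h⟩ : A) hx t := by
  have hle : (Opens.map (jn A)).obj (im A V) ≤ V := by
    intro y hy
    obtain ⟨h, hx⟩ := mem_im.mp hy
    exact hx
  have hle' : ∀ (x : X) (hx : x ∈ im A V) (h : x ∈ A), (⟨x, h⟩ : A) ∈ V := by
    intro x hx h
    obtain ⟨_, hx⟩ := mem_im.mp hx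
    exact hx
  let s : (zSub M).S (im A V) := ⟨fun z h => grm M (⟨z.1, h.down⟩ : A) (hle' z.1 z.2 h.down) t, by
    intro x hx
    refine ⟨im A V, le_refl _, hx, res M hle t, fun z hz h => ?_, fun h => ?_⟩
    · rw [grm_res]
    · exact absurd (mem_im.mp hx).1 h⟩
  exact ⟨s, fun x h hx => e0_grm M x h (im A V) _ s⟩

theorem e0_surjective (x : X) (h : x ∈ A) : Function.Surjective (e0 M x h) := by
  intro a
  obtain ⟨V, hV, t, rfl⟩ := exists_grm_eq M (⟨x, h⟩ : A) a
  obtain ⟨s, hs⟩ := exists_zS M V t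
  exact ⟨_, hs x h hV⟩

theorem exists_unit0 : ∃ u : M ⟶ pb (jn A) (ext0 M), ∀ (y : A) (s : M.presheaf.stalk y),
    e0 M y.1 y.2 (pe (jn A) (ext0 M) y (stk u y s)) = s := by
  let e : ∀ y : A, (ext0 M).presheaf.stalk y.1 ≃ₗ[k] M.presheaf.stalk y := fun y =>
    LinearEquiv.ofBijective (e0 M y.1 y.2) ⟨e0_injective M y.1 y.2, e0_surjective M y.1 y.2⟩
  obtain ⟨u, hu⟩ := exists_pbLift (jn A) (ext0 M) (F := M) (fun y => (e y).symm.toLinearMap) (by
    intro W s y hy
    obtain ⟨t, ht⟩ := exists_zS M W s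
    refine ⟨W, le_refl _, hy, im A W, fun z hz => mem_im.mpr ⟨z.2, hz⟩, t, fun z hz => ?_⟩
    apply (e z).injective
    exact ((e z).apply_symm_apply _).trans (ht z.1 z.2 hz).symm)
  refine ⟨u, fun y s => ?_⟩
  rw [hu y s]
  exact (e y).apply_symm_apply s

theorem exists_desc0 {I : Sh k X} (g : M ⟶ pb (jn A) I) : ∃ g' : ext0 M ⟶ I,
    ∀ (y : A) (s : (ext0 M).presheaf.stalk y.1),
      stk g' y.1 s = pe (jn A) I y (stk g y (e0 M y.1 y.2 s)) := by
  classical
  obtain ⟨g', hg'⟩ := exists_homMk (F := ext0 M) (G := I)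
    (fun x => if h : x ∈ A then
      ((pe (jn A) I (⟨x, h⟩ : A)).comp (stk g (⟨x, h⟩ : A))).comp (e0 M x h) else 0) (by
      intro W s x hx
      by_cases hA : x ∈ A
      · obtain ⟨V, hV, hxV, t, ht, -⟩ := (show (zSub M).S W from s).2 x hx
        have ht' : ∀ (z : X) (hz : z ∈ V) (h : z ∈ A), e0 M z h (grm (ext0 M) z (hV hz) s) =
            grm M (⟨z, h⟩ : A) hz t := by
          intro z hz h
          rw [← ht z hz h]
          exact e0_grm M z h W (hV hz) s
        obtain ⟨V2, hV2, hyV2, U, hU, t2, ht2⟩ := pb_sec_loc (jn A) I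
          (sec g ((Opens.map (jn A)).obj V) t) (⟨x, hA⟩ : A) hxV
        have e1 : im A V2 ≤ U := by
          rintro z ⟨y, hy, rfl⟩
          exact hU y hy
        have e2 : im A V2 ≤ V := by
          rintro z ⟨y, hy, rfl⟩
          exact hV2 hy
        refine ⟨im A V2, e2.trans hV, mem_im.mpr ⟨hA, hyV2⟩, res I e1 t2, fun z hz => ?_⟩
        obtain ⟨hzA, hzV⟩ := mem_im.mp hz
        rw [dif_pos hzA, grm_res]
        have h8 := congrArg (fun q => pe (jn A) I (⟨z, hzA⟩ : A) (stk g (⟨z, hzA⟩ : A) q))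
          (ht' z (e2 hz) hzA)
        refine Eq.trans ?_ h8.symm
        dsimp only
        rw [stk_grm]
        exact (ht2 (⟨z, hzA⟩ : A) hzV).symm
      · have h0 : grm (ext0 M) x hx s = grm (ext0 M) x hx 0 := by
          rw [map_zero]; exact ext0_stalk_eq_zero M x hA _
        obtain ⟨V, h1, h2, hyV, h3⟩ := exists_res_eq_of_grm _ x hx hx _ _ h0
        refine ⟨V, h1, hyV, 0, fun z hz => ?_⟩
        rw [← grm_res _ h1 z hz s, h3, map_zero, map_zero, map_zero, map_zero])
  refine ⟨g', fun y s => ?_⟩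
  rw [hg' y.1 s, dif_pos y.2]
  rfl

theorem exists_map0 {M M' : Sh k (TopCat.of A)} (φ : M ⟶ M') : ∃ g : ext0 M ⟶ ext0 M',
    ∀ (x : X) (h : x ∈ A) (s : (ext0 M).presheaf.stalk x),
      e0 M' x h (stk g x s) = stk φ (⟨x, h⟩ : A) (e0 M x h s) := by
  obtain ⟨u, hu⟩ := exists_unit0 M'
  obtain ⟨g, hg⟩ := exists_desc0 M (φ ≫ u)
  refine ⟨g, fun x h s => ?_⟩
  rw [hg ⟨x, h⟩ s, stk_comp]
  exact hu (⟨x, h⟩ : A) _

end ext0

/-- restriction to open subspaces preserves injectives -/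
theorem injective_pb_jn (A : Opens X) (I : Sh k X) [Injective I] : Injective (pb (jn A) I) := by
  constructor
  intro M M' g φ hφ
  obtain ⟨u, hu⟩ := exists_unit0 M'
  obtain ⟨g', hg'⟩ := exists_desc0 M g
  obtain ⟨φ', hφ'⟩ := exists_map0 φ
  have : Mono φ' := by
    apply mono_of_stk
    intro x a b hab
    by_cases h : x ∈ A
    · apply e0_injective M x h
      apply stk_injective_of_mono φ (⟨x, h⟩ : A)
      rw [← hφ' x h, ← hφ' x h, hab]
    · rw [ext0_stalk_eq_zero M x h a, ext0_stalk_eq_zero M x h b]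
  obtain ⟨q, hq⟩ := Injective.factors g' φ'
  refine ⟨u ≫ pbMap (jn A) q, ?_⟩
  apply pb_hom_ext
  intro y s
  rw [stk_comp, stk_comp, pe_pbMap]
  obtain ⟨s', rfl⟩ := e0_surjective M y.1 y.2 s
  rw [← hg' y s', ← hq, stk_comp]
  congr 1
  apply e0_injective M' y.1 y.2
  rw [hφ' y.1 y.2]
  exact hu y _

/-- restriction to an open subspace is bijective on morphisms out of cut-off sheaves -/
theorem pb_jn_bijective (G : Sh k X) (A : Opens X) (N : Sh k X) :
    Function.Bijective (fun g : cut G A ⟶ N => (pbF k (jn A)).map g) := by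
  constructor
  · intro a b hab
    apply hom_ext_stk
    intro x s
    by_cases hx : x ∈ A
    · obtain ⟨s, rfl⟩ := pe_surjective (jn A) (cut G A) (⟨x, hx⟩ : A) s
      have h1 := pe_pbMap (jn A) a (⟨x, hx⟩ : A) s
      have h2 := pe_pbMap (jn A) b (⟨x, hx⟩ : A) s
      have h3 : pbMap (jn A) a = pbMap (jn A) b := hab
      rw [h3] at h1
      exact h1.symm.trans h2
    · rw [cut_stalk_eq_zero G A x hx s, map_zero, map_zero]
  · intro g
    classical
    let g : pb (jn A) (cut G A) ⟶ pb (jn A) N := g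
    let e : ∀ y : A, (pb (jn A) (cut G A)).presheaf.stalk y ≃ₗ[k]
        (cut G A).presheaf.stalk (jn A y) := fun y =>
      LinearEquiv.ofBijective (pe (jn A) (cut G A) y) ⟨pe_injective _ _ _, pe_surjective _ _ _⟩
    obtain ⟨g', hg'⟩ := exists_homMk (F := cut G A) (G := N)
      (fun x => if h : x ∈ A then
        ((pe (jn A) N (⟨x, h⟩ : A)).comp (stk g (⟨x, h⟩ : A))).comp
          (e (⟨x, h⟩ : A)).symm.toLinearMap else 0) (by
        intro W s x hx
        by_cases hA : x ∈ A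
        · let s' := pbS (jn A) s ((Opens.map (jn A)).obj W) (fun z hz => hz)
          obtain ⟨V2, hV2, hyV2, U, hU, t2, ht2⟩ := pb_sec_loc (jn A) N
            (sec g ((Opens.map (jn A)).obj W) s') (⟨x, hA⟩ : A) hx
          have e1 : im A V2 ≤ U := by
            rintro z ⟨y, hy, rfl⟩
            exact hU y hy
          have e2 : im A V2 ≤ W := by
            rintro z ⟨y, hy, rfl⟩
            exact hV2 hy
          refine ⟨im A V2, e2, mem_im.mpr ⟨hA, hyV2⟩, res N e1 t2, fun z hz => ?_⟩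
          obtain ⟨hzA, hzV⟩ := mem_im.mp hz
          have h5 : (e (⟨z, hzA⟩ : A)).symm (grm (cut G A) z (e2 hz) s) =
              grm (pb (jn A) (cut G A)) (⟨z, hzA⟩ : A) (e2 hz) s' := by
            rw [LinearEquiv.symm_apply_eq]
            exact (pe_pbS (jn A) s ((Opens.map (jn A)).obj W) (fun z hz => hz)
              (⟨z, hzA⟩ : A) (e2 hz)).symm
          rw [dif_pos hzA, grm_res]
          have h8 := congrArg (fun q => pe (jn A) N (⟨z, hzA⟩ : A) (stk g (⟨z, hzA⟩ : A) q)) h5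
          refine Eq.trans ?_ h8.symm
          dsimp only
          rw [stk_grm]
          exact (ht2 (⟨z, hzA⟩ : A) hzV).symm
        · have h0 : grm (cut G A) x hx s = grm (cut G A) x hx 0 := by
            rw [map_zero]; exact cut_stalk_eq_zero G A x hA _
          obtain ⟨V, h1, h2, hyV, h3⟩ := exists_res_eq_of_grm _ x hx hx _ _ h0
          refine ⟨V, h1, hyV, 0, fun z hz => ?_⟩
          rw [← grm_res _ h1 z hz s, h3, map_zero, map_zero, map_zero, map_zero])
    refine ⟨g', ?_⟩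
    change pbMap (jn A) g' = g
    apply pb_hom_ext
    intro y s
    rw [pe_pbMap]
    have h6 := hg' y.1 (pe (jn A) (cut G A) y s)
    rw [dif_pos y.2] at h6
    have h7 : (e y).symm (pe (jn A) (cut G A) y s) = s := (e y).symm_apply_apply s
    exact h6.trans (congrArg (fun q => pe (jn A) N y (stk g y q)) h7)

/-- restriction to an open subspace is injective on Ext out of cut-off sheaves -/
theorem ext_jn_injective (G : Sh k X) (A : Opens X) {n : ℕ} {N : Sh k X}
    (a : Ext.{0} (cut G A) N n) (h : (a.mapExactFunctor (pbF k (jn A)) : Ext.{0} _ _ n) = 0) :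
    a = 0 :=
  ext_inj_fun (pbF k (jn A)) (fun I _ => injective_pb_jn A I) (cut G A) (pb_jn_bijective G A) n a h

end Run7.h642
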