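import Pool.Agent.Run7.h642.Fib

/-!
# The archimedean part of the count
-/

set_option autoImplicit false

namespace Run7.h642.Cnt

open Polynomial Run7.h929.G2 Run7.h929.G3 Filter Topology

theorem greedy (L k : ℕ) (T : Finset ℤ) (h : k * L < T.card) :
    ∃ f : Fin (k + 1) → ℤ, (∀ i, f i ∈ T) ∧ ∀ i j, i < j → f i + L ≤ f j := by
  induction k generalizing T with
  | zero =>
    obtain ⟨t, ht⟩ := Finset.card_pos.1 (by omega : 0 < T.card)
    refine ⟨fun _ => t, fun _ => ht, fun i j hij => ?_⟩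
    exfalso
    omega
  | succ k ih =>
    have hne : T.Nonempty := Finset.card_pos.1 (by omega)
    set m := T.min' hne with hm
    have hmT : m ∈ T := T.min'_mem hne
    have h1 : (T.filter fun t => ¬ m + L ≤ t) ⊆ Finset.Ico m (m + L) := by
      intro t ht
      rw [Finset.mem_filter, not_le] at ht
      exact Finset.mem_Ico.2 ⟨T.min'_le t ht.1, ht.2⟩
    have h2 := Finset.card_le_card h1
    rw [Int.card_Ico] at h2
    have h3 := Finset.card_filter_add_card_filter_not (s := T) (fun t => m + L ≤ t)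
    have h4 : (m + L - m).toNat = L := by simp
    rw [h4] at h2
    obtain ⟨f, hf, hg⟩ := ih (T.filter fun t => m + L ≤ t) (by
      rw [add_mul, one_mul] at h
      omega)
    refine ⟨Fin.cons m f, ?_, ?_⟩
    · intro i
      refine Fin.cases ?_ (fun j => ?_) i
      · simpa using hmT
      · simpa using (Finset.mem_filter.1 (hf j)).1
    · intro i j hij
      revert hij
      refine Fin.cases ?_ (fun i => ?_) i
      · refine Fin.cases ?_ (fun j => ?_) j
        · intro hij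
          exact absurd hij (lt_irrefl _)
        · intro _
          simpa using (Finset.mem_filter.1 (hf j)).2
      · refine Fin.cases ?_ (fun j => ?_) j
        · intro hij
          exact absurd hij (by simp)
        · intro hij
          simpa using hg i j (by simpa using hij)

theorem fibA (P : ℤ[X]) (hP : P.natDegree = 4) (hl : P.leadingCoeff = 3125) (X : ℝ) (hX : 0 < X)
    (T : Finset ℤ) (hT : ∀ t ∈ T, |((P.eval t : ℤ) : ℝ)| < X) :
    (T.card : ℝ) ≤ 4 * (X ^ (1 / 4 : ℝ) + 1) := by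
  set L : ℕ := ⌈X ^ (1 / 4 : ℝ)⌉₊ with hL
  have hX4 : 0 < X ^ (1 / 4 : ℝ) := Real.rpow_pos_of_pos hX _
  have hL1 : X ^ (1 / 4 : ℝ) ≤ L := Nat.le_ceil _
  have hL2 : (L : ℝ) < X ^ (1 / 4 : ℝ) + 1 := Nat.ceil_lt_add_one hX4.le
  have hLX : X ≤ (L : ℝ) ^ 4 := by
    calc X = (X ^ (1 / 4 : ℝ)) ^ 4 := by
          rw [← Real.rpow_natCast, ← Real.rpow_mul hX.le]
          norm_num
      _ ≤ (L : ℝ) ^ 4 := pow_le_pow_left₀ hX4.le hL1 4
  have hL0 : (0 : ℝ) < L := hX4.trans_le hL1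
  suffices h : T.card ≤ 4 * L by
    have : (T.card : ℝ) ≤ 4 * L := by exact_mod_cast h
    linarith
  by_contra hcon
  push Not at hcon
  obtain ⟨f, hf, hg⟩ := greedy L 4 T hcon
  have hgap : ∀ i j, i ≠ j → (L : ℝ) ≤ |(f i : ℝ) - f j| := by
    intro i j hij
    rcases lt_or_gt_of_ne hij with h | h
    · have h1 : (f i : ℝ) + L ≤ f j := by exact_mod_cast hg i j h
      rw [abs_sub_comm]
      exact (by linarith : (L : ℝ) ≤ f j - f i).trans (le_abs_self _)
    · have h1 : (f j : ℝ) + L ≤ f i := by exact_mod_cast hg j i h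
      exact (by linarith : (L : ℝ) ≤ f i - f j).trans (le_abs_self _)
  have hinj : Function.Injective f := by
    intro i j hij
    by_contra hne
    have := hgap i j hne
    rw [hij, sub_self, abs_zero] at this
    linarith
  have h1 := lagr (K := ℝ) P hP f hinj
  have h2 : ∀ i : Fin 5, |((P.eval (f i) : ℤ) : ℝ) /
      ∏ j ∈ Finset.univ.erase i, ((f i : ℝ) - f j)| ≤ 1 := by
    intro i
    rw [abs_div, Finset.abs_prod]
    have h3 : (L : ℝ) ^ 4 ≤ ∏ j ∈ Finset.univ.erase i, |(f i : ℝ) - f j| := by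
      have h4 : ∏ j ∈ (Finset.univ : Finset (Fin 5)).erase i, (L : ℝ) = (L : ℝ) ^ 4 := by
        rw [Finset.prod_const, Finset.card_erase_of_mem (Finset.mem_univ _)]
        simp
      rw [← h4]
      refine Finset.prod_le_prod (fun _ _ => hL0.le) fun j hj => ?_
      exact hgap i j (Finset.ne_of_mem_erase hj).symm
    have h5 := hT _ (hf i)
    rw [div_le_one (lt_of_lt_of_le (by positivity) h3)]
    linarith
  rw [hl] at h1
  have h6 : |((3125 : ℤ) : ℝ)| ≤ 5 := by
    rw [h1]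
    refine (Finset.abs_sum_le_sum_abs _ _).trans ?_
    refine (Finset.sum_le_sum fun i _ => h2 i).trans ?_
    simp
  norm_num at h6

/-- the archimedean part -/
theorem cA : S_cA := by
  classical
  intro hD ε hε
  have hb : ∀ᶠ B : ℕ in atTop,
      ({a ∈ (Box B : Set (Fin 5 → ℤ)) | |((dis a : ℤ) : ℝ)| < (B : ℝ) ^ (20 - ε)}.ncard : ℝ) /
        (Box B).card ≤ 2 * ((B : ℝ) ^ (-(ε / 4)) + (B : ℝ) ^ (-5 : ℝ)) := by
    filter_upwards [eventually_ge_atTop 1] with B hB
    have hB0 : (0 : ℝ) < B := by exact_mod_cast hB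
    have hX : 0 < (B : ℝ) ^ (20 - ε) := Real.rpow_pos_of_pos hB0 _
    have h1 := fib B 0 (fun a => |((dis a : ℤ) : ℝ)| < (B : ℝ) ^ (20 - ε))
      (4 * (((B : ℝ) ^ (20 - ε)) ^ (1 / 4 : ℝ) + 1)) (fun a _ => by
        refine fibA (DP a) (hD a).1 (hD a).2.1 _ hX _ fun t ht => ?_
        rw [Finset.mem_filter, dis_update hD] at ht
        exact ht.2)
    rw [ncard_Box, div_le_iff₀ (by exact_mod_cast card_Box_pos B)]
    rw [card_II_zero] at h1
    have h2 : ((B : ℝ) ^ (20 - ε)) ^ (1 / 4 : ℝ) = (B : ℝ) ^ (-(ε / 4)) * (B : ℝ) ^ 5 := by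
      rw [← Real.rpow_mul hB0.le, ← Real.rpow_natCast (B : ℝ) 5, ← Real.rpow_add hB0]
      congr 1
      push_cast
      ring
    have h3 : (1 : ℝ) = (B : ℝ) ^ (-5 : ℝ) * (B : ℝ) ^ 5 := by
      rw [← Real.rpow_natCast (B : ℝ) 5, ← Real.rpow_add hB0]
      norm_num
    rw [h2] at h1
    have h4 : 4 * ((B : ℝ) ^ (-(ε / 4)) * (B : ℝ) ^ 5 + 1) =
        4 * ((B : ℝ) ^ (-(ε / 4)) + (B : ℝ) ^ (-5 : ℝ)) * (B : ℝ) ^ 5 := by
      linear_combination 4 * h3
    rw [h4] at h1
    have h5 : 0 < 2 * (B : ℝ) ^ 5 + 1 := by positivity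
    have h6 : (0 : ℝ) ≤ ((Finset.filter (fun a => |((dis a : ℤ) : ℝ)| < (B : ℝ) ^ (20 - ε))
      (Box B)).card : ℝ) := by positivity
    have h7 : 0 < (B : ℝ) ^ 5 := by positivity
    nlinarith [h1, h6, h7]
  have hlim : Tendsto (fun B : ℕ => 2 * ((B : ℝ) ^ (-(ε / 4)) + (B : ℝ) ^ (-5 : ℝ))) atTop
      (𝓝 0) := by
    have h1 := (tendsto_rpow_neg_atTop (by positivity : 0 < ε / 4)).comp
      (tendsto_natCast_atTop_atTop (R := ℝ))
    have h2 := (tendsto_rpow_neg_atTop (by norm_num : (0 : ℝ) < 5)).comp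
      (tendsto_natCast_atTop_atTop (R := ℝ))
    have h3 := (h1.add h2).const_mul 2
    simpa using h3
  refine squeeze_zero' (Eventually.of_forall fun B => by positivity) hb hlim

end Run7.h642.Cnt
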