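import Pool.Agent.Run7.h642.Fib

/-!
# The small primes
-/

set_option autoImplicit false

namespace Run7.h642.Cnt

open Polynomial Run7.h929.G2 Run7.h929.G3 Filter Topology

theorem norm_prod_ge {ι : Type*} [DecidableEq ι] (p : ℕ) [Fact p.Prime] (s : Finset ι)
    (f : ι → ℚ) (c : ℚ) (hc : 0 ≤ c) (h : ∀ i ∈ s, c ≤ padicNorm p (f i)) :
    c ^ s.card ≤ padicNorm p (∏ i ∈ s, f i) := by
  induction s using Finset.induction_on with
  | empty => simp
  | insert i s hi ih =>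
    rw [Finset.card_insert_of_notMem hi, Finset.prod_insert hi, padicNorm.mul, pow_succ, mul_comm]
    exact mul_le_mul (h i (Finset.mem_insert_self _ _))
      (ih fun j hj => h j (Finset.mem_insert_of_mem hj)) (by positivity) (padicNorm.nonneg _)

theorem fibB_aux (P : ℤ[X]) (hP : P.natDegree = 4) (hl : P.leadingCoeff = 3125) (p k : ℕ)
    [hp : Fact p.Prime] (t : Fin 5 → ℤ) (hnd : ∀ i j, i ≠ j → ¬ ((p ^ k : ℕ) : ℤ) ∣ t i - t j)
    (hT : ∀ i, (p : ℤ) ^ (4 * k + 12) ∣ P.eval (t i)) : False := by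
  have hp0 : (0 : ℚ) < p := by exact_mod_cast hp.out.pos
  have hinj : Function.Injective t := by
    intro i j hij
    by_contra hne
    apply hnd i j hne
    rw [hij, sub_self]
    exact dvd_zero _
  have h1 := lagr (K := ℚ) P hP t hinj
  have h2 : ∀ i : Fin 5, padicNorm p (((P.eval (t i) : ℤ) : ℚ) /
      ∏ j ∈ Finset.univ.erase i, ((t i : ℚ) - t j)) ≤ (p : ℚ) ^ (-(12 : ℕ) : ℤ) := by
    intro i
    rw [padicNorm.div]
    have h3 : ((p : ℚ) ^ (-(k : ℕ) : ℤ)) ^ 4 ≤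
        padicNorm p (∏ j ∈ Finset.univ.erase i, ((t i : ℚ) - t j)) := by
      have h4 := norm_prod_ge p ((Finset.univ : Finset (Fin 5)).erase i)
        (fun j => (t i : ℚ) - t j) ((p : ℚ) ^ (-(k : ℕ) : ℤ)) (by positivity) (fun j hj => by
          have h5 := hnd i j (Finset.ne_of_mem_erase hj).symm
          rw [padicNorm.dvd_iff_norm_le, not_le] at h5
          push_cast at h5
          exact h5.le)
      rw [Finset.card_erase_of_mem (Finset.mem_univ _)] at h4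
      simpa using h4
    have h5 : padicNorm p ((P.eval (t i) : ℤ) : ℚ) ≤ (p : ℚ) ^ (-((4 * k + 12 : ℕ)) : ℤ) := by
      rw [← padicNorm.dvd_iff_norm_le]
      exact_mod_cast hT i
    have h6 : (0 : ℚ) < ((p : ℚ) ^ (-(k : ℕ) : ℤ)) ^ 4 := by positivity
    rw [div_le_iff₀ (lt_of_lt_of_le h6 h3)]
    refine h5.trans ?_
    calc (p : ℚ) ^ (-((4 * k + 12 : ℕ)) : ℤ) =
        (p : ℚ) ^ (-(12 : ℕ) : ℤ) * ((p : ℚ) ^ (-(k : ℕ) : ℤ)) ^ 4 := by
          rw [← zpow_natCast ((p : ℚ) ^ (-(k : ℕ) : ℤ)) 4, ← zpow_mul, ← zpow_add₀ hp0.ne']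
          congr 1
          push_cast
          ring
      _ ≤ _ := by gcongr
  have h3 : padicNorm p ((3125 : ℤ) : ℚ) ≤ (p : ℚ) ^ (-(12 : ℕ) : ℤ) := by
    rw [← hl, h1]
    exact padicNorm.sum_le' (fun i _ => h2 i) (by positivity)
  rw [← padicNorm.dvd_iff_norm_le] at h3
  have h4 := Int.le_of_dvd (by norm_num) h3
  have h5 : (2 : ℕ) ^ 12 ≤ p ^ 12 := Nat.pow_le_pow_left hp.out.two_le 12
  have h6 : p ^ 12 ≤ 3125 := by exact_mod_cast h4
  omega

theorem fibB (P : ℤ[X]) (hP : P.natDegree = 4) (hl : P.leadingCoeff = 3125) (p k N : ℕ)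
    (hp : p.Prime) (T : Finset ℤ) (hN : ∀ t ∈ T, |t| ≤ N)
    (hT : ∀ t ∈ T, (p : ℤ) ^ (4 * k + 12) ∣ P.eval t) :
    (T.card : ℝ) ≤ 4 * (2 * N / (p : ℝ) ^ k + 1) := by
  have : Fact p.Prime := ⟨hp⟩
  have key : (T.image fun t : ℤ => t % ((p ^ k : ℕ) : ℤ)).card ≤ 4 := by
    by_contra hcon
    push Not at hcon
    obtain ⟨U, hU, hU5⟩ := Finset.exists_subset_card_eq (show 5 ≤ _ from hcon)
    have h1 : ∀ y : U, ∃ t ∈ T, t % ((p ^ k : ℕ) : ℤ) = y := fun y => by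
      have := hU y.2
      rw [Finset.mem_image] at this
      exact this
    choose g hgT hg using h1
    have e : Fin 5 ≃ U := (Fintype.equivFinOfCardEq (by simpa using hU5)).symm
    refine fibB_aux P hP hl p k (fun i => g (e i)) ?_ (fun i => hT _ (hgT _))
    intro i j hij hd
    apply hij
    apply e.injective
    apply Subtype.ext
    rw [← hg (e i), ← hg (e j)]
    exact (Int.modEq_iff_dvd.2 hd).symm
  have h2 := card_image T N (p ^ k) 4 (pow_pos hp.pos k) hN (fun t : ℤ => t % ((p ^ k : ℕ) : ℤ))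
    (fun s _ t _ hst => Int.ModEq.dvd (Eq.symm hst)) key
  push_cast at h2
  exact h2

theorem abs_le_of_mem {B : ℕ} {t : ℤ} (ht : t ∈ II B 0) : |t| ≤ ((B ^ 5 : ℕ) : ℤ) := by
  have := mem_II.1 ht
  simpa using this

theorem abs_le_of_mem_one {B : ℕ} {t : ℤ} (ht : t ∈ II B 1) : |t| ≤ ((B ^ 4 : ℕ) : ℤ) := by
  have := mem_II.1 ht
  simpa using this

open scoped Classical in
theorem fibre_cB (hD : S_D1) (M k B : ℕ) (a : Fin 5 → ℤ) :
    (((II B 0).filter fun t => ∃ p ≤ M, p.Prime ∧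
      (p : ℤ) ^ (4 * k + 12) ∣ dis (Function.update a 0 t)).card : ℝ) ≤
      M * (4 * (2 * (B : ℝ) ^ 5 / 2 ^ k + 1)) := by
  have h1 : ((II B 0).filter fun t => ∃ p ≤ M, p.Prime ∧
      (p : ℤ) ^ (4 * k + 12) ∣ dis (Function.update a 0 t)) ⊆
      (Finset.Icc 1 M).biUnion fun p => (II B 0).filter fun t => p.Prime ∧
        (p : ℤ) ^ (4 * k + 12) ∣ dis (Function.update a 0 t) := by
    intro t ht
    rw [Finset.mem_filter] at ht
    obtain ⟨p, hpM, hp, hd⟩ := ht.2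
    rw [Finset.mem_biUnion]
    exact ⟨p, Finset.mem_Icc.2 ⟨hp.one_le, hpM⟩, Finset.mem_filter.2 ⟨ht.1, hp, hd⟩⟩
  have h2 : ∀ p ∈ Finset.Icc 1 M, (((II B 0).filter fun t => p.Prime ∧
        (p : ℤ) ^ (4 * k + 12) ∣ dis (Function.update a 0 t)).card : ℝ) ≤
        4 * (2 * (B : ℝ) ^ 5 / 2 ^ k + 1) := by
    intro p _
    by_cases hp : p.Prime
    · refine (fibB (DP a) (hD a).1 (hD a).2.1 p k (B ^ 5) hp _ (fun t ht => ?_)
        (fun t ht => ?_)).trans ?_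
      · exact abs_le_of_mem (Finset.mem_filter.1 ht).1
      · rw [Finset.mem_filter, dis_update hD] at ht
        exact ht.2.2
      · have h3 : (2 : ℝ) ^ k ≤ (p : ℝ) ^ k :=
          pow_le_pow_left₀ (by norm_num) (by exact_mod_cast hp.two_le) k
        push_cast
        gcongr
    · simp only [hp, false_and, Finset.filter_false, Finset.card_empty, Nat.cast_zero]
      positivity
  calc _ ≤ (((Finset.Icc 1 M).biUnion fun p => (II B 0).filter fun t => p.Prime ∧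
        (p : ℤ) ^ (4 * k + 12) ∣ dis (Function.update a 0 t)).card : ℝ) := by
          exact_mod_cast Finset.card_le_card h1
    _ ≤ ∑ p ∈ Finset.Icc 1 M, (((II B 0).filter fun t => p.Prime ∧
        (p : ℤ) ^ (4 * k + 12) ∣ dis (Function.update a 0 t)).card : ℝ) := by
          exact_mod_cast Finset.card_biUnion_le
    _ ≤ ∑ p ∈ Finset.Icc 1 M, 4 * (2 * (B : ℝ) ^ 5 / 2 ^ k + 1) := Finset.sum_le_sum h2
    _ = _ := by
      rw [Finset.sum_const, Nat.card_Icc, nsmul_eq_mul]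
      simp

/-- the small primes -/
theorem cB : S_cB := by
  classical
  intro hD M η hη
  obtain ⟨k, hk⟩ := exists_nat_gt (8 * M / η)
  refine ⟨4 * k + 12, ?_⟩
  obtain ⟨B₀, hB₀⟩ := exists_nat_gt (4 * M / η)
  filter_upwards [eventually_ge_atTop B₀, eventually_ge_atTop 1] with B hB hB1
  have h1 := fib B 0 (fun a => ∃ p ≤ M, p.Prime ∧ (p : ℤ) ^ (4 * k + 12) ∣ dis a)
    (M * (4 * (2 * (B : ℝ) ^ 5 / 2 ^ k + 1))) (fun a _ => by convert fibre_cB hD M k B a)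
  rw [ncard_Box]
  rw [card_II_zero] at h1
  have hb : (B : ℝ) ≤ (B : ℝ) ^ 5 := by
    have : B ≤ B ^ 5 := Nat.le_self_pow (by norm_num) B
    exact_mod_cast this
  have hb1 : (1 : ℝ) ≤ B := by exact_mod_cast hB1
  have hb0 : (B₀ : ℝ) ≤ B := by exact_mod_cast hB
  have h2k : (k : ℝ) ≤ 2 ^ k := by
    have := (Nat.lt_two_pow_self (n := k)).le
    exact_mod_cast this
  rw [div_lt_iff₀ hη] at hk hB₀
  have hm : M * (4 * (2 * (B : ℝ) ^ 5 / 2 ^ k + 1)) ≤ η * (2 * (B : ℝ) ^ 5 + 1) := by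
    have h3 : M * (4 * (2 * (B : ℝ) ^ 5 / 2 ^ k)) ≤ η * (B : ℝ) ^ 5 := by
      have h4 : M * (4 * (2 * (B : ℝ) ^ 5 / 2 ^ k)) = 8 * M * (B : ℝ) ^ 5 / 2 ^ k := by ring
      rw [h4, div_le_iff₀ (by positivity)]
      have h5 : 8 * (M : ℝ) ≤ η * 2 ^ k := by nlinarith
      have h6 : 0 < (B : ℝ) ^ 5 := by positivity
      nlinarith
    have h4 : (M : ℝ) * 4 ≤ η * (B : ℝ) ^ 5 := by nlinarith
    nlinarith
  have h0 : (0 : ℝ) < 2 * (B : ℝ) ^ 5 + 1 := by positivity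
  have h5 : 0 < ((Box B).card : ℝ) := by exact_mod_cast card_Box_pos B
  have h6 := h1.trans (mul_le_mul_of_nonneg_right hm h5.le)
  have h7 : η * (2 * (B : ℝ) ^ 5 + 1) * (Box B).card =
      η * (Box B).card * (2 * (B : ℝ) ^ 5 + 1) := by ring
  rw [h7] at h6
  exact le_of_mul_le_mul_right h6 h0

end Run7.h642.Cnt
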