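import Pool.Agent.Run7.h642.PcD

/-!
# The large primes at which the reduction is not nodal
-/

set_option autoImplicit false

namespace Run7.h642.Cnt

open Polynomial Run7.h929.G2 Run7.h929.G3 Filter Topology

/-- the elimination polynomial, in terms of `a 2`, `a 3`, `a 4` -/
structure Elim (c : ℤ) (A : ℝ) (EE : (Fin 5 → ℤ) → ℤ[X]) : Prop where
  deg : ∀ a, (EE a).natDegree = 15
  lead : ∀ a, (EE a).leadingCoeff = c
  up0 : ∀ a t, EE (Function.update a 0 t) = EE a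
  up1 : ∀ a t, EE (Function.update a 1 t) = EE a
  dvd : ∀ (a : Fin 5 → ℤ) (m : ℤ), m ∣ dis a → m ∣ dis0 a → m ∣ (EE a).eval (a 1)
  size : ∀ (a : Fin 5 → ℤ) (B : ℕ), 1 ≤ B → a ∈ Box B →
    |(((EE a).eval (a 1) : ℤ) : ℝ)| ≤ A * B ^ 60

theorem exists_Elim (h : S_D2) : ∃ (c : ℤ) (A : ℝ) (EE : (Fin 5 → ℤ) → ℤ[X]),
    c ≠ 0 ∧ 1 ≤ A ∧ Elim c A EE := by
  obtain ⟨c, A, hc, hA, h⟩ := h
  choose E hdeg hlead hE using h
  refine ⟨c, A, fun a => E ![0, 0, a 2, a 3, a 4], hc, hA, ?_, ?_, ?_, ?_, ?_, ?_⟩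
  · exact fun a => hdeg _
  · exact fun a => hlead _
  · intro a t
    simp
  · intro a t
    simp
  · intro a m h1 h2
    exact (hE ![0, 0, a 2, a 3, a 4] a rfl rfl rfl).1 m h1 h2
  · intro a B hB ha
    exact (hE ![0, 0, a 2, a 3, a 4] a rfl rfl rfl).2 B hB ha

theorem fibRootsE (P : ℤ[X]) (hP : P.natDegree = 15) (p N : ℕ)
    (hp : p.Prime) (hl : ¬ (p : ℤ) ∣ P.leadingCoeff) (T : Finset ℤ) (hN : ∀ t ∈ T, |t| ≤ N)
    (hT : ∀ t ∈ T, (p : ℤ) ∣ P.eval t) :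
    (T.card : ℝ) ≤ 15 * (2 * N / (p : ℝ) + 1) := by
  have : Fact p.Prime := ⟨hp⟩
  have h2 := card_image T N p 15 hp.pos hN (fun t : ℤ => (t : ZMod p))
    (fun s _ t _ hst => by
      have := (ZMod.intCast_eq_intCast_iff_dvd_sub _ _ _).1 hst
      rw [← dvd_neg, neg_sub]
      exact this)
    (card_roots P p 15 hP.le (map_ne_zero_of_lead P p hl) T hT)
  push_cast at h2
  exact h2

/-- first part: `E(a₁) = 0` -/
theorem part1 {c : ℤ} {A : ℝ} {EE : (Fin 5 → ℤ) → ℤ[X]} (hE : Elim c A EE)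
    (B : ℕ) :
    ({a ∈ (Box B : Set (Fin 5 → ℤ)) | (EE a).eval (a 1) = 0}.ncard : ℝ) *
      (2 * (B : ℝ) ^ 4 + 1) ≤ 15 * (Box B).card := by
  classical
  have h1 := nfib B 1 (fun a => (EE a).eval (a 1) = 0) 15 (fun a _ T hT => by
    have h2 : T ⊆ (EE a).roots.toFinset := by
      intro t ht
      have ht' := hT t ht
      rw [hE.up1] at ht'
      have h3 : EE a ≠ 0 := by
        intro h0
        have := hE.deg a
        rw [h0] at this
        simp at this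
      rw [Multiset.mem_toFinset, mem_roots h3, IsRoot.def]
      simpa using ht'.2
    have h3 := (Finset.card_le_card h2).trans ((Multiset.toFinset_card_le _).trans
      ((card_roots' _).trans (hE.deg a).le))
    exact_mod_cast h3)
  rw [card_II_one] at h1
  exact h1

theorem card_big (E1 : ℤ) (h0 : E1 ≠ 0) (A : ℝ) (B : ℕ) (hB : 1 ≤ B) (hA : A < (B : ℝ) ^ 5)
    (hs : |(E1 : ℝ)| ≤ A * B ^ 60) : (E1.natAbs.primeFactors.filter fun p => B ^ 5 < p).card ≤ 12 := by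
  by_contra hcon
  push Not at hcon
  set S := E1.natAbs.primeFactors.filter fun p => B ^ 5 < p with hS
  have h1 : ∏ p ∈ S, p ∣ E1.natAbs :=
    (Finset.prod_dvd_prod_of_subset _ _ _ (Finset.filter_subset _ _)).trans
      (Nat.prod_primeFactors_dvd _)
  have h2 : ∏ p ∈ S, p ≤ E1.natAbs := Nat.le_of_dvd (Int.natAbs_pos.2 h0) h1
  have h3 : (B ^ 5) ^ S.card ≤ ∏ p ∈ S, p := by
    rw [← Finset.prod_const]
    exact Finset.prod_le_prod' fun p hp => (Finset.mem_filter.1 hp).2.le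
  have h4 : (B ^ 5) ^ 13 ≤ (B ^ 5) ^ S.card := Nat.pow_le_pow_right (by positivity) hcon
  have h5 : (B ^ 5) ^ 13 ≤ E1.natAbs := h4.trans (h3.trans h2)
  have h6 : ((B : ℝ) ^ 5) ^ 13 ≤ |(E1 : ℝ)| := by
    have h7 : (((B ^ 5) ^ 13 : ℕ) : ℝ) ≤ (E1.natAbs : ℝ) := by exact_mod_cast h5
    rw [Nat.cast_natAbs] at h7
    push_cast at h7
    exact h7
  have hB0 : (0 : ℝ) < B := by exact_mod_cast hB
  have h8 : A * (B : ℝ) ^ 60 < ((B : ℝ) ^ 5) ^ 13 := by
    have : ((B : ℝ) ^ 5) ^ 13 = (B : ℝ) ^ 5 * (B : ℝ) ^ 60 := by ring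
    rw [this]
    exact mul_lt_mul_of_pos_right hA (by positivity)
  linarith

/-- second part: primes larger than `B⁵` -/
theorem part2 (hD : S_D1) {c : ℤ} {A : ℝ} {EE : (Fin 5 → ℤ) → ℤ[X]} (hE : Elim c A EE)
    (B : ℕ) (hB : 1 ≤ B) (hA : A < (B : ℝ) ^ 5) :
    ({a ∈ (Box B : Set (Fin 5 → ℤ)) | (EE a).eval (a 1) ≠ 0 ∧ ∃ p : ℕ, p.Prime ∧ 5 < p ∧
      B ^ 5 < p ∧ (p : ℤ) ∣ (EE a).eval (a 1) ∧ (p : ℤ) ∣ dis a}.ncard : ℝ) *
      (2 * (B : ℝ) ^ 5 + 1) ≤ 144 * (Box B).card := by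
  classical
  have h1 := nfib B 0 (fun a => (EE a).eval (a 1) ≠ 0 ∧ ∃ p : ℕ, p.Prime ∧ 5 < p ∧
      B ^ 5 < p ∧ (p : ℤ) ∣ (EE a).eval (a 1) ∧ (p : ℤ) ∣ dis a) 144 (fun a ha T hT => by
    by_cases h0 : (EE a).eval (a 1) = 0
    · have h2 : T = ∅ := by
        apply Finset.eq_empty_of_forall_notMem
        intro t ht
        have ht' := (hT t ht).2
        rw [hE.up0] at ht'
        exact ht'.1 (by simpa using h0)
      rw [h2]
      norm_num
    set S := ((EE a).eval (a 1)).natAbs.primeFactors.filter fun p => B ^ 5 < p with hS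
    have hScard : S.card ≤ 12 := card_big _ h0 A B hB hA (hE.size a B hB ha)
    have h2 : T ⊆ (S.filter fun p => 5 < p).biUnion fun p => (II B 0).filter fun t =>
          (p : ℤ) ∣ dis (Function.update a 0 t) := by
      intro t ht
      have ht' := hT t ht
      rw [hE.up0] at ht'
      obtain ⟨htI, _, p, hp, h5, hB5, hdE, hd⟩ := ht'
      have hdE' : (p : ℤ) ∣ (EE a).eval (a 1) := by simpa using hdE
      rw [Finset.mem_biUnion]
      refine ⟨p, ?_, Finset.mem_filter.2 ⟨htI, hd⟩⟩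
      rw [Finset.mem_filter, hS, Finset.mem_filter]
      exact ⟨⟨Nat.mem_primeFactors.2 ⟨hp, Int.natCast_dvd.1 hdE', Int.natAbs_ne_zero.2 h0⟩, hB5⟩,
        h5⟩
    have h3 : ∀ p ∈ S.filter fun p => 5 < p, (((II B 0).filter fun t =>
        (p : ℤ) ∣ dis (Function.update a 0 t)).card : ℝ) ≤ 12 := by
      intro p hp
      rw [Finset.mem_filter, hS, Finset.mem_filter, Nat.mem_primeFactors] at hp
      obtain ⟨⟨⟨hp, _, _⟩, hB5⟩, h5⟩ := hp
      refine (fibRoots (DP a) (hD a).1 (hD a).2.1 p (B ^ 5) hp h5 _ (fun t ht => ?_)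
        (fun t ht => ?_)).trans ?_
      · exact abs_le_of_mem (Finset.mem_filter.1 ht).1
      · rw [Finset.mem_filter, dis_update hD] at ht
        exact ht.2
      · have hp0 : (0 : ℝ) < p := by exact_mod_cast hp.pos
        have h6 : ((B ^ 5 : ℕ) : ℝ) ≤ p := by exact_mod_cast hB5.le
        have h7 : 2 * ((B ^ 5 : ℕ) : ℝ) / p ≤ 2 := by
          rw [div_le_iff₀ hp0]
          linarith
        linarith
    calc (T.card : ℝ) ≤ (((S.filter fun p => 5 < p).biUnion fun p => (II B 0).filter fun t =>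
          (p : ℤ) ∣ dis (Function.update a 0 t)).card : ℝ) := by
            exact_mod_cast Finset.card_le_card h2
      _ ≤ ∑ p ∈ S.filter fun p => 5 < p, (((II B 0).filter fun t =>
          (p : ℤ) ∣ dis (Function.update a 0 t)).card : ℝ) := by
            exact_mod_cast Finset.card_biUnion_le
      _ ≤ ∑ p ∈ S.filter fun p => 5 < p, (12 : ℝ) := Finset.sum_le_sum h3
      _ = 12 * ((S.filter fun p => 5 < p).card : ℝ) := by
        rw [Finset.sum_const, nsmul_eq_mul, mul_comm]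
      _ ≤ 12 * 12 := by
        have h4 : (S.filter fun p => 5 < p).card ≤ 12 := (Finset.card_filter_le _ _).trans hScard
        have h5 : ((S.filter fun p => 5 < p).card : ℝ) ≤ 12 := by exact_mod_cast h4
        linarith
      _ = 144 := by norm_num)
  rw [card_II_zero] at h1
  exact h1

open scoped Classical in
theorem pairs_p (hD : S_D1) {c : ℤ} {A : ℝ} {EE : (Fin 5 → ℤ) → ℤ[X]} (hE : Elim c A EE)
    (B p : ℕ) (hB : 1 ≤ B) (hp : p.Prime) (h5 : 5 < p) (hpc : ¬ (p : ℤ) ∣ c) (hpB : p ≤ B ^ 5)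
    (a : Fin 5 → ℤ) :
    (((II B 1 ×ˢ II B 0).filter fun t => (p : ℤ) ∣ (EE a).eval t.1 ∧
      (p : ℤ) ∣ dis (Function.update (Function.update a 1 t.1) 0 t.2)).card : ℝ) ≤
      540 * (B : ℝ) ^ 9 * ((p : ℝ) ^ 2)⁻¹ + 540 * B := by
  set T1 := (II B 1).filter fun t => (p : ℤ) ∣ (EE a).eval t with hT1
  have h1 : ((II B 1 ×ˢ II B 0).filter fun t => (p : ℤ) ∣ (EE a).eval t.1 ∧
      (p : ℤ) ∣ dis (Function.update (Function.update a 1 t.1) 0 t.2)) ⊆
      T1.biUnion fun s => ((II B 0).filter fun t =>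
        (p : ℤ) ∣ dis (Function.update (Function.update a 1 s) 0 t)).image fun t => (s, t) := by
    rintro ⟨s, t⟩ hst
    rw [Finset.mem_filter, Finset.mem_product] at hst
    rw [Finset.mem_biUnion]
    refine ⟨s, Finset.mem_filter.2 ⟨hst.1.1, hst.2.1⟩, ?_⟩
    rw [Finset.mem_image]
    exact ⟨t, Finset.mem_filter.2 ⟨hst.1.2, hst.2.2⟩, rfl⟩
  have h2 : ∀ s ∈ T1, ((((II B 0).filter fun t =>
        (p : ℤ) ∣ dis (Function.update (Function.update a 1 s) 0 t)).image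
          fun t => (s, t)).card : ℝ) ≤ 4 * (2 * (B : ℝ) ^ 5 / p + 1) := by
    intro s _
    refine le_trans (by exact_mod_cast Finset.card_image_le) ((fibRoots
      (DP (Function.update a 1 s)) (hD _).1 (hD _).2.1 p (B ^ 5) hp h5
      ((II B 0).filter fun t =>
        (p : ℤ) ∣ dis (Function.update (Function.update a 1 s) 0 t)) (fun t ht => ?_)
        (fun t ht => ?_)).trans ?_)
    · exact abs_le_of_mem (Finset.mem_filter.1 ht).1
    · rw [Finset.mem_filter, dis_update hD] at ht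
      exact ht.2
    · push_cast
      exact le_rfl
  have h3 : (T1.card : ℝ) ≤ 15 * (2 * (B : ℝ) ^ 4 / p + 1) := by
    refine (fibRootsE (EE a) (hE.deg a) p (B ^ 4) hp (by rwa [hE.lead]) T1 (fun t ht => ?_)
        (fun t ht => ?_)).trans ?_
    · exact abs_le_of_mem_one (Finset.mem_filter.1 ht).1
    · exact (Finset.mem_filter.1 ht).2
    · push_cast
      exact le_rfl
  have hp0 : (0 : ℝ) < p := by exact_mod_cast hp.pos
  have hB0 : (1 : ℝ) ≤ B := by exact_mod_cast hB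
  have hpB' : (p : ℝ) ≤ (B : ℝ) ^ 5 := by exact_mod_cast hpB
  have h4 : 2 * (B : ℝ) ^ 5 / p + 1 ≤ 3 * (B : ℝ) ^ 5 / p := by
    rw [div_add_one hp0.ne']
    gcongr
    linarith
  have h5 : 60 * ((2 * (B : ℝ) ^ 4 / p + 1) * (3 * (B : ℝ) ^ 5 / p)) ≤
      540 * (B : ℝ) ^ 9 * ((p : ℝ) ^ 2)⁻¹ + 540 * B := by
    rcases le_total (p : ℝ) ((B : ℝ) ^ 4) with hle | hle
    · have h6 : 2 * (B : ℝ) ^ 4 / p + 1 ≤ 3 * (B : ℝ) ^ 4 / p := by
        rw [div_add_one hp0.ne']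
        gcongr
        linarith
      calc 60 * ((2 * (B : ℝ) ^ 4 / p + 1) * (3 * (B : ℝ) ^ 5 / p)) ≤
          60 * ((3 * (B : ℝ) ^ 4 / p) * (3 * (B : ℝ) ^ 5 / p)) := by gcongr
        _ = 540 * (B : ℝ) ^ 9 * ((p : ℝ) ^ 2)⁻¹ := by
          field_simp
          ring
        _ ≤ _ := by linarith
    · have h6 : 2 * (B : ℝ) ^ 4 / p + 1 ≤ 3 := by
        have : 2 * (B : ℝ) ^ 4 / p ≤ 2 := by
          rw [div_le_iff₀ hp0]
          linarith
        linarith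
      have h7 : 3 * (B : ℝ) ^ 5 / p ≤ 3 * B := by
        rw [div_le_iff₀ hp0]
        have : (B : ℝ) ^ 5 = B * (B : ℝ) ^ 4 := by ring
        rw [this]
        nlinarith
      calc 60 * ((2 * (B : ℝ) ^ 4 / p + 1) * (3 * (B : ℝ) ^ 5 / p)) ≤
          60 * (3 * (3 * B)) := by gcongr
        _ = 540 * B := by ring
        _ ≤ _ := by
          have : 0 ≤ 540 * (B : ℝ) ^ 9 * ((p : ℝ) ^ 2)⁻¹ := by positivity
          linarith
  calc _ ≤ ((T1.biUnion fun s => ((II B 0).filter fun t =>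
        (p : ℤ) ∣ dis (Function.update (Function.update a 1 s) 0 t)).image
          fun t => (s, t)).card : ℝ) := by
            exact_mod_cast Finset.card_le_card h1
    _ ≤ ∑ s ∈ T1, ((((II B 0).filter fun t =>
        (p : ℤ) ∣ dis (Function.update (Function.update a 1 s) 0 t)).image
          fun t => (s, t)).card : ℝ) := by
            exact_mod_cast Finset.card_biUnion_le
    _ ≤ ∑ s ∈ T1, 4 * (2 * (B : ℝ) ^ 5 / p + 1) := Finset.sum_le_sum h2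
    _ = T1.card * (4 * (2 * (B : ℝ) ^ 5 / p + 1)) := by
      rw [Finset.sum_const, nsmul_eq_mul]
    _ ≤ (15 * (2 * (B : ℝ) ^ 4 / p + 1)) * (4 * (3 * (B : ℝ) ^ 5 / p)) := by gcongr
    _ = 60 * ((2 * (B : ℝ) ^ 4 / p + 1) * (3 * (B : ℝ) ^ 5 / p)) := by ring
    _ ≤ _ := h5

/-- third part: primes between `M` and `B⁵` -/
theorem part3 (hD : S_D1) {c : ℤ} {A : ℝ} {EE : (Fin 5 → ℤ) → ℤ[X]} (hc : c ≠ 0)
    (hE : Elim c A EE) (M B : ℕ) (hB : 1 ≤ B) (hM : 5 ≤ M) (hMc : c.natAbs ≤ M) :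
    ({a ∈ (Box B : Set (Fin 5 → ℤ)) | ∃ p : ℕ, M < p ∧ p ≤ B ^ 5 ∧ p.Prime ∧
      (p : ℤ) ∣ (EE a).eval (a 1) ∧ (p : ℤ) ∣ dis a}.ncard : ℝ) *
      ((2 * (B : ℝ) ^ 4 + 1) * (2 * (B : ℝ) ^ 5 + 1)) ≤
      (540 * (B : ℝ) ^ 9 / M + 540 * (B : ℝ) ^ 6) * (Box B).card := by
  classical
  have h1 := nfib2 B (fun a => ∃ p : ℕ, M < p ∧ p ≤ B ^ 5 ∧ p.Prime ∧
      (p : ℤ) ∣ (EE a).eval (a 1) ∧ (p : ℤ) ∣ dis a)
      (540 * (B : ℝ) ^ 9 / M + 540 * (B : ℝ) ^ 6) (fun a _ T hT => by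
    set S := (Finset.Icc 1 (B ^ 5)).filter fun p => M < p ∧ p.Prime with hS
    have h2 : T ⊆
        S.biUnion fun p => (II B 1 ×ˢ II B 0).filter fun t => (p : ℤ) ∣ (EE a).eval t.1 ∧
          (p : ℤ) ∣ dis (Function.update (Function.update a 1 t.1) 0 t.2) := by
      rintro ⟨s, t⟩ hst
      obtain ⟨hI, p, hMp, hpB, hp, hd1, hd2⟩ := hT _ hst
      rw [hE.up0, hE.up1] at hd1
      rw [Finset.mem_biUnion]
      refine ⟨p, ?_, Finset.mem_filter.2 ⟨hI, ?_, hd2⟩⟩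
      · rw [hS, Finset.mem_filter, Finset.mem_Icc]
        exact ⟨⟨hp.one_le, hpB⟩, hMp, hp⟩
      · simpa using hd1
    have h3 : ∀ p ∈ S, (((II B 1 ×ˢ II B 0).filter fun t => (p : ℤ) ∣ (EE a).eval t.1 ∧
          (p : ℤ) ∣ dis (Function.update (Function.update a 1 t.1) 0 t.2)).card : ℝ) ≤
        540 * (B : ℝ) ^ 9 * ((p : ℝ) ^ 2)⁻¹ + 540 * B := by
      intro p hp
      rw [hS, Finset.mem_filter, Finset.mem_Icc] at hp
      obtain ⟨⟨_, hpB⟩, hMp, hp⟩ := hp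
      refine pairs_p hD hE B p hB hp (by omega) ?_ hpB a
      intro hd
      have := Nat.le_of_dvd (Int.natAbs_pos.2 hc) (Int.natCast_dvd.1 hd)
      omega
    have h4 : (S.card : ℝ) ≤ (B : ℝ) ^ 5 := by
      have h5 : S.card ≤ B ^ 5 := (Finset.card_filter_le _ _).trans (by simp)
      exact_mod_cast h5
    calc (T.card : ℝ) ≤ ((S.biUnion fun p => (II B 1 ×ˢ II B 0).filter fun t =>
          (p : ℤ) ∣ (EE a).eval t.1 ∧
          (p : ℤ) ∣ dis (Function.update (Function.update a 1 t.1) 0 t.2)).card : ℝ) := by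
            exact_mod_cast Finset.card_le_card h2
      _ ≤ ∑ p ∈ S, (((II B 1 ×ˢ II B 0).filter fun t => (p : ℤ) ∣ (EE a).eval t.1 ∧
          (p : ℤ) ∣ dis (Function.update (Function.update a 1 t.1) 0 t.2)).card : ℝ) := by
            exact_mod_cast Finset.card_biUnion_le
      _ ≤ ∑ p ∈ S, (540 * (B : ℝ) ^ 9 * ((p : ℝ) ^ 2)⁻¹ + 540 * B) := Finset.sum_le_sum h3
      _ = 540 * (B : ℝ) ^ 9 * ∑ p ∈ S, ((p : ℝ) ^ 2)⁻¹ + S.card * (540 * B) := by
        rw [Finset.sum_add_distrib, Finset.mul_sum, Finset.sum_const, nsmul_eq_mul]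
      _ ≤ 540 * (B : ℝ) ^ 9 * (M : ℝ)⁻¹ + (B : ℝ) ^ 5 * (540 * B) := by
        have h5 := sum_inv_sq_le M (by omega) S fun p hp => (Finset.mem_filter.1 hp).2.1
        gcongr
      _ = _ := by ring)
  rw [card_II_zero, card_II_one] at h1
  exact h1

/-- the large primes at which the reduction is not nodal -/
theorem cC : S_cC := by
  intro hD hD2 η hη
  obtain ⟨c, A, EE, hc, hA, hE⟩ := exists_Elim hD2
  obtain ⟨M, hM⟩ := exists_nat_gt (540 / η)
  refine ⟨M + 5 + c.natAbs, ?_⟩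
  obtain ⟨B₀, hB₀⟩ := exists_nat_gt (600 / η + A)
  filter_upwards [eventually_ge_atTop 1, eventually_ge_atTop B₀] with B hB hBB
  have hB1 : (1 : ℝ) ≤ B := by exact_mod_cast hB
  have hBB' : 600 / η + A < B := hB₀.trans_le (by exact_mod_cast hBB)
  have hη6 : 0 < 600 / η := by positivity
  have hBη : 600 ≤ η * B := by
    have : 600 / η ≤ B := by linarith
    rw [div_le_iff₀ hη] at this
    linarith
  have hpow : ∀ n : ℕ, 1 ≤ n → (B : ℝ) ≤ (B : ℝ) ^ n := fun n hn => by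
    calc (B : ℝ) = (B : ℝ) ^ 1 := (pow_one _).symm
      _ ≤ (B : ℝ) ^ n := pow_le_pow_right₀ hB1 hn
  have hAB : A < (B : ℝ) ^ 5 := lt_of_lt_of_le (by linarith) (hpow 5 (by norm_num))
  set K := M + 5 + c.natAbs with hK
  have e1 := part1 hE B
  have e2 := part2 hD hE B hB hAB
  have e3 := part3 hD hc hE K B hB (by omega) (by omega)
  set P1 : Set (Fin 5 → ℤ) := {a ∈ (Box B : Set (Fin 5 → ℤ)) | (EE a).eval (a 1) = 0} with hP1
  set P2 : Set (Fin 5 → ℤ) := {a ∈ (Box B : Set (Fin 5 → ℤ)) | (EE a).eval (a 1) ≠ 0 ∧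
      ∃ p : ℕ, p.Prime ∧ 5 < p ∧
      B ^ 5 < p ∧ (p : ℤ) ∣ (EE a).eval (a 1) ∧ (p : ℤ) ∣ dis a} with hP2
  set P3 : Set (Fin 5 → ℤ) := {a ∈ (Box B : Set (Fin 5 → ℤ)) | ∃ p : ℕ, K < p ∧ p ≤ B ^ 5 ∧
      p.Prime ∧ (p : ℤ) ∣ (EE a).eval (a 1) ∧ (p : ℤ) ∣ dis a} with hP3
  have hfin : ∀ Q : (Fin 5 → ℤ) → Prop, {a ∈ (Box B : Set (Fin 5 → ℤ)) | Q a}.Finite :=
    fun Q => (Box B).finite_toSet.subset fun a ha => ha.1
  have hsub : {a ∈ (Box B : Set (Fin 5 → ℤ)) | ∃ p > K, p.Prime ∧ (p : ℤ) ∣ dis a ∧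
      (p : ℤ) ∣ dis0 a} ⊆ P1 ∪ (P2 ∪ P3) := by
    rintro a ⟨haB, p, hpK, hp, hd, hd0⟩
    have hdE := hE.dvd a p hd hd0
    by_cases h0 : (EE a).eval (a 1) = 0
    · exact Or.inl ⟨haB, h0⟩
    rcases le_or_gt p (B ^ 5) with h | h
    · exact Or.inr (Or.inr ⟨haB, p, hpK, h, hp, hdE, hd⟩)
    · exact Or.inr (Or.inl ⟨haB, h0, p, hp, by omega, h, hdE, hd⟩)
  have hcard := (Set.ncard_le_ncard hsub ((hfin _).union ((hfin _).union (hfin _)))).trans
    ((Set.ncard_union_le _ _).trans (Nat.add_le_add_left (Set.ncard_union_le _ _) _))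
  have hC : 0 < ((Box B).card : ℝ) := by exact_mod_cast card_Box_pos B
  have f1 : (P1.ncard : ℝ) ≤ η / 4 * (Box B).card := by
    have h1 : (15 : ℝ) ≤ η / 4 * (2 * (B : ℝ) ^ 4 + 1) := by
      have := hpow 4 (by norm_num)
      nlinarith
    have h2 := e1.trans (mul_le_mul_of_nonneg_right h1 hC.le)
    rw [mul_right_comm] at h2
    exact le_of_mul_le_mul_right h2 (by positivity)
  have f2 : (P2.ncard : ℝ) ≤ η / 4 * (Box B).card := by
    have h1 : (144 : ℝ) ≤ η / 4 * (2 * (B : ℝ) ^ 5 + 1) := by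
      have := hpow 5 (by norm_num)
      nlinarith
    have h2 := e2.trans (mul_le_mul_of_nonneg_right h1 hC.le)
    rw [mul_right_comm] at h2
    exact le_of_mul_le_mul_right h2 (by positivity)
  have f3 : (P3.ncard : ℝ) ≤ η / 2 * (Box B).card := by
    have h1 : 540 * (B : ℝ) ^ 9 / K + 540 * (B : ℝ) ^ 6 ≤
        η / 2 * ((2 * (B : ℝ) ^ 4 + 1) * (2 * (B : ℝ) ^ 5 + 1)) := by
      have h2 : 540 * (B : ℝ) ^ 9 / K ≤ η * (B : ℝ) ^ 9 := by
        rw [div_le_iff₀ (by rw [hK]; positivity)]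
        rw [div_lt_iff₀ hη] at hM
        have h3 : 540 ≤ η * K := by
          rw [hK]
          push_cast
          have h4 : 0 ≤ |(c : ℝ)| := abs_nonneg _
          nlinarith
        have h4 : 0 < (B : ℝ) ^ 9 := by positivity
        nlinarith
      have h3 : 540 * (B : ℝ) ^ 6 ≤ η * (B : ℝ) ^ 9 := by
        have h4 := hpow 3 (by norm_num)
        have h5 : (B : ℝ) ^ 9 = (B : ℝ) ^ 6 * (B : ℝ) ^ 3 := by ring
        have h6 : 0 < (B : ℝ) ^ 6 := by positivity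
        have h7 : 540 ≤ η * (B : ℝ) ^ 3 := by nlinarith
        rw [h5]
        nlinarith
      have h4 : 4 * (B : ℝ) ^ 9 ≤ (2 * (B : ℝ) ^ 4 + 1) * (2 * (B : ℝ) ^ 5 + 1) := by
        have h5 : 0 ≤ (B : ℝ) ^ 4 := by positivity
        have h6 : 0 ≤ (B : ℝ) ^ 5 := by positivity
        nlinarith [pow_add (B : ℝ) 4 5]
      nlinarith
    have h2 := e3.trans (mul_le_mul_of_nonneg_right h1 hC.le)
    rw [mul_right_comm] at h2
    exact le_of_mul_le_mul_right h2 (by positivity)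
  have hcard' : (({a ∈ (Box B : Set (Fin 5 → ℤ)) | ∃ p > K, p.Prime ∧ (p : ℤ) ∣ dis a ∧
      (p : ℤ) ∣ dis0 a}).ncard : ℝ) ≤ (P1.ncard : ℝ) + ((P2.ncard : ℝ) + (P3.ncard : ℝ)) := by
    exact_mod_cast hcard
  linarith

end Run7.h642.Cnt
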