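import Pool.Agent.Run7.h642.PcB

/-!
# Fourth powers of large primes
-/

set_option autoImplicit false

namespace Run7.h642.Cnt

open Polynomial Run7.h929.G2 Run7.h929.G3 Filter Topology

theorem sum_inv_sq_le (M : ℕ) (hM : M ≠ 0) (S : Finset ℕ) (hS : ∀ p ∈ S, M < p) :
    ∑ p ∈ S, ((p : ℝ) ^ 2)⁻¹ ≤ (M : ℝ)⁻¹ := by
  obtain ⟨n, hn⟩ := S.bddAbove
  have h1 : S ⊆ Finset.Ioc M (max M n) := fun p hp =>
    Finset.mem_Ioc.2 ⟨hS p hp, (hn hp).trans (le_max_right _ _)⟩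
  calc ∑ p ∈ S, ((p : ℝ) ^ 2)⁻¹ ≤ ∑ p ∈ Finset.Ioc M (max M n), ((p : ℝ) ^ 2)⁻¹ :=
        Finset.sum_le_sum_of_subset_of_nonneg h1 fun _ _ _ => by positivity
    _ ≤ (M : ℝ)⁻¹ - ((max M n : ℕ) : ℝ)⁻¹ := sum_Ioc_inv_sq_le_sub hM (le_max_left _ _)
    _ ≤ (M : ℝ)⁻¹ := by
      have : (0 : ℝ) ≤ ((max M n : ℕ) : ℝ)⁻¹ := by positivity
      linarith

theorem not_dvd_lead {P : ℤ[X]} (hl : P.leadingCoeff = 3125) {p : ℕ} (hp : p.Prime) (h5 : 5 < p) :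
    ¬ (p : ℤ) ∣ P.leadingCoeff := by
  rw [hl]
  intro h
  have h1 : p ∣ 5 ^ 5 := by
    have : (p : ℤ) ∣ ((5 ^ 5 : ℕ) : ℤ) := by
      norm_num
      exact h
    exact_mod_cast this
  have h2 := hp.dvd_of_dvd_pow h1
  have h3 := Nat.le_of_dvd (by norm_num) h2
  omega

theorem fibRoots (P : ℤ[X]) (hP : P.natDegree = 4) (hl : P.leadingCoeff = 3125) (p N : ℕ)
    (hp : p.Prime) (h5 : 5 < p) (T : Finset ℤ) (hN : ∀ t ∈ T, |t| ≤ N)
    (hT : ∀ t ∈ T, (p : ℤ) ∣ P.eval t) :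
    (T.card : ℝ) ≤ 4 * (2 * N / (p : ℝ) + 1) := by
  have : Fact p.Prime := ⟨hp⟩
  have h2 := card_image T N p 4 hp.pos hN (fun t : ℤ => (t : ZMod p))
    (fun s _ t _ hst => by
      have := (ZMod.intCast_eq_intCast_iff_dvd_sub _ _ _).1 hst
      rw [← dvd_neg, neg_sub]
      exact this)
    (card_roots P p 4 hP.le (map_ne_zero_of_lead P p (not_dvd_lead hl hp h5)) T hT)
  push_cast at h2
  exact h2

theorem fibD (P : ℤ[X]) (hP : P.natDegree = 4) (hl : P.leadingCoeff = 3125) (p N : ℕ)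
    (hp : p.Prime) (h5 : 5 < p) (T : Finset ℤ) (hN : ∀ t ∈ T, |t| ≤ N)
    (hT : ∀ t ∈ T, (p : ℤ) ^ 4 ∣ P.eval t) (hT' : ∀ t ∈ T, ¬ (p : ℤ) ∣ (derivative P).eval t) :
    (T.card : ℝ) ≤ 4 * (2 * N / (p : ℝ) ^ 4 + 1) := by
  have : Fact p.Prime := ⟨hp⟩
  have hpi : Prime (p : ℤ) := Nat.prime_iff_prime_int.1 hp
  have h2 := card_image T N (p ^ 4) 4 (pow_pos hp.pos 4) hN (fun t : ℤ => (t : ZMod p))
    (fun s hs t ht hst => by
      have h1 : (p : ℤ) ∣ s - t := by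
        have := (ZMod.intCast_eq_intCast_iff_dvd_sub _ _ _).1 hst
        rw [← dvd_neg, neg_sub]
        exact this
      obtain ⟨k, hk⟩ := P.binomExpansion t (s - t)
      rw [add_sub_cancel] at hk
      have h3 : (p : ℤ) ^ 4 ∣ (s - t) * ((derivative P).eval t + k * (s - t)) := by
        have h4 := dvd_sub (hT s hs) (hT t ht)
        rw [hk] at h4
        have h5 : eval t P + eval t (derivative P) * (s - t) + k * (s - t) ^ 2 - eval t P =
          (s - t) * ((derivative P).eval t + k * (s - t)) := by ring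
        rw [h5] at h4
        exact h4
      have h4 : ¬ (p : ℤ) ∣ (derivative P).eval t + k * (s - t) := by
        intro h5
        exact hT' t ht ((dvd_add_left (h1.mul_left k)).1 h5)
      have h6 : IsCoprime ((p : ℤ) ^ 4) ((derivative P).eval t + k * (s - t)) :=
        IsCoprime.pow_left ((hpi.irreducible.coprime_iff_not_dvd).2 h4)
      push_cast
      exact h6.dvd_of_dvd_mul_right h3)
    (card_roots P p 4 hP.le (map_ne_zero_of_lead P p (not_dvd_lead hl hp h5)) T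
      fun t ht => (dvd_pow_self _ (by norm_num)).trans (hT t ht))
  push_cast at h2
  exact h2

open scoped Classical in
theorem fibre_cD (hD : S_D1) (M B : ℕ) (hM : 5 ≤ M) (A : ℝ) (hA : 1 ≤ A) (hB : 1 ≤ B)
    (hsz : ∀ a ∈ Box B, |((dis a : ℤ) : ℝ)| ≤ A * B ^ 20) (a : Fin 5 → ℤ) (ha : a ∈ Box B) :
    (((II B 0).filter fun t => dis (Function.update a 0 t) ≠ 0 ∧ ∃ p > M, p.Prime ∧
      ¬ (p : ℤ) ∣ dis0 (Function.update a 0 t) ∧
      (p : ℤ) ^ 4 ∣ dis (Function.update a 0 t)).card : ℝ) ≤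
      8 * (B : ℝ) ^ 5 / M + 4 * (Nat.primeCounting ⌊A * (B : ℝ) ^ 5⌋₊ : ℝ) := by
  set Q := ⌊A * (B : ℝ) ^ 5⌋₊ with hQ
  set S : Finset ℕ := (Nat.primesLE Q).filter fun p => M < p with hS
  have h1 : ((II B 0).filter fun t => dis (Function.update a 0 t) ≠ 0 ∧ ∃ p > M, p.Prime ∧
      ¬ (p : ℤ) ∣ dis0 (Function.update a 0 t) ∧
      (p : ℤ) ^ 4 ∣ dis (Function.update a 0 t)) ⊆
      S.biUnion fun p => (II B 0).filter fun t =>
        ¬ (p : ℤ) ∣ dis0 (Function.update a 0 t) ∧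
      (p : ℤ) ^ 4 ∣ dis (Function.update a 0 t) := by
    intro t ht
    rw [Finset.mem_filter] at ht
    obtain ⟨htI, hne, p, hpM, hp, hd0, hd⟩ := ht
    rw [Finset.mem_biUnion]
    refine ⟨p, ?_, Finset.mem_filter.2 ⟨htI, hd0, hd⟩⟩
    rw [hS, Finset.mem_filter, Nat.mem_primesLE]
    refine ⟨⟨Nat.le_floor ?_, hp⟩, hpM⟩
    have h2 := Int.le_of_dvd (abs_pos.2 hne) ((dvd_abs _ _).2 hd)
    have h3 : ((p : ℝ)) ^ 4 ≤ |((dis (Function.update a 0 t) : ℤ) : ℝ)| := by exact_mod_cast h2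
    have h4 := h3.trans (hsz _ (update_mem ha htI))
    have h5 : A * (B : ℝ) ^ 20 ≤ (A * (B : ℝ) ^ 5) ^ 4 := by
      rw [mul_pow, ← pow_mul]
      norm_num
      refine mul_le_mul_of_nonneg_right ?_ (by positivity)
      calc A = A ^ 1 := (pow_one A).symm
        _ ≤ A ^ 4 := pow_le_pow_right₀ hA (by norm_num)
    exact le_of_pow_le_pow_left₀ (by norm_num) (by positivity) (h4.trans h5)
  have h2 : ∀ p ∈ S, (((II B 0).filter fun t =>
        ¬ (p : ℤ) ∣ dis0 (Function.update a 0 t) ∧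
      (p : ℤ) ^ 4 ∣ dis (Function.update a 0 t)).card : ℝ) ≤
        8 * (B : ℝ) ^ 5 * ((p : ℝ) ^ 2)⁻¹ + 4 := by
    intro p hp
    rw [hS, Finset.mem_filter, Nat.mem_primesLE] at hp
    refine (fibD (DP a) (hD a).1 (hD a).2.1 p (B ^ 5) hp.1.2 (by omega) _ (fun t ht => ?_)
        (fun t ht => ?_) (fun t ht => ?_)).trans ?_
    · exact abs_le_of_mem (Finset.mem_filter.1 ht).1
    · rw [Finset.mem_filter, dis_update hD] at ht
      exact ht.2.2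
    · rw [Finset.mem_filter, dis0_update] at ht
      exact ht.2.1
    · have hp1 : (1 : ℝ) ≤ p := by exact_mod_cast hp.1.2.one_le
      have h3 : ((p : ℝ) ^ 4)⁻¹ ≤ ((p : ℝ) ^ 2)⁻¹ := by
        apply inv_anti₀ (by positivity)
        exact pow_le_pow_right₀ hp1 (by norm_num)
      push_cast
      rw [div_eq_mul_inv]
      have h4 : 2 * (B : ℝ) ^ 5 * ((p : ℝ) ^ 4)⁻¹ ≤ 2 * (B : ℝ) ^ 5 * ((p : ℝ) ^ 2)⁻¹ := by
        gcongr
      linarith
  have h3 : (S.card : ℝ) ≤ (Nat.primeCounting Q : ℝ) := by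
    have h4 : S.card ≤ (Nat.primesLE Q).card := Finset.card_filter_le _ _
    rw [Nat.primesLE_card_eq_primeCounting] at h4
    exact_mod_cast h4
  calc _ ≤ ((S.biUnion fun p => (II B 0).filter fun t =>
        ¬ (p : ℤ) ∣ dis0 (Function.update a 0 t) ∧
      (p : ℤ) ^ 4 ∣ dis (Function.update a 0 t)).card : ℝ) := by
          exact_mod_cast Finset.card_le_card h1
    _ ≤ ∑ p ∈ S, (((II B 0).filter fun t =>
        ¬ (p : ℤ) ∣ dis0 (Function.update a 0 t) ∧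
      (p : ℤ) ^ 4 ∣ dis (Function.update a 0 t)).card : ℝ) := by
          exact_mod_cast Finset.card_biUnion_le
    _ ≤ ∑ p ∈ S, (8 * (B : ℝ) ^ 5 * ((p : ℝ) ^ 2)⁻¹ + 4) := Finset.sum_le_sum h2
    _ = 8 * (B : ℝ) ^ 5 * ∑ p ∈ S, ((p : ℝ) ^ 2)⁻¹ + 4 * S.card := by
      rw [Finset.sum_add_distrib, Finset.mul_sum, Finset.sum_const, nsmul_eq_mul]
      ring
    _ ≤ 8 * (B : ℝ) ^ 5 * (M : ℝ)⁻¹ + 4 * (Nat.primeCounting Q : ℝ) := by
      have h5 := sum_inv_sq_le M (by omega) S fun p hp => (Finset.mem_filter.1 hp).2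
      gcongr
    _ = _ := by rw [div_eq_mul_inv]

theorem primes_small (A δ : ℝ) (hA : 1 ≤ A) (hδ : 0 < δ) : ∀ᶠ B : ℕ in atTop,
    (Nat.primeCounting ⌊A * (B : ℝ) ^ 5⌋₊ : ℝ) ≤ δ * (B : ℝ) ^ 5 := by
  have ht : Tendsto (fun B : ℕ => A * (B : ℝ) ^ 5) atTop atTop :=
    ((tendsto_pow_atTop (by norm_num)).comp tendsto_natCast_atTop_atTop).const_mul_atTop
      (by linarith)
  have h1 := ht.eventually (Chebyshev.eventually_primeCounting_le (ε := 1) one_pos)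
  have h2 := (Real.tendsto_log_atTop.comp ht).eventually
    (eventually_ge_atTop ((Real.log 4 + 1) * A / δ))
  have h3 := (Real.tendsto_log_atTop.comp ht).eventually (eventually_gt_atTop 0)
  filter_upwards [h1, h2, h3] with B h1 h2 h3
  simp only [Function.comp] at h2 h3
  refine h1.trans ?_
  rw [div_le_iff₀ h3]
  rw [div_le_iff₀ hδ] at h2
  have h4 : (0 : ℝ) ≤ (B : ℝ) ^ 5 := by positivity
  nlinarith

/-- the fourth powers -/
theorem cD : S_cD := by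
  classical
  intro hD hD3 η hη
  obtain ⟨A, hA, hsz⟩ := hD3
  obtain ⟨M, hM⟩ := exists_nat_gt (8 / η)
  refine ⟨M + 5, ?_⟩
  filter_upwards [eventually_ge_atTop 1, primes_small A (η / 4) hA (by positivity)] with B hB hpr
  have h1 := fib B 0 (fun a => dis a ≠ 0 ∧ ∃ p > M + 5, p.Prime ∧ ¬ (p : ℤ) ∣ dis0 a ∧
      (p : ℤ) ^ 4 ∣ dis a)
    (8 * (B : ℝ) ^ 5 / (M + 5 : ℕ) + 4 * (Nat.primeCounting ⌊A * (B : ℝ) ^ 5⌋₊ : ℝ))
    (fun a ha => by
      convert fibre_cD hD (M + 5) B (by omega) A hA hB (fun a ha => hsz B a hB ha) a ha)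
  rw [ncard_Box]
  rw [card_II_zero] at h1
  have hm : 8 * (B : ℝ) ^ 5 / (M + 5 : ℕ) + 4 * (Nat.primeCounting ⌊A * (B : ℝ) ^ 5⌋₊ : ℝ) ≤
      η * (2 * (B : ℝ) ^ 5 + 1) := by
    have h2 : 8 * (B : ℝ) ^ 5 / (M + 5 : ℕ) ≤ η * (B : ℝ) ^ 5 := by
      rw [div_le_iff₀ (by positivity)]
      rw [div_lt_iff₀ hη] at hM
      have h3 : 0 < (B : ℝ) ^ 5 := by
        have : (0 : ℝ) < B := by exact_mod_cast hB
        positivity
      have h4 : 8 ≤ η * ((M + 5 : ℕ) : ℝ) := by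
        push_cast
        nlinarith
      nlinarith
    linarith
  have h0 : (0 : ℝ) < 2 * (B : ℝ) ^ 5 + 1 := by positivity
  have h5 : 0 < ((Box B).card : ℝ) := by exact_mod_cast card_Box_pos B
  have h6 := h1.trans (mul_le_mul_of_nonneg_right hm h5.le)
  have h7 : η * (2 * (B : ℝ) ^ 5 + 1) * (Box B).card =
      η * (Box B).card * (2 * (B : ℝ) ^ 5 + 1) := by ring
  rw [h7] at h6
  exact le_of_mul_le_mul_right h6 h0

end Run7.h642.Cnt
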