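import Pool.Agent.Run7.h642.PcA
import Pool.Agent.Run7.h642.PcC

/-!
# Assembly of the count
-/

set_option autoImplicit false

namespace Run7.h642.Cnt

open Polynomial Run7.h929.G2 Run7.h929.G3 Filter Topology

theorem badLog_le (a : Fin 5 → ℤ) (M j : ℕ) (hM : 1 ≤ M) (h1 : ∀ p : ℕ, p.Prime → BadP a p → p ≤ M)
    (h2 : ∀ p ≤ M, p.Prime → ¬ (p : ℤ) ^ j ∣ dis a) : badLog a ≤ M * (j * Real.log M) := by
  classical
  unfold badLog
  have h3 : ∀ p ∈ ((dis a).natAbs.primeFactors.filter fun p => BadP a p),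
      (padicValInt p (dis a) : ℝ) * Real.log p ≤ j * Real.log M := by
    intro p hp
    rw [Finset.mem_filter, Nat.mem_primeFactors] at hp
    obtain ⟨⟨hp, _, _⟩, hb⟩ := hp
    have hpM := h1 p hp hb
    have : Fact p.Prime := ⟨hp⟩
    have h4 : padicValInt p (dis a) ≤ j := by
      by_contra hcon
      push Not at hcon
      apply h2 p hpM hp
      exact (pow_dvd_pow _ hcon.le).trans (padicValInt_dvd _)
    have hp1 : (1 : ℝ) ≤ p := by exact_mod_cast hp.one_le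
    have h5 : Real.log p ≤ Real.log M := Real.log_le_log (by linarith) (by exact_mod_cast hpM)
    have h6 : 0 ≤ Real.log p := Real.log_nonneg hp1
    have h7 : (padicValInt p (dis a) : ℝ) ≤ j := by exact_mod_cast h4
    exact mul_le_mul h7 h5 h6 (by positivity)
  have h4 : ((dis a).natAbs.primeFactors.filter fun p => BadP a p) ⊆ Finset.Icc 1 M := by
    intro p hp
    rw [Finset.mem_filter, Nat.mem_primeFactors] at hp
    exact Finset.mem_Icc.2 ⟨hp.1.1.one_le, h1 p hp.1.1 hp.2⟩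
  have h5 : (((dis a).natAbs.primeFactors.filter fun p => BadP a p).card : ℝ) ≤ M := by
    have := Finset.card_le_card h4
    rw [Nat.card_Icc, Nat.add_sub_cancel] at this
    exact_mod_cast this
  have h6 : 0 ≤ (j : ℝ) * Real.log M :=
    mul_nonneg (by positivity) (Real.log_nonneg (by exact_mod_cast hM))
  calc _ ≤ ∑ p ∈ (dis a).natAbs.primeFactors.filter fun p => BadP a p, (j * Real.log M : ℝ) :=
        Finset.sum_le_sum h3
    _ = (((dis a).natAbs.primeFactors.filter fun p => BadP a p).card : ℝ) * (j * Real.log M) := by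
      rw [Finset.sum_const, nsmul_eq_mul]
    _ ≤ _ := mul_le_mul_of_nonneg_right h5 h6

theorem nice_of (ε : ℝ) (B : ℕ) (hB : 1 ≤ B) (M j : ℕ) (hM : 2 ≤ M)
    (hc : M * (j * Real.log M) ≤ ε * Real.log B) (a : Fin 5 → ℤ)
    (hA : ¬ |((dis a : ℤ) : ℝ)| < (B : ℝ) ^ (20 - ε))
    (hBj : ¬ ∃ p ≤ M, p.Prime ∧ (p : ℤ) ^ j ∣ dis a)
    (hC : ¬ ∃ p > M, p.Prime ∧ (p : ℤ) ∣ dis a ∧ (p : ℤ) ∣ dis0 a)
    (hD : ¬ (dis a ≠ 0 ∧ ∃ p > M, p.Prime ∧ ¬ (p : ℤ) ∣ dis0 a ∧ (p : ℤ) ^ 4 ∣ dis a)) :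
    NiceQ ε B a := by
  have hB0 : (0 : ℝ) < B := by exact_mod_cast hB
  have hpos : 0 < (B : ℝ) ^ (20 - ε) := Real.rpow_pos_of_pos hB0 _
  rw [not_lt] at hA
  have hne : dis a ≠ 0 := by
    intro h0
    rw [h0] at hA
    simp at hA
    linarith
  refine ⟨hne, ?_, ?_⟩
  · rw [← Real.log_rpow hB0]
    exact Real.log_le_log hpos hA
  · refine (badLog_le a M j (by omega) ?_ ?_).trans hc
    · intro p hp hb
      by_contra hcon
      push Not at hcon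
      rcases hb with rfl | ⟨hd, h0 | h4⟩
      · omega
      · exact hC ⟨p, hcon, hp, hd, h0⟩
      · by_cases h0 : (p : ℤ) ∣ dis0 a
        · exact hC ⟨p, hcon, hp, hd, h0⟩
        · exact hD ⟨hne, p, hcon, hp, h0, h4⟩
    · intro p hpM hp hd
      exact hBj ⟨p, hpM, hp, hd⟩

/-- the assembly -/
theorem cE : S_cE := by
  intro hD1 hD2 hD3 hA hB hC hD ε hε
  rw [Metric.tendsto_atTop']
  intro η hη
  obtain ⟨M1, hM1⟩ := hC hD1 hD2 (η / 5) (by positivity)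
  obtain ⟨M2, hM2⟩ := hD hD1 hD3 (η / 5) (by positivity)
  set M := max M1 M2 + 2 with hM
  obtain ⟨j, hj⟩ := hB hD1 M (η / 5) (by positivity)
  have hAe := (hA hD1 ε hε).eventually (eventually_lt_nhds (show (0 : ℝ) < η / 5 by positivity))
  have hlog : ∀ᶠ B : ℕ in atTop, M * (j * Real.log M) / ε ≤ Real.log B :=
    (Real.tendsto_log_atTop.comp tendsto_natCast_atTop_atTop).eventually
      (eventually_ge_atTop (M * (j * Real.log M) / ε))
  have hfin : ∀ (B : ℕ) (Q : (Fin 5 → ℤ) → Prop),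
      {a ∈ (Box B : Set (Fin 5 → ℤ)) | Q a}.Finite :=
    fun B Q => (Box B).finite_toSet.subset fun a ha => ha.1
  have key : ∀ᶠ B : ℕ in atTop,
      ({a ∈ (Box B : Set (Fin 5 → ℤ)) | ¬ NiceQ ε B a}.ncard : ℝ) / (Box B).card < η := by
    filter_upwards [hM1, hM2, hj, hAe, hlog, eventually_ge_atTop 1] with B h1 h2 h3 h4 h5 hB1
    have hCp : 0 < ((Box B).card : ℝ) := by exact_mod_cast card_Box_pos B
    rw [div_le_iff₀ hε] at h5
    rw [div_lt_iff₀ hCp] at h4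
    rw [div_lt_iff₀ hCp]
    have hsub : {a ∈ (Box B : Set (Fin 5 → ℤ)) | ¬ NiceQ ε B a} ⊆
        {a ∈ (Box B : Set (Fin 5 → ℤ)) | |((dis a : ℤ) : ℝ)| < (B : ℝ) ^ (20 - ε)} ∪
        ({a ∈ (Box B : Set (Fin 5 → ℤ)) | ∃ p ≤ M, p.Prime ∧ (p : ℤ) ^ j ∣ dis a} ∪
        ({a ∈ (Box B : Set (Fin 5 → ℤ)) | ∃ p > M1, p.Prime ∧ (p : ℤ) ∣ dis a ∧
          (p : ℤ) ∣ dis0 a} ∪
        {a ∈ (Box B : Set (Fin 5 → ℤ)) | dis a ≠ 0 ∧ ∃ p > M2, p.Prime ∧ ¬ (p : ℤ) ∣ dis0 a ∧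
          (p : ℤ) ^ 4 ∣ dis a})) := by
      rintro a ⟨haB, ha⟩
      by_contra hcon
      rw [Set.mem_union, Set.mem_union, Set.mem_union, not_or, not_or, not_or] at hcon
      obtain ⟨g1, g2, g3, g4⟩ := hcon
      apply ha
      refine nice_of ε B hB1 M j (by omega) (by linarith) a (fun h => g1 ⟨haB, h⟩)
        (fun h => g2 ⟨haB, h⟩) ?_ ?_
      · rintro ⟨p, hp, h⟩
        exact g3 ⟨haB, p, lt_of_le_of_lt ((le_max_left M1 M2).trans (by omega)) hp, h⟩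
      · rintro ⟨hne, p, hp, h⟩
        exact g4 ⟨haB, hne, p, lt_of_le_of_lt ((le_max_right M1 M2).trans (by omega)) hp, h⟩
    have hcard := (Set.ncard_le_ncard hsub
      ((hfin _ _).union ((hfin _ _).union ((hfin _ _).union (hfin _ _))))).trans
      ((Set.ncard_union_le _ _).trans (Nat.add_le_add_left ((Set.ncard_union_le _ _).trans
        (Nat.add_le_add_left (Set.ncard_union_le _ _) _)) _))
    have hcard' : ({a ∈ (Box B : Set (Fin 5 → ℤ)) | ¬ NiceQ ε B a}.ncard : ℝ) ≤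
        ({a ∈ (Box B : Set (Fin 5 → ℤ)) | |((dis a : ℤ) : ℝ)| < (B : ℝ) ^ (20 - ε)}.ncard : ℝ) +
        (({a ∈ (Box B : Set (Fin 5 → ℤ)) | ∃ p ≤ M, p.Prime ∧ (p : ℤ) ^ j ∣ dis a}.ncard : ℝ) +
        (({a ∈ (Box B : Set (Fin 5 → ℤ)) | ∃ p > M1, p.Prime ∧ (p : ℤ) ∣ dis a ∧
          (p : ℤ) ∣ dis0 a}.ncard : ℝ) +
        ({a ∈ (Box B : Set (Fin 5 → ℤ)) | dis a ≠ 0 ∧ ∃ p > M2, p.Prime ∧ ¬ (p : ℤ) ∣ dis0 a ∧
          (p : ℤ) ^ 4 ∣ dis a}.ncard : ℝ))) := by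
      exact_mod_cast hcard
    nlinarith
  obtain ⟨B₀, hB₀⟩ := eventually_atTop.1 key
  refine ⟨B₀, fun B hB => ?_⟩
  rw [Real.dist_eq, sub_zero, abs_of_nonneg (by positivity)]
  exact hB₀ B hB.le

/-- the count, from the three pieces on the discriminant -/
theorem count_of (h1 : S_D1) (h2 : S_D2) (h3 : S_D3) : S_count :=
  cE h1 h2 h3 cA cB cC cD

end Run7.h642.Cnt
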