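import Pool.Agent.Run7.h642.ConeDef

/-!
# Connected components of the level sets of a cone-like function
-/

open Topology Filter
open scoped ENNReal

namespace Run7.h642

open OCone

/-- a value and a set -/
structure Str (X : Type) : Type where
  /-- the value -/
  d : ℝ≥0∞
  /-- the set -/
  s : Set X

instance (X : Type) : PartialOrder (Str X) where
  le a b := a = b ∨ a.d < b.d
  le_refl a := Or.inl rfl
  le_trans a b c hab hbc := by
    rcases hab with rfl | hab
    · exact hbc
    · rcases hbc with rfl | hbc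
      · exact Or.inr hab
      · exact Or.inr (hab.trans hbc)
  le_antisymm a b hab hba := by
    rcases hab with hab | hab
    · exact hab
    · rcases hba with hba | hba
      · exact hba.symm
      · exact absurd (hab.trans hba) (lt_irrefl _)

theorem Str.lt_of {X : Type} {a b : Str X} (h : a.d < b.d) : a < b := by
  rw [lt_iff_le_not_ge]
  refine ⟨Or.inr h, ?_⟩
  rintro (h1 | h1)
  · rw [h1] at h
    exact lt_irrefl _ h
  · exact lt_irrefl _ (h.trans h1)

variable {X : Type} [TopologicalSpace X]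

/-- the connected component of the level set -/
def stComp (D : X → ℝ≥0∞) (x : X) : Set X := connectedComponentIn {y | D y = D x} x

/-- the refined stratification -/
def sgm (D : X → ℝ≥0∞) (x : X) : Str X := ⟨D x, stComp D x⟩

theorem mem_stComp (D : X → ℝ≥0∞) (x : X) : x ∈ stComp D x :=
  mem_connectedComponentIn rfl

theorem sgm_eq_of_preconnected {D : X → ℝ≥0∞} {P : Set X} (hP : IsPreconnected P) {c : ℝ≥0∞}
    (hD : ∀ y ∈ P, D y = c) {x y : X} (hx : x ∈ P) (hy : y ∈ P) : sgm D x = sgm D y := by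
  have h1 : D x = D y := (hD x hx).trans (hD y hy).symm
  have h2 : {z | D z = D x} = {z | D z = D y} := by rw [h1]
  have h3 : y ∈ connectedComponentIn {z | D z = D x} x :=
    hP.subset_connectedComponentIn hx (fun z hz => (hD z hz).trans (hD x hx).symm) hy
  unfold sgm stComp
  rw [connectedComponentIn_eq h3, h1]

theorem finite_image_of_compact {S : Type*} {σ : X → S} {A : Set X} (hA : IsCompact A)
    (h : ∀ y ∈ A, ∃ U ∈ 𝓝 y, (σ '' U).Finite) : (σ '' A).Finite := by
  apply hA.induction_on (p := fun B => (σ '' B).Finite)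
  · simp
  · intro s t hst ht
    exact ht.subset (Set.image_mono hst)
  · intro s t hs ht
    rw [Set.image_union]
    exact hs.union ht
  · intro y hy
    obtain ⟨U, hU, hfin⟩ := h y hy
    exact ⟨U, mem_nhdsWithin_of_mem_nhds hU, hfin⟩

section chart

variable {D : X → ℝ≥0∞} {x : X} {m : ℕ} {L : Type} [TopologicalSpace L]
  {φ : (Fin m → ℝ) × OCone L → X} {τ : L → ℝ≥0∞}

theorem sgm_apex (hφ : IsOpenEmbedding φ) (hx : φ (0, apex) = x)
    (h1 : ∀ v, D (φ (v, apex)) = D x) (v : Fin m → ℝ) : sgm D (φ (v, apex)) = sgm D x := by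
  have hP : IsPreconnected (Set.range fun v : Fin m → ℝ => φ (v, apex)) :=
    isPreconnected_range (hφ.continuous.comp (by fun_prop))
  refine sgm_eq_of_preconnected hP (c := D x) ?_ ⟨v, rfl⟩ ⟨0, hx⟩
  rintro _ ⟨v', rfl⟩
  exact h1 v'

theorem sgm_pt (hφ : IsOpenEmbedding φ) (h2 : ∀ v z, D (φ (v, pt z)) = τ z.1) (v : Fin m → ℝ)
    (z : L × Set.Ioi (0 : ℝ)) :
    sgm D (φ (v, pt z)) = sgm D (φ (0, pt (z.1, ⟨1, Set.mem_Ioi.mpr one_pos⟩))) := by
  have hcont : Continuous fun p : (Fin m → ℝ) × Set.Ioi (0 : ℝ) => φ (p.1, pt (z.1, p.2)) := by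
    apply hφ.continuous.comp
    apply Continuous.prodMk continuous_fst
    have : Continuous (pt : L × Set.Ioi (0 : ℝ) → OCone L) := ⟨fun _ hU => hU.1⟩
    exact this.comp (by fun_prop)
  have : PreconnectedSpace (Set.Ioi (0 : ℝ)) := Subtype.preconnectedSpace isPreconnected_Ioi
  have hP := isPreconnected_range hcont
  refine sgm_eq_of_preconnected hP (c := τ z.1) ?_ ⟨(v, z.2), rfl⟩ ⟨(0, _), rfl⟩
  rintro _ ⟨p, rfl⟩
  exact h2 p.1 _

end chart

theorem exists_nhds_finite {D : X → ℝ≥0∞} (hD : LocallyConelike D) {n : ℕ} {dn : X → ℕ}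
    (hdn : ∀ x, D x = dn x) (hn : ∀ x, dn x ≤ n) (x : X) :
    ∃ U ∈ 𝓝 x, (sgm D '' U).Finite := by
  induction hk : n - dn x using Nat.strong_induction_on generalizing x with
  | _ k ih =>
    obtain ⟨m, L, tL, cL, φ, τ, hφ, hx, h1, h2, h3⟩ := hD x
    have hAc : IsCompact (Set.range fun l : L => φ (0, pt (l, ⟨1, Set.mem_Ioi.mpr one_pos⟩))) := by
      apply isCompact_range
      apply hφ.continuous.comp
      apply Continuous.prodMk continuous_const
      have : Continuous (pt : L × Set.Ioi (0 : ℝ) → OCone L) := ⟨fun _ hU => hU.1⟩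
      exact this.comp (by fun_prop)
    have hfin : (sgm D '' (Set.range fun l : L =>
        φ (0, pt (l, ⟨1, Set.mem_Ioi.mpr one_pos⟩)))).Finite := by
      apply finite_image_of_compact hAc
      rintro _ ⟨l, rfl⟩
      refine ih (n - dn (φ (0, pt (l, ⟨1, Set.mem_Ioi.mpr one_pos⟩)))) ?_ _ rfl
      have e1 := h3 l
      rw [← h2 0 (l, ⟨1, Set.mem_Ioi.mpr one_pos⟩), hdn, hdn] at e1
      have e2 : dn x < dn (φ (0, pt (l, ⟨1, Set.mem_Ioi.mpr one_pos⟩))) := by exact_mod_cast e1
      have e3 := hn (φ (0, pt (l, ⟨1, Set.mem_Ioi.mpr one_pos⟩)))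
      lia
    refine ⟨Set.range φ, ?_, ?_⟩
    · rw [← hx]
      exact hφ.isOpen_range.mem_nhds ⟨_, rfl⟩
    · apply (hfin.union (Set.finite_singleton (sgm D x))).subset
      rintro _ ⟨_, ⟨⟨v, w⟩, rfl⟩, rfl⟩
      rcases eq_apex_or w with rfl | ⟨z, rfl⟩
      · right
        exact sgm_apex hφ hx h1 v
      · left
        exact ⟨_, ⟨z.1, rfl⟩, (sgm_pt hφ h2 v z).symm⟩

/-- the refined stratification of a compact space is finite and cone-like -/
theorem exists_refined [CompactSpace X] {D : X → ℝ≥0∞} (hD : LocallyConelike D) {n : ℕ}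
    {dn : X → ℕ} (hdn : ∀ x, D x = dn x) (hn : ∀ x, dn x ≤ n) :
    Finite (Set.range (sgm D)) ∧
      LocallyConelike (fun x => (⟨sgm D x, x, rfl⟩ : Set.range (sgm D))) := by
  constructor
  · have := finite_image_of_compact (σ := sgm D) (isCompact_univ (X := X))
      (fun y _ => exists_nhds_finite hD hdn hn y)
    rw [Set.image_univ] at this
    exact this
  · intro x
    obtain ⟨m, L, tL, cL, φ, τ, hφ, hx, h1, h2, h3⟩ := hD x
    refine ⟨m, L, tL, cL, φ, fun l => ⟨sgm D (φ (0, pt (l, ⟨1, Set.mem_Ioi.mpr one_pos⟩))), _, rfl⟩,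
      hφ, hx, ?_, ?_, ?_⟩
    · intro v
      exact Subtype.ext (sgm_apex hφ hx h1 v)
    · intro v z
      exact Subtype.ext (sgm_pt hφ h2 v z)
    · intro l
      rw [← Subtype.coe_lt_coe]
      apply Str.lt_of
      change D x < D _
      rw [h2]
      exact h3 l

/-- sets that are locally unions of level sets are unions of components of level sets -/
theorem stComp_subset {D : X → ℝ≥0∞} {E : Set X} (hE : IsClosed E)
    (h : ∀ y ∈ E, ∃ U ∈ 𝓝 y, ∀ q ∈ U, D q = D y → q ∈ E) {x : X} (hx : x ∈ E) :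
    stComp D x ⊆ E := by
  let F : Set X := {y | D y = D x}
  have hxF : x ∈ F := rfl
  have hclopen : IsClopen (Subtype.val ⁻¹' E : Set F) := by
    refine ⟨hE.preimage continuous_subtype_val, ?_⟩
    rw [isOpen_iff_mem_nhds]
    rintro ⟨y, hy⟩ hyE
    obtain ⟨U, hU, h1⟩ := h y hyE
    have h2 : Subtype.val ⁻¹' U ∈ 𝓝 (⟨y, hy⟩ : F) := continuous_subtype_val.continuousAt hU
    filter_upwards [h2] with q hq
    exact h1 q.1 hq (q.2.trans hy.symm)
  intro y hy
  unfold stComp at hy
  rw [connectedComponentIn_eq_image hxF] at hy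
  obtain ⟨z, hz, rfl⟩ := hy
  exact hclopen.connectedComponent_subset (show (⟨x, hxF⟩ : F) ∈ _ from hx) hz

end Run7.h642
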