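import Pool.Agent.Run7.h642.Conic
import Pool.Agent.Run7.h642.Refine
import Pool.Agent.Run7.h642.Main

/-!
# Alexandrov spaces with conical neighbourhoods
-/

open CategoryTheory Topology Filter
open scoped ENNReal

namespace Run7.h642

open OCone

variable {X : Type} [MetricSpace X]

theorem exists_stratification (hX : IsAlexandrov X) (h : ∀ x : X, HasConicalNhd x) :
    ∃ (ι : Type) (_ : PartialOrder ι) (_ : Finite ι) (σ : X → ι), LocallyConelike σ ∧
      ∀ x y : X, σ x = σ y → extremalHull x = extremalHull y := by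
  have hcomp : CompactSpace X := hX.compact
  have hD : LocallyConelike (mdim : X → ℝ≥0∞) := by
    intro x
    obtain ⟨C, mC, pC, K, r, f, hf⟩ := (h x).exists_chart hX
    exact hf.exists_conelike
  have hnat : ∀ x : X, ∃ n : ℕ, mdim x = n := by
    intro x
    obtain ⟨C, mC, pC, K, r, f, hf⟩ := (h x).exists_chart hX
    exact ⟨_, hf.mdim_apex⟩
  choose dn hdn using hnat
  obtain ⟨n, hn⟩ := ENNReal.exists_nat_gt hX.finiteDim.ne
  have hbd : ∀ x, dn x ≤ n := by
    intro x
    have h1 : mdim x ≤ dimH (Set.univ : Set X) :=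
      (mdim_le x one_pos).trans (dimH_mono (Set.subset_univ _))
    rw [hdn] at h1
    have h2 : (dn x : ℝ≥0∞) < n := lt_of_le_of_lt h1 hn
    exact_mod_cast h2.le
  obtain ⟨hfin, hcone⟩ := exists_refined hD hdn hbd
  refine ⟨Set.range (sgm (mdim : X → ℝ≥0∞)), inferInstance, hfin, _, hcone, ?_⟩
  intro x y hxy
  have hxy' : sgm mdim x = sgm mdim y := congrArg Subtype.val hxy
  have hst : stComp mdim x = stComp mdim y := congrArg Str.s hxy'
  have key : ∀ E : Set X, IsExtremal E → (x ∈ E ↔ y ∈ E) := by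
    intro E hE
    have hloc : ∀ z ∈ E, ∃ U ∈ 𝓝 z, ∀ q ∈ U, mdim q = mdim z → q ∈ E := by
      intro z hz
      obtain ⟨C, mC, pC, K, r, f, hf⟩ := (h z).exists_chart hX
      refine ⟨Metric.ball z (r / 16), Metric.ball_mem_nhds _ (by linarith [hf.pos]), ?_⟩
      intro q hq hm
      rw [Metric.mem_ball, dist_comm] at hq
      exact hf.extremal_mem hE hz hq hm
    constructor
    · intro hx
      exact stComp_subset hE.closed hloc hx (hst ▸ mem_stComp mdim y)
    · intro hy
      exact stComp_subset hE.closed hloc hy (hst ▸ mem_stComp mdim x)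
  unfold extremalHull
  congr 1
  ext E
  constructor
  · rintro ⟨hE, hxE⟩
    exact ⟨hE, (key E hE).mp hxE⟩
  · rintro ⟨hE, hyE⟩
    exact ⟨hE, (key E hE).mpr hyE⟩

universe w

theorem finitelyManyClasses_of_conical {k : Type} [Field k] [Finite k] (hX : IsAlexandrov X)
    (h : ∀ x : X, HasConicalNhd x) [HasDerivedCategory.{w} (ShV k (TopCat.of X))] (N : ℕ) :
    FinitelyManyClasses k X N := by
  have hcomp : CompactSpace X := hX.compact
  obtain ⟨ι, hι, hfin, σ, hσ, href⟩ := exists_stratification hX h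
  exact finitelyManyClasses_of_conelike hσ href N

end Run7.h642
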