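import Pool.Agent.Run7.h642.Push

/-!
# Ext groups on cylinders
-/

open CategoryTheory TopologicalSpace Opposite TopCat Limits Abelian

namespace Run7.h642

variable {k : Type} [Field k] {Y : TopCat.{0}}

theorem fib_eq (V : Opens Y) : (Opens.map (pr Y)).obj V = bx V (-1) 2 := by
  ext z
  constructor
  · intro hz
    exact ⟨hz, by linarith [z.2.2.1], by linarith [z.2.2.2]⟩
  · intro hz
    exact hz.1

theorem LE_of_pSurj {N : Sh k (cyl Y)} (hN : PSurj N) : LE (pr Y) N := by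
  intro n W x hx γ
  have h1 : bx W (-1) 2 ≤ (Opens.map (pr Y)).obj W := (fib_eq W).ge
  obtain ⟨V, hV, hxV, h⟩ := box_vanishing hN hx (rs h1 γ)
  refine ⟨V, hV, hxV, ?_⟩
  have h2 : (Opens.map (pr Y)).obj V ≤ bx V (-1) 2 := (fib_eq V).le
  have h3 := congrArg (rs h2) h
  rw [rs_rs, rs_rs, rs_zero] at h3
  exact h3

/-- sections over a full preimage determined by one germ -/
theorem pInj_fib {N : Sh k (cyl Y)} (hN : PInj N) {y : Y} {V : Opens Y} (hy : y ∈ V)
    (s : N.1.obj (op ((Opens.map (pr Y)).obj V))) (t : unitInterval)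
    (h : grm N ((y, t) : cyl Y) hy s = 0) : ∃ (V' : Opens Y) (hV' : V' ≤ V), y ∈ V' ∧
      res N (show (Opens.map (pr Y)).obj V' ≤ (Opens.map (pr Y)).obj V from fun _ hz => hV' hz) s
        = 0 := by
  have hle : bx V (-1) 2 ≤ (Opens.map (pr Y)).obj V := (fib_eq V).ge
  have h1 : ∀ t' : unitInterval, grm N ((y, t') : cyl Y) hy s = 0 := by
    intro t'
    have := hN y t t' V hy (res N hle s) (by rw [grm_res]; exact h)
    rw [grm_res] at this
    exact this
  let O : Opens (cyl Y) := ⟨{z | ∃ hz : z ∈ (Opens.map (pr Y)).obj V, grm N z hz s = 0}, by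
    rw [isOpen_iff_forall_mem_open]
    rintro z ⟨hz, hz0⟩
    have h2 : grm N z hz s = grm N z hz 0 := by rw [hz0, map_zero]
    obtain ⟨W, i1, i2, hW, h3⟩ := exists_res_eq_of_grm N z hz hz s 0 h2
    refine ⟨W, fun w hw => ⟨i1 hw, ?_⟩, W.2, hW⟩
    rw [← grm_res N i1 w hw, h3, map_zero, map_zero]⟩
  obtain ⟨V', hyV', hV'⟩ := tube (O := O) (y := y) (fun t' => ⟨hy, h1 t'⟩)
  refine ⟨V' ⊓ V, inf_le_right, ⟨hyV', hy⟩, ?_⟩
  apply ext_grm
  intro z hz
  rw [grm_res, map_zero]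
  obtain ⟨_, h4⟩ := hV' (show z ∈ bx V' (-1) 2 from (fib_eq V').le hz.1)
  exact h4

/-- the unit is an isomorphism -/
theorem isIso_unit (B : Sh k Y) : IsIso (flat (pr Y) (𝟙 (pb (pr Y) B))) := by
  apply isIso_of_stk
  intro y
  constructor
  · rw [injective_iff_map_eq_zero]
    intro b hb
    obtain ⟨V, hy, b, rfl⟩ := exists_grm_eq B y b
    rw [stk_grm, sec_flat, sec_id] at hb
    have h1 := congrArg (fun q => pm (pr Y) (pb (pr Y) B) ((y, 0) : cyl Y) q) hb
    have h2 := (pm_grm (pr Y) (pb (pr Y) B) ((y, 0) : cyl Y) V hy _).symm.trans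
      (h1.trans (map_zero _))
    have h3 := congrArg (pe (pr Y) B ((y, 0) : cyl Y)) h2
    rw [pe_pbS, map_zero] at h3
    exact h3
  · intro q
    obtain ⟨V, hy, s, rfl⟩ := exists_grm_eq _ y q
    have hy' : ((y, 0) : cyl Y) ∈ (Opens.map (pr Y)).obj V := hy
    obtain ⟨V', hy2, b, hb⟩ := exists_grm_eq B y
      (pe (pr Y) B ((y, 0) : cyl Y) (grm (pb (pr Y) B) ((y, 0) : cyl Y) hy' s))
    have i1 : (Opens.map (pr Y)).obj (V ⊓ V') ≤ (Opens.map (pr Y)).obj V := fun z hz => hz.1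
    have i2 : (Opens.map (pr Y)).obj (V ⊓ V') ≤ (Opens.map (pr Y)).obj V' := fun z hz => hz.2
    have hyy : y ∈ V ⊓ V' := ⟨hy, hy2⟩
    obtain ⟨V3, hV3, hy3, h3⟩ := pInj_fib (pInj_pb B) hyy
      (res _ i2 (pbS (pr Y) b ((Opens.map (pr Y)).obj V') (fun _ hz => hz)) - res _ i1 s) 0 (by
        rw [map_sub, grm_res, grm_res, sub_eq_zero]
        apply pe_injective
        rw [pe_pbS]
        exact hb)
    refine ⟨grm B y hy2 b, ?_⟩
    rw [stk_grm, sec_flat, sec_id]
    rw [map_sub, sub_eq_zero, res_res, res_res] at h3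
    have h4 : res (pu (pr Y) (pb (pr Y) B)) (hV3.trans inf_le_right)
        (pbS (pr Y) b ((Opens.map (pr Y)).obj V') (fun _ hz => hz)) =
        res (pu (pr Y) (pb (pr Y) B)) (hV3.trans inf_le_left) s := h3
    have h5 := congrArg (grm (pu (pr Y) (pb (pr Y) B)) y hy3) h4
    rw [grm_res, grm_res] at h5
    exact h5

theorem injective_pu_pb (I : Sh k Y) [Injective I] : Injective (pu (pr Y) (pb (pr Y) I)) := by
  have := isIso_unit I
  exact Injective.of_iso (asIso (flat (pr Y) (𝟙 (pb (pr Y) I)))) inferInstance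

theorem pb_pr_surjective (A N : Sh k Y) :
    Function.Surjective (fun g : A ⟶ N => (pbF k (pr Y)).map g) := by
  intro g
  have h := isIso_unit N
  let g : pb (pr Y) A ⟶ pb (pr Y) N := g
  refine ⟨flat (pr Y) g ≫ inv (flat (pr Y) (𝟙 (pb (pr Y) N))), ?_⟩
  change pbMap (pr Y) (flat (pr Y) g ≫ inv (flat (pr Y) (𝟙 (pb (pr Y) N)))) = g
  apply flat_injective (pr Y)
  have h1 := flat_pbMap (pr Y) (𝟙 (pb (pr Y) N))
    (flat (pr Y) g ≫ inv (flat (pr Y) (𝟙 (pb (pr Y) N))))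
  rw [Category.comp_id] at h1
  rw [h1, Category.assoc, IsIso.inv_hom_id, Category.comp_id]

/-- every class on the cylinder between pullbacks is a pullback -/
theorem ext_pr_surjective {A B : Sh k Y} {n : ℕ} (a : Ext.{0} (pb (pr Y) A) (pb (pr Y) B) n) :
    ∃ b : Ext.{0} A B n, b.mapExactFunctor (pbF k (pr Y)) = a := by
  refine ext_surj_fun (pbF k (pr Y)) A (pb_pr_surjective A) ?_ n a
  intro I hI n a
  have := injective_pu_pb I
  exact ext_pb_eq_zero (pr Y) A n (pb (pr Y) I) this (LE_of_pSurj (pSurj_pb I)) a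

/-- the counit is an isomorphism on fibrewise constant sheaves -/
theorem isIso_counit (N : Sh k (cyl Y)) (h1 : PSurj N) (h2 : PInj N) :
    IsIso (sharp (pr Y) (𝟙 (pu (pr Y) N))) := by
  apply isIso_of_stk
  rintro ⟨y, t⟩
  have key : Function.Bijective (pm (pr Y) N ((y, t) : cyl Y)) := by
    constructor
    · rw [injective_iff_map_eq_zero]
      intro b hb
      obtain ⟨V, hy, s, rfl⟩ := exists_grm_eq (pu (pr Y) N) y b
      have h3 := (pm_grm (pr Y) N ((y, t) : cyl Y) V hy s).symm.trans hb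
      obtain ⟨V', hV', hy', h4⟩ := pInj_fib h2 (y := y) hy s t h3
      have h5 : res (pu (pr Y) N) hV' s = 0 := h4
      rw [← grm_res (pu (pr Y) N) hV' y hy', h5, map_zero]
      rfl
    · intro a
      obtain ⟨V, hy, s, hs⟩ := h1 y t a
      have hle : (Opens.map (pr Y)).obj V ≤ bx V (-1) 2 := (fib_eq V).le
      refine ⟨grm (pu (pr Y) N) y hy (res N hle s), ?_⟩
      refine (pm_grm (pr Y) N ((y, t) : cyl Y) V hy _).trans ?_
      rw [grm_res]
      exact hs
  have h3 : ⇑(stk (sharp (pr Y) (𝟙 (pu (pr Y) N))) ((y, t) : cyl Y)) =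
      pm (pr Y) N ((y, t) : cyl Y) ∘ pe (pr Y) (pu (pr Y) N) ((y, t) : cyl Y) := by
    funext s
    rw [stk_sharp, stk_id]
    rfl
  rw [h3]
  exact key.comp ⟨pe_injective _ _ _, pe_surjective _ _ _⟩

end Run7.h642
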