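import Pool.Agent.Run7.h642.Const
import Pool.Agent.Run7.h642.ExtFun

/-!
# Explicit pullback of sheaves
-/

open CategoryTheory TopologicalSpace Opposite TopCat Limits Abelian

namespace Run7.h642

variable {k : Type} [Field k] {X Y Z : TopCat.{0}}

/-- sections of the pullback -/
noncomputable def pbSub (f : Y ⟶ X) (G : Sh k X) :
    LocSub k (fun y : Y => (G.presheaf.stalk (f y) : Type)) where
  S W :=
    { carrier := {s | ∀ (y : Y) (_ : y ∈ W), ∃ (V : Opens Y) (hV : V ≤ W) (_ : y ∈ V)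
        (U : Opens X) (hU : ∀ z ∈ V, f z ∈ U) (t : G.1.obj (op U)),
          ∀ (z : Y) (hz : z ∈ V), s ⟨z, hV hz⟩ = grm G (f z) (hU z hz) t}
      add_mem' := by
        rintro a b ha hb y hy
        obtain ⟨V, hV, hyV, U, hU, t, ht⟩ := ha y hy
        obtain ⟨V', hV', hyV', U', hU', t', ht'⟩ := hb y hy
        refine ⟨V ⊓ V', inf_le_left.trans hV, ⟨hyV, hyV'⟩, U ⊓ U',
          fun z hz => ⟨hU z hz.1, hU' z hz.2⟩,
          res G inf_le_left t + res G inf_le_right t', fun z hz => ?_⟩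
        rw [map_add, grm_res, grm_res, ← ht z hz.1, ← ht' z hz.2]
        rfl
      zero_mem' := by
        intro y hy
        refine ⟨W, le_refl W, hy, ⊤, fun _ _ => trivial, 0, fun z hz => ?_⟩
        rw [map_zero]
        rfl
      smul_mem' := by
        rintro c a ha y hy
        obtain ⟨V, hV, hyV, U, hU, t, ht⟩ := ha y hy
        refine ⟨V, hV, hyV, U, hU, c • t, fun z hz => ?_⟩
        rw [map_smul, ← ht z hz]
        rfl }
  restr := by
    rintro W W' h s hs y hy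
    obtain ⟨V, hV, hyV, U, hU, t, ht⟩ := hs y (h hy)
    exact ⟨V ⊓ W, inf_le_right, ⟨hyV, hy⟩, U, fun z hz => hU z hz.1, t, fun z hz => ht z hz.1⟩
  loc := by
    intro W s hs y hy
    obtain ⟨W', hW', hyW', h1⟩ := hs y hy
    obtain ⟨V, hV, hyV, U, hU, t, ht⟩ := h1 y hyW'
    exact ⟨V, hV.trans hW', hyV, U, hU, t, fun z hz => ht z hz⟩

theorem pbSub_disc (f : Y ⟶ X) (G : Sh k X) : (pbSub f G).Disc := by
  intro W s hs y hy h0
  obtain ⟨V, hV, hyV, U, hU, t, ht⟩ := hs y hy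
  rw [ht y hyV] at h0
  rw [← map_zero (grm G (f y) (hU y hyV))] at h0
  obtain ⟨U', h1, h2, hyU', h3⟩ := exists_res_eq_of_grm G (f y) _ _ t 0 h0
  refine ⟨V ⊓ (Opens.map f).obj U', inf_le_left.trans hV, ⟨hyV, hyU'⟩, fun z hz => ?_⟩
  rw [ht z hz.1, ← grm_res G h1 (f z) hz.2, h3, map_zero, map_zero]

/-- the pullback of a sheaf -/
noncomputable def pb (f : Y ⟶ X) (G : Sh k X) : Sh k Y := (pbSub f G).sheaf

/-- evaluation of germs of the pullback -/
noncomputable def pe (f : Y ⟶ X) (G : Sh k X) (y : Y) :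
    (pb f G).presheaf.stalk y →ₗ[k] G.presheaf.stalk (f y) := (pbSub f G).ev y

theorem pe_injective (f : Y ⟶ X) (G : Sh k X) (y : Y) : Function.Injective (pe f G y) :=
  (pbSub f G).ev_injective (pbSub_disc f G) y

theorem exists_pbS (f : Y ⟶ X) {G : Sh k X} {U : Opens X} (t : G.1.obj (op U)) (W : Opens Y)
    (h : ∀ z ∈ W, f z ∈ U) : ∃ s : (pb f G).1.obj (op W), ∀ (y : Y) (hy : y ∈ W),
      pe f G y (grm (pb f G) y hy s) = grm G (f y) (h y hy) t := by
  let s : (pbSub f G).S W := ⟨fun z => grm G (f z.1) (h z.1 z.2) t,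
    fun y hy => ⟨W, le_refl _, hy, U, h, t, fun z hz => rfl⟩⟩
  exact ⟨s, fun y hy => (pbSub f G).ev_grm y W hy s⟩

/-- pullback of sections -/
noncomputable def pbS (f : Y ⟶ X) {G : Sh k X} {U : Opens X} (t : G.1.obj (op U)) (W : Opens Y)
    (h : ∀ z ∈ W, f z ∈ U) : (pb f G).1.obj (op W) := (exists_pbS f t W h).choose

theorem pe_pbS (f : Y ⟶ X) {G : Sh k X} {U : Opens X} (t : G.1.obj (op U)) (W : Opens Y)
    (h : ∀ z ∈ W, f z ∈ U) (y : Y) (hy : y ∈ W) :
    pe f G y (grm (pb f G) y hy (pbS f t W h)) = grm G (f y) (h y hy) t :=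
  (exists_pbS f t W h).choose_spec y hy

theorem pe_surjective (f : Y ⟶ X) (G : Sh k X) (y : Y) : Function.Surjective (pe f G y) := by
  intro a
  obtain ⟨U, hy, t, rfl⟩ := exists_grm_eq G (f y) a
  exact ⟨grm (pb f G) y (show y ∈ (Opens.map f).obj U from hy)
    (pbS f t ((Opens.map f).obj U) (fun z hz => hz)), pe_pbS f t _ _ y hy⟩

theorem pb_sec_loc (f : Y ⟶ X) (G : Sh k X) {W : Opens Y} (s : (pb f G).1.obj (op W)) (y : Y)
    (hy : y ∈ W) : ∃ (V : Opens Y) (hV : V ≤ W) (_ : y ∈ V)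
        (U : Opens X) (hU : ∀ z ∈ V, f z ∈ U) (t : G.1.obj (op U)),
          ∀ (z : Y) (hz : z ∈ V), pe f G z (grm (pb f G) z (hV hz) s) = grm G (f z) (hU z hz) t := by
  obtain ⟨V, hV, hyV, U, hU, t, ht⟩ := (show (pbSub f G).S W from s).2 y hy
  refine ⟨V, hV, hyV, U, hU, t, fun z hz => ?_⟩
  rw [← ht z hz]
  exact (pbSub f G).ev_grm z W (hV hz) s

theorem pb_hom_ext {f : Y ⟶ X} {G : Sh k X} {F : Sh k Y} (a b : F ⟶ pb f G)
    (h : ∀ (y : Y) (s : F.presheaf.stalk y), pe f G y (stk a y s) = pe f G y (stk b y s)) :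
    a = b := hom_ext_stk _ _ fun y s => pe_injective f G y (h y s)

/-- morphisms into the pullback -/
theorem exists_pbLift (f : Y ⟶ X) (G : Sh k X) {F : Sh k Y}
    (ψ : ∀ y : Y, F.presheaf.stalk y →ₗ[k] G.presheaf.stalk (f y))
    (h : ∀ (W : Opens Y) (s : F.1.obj (op W)) (y : Y) (_ : y ∈ W),
      ∃ (V : Opens Y) (hV : V ≤ W) (_ : y ∈ V) (U : Opens X) (hU : ∀ z ∈ V, f z ∈ U)
        (t : G.1.obj (op U)), ∀ (z : Y) (hz : z ∈ V),
          ψ z (grm F z (hV hz) s) = grm G (f z) (hU z hz) t) :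
    ∃ a : F ⟶ pb f G, ∀ (y : Y) (s : F.presheaf.stalk y), pe f G y (stk a y s) = ψ y s :=
  (pbSub f G).exists_lift ψ (fun W s y hy => h W s y hy)

/-- morphisms out of the pullback -/
theorem exists_pbDesc (f : Y ⟶ X) (G : Sh k X) {F : Sh k Y}
    (ψ : ∀ y : Y, G.presheaf.stalk (f y) →ₗ[k] F.presheaf.stalk y)
    (h : ∀ (U : Opens X) (t : G.1.obj (op U)) (y : Y) (_ : f y ∈ U),
      ∃ (V : Opens Y) (_ : y ∈ V) (hU : ∀ z ∈ V, f z ∈ U)
        (s : F.1.obj (op V)), ∀ (z : Y) (hz : z ∈ V),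
          ψ z (grm G (f z) (hU z hz) t) = grm F z hz s) :
    ∃ a : pb f G ⟶ F, ∀ (y : Y) (s : (pb f G).presheaf.stalk y), stk a y s = ψ y (pe f G y s) := by
  refine exists_homMk (fun y => (ψ y).comp (pe f G y)) ?_
  intro W s y hy
  obtain ⟨V, hV, hyV, U, hU, t, ht⟩ := pb_sec_loc f G s y hy
  obtain ⟨V', hyV', hU', s', hs'⟩ := h U t y (hU y hyV)
  refine ⟨V ⊓ V', inf_le_left.trans hV, ⟨hyV, hyV'⟩, res F inf_le_right s', fun z hz => ?_⟩
  rw [grm_res, LinearMap.comp_apply, ht z hz.1, hs' z hz.2]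

theorem exists_pbMap (f : Y ⟶ X) {G G' : Sh k X} (φ : G ⟶ G') :
    ∃ a : pb f G ⟶ pb f G', ∀ (y : Y) (s : (pb f G).presheaf.stalk y),
      pe f G' y (stk a y s) = stk φ (f y) (pe f G y s) := by
  refine exists_pbLift f G' (fun y => (stk φ (f y)).comp (pe f G y)) ?_
  intro W s y hy
  obtain ⟨V, hV, hyV, U, hU, t, ht⟩ := pb_sec_loc f G s y hy
  refine ⟨V, hV, hyV, U, hU, sec φ U t, fun z hz => ?_⟩
  rw [LinearMap.comp_apply, ht z hz, stk_grm]

/-- functoriality of the pullback -/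
noncomputable def pbMap (f : Y ⟶ X) {G G' : Sh k X} (φ : G ⟶ G') : pb f G ⟶ pb f G' :=
  (exists_pbMap f φ).choose

theorem pe_pbMap (f : Y ⟶ X) {G G' : Sh k X} (φ : G ⟶ G') (y : Y)
    (s : (pb f G).presheaf.stalk y) :
    pe f G' y (stk (pbMap f φ) y s) = stk φ (f y) (pe f G y s) :=
  (exists_pbMap f φ).choose_spec y s

variable (k) in
/-- the pullback functor -/
noncomputable def pbF (f : Y ⟶ X) : Sh k X ⥤ Sh k Y where
  obj G := pb f G
  map φ := pbMap f φ
  map_id G := pb_hom_ext _ _ fun y s => by rw [pe_pbMap, stk_id, stk_id]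
  map_comp φ ψ := pb_hom_ext _ _ fun y s => by
    rw [pe_pbMap, stk_comp, stk_comp, pe_pbMap, pe_pbMap]

instance (f : Y ⟶ X) : (pbF k f).Additive where
  map_add {G G' φ ψ} := by
    have : pbMap f (φ + ψ) = pbMap f φ + pbMap f ψ := by
      apply pb_hom_ext
      intro y s
      rw [pe_pbMap, stk_add, stk_add, map_add, pe_pbMap, pe_pbMap]
    exact this

theorem pbF_shortExact (f : Y ⟶ X) (S : ShortComplex (Sh k X)) (hS : S.ShortExact) :
    (S.map (pbF k f)).ShortExact := by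
  have hm := hS.mono_f
  have he := hS.epi_g
  refine { exact := ?_, mono_f := ?_, epi_g := ?_ }
  · apply exact_of_stk
    intro y t ht
    change stk (pbMap f S.g) y t = 0 at ht
    have h1 : stk S.g (f y) (pe f S.X₂ y t) = 0 := by
      rw [← pe_pbMap, ht, map_zero]
    obtain ⟨u, hu⟩ := stk_exact hS.exact (f y) _ h1
    obtain ⟨u, rfl⟩ := pe_surjective f S.X₁ y u
    refine ⟨u, ?_⟩
    apply pe_injective f S.X₂ y
    rw [← hu]
    exact pe_pbMap f S.f y u
  · apply mono_of_stk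
    intro y a b hab
    apply pe_injective f S.X₁ y
    apply stk_injective_of_mono S.f (f y)
    rw [← pe_pbMap, ← pe_pbMap]
    exact congrArg _ hab
  · apply epi_of_stk
    intro y b
    obtain ⟨u, hu⟩ := stk_surjective_of_epi S.g (f y) (pe f S.X₃ y b)
    obtain ⟨u, rfl⟩ := pe_surjective f S.X₂ y u
    refine ⟨u, ?_⟩
    apply pe_injective f S.X₃ y
    rw [← hu]
    exact pe_pbMap f S.g y u

theorem pbF_exact (f : Y ⟶ X) :
    PreservesFiniteLimits (pbF k f) ∧ PreservesFiniteColimits (pbF k f) :=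
  ((Functor.exact_tfae (pbF k f)).out 0 3 rfl rfl).mp (pbF_shortExact f)

instance (f : Y ⟶ X) : PreservesFiniteLimits (pbF k f) := (pbF_exact f).1
instance (f : Y ⟶ X) : PreservesFiniteColimits (pbF k f) := (pbF_exact f).2

/-- pullback along a composition -/
theorem exists_pbComp (g : Z ⟶ Y) (f : Y ⟶ X) (G : Sh k X) :
    ∃ a : pb (g ≫ f) G ⟶ pb g (pb f G), ∀ (z : Z) (s : (pb (g ≫ f) G).presheaf.stalk z),
      pe f G (g z) (pe g (pb f G) z (stk a z s)) = pe (g ≫ f) G z s := by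
  let e : ∀ z : Z, (pb f G).presheaf.stalk (g z) ≃ₗ[k] G.presheaf.stalk (f (g z)) := fun z =>
    LinearEquiv.ofBijective (pe f G (g z)) ⟨pe_injective f G (g z), pe_surjective f G (g z)⟩
  obtain ⟨a, ha⟩ := exists_pbLift g (pb f G) (F := pb (g ≫ f) G)
    (fun z => (e z).symm.toLinearMap.comp (pe (g ≫ f) G z)) (by
      intro W s z hz
      obtain ⟨V, hV, hzV, U, hU, t, ht⟩ := pb_sec_loc (g ≫ f) G s z hz
      refine ⟨V, hV, hzV, (Opens.map f).obj U, fun w hw => hU w hw,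
        pbS f t ((Opens.map f).obj U) (fun w hw => hw), fun w hw => ?_⟩
      apply (e w).injective
      rw [LinearMap.comp_apply, LinearEquiv.coe_coe, LinearEquiv.apply_symm_apply, ht w hw]
      exact (pe_pbS f t ((Opens.map f).obj U) (fun w hw => hw) (g w) (hU w hw)).symm)
  refine ⟨a, fun z s => ?_⟩
  rw [ha z s]
  exact (e z).apply_symm_apply _

/-- pullback along a composition -/
noncomputable def pbComp (g : Z ⟶ Y) (f : Y ⟶ X) (G : Sh k X) :
    pb (g ≫ f) G ⟶ pb g (pb f G) := (exists_pbComp g f G).choose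

theorem pe_pbComp (g : Z ⟶ Y) (f : Y ⟶ X) (G : Sh k X) (z : Z)
    (s : (pb (g ≫ f) G).presheaf.stalk z) :
    pe f G (g z) (pe g (pb f G) z (stk (pbComp g f G) z s)) = pe (g ≫ f) G z s :=
  (exists_pbComp g f G).choose_spec z s

instance (g : Z ⟶ Y) (f : Y ⟶ X) (G : Sh k X) : IsIso (pbComp g f G) := by
  apply isIso_of_stk
  intro z
  have h1 : Function.Bijective (fun s => pe f G (g z) (pe g (pb f G) z s)) :=
    Function.Bijective.comp ⟨pe_injective f G (g z), pe_surjective f G (g z)⟩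
      ⟨pe_injective g _ z, pe_surjective g _ z⟩
  have h2 : Function.Bijective
      ((fun s => pe f G (g z) (pe g (pb f G) z s)) ∘ stk (pbComp g f G) z) := by
    have : ((fun s => pe f G (g z) (pe g (pb f G) z s)) ∘ stk (pbComp g f G) z) =
      pe (g ≫ f) G z := funext fun s => pe_pbComp g f G z s
    rw [this]
    exact ⟨pe_injective _ G z, pe_surjective _ G z⟩
  exact (Function.Bijective.of_comp_iff' h1 _).mp h2

variable (k) in
/-- pullback along a composition -/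
noncomputable def pbFComp (g : Z ⟶ Y) (f : Y ⟶ X) : pbF k (g ≫ f) ≅ pbF k f ⋙ pbF k g :=
  NatIso.ofComponents (fun G => (asIso (pbComp g f G) : pb (g ≫ f) G ≅ pb g (pb f G))) (by
    intro G G' φ
    apply pb_hom_ext
    intro z s
    apply pe_injective
    change pe f G' (g z) (pe g _ z (stk (pbMap (g ≫ f) φ ≫ pbComp g f G') z s)) =
      pe f G' (g z) (pe g _ z (stk (pbComp g f G ≫ pbMap g (pbMap f φ)) z s))
    rw [stk_comp, stk_comp, pe_pbComp, pe_pbMap, pe_pbMap, pe_pbMap, pe_pbComp]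
    rfl)

/-- pullback along the identity -/
theorem exists_pbId (G : Sh k X) :
    ∃ a : pb (𝟙 X) G ⟶ G, ∀ (z : X) (s : (pb (𝟙 X) G).presheaf.stalk z),
      stk a z s = pe (𝟙 X) G z s := by
  refine exists_pbDesc (𝟙 X) G (fun y => LinearMap.id) ?_
  intro U t y hy
  exact ⟨U, hy, fun z hz => hz, t, fun z hz => rfl⟩

/-- pullback along the identity -/
noncomputable def pbId (G : Sh k X) : pb (𝟙 X) G ⟶ G := (exists_pbId G).choose

theorem stk_pbId (G : Sh k X) (z : X) (s : (pb (𝟙 X) G).presheaf.stalk z) :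
    stk (pbId G) z s = pe (𝟙 X) G z s := (exists_pbId G).choose_spec z s

instance (G : Sh k X) : IsIso (pbId G) := by
  apply isIso_of_stk
  intro z
  have : ⇑(stk (pbId G) z) = pe (𝟙 X) G z := funext fun s => stk_pbId G z s
  rw [this]
  exact ⟨pe_injective _ G z, pe_surjective _ G z⟩

variable (k X) in
/-- pullback along the identity -/
noncomputable def pbFId : pbF k (𝟙 X) ≅ 𝟭 (Sh k X) :=
  NatIso.ofComponents (fun G => (asIso (pbId G) : pb (𝟙 X) G ≅ G)) (by
    intro G G' φ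
    apply hom_ext_stk
    intro z s
    change stk (pbMap (𝟙 X) φ ≫ pbId G') z s = stk (pbId G ≫ φ) z s
    rw [stk_comp, stk_comp, stk_pbId, pe_pbMap, stk_pbId]
    rfl)

end Run7.h642
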