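import Pool.Agent.Run7.h642.Cyl

/-!
# Direct images
-/

open CategoryTheory TopologicalSpace Opposite TopCat Limits Abelian

namespace Run7.h642

variable {k : Type} [Field k] {X Y : TopCat.{0}}

/-- direct image -/
noncomputable abbrev pu (f : Y ⟶ X) (F : Sh k Y) : Sh k X :=
  (TopCat.Sheaf.pushforward (ModuleCat.{0} k) f).obj F

/-- functoriality of the direct image -/
noncomputable abbrev puMap (f : Y ⟶ X) {F F' : Sh k Y} (a : F ⟶ F') : pu f F ⟶ pu f F' :=
  (TopCat.Sheaf.pushforward (ModuleCat.{0} k) f).map a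

theorem exists_pm (f : Y ⟶ X) (F : Sh k Y) (y : Y) :
    ∃ π : (pu f F).presheaf.stalk (f y) →ₗ[k] F.presheaf.stalk y,
      ∀ (U : Opens X) (hy : f y ∈ U) (s : F.1.obj (op ((Opens.map f).obj U))),
        π (grm (pu f F) (f y) hy s) = grm F y (show y ∈ (Opens.map f).obj U from hy) s := by
  obtain ⟨π, hπ⟩ := exists_stkDesc (pu f F) (f y) (F.presheaf.stalk y)
    (fun U hy => grm F y (show y ∈ (Opens.map f).obj U from hy)) (by
      intro U V hUV hy s
      exact grm_res F (fun z hz => hUV hz) y hy s)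
  exact ⟨π, fun U hy s => hπ U hy s⟩

/-- the map from the stalk of the direct image -/
noncomputable def pm (f : Y ⟶ X) (F : Sh k Y) (y : Y) :
    (pu f F).presheaf.stalk (f y) →ₗ[k] F.presheaf.stalk y := (exists_pm f F y).choose

theorem pm_grm (f : Y ⟶ X) (F : Sh k Y) (y : Y) (U : Opens X) (hy : f y ∈ U)
    (s : F.1.obj (op ((Opens.map f).obj U))) :
    pm f F y (grm (pu f F) (f y) hy s) = grm F y (show y ∈ (Opens.map f).obj U from hy) s :=
  (exists_pm f F y).choose_spec U hy s

theorem exists_flat (f : Y ⟶ X) {G : Sh k X} {F : Sh k Y} (a : pb f G ⟶ F) :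
    ∃ b : G ⟶ pu f F, ∀ (U : Opens X) (t : G.1.obj (op U)),
      sec b U t = sec a ((Opens.map f).obj U) (pbS f t ((Opens.map f).obj U) (fun _ hz => hz)) := by
  refine ⟨⟨⟨fun U => ModuleCat.ofHom
    { toFun := fun t => sec a ((Opens.map f).obj U.unop)
        (pbS f t ((Opens.map f).obj U.unop) (fun _ hz => hz))
      map_add' := fun s t => ?_
      map_smul' := fun c t => ?_ }, ?_⟩⟩, ?_⟩
  · refine Eq.trans (congrArg _ ?_) (map_add _ _ _)
    apply ext_grm
    intro y hy
    apply pe_injective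
    rw [map_add, map_add, pe_pbS, pe_pbS, pe_pbS, map_add]
  · refine Eq.trans (congrArg _ ?_) (map_smul _ _ _)
    apply ext_grm
    intro y hy
    apply pe_injective
    rw [map_smul, map_smul, pe_pbS, pe_pbS, map_smul]
    rfl
  · intro U V i
    ext t
    have h1 : sec a ((Opens.map f).obj V.unop) (pbS f (res G i.unop.le t)
        ((Opens.map f).obj V.unop) (fun _ hz => hz)) =
        res F (fun z hz => i.unop.le hz) (sec a ((Opens.map f).obj U.unop)
          (pbS f t ((Opens.map f).obj U.unop) (fun _ hz => hz))) := by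
      rw [← sec_res]
      congr 1
      apply ext_grm
      intro y hy
      apply pe_injective
      rw [grm_res, pe_pbS, pe_pbS, grm_res]
    exact h1
  · intro U t
    rfl

/-- the adjoint of a morphism -/
noncomputable def flat (f : Y ⟶ X) {G : Sh k X} {F : Sh k Y} (a : pb f G ⟶ F) : G ⟶ pu f F :=
  (exists_flat f a).choose

theorem sec_flat (f : Y ⟶ X) {G : Sh k X} {F : Sh k Y} (a : pb f G ⟶ F) (U : Opens X)
    (t : G.1.obj (op U)) : sec (flat f a) U t =
      sec a ((Opens.map f).obj U) (pbS f t ((Opens.map f).obj U) (fun _ hz => hz)) :=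
  (exists_flat f a).choose_spec U t

theorem exists_sharp (f : Y ⟶ X) {G : Sh k X} {F : Sh k Y} (b : G ⟶ pu f F) :
    ∃ a : pb f G ⟶ F, ∀ (y : Y) (s : (pb f G).presheaf.stalk y),
      stk a y s = pm f F y (stk b (f y) (pe f G y s)) := by
  refine exists_pbDesc f G (fun y => (pm f F y).comp (stk b (f y))) ?_
  intro U t y hy
  refine ⟨(Opens.map f).obj U, hy, fun z hz => hz, sec b U t, fun z hz => ?_⟩
  rw [LinearMap.comp_apply, stk_grm]
  exact pm_grm f F z U hz _

/-- the adjoint of a morphism -/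
noncomputable def sharp (f : Y ⟶ X) {G : Sh k X} {F : Sh k Y} (b : G ⟶ pu f F) : pb f G ⟶ F :=
  (exists_sharp f b).choose

theorem stk_sharp (f : Y ⟶ X) {G : Sh k X} {F : Sh k Y} (b : G ⟶ pu f F) (y : Y)
    (s : (pb f G).presheaf.stalk y) :
    stk (sharp f b) y s = pm f F y (stk b (f y) (pe f G y s)) :=
  (exists_sharp f b).choose_spec y s

theorem flat_sharp (f : Y ⟶ X) {G : Sh k X} {F : Sh k Y} (b : G ⟶ pu f F) :
    flat f (sharp f b) = b := by
  apply hom_ext_sec
  intro U t
  apply ext_grm F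
  intro y hy
  rw [sec_flat]
  have h1 := stk_grm (sharp f b) y hy (pbS f t ((Opens.map f).obj U) (fun _ hz => hz))
  rw [stk_sharp, pe_pbS, stk_grm] at h1
  exact h1.symm.trans (pm_grm f F y U hy _)

theorem sharp_flat (f : Y ⟶ X) {G : Sh k X} {F : Sh k Y} (a : pb f G ⟶ F) :
    sharp f (flat f a) = a := by
  apply hom_ext_stk
  intro y s
  obtain ⟨U, hy, t, ht⟩ := exists_grm_eq G (f y) (pe f G y s)
  have hs : s = grm (pb f G) y (show y ∈ (Opens.map f).obj U from hy)
      (pbS f t ((Opens.map f).obj U) (fun _ hz => hz)) := by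
    apply pe_injective
    rw [pe_pbS, ht]
  rw [stk_sharp, ← ht, stk_grm, sec_flat]
  refine (pm_grm f F y U hy _).trans ?_
  rw [← stk_grm, ← hs]

theorem flat_comp (f : Y ⟶ X) {G : Sh k X} {F F' : Sh k Y} (a : pb f G ⟶ F) (c : F ⟶ F') :
    flat f (a ≫ c) = flat f a ≫ puMap f c := by
  apply hom_ext_sec
  intro U t
  rw [sec_flat, sec_comp, sec_comp, sec_flat]
  rfl

theorem flat_pbMap (f : Y ⟶ X) {G G' : Sh k X} {F : Sh k Y} (a : pb f G' ⟶ F) (c : G ⟶ G') :
    flat f (pbMap f c ≫ a) = c ≫ flat f a := by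
  apply hom_ext_sec
  intro U t
  rw [sec_flat, sec_comp, sec_comp, sec_flat]
  congr 1
  apply ext_grm
  intro y hy
  apply pe_injective
  rw [← stk_grm, pe_pbMap, pe_pbS, pe_pbS, stk_grm]

theorem flat_injective (f : Y ⟶ X) {G : Sh k X} {F : Sh k Y} {a b : pb f G ⟶ F}
    (h : flat f a = flat f b) : a = b := by
  rw [← sharp_flat f a, h, sharp_flat]

/-- direct images of injectives are injective -/
theorem injective_pu (f : Y ⟶ X) (I : Sh k Y) [Injective I] : Injective (pu f I) := by
  constructor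
  intro G G' g φ hφ
  have : Mono (pbMap f φ) := by
    apply mono_of_stk
    intro y a b hab
    apply pe_injective f G y
    apply stk_injective_of_mono φ (f y)
    rw [← pe_pbMap, ← pe_pbMap, hab]
  obtain ⟨q, hq⟩ := Injective.factors (sharp f g) (pbMap f φ)
  refine ⟨flat f q, ?_⟩
  rw [← flat_pbMap, hq, flat_sharp]

/-- the local lifting property of classes over full preimages -/
def LE (f : Y ⟶ X) (N : Sh k Y) : Prop :=
  ∀ (n : ℕ) (W : Opens X) (x : X) (_ : x ∈ W)
    (γ : Ext.{0} (cut (cst k Y 1) ((Opens.map f).obj W)) N (n + 1)),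
    ∃ (V : Opens X) (hV : V ≤ W), x ∈ V ∧
      rs (show (Opens.map f).obj V ≤ (Opens.map f).obj W from fun _ hz => hV hz) γ = 0

theorem puMap_mono (f : Y ⟶ X) {F F' : Sh k Y} (a : F ⟶ F') [Mono a] : Mono (puMap f a) := by
  constructor
  intro Z u v huv
  have h1 : sharp f u ≫ a = sharp f v ≫ a := by
    apply flat_injective f
    rw [flat_comp, flat_comp, flat_sharp, flat_sharp]
    exact huv
  rw [cancel_mono] at h1
  rw [← flat_sharp f u, h1, flat_sharp]

theorem exists_sec_of_lift {F F' : Sh k Y} (g : F ⟶ F') {W V : Opens Y} (hV : V ≤ W)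
    (q : F'.1.obj (op W)) (l : cut (cst k Y 1) V ⟶ F)
    (h : l ≫ g = cutMap (cst k Y 1) hV ≫ fromSec (fun _ => q)) :
    ∃ t : F.1.obj (op V), sec g V t = res F' hV q := by
  refine ⟨toSec l 0, ?_⟩
  rw [← toSec_comp, h, toSec_cutMap, toSec_fromSec]

/-- local lifting of sections -/
theorem exists_local_lift_of_LE (f : Y ⟶ X) {S : ShortComplex (Sh k Y)} (hS : S.ShortExact)
    (hLE : LE f S.X₁) {W : Opens X} {x : X} (hx : x ∈ W)
    (q : S.X₃.1.obj (op ((Opens.map f).obj W))) : ∃ (V : Opens X) (hV : V ≤ W), x ∈ V ∧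
      ∃ t : S.X₂.1.obj (op ((Opens.map f).obj V)), sec S.g ((Opens.map f).obj V) t =
        res S.X₃ (show (Opens.map f).obj V ≤ (Opens.map f).obj W from fun _ hz => hV hz) q := by
  obtain ⟨V, hV, hxV, h⟩ := hLE 0 W x hx
    ((Ext.mk₀ (fromSec (fun _ => q))).comp hS.extClass (zero_add 1))
  refine ⟨V, hV, hxV, ?_⟩
  have hle : (Opens.map f).obj V ≤ (Opens.map f).obj W := fun _ hz => hV hz
  obtain ⟨l, hl⟩ := exists_lift_of_extClass'.{0} hS (cutMap (cst k Y 1) hle)
    (fromSec (fun _ => q)) h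
  exact exists_sec_of_lift S.g hle q l hl

/-- exactness of the direct image -/
theorem pu_shortExact (f : Y ⟶ X) {S : ShortComplex (Sh k Y)} (hS : S.ShortExact)
    (hLE : LE f S.X₁) :
    (ShortComplex.mk (puMap f S.f) (puMap f S.g) (by
      apply hom_ext_sec
      intro U s
      have h1 : sec (S.f ≫ S.g) ((Opens.map f).obj U) s = 0 := by rw [S.zero, sec_zero]
      exact h1)).ShortExact := by
  have hm := hS.mono_f
  have he := hS.epi_g
  refine { exact := ?_, mono_f := ?_, epi_g := ?_ }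
  · apply exact_of_stk
    intro x t ht
    obtain ⟨U, hx, s, rfl⟩ := exists_grm_eq _ x t
    dsimp only at ht
    rw [stk_grm] at ht
    have h0 : grm (pu f S.X₃) x hx (sec (puMap f S.g) U s) = grm (pu f S.X₃) x hx 0 := by
      rw [map_zero]; exact ht
    obtain ⟨W, h1, h2, hxW, h3⟩ := exists_res_eq_of_grm (pu f S.X₃) x hx hx _ _ h0
    have h4 : sec S.g ((Opens.map f).obj W)
        (res S.X₂ (show (Opens.map f).obj W ≤ (Opens.map f).obj U from fun _ hz => h1 hz) s) = 0 := by
      rw [sec_res]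
      refine Eq.trans ?_ (map_zero (res (pu f S.X₃) h2))
      exact h3
    obtain ⟨u, hu⟩ := exists_of_sec_eq_zero hS.exact _ h4
    refine ⟨grm (pu f S.X₁) x hxW u, ?_⟩
    dsimp only
    rw [stk_grm]
    have h5 : sec (puMap f S.f) W u = res (pu f S.X₂) h1 s := hu
    rw [h5, grm_res]
  · exact puMap_mono f S.f
  · apply epi_of_stk
    intro x t
    obtain ⟨W, hx, q, rfl⟩ := exists_grm_eq _ x t
    obtain ⟨V, hV, hxV, tl, htl⟩ := exists_local_lift_of_LE f hS hLE hx q
    refine ⟨grm (pu f S.X₂) x hxV tl, ?_⟩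
    have h9 : stk (puMap f S.g) x (grm (pu f S.X₂) x hxV tl) =
      grm (pu f S.X₃) x hxV (sec (puMap f S.g) V tl) := stk_grm _ _ _ _
    have h8 : sec (puMap f S.g) V tl = res (pu f S.X₃) hV q := htl
    refine h9.trans ?_
    rw [h8, grm_res]

/-- vanishing of Ext groups of pullbacks -/
theorem ext_pb_eq_zero (f : Y ⟶ X) (A : Sh k X) : ∀ (n : ℕ) (N : Sh k Y)
    (_ : Injective (pu f N)) (_ : LE f N) (a : Ext.{0} (pb f A) N (n + 1)), a = 0 := by
  intro n
  induction n with
  | zero =>
    intro N hN hLE a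
    have hS := injSeq N
    obtain ⟨q, hq⟩ := Ext.covariant_sequence_exact₁ (pb f A) hS a
      (Ext.eq_zero_of_injective _) (zero_add 1)
    obtain ⟨q, rfl⟩ := (Ext.mk₀_bijective _ _).2 q
    have hP := pu_shortExact f hS hLE
    have spl := hP.splittingOfInjective
    have h1 : flat f q = (flat f q ≫ spl.s) ≫ puMap f (cokernel.π (Injective.ι N)) := by
      rw [Category.assoc]
      have h2 := spl.s_g
      dsimp only at h2
      erw [h2, Category.comp_id]
    obtain ⟨l, hl⟩ : ∃ l : pb f A ⟶ Injective.under N, q = l ≫ cokernel.π (Injective.ι N) := by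
      refine ⟨sharp f (flat f q ≫ spl.s), ?_⟩
      apply flat_injective f
      rw [flat_comp, flat_sharp]
      exact h1
    subst hl
    rw [← hq, ← Ext.mk₀_comp_mk₀, Ext.comp_assoc_of_second_deg_zero, hS.comp_extClass,
      Ext.comp_zero]
  | succ n ih =>
    intro N hN hLE a
    have hS := injSeq N
    obtain ⟨b, hb⟩ := Ext.covariant_sequence_exact₁ (pb f A) hS a
      (Ext.eq_zero_of_injective _) rfl
    have hP := pu_shortExact f hS hLE
    have spl := hP.splittingOfInjective
    have hI : Injective (pu f (Injective.under N)) := injective_pu f _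
    have hQ : Injective (pu f (cokernel (Injective.ι N))) := by
      constructor
      intro G G' g φ hφ
      obtain ⟨q, hq⟩ := Injective.factors (J := pu f (Injective.under N)) (g ≫ spl.s) φ
      refine ⟨q ≫ puMap f (cokernel.π (Injective.ι N)), ?_⟩
      rw [← Category.assoc, hq, Category.assoc]
      have h2 := spl.s_g
      dsimp only at h2
      erw [h2, Category.comp_id]
    have hLQ : LE f (cokernel (Injective.ι N)) := by
      intro m W x hx γ
      obtain ⟨V, hV, hxV, h⟩ := hLE (m + 1) W x hx (γ.comp hS.extClass rfl)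
      refine ⟨V, hV, hxV, ?_⟩
      rw [rs_comp] at h
      obtain ⟨l, hl⟩ := Ext.covariant_sequence_exact₃ _ hS _ rfl h
      have hl0 : l = 0 := Ext.eq_zero_of_injective _
      rw [hl0, Ext.zero_comp] at hl
      exact hl.symm
    have hb0 : b = 0 := ih _ hQ hLQ b
    rw [← hb, hb0, Ext.zero_comp]

end Run7.h642
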