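import Mathlib

/-!
# Splitting of Euclidean cones with the midpoint inequality
-/

namespace Run7.h642

section ip

variable {C : Type} [MetricSpace C]

/-- the inner product of two points with respect to a base point -/
noncomputable def ip (o y z : C) : ℝ := (dist o y ^ 2 + dist o z ^ 2 - dist y z ^ 2) / 2

theorem ip_comm (o y z : C) : ip o y z = ip o z y := by
  unfold ip
  rw [dist_comm y z]
  ring

theorem ip_self (o y : C) : ip o y y = dist o y ^ 2 := by
  unfold ip
  rw [dist_self]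
  ring

theorem dist_sq (o y z : C) : dist y z ^ 2 = ip o y y + ip o z z - 2 * ip o y z := by
  rw [ip_self, ip_self]
  unfold ip
  ring

theorem ip_base_left (o z : C) : ip o o z = 0 := by
  unfold ip
  rw [dist_self]
  ring

theorem ip_base_right (o z : C) : ip o z o = 0 := by
  rw [ip_comm, ip_base_left]

theorem eq_of_ip {o y y' : C} (h : ∀ z, ip o z y = ip o z y') : y = y' := by
  have h1 := dist_sq o y y'
  have h2 := h y
  have h3 := h y'
  rw [ip_comm o y' y] at h3
  have h4 : dist y y' ^ 2 = 0 := by rw [h1]; linarith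
  exact dist_eq_zero.mp (pow_eq_zero_iff two_ne_zero |>.mp h4)

end ip

/-- Euclidean cones with midpoints and nonnegative curvature -/
structure ConeSp (C : Type) [MetricSpace C] where
  /-- the apex -/
  o : C
  /-- dilations -/
  dil : ℝ → C → C
  ip_dil : ∀ s, 0 ≤ s → ∀ y z, ip o (dil s y) z = s * ip o y z
  mid : ∀ y z : C, ∃ u, dist y u = dist y z / 2 ∧ dist u z = dist y z / 2
  conc : ∀ p y z u : C, dist y u = dist y z / 2 → dist u z = dist y z / 2 →
    (dist p y ^ 2 + dist p z ^ 2) / 2 - dist y z ^ 2 / 4 ≤ dist p u ^ 2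

theorem nonpos_of_forall_mul_le {a c : ℝ} (h : ∀ s : ℝ, 0 ≤ s → s * a ≤ c) : a ≤ 0 := by
  by_contra ha
  push Not at ha
  have h1 := h ((|c| + 1) / a) (by positivity)
  rw [div_mul_cancel₀ _ ha.ne'] at h1
  have := le_abs_self c
  linarith

namespace ConeSp

variable {C : Type} [MetricSpace C] (K : ConeSp C)

theorem ip_dil_right {s : ℝ} (hs : 0 ≤ s) (y z : C) :
    ip K.o y (K.dil s z) = s * ip K.o y z := by
  rw [ip_comm, K.ip_dil s hs, ip_comm]

theorem dist_o_dil {s : ℝ} (hs : 0 ≤ s) (y : C) : dist K.o (K.dil s y) = s * dist K.o y := by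
  have h1 : dist K.o (K.dil s y) ^ 2 = (s * dist K.o y) ^ 2 := by
    rw [← ip_self, K.ip_dil s hs, K.ip_dil_right hs, ip_self]
    ring
  exact (pow_left_inj₀ dist_nonneg (by positivity) two_ne_zero).mp h1

theorem dil_zero (y : C) : K.dil 0 y = K.o := by
  apply eq_of_ip (o := K.o)
  intro z
  rw [K.ip_dil_right le_rfl, ip_base_right, zero_mul]

theorem dil_one (y : C) : K.dil 1 y = y := by
  apply eq_of_ip (o := K.o)
  intro z
  rw [K.ip_dil_right zero_le_one, one_mul]

theorem dil_dil {s t : ℝ} (hs : 0 ≤ s) (ht : 0 ≤ t) (y : C) :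
    K.dil s (K.dil t y) = K.dil (s * t) y := by
  apply eq_of_ip (o := K.o)
  intro z
  rw [K.ip_dil_right hs, K.ip_dil_right ht, K.ip_dil_right (mul_nonneg hs ht)]
  ring

theorem dil_o {s : ℝ} (hs : 0 ≤ s) : K.dil s K.o = K.o := by
  apply eq_of_ip (o := K.o)
  intro z
  rw [K.ip_dil_right hs, ip_base_right, mul_zero]

theorem dist_dil_sq {s t : ℝ} (hs : 0 ≤ s) (ht : 0 ≤ t) (y z : C) :
    dist (K.dil s y) (K.dil t z) ^ 2 =
      s ^ 2 * ip K.o y y + t ^ 2 * ip K.o z z - 2 * (s * t) * ip K.o y z := by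
  rw [dist_sq K.o, K.ip_dil s hs, K.ip_dil_right hs, K.ip_dil t ht, K.ip_dil_right ht,
    K.ip_dil s hs, K.ip_dil_right ht]
  ring

theorem dist_dil_dil {s : ℝ} (hs : 0 ≤ s) (y z : C) :
    dist (K.dil s y) (K.dil s z) = s * dist y z := by
  have h1 : dist (K.dil s y) (K.dil s z) ^ 2 = (s * dist y z) ^ 2 := by
    rw [K.dist_dil_sq hs hs, mul_pow, dist_sq K.o y z]
    ring
  exact (pow_left_inj₀ dist_nonneg (by positivity) two_ne_zero).mp h1

theorem dist_dil_same {s t : ℝ} (hs : 0 ≤ s) (ht : 0 ≤ t) (y : C) :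
    dist (K.dil s y) (K.dil t y) = |s - t| * dist K.o y := by
  have h1 : dist (K.dil s y) (K.dil t y) ^ 2 = (|s - t| * dist K.o y) ^ 2 := by
    rw [K.dist_dil_sq hs ht, mul_pow, sq_abs, ip_self]
    ring
  exact (pow_left_inj₀ dist_nonneg (by positivity) two_ne_zero).mp h1

theorem dist_dil_left_sq {s : ℝ} (hs : 0 ≤ s) (y z : C) :
    dist (K.dil s y) z ^ 2 = s ^ 2 * ip K.o y y + ip K.o z z - 2 * s * ip K.o y z := by
  rw [dist_sq K.o, K.ip_dil s hs, K.ip_dil_right hs, K.ip_dil s hs]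
  ring

/-- concavity of the inner product -/
theorem ip_mid_le {z a b u : C} (h1 : dist a u = dist a b / 2) (h2 : dist u b = dist a b / 2) :
    2 * ip K.o z u ≤ ip K.o z a + ip K.o z b := by
  have h : 2 * ip K.o z u - (ip K.o z a + ip K.o z b) ≤ 0 := by
    apply nonpos_of_forall_mul_le (c := ip K.o u u - (ip K.o a a + ip K.o b b) / 2 +
      dist a b ^ 2 / 4)
    intro s hs
    have h3 := K.conc (K.dil s z) a b u h1 h2
    rw [K.dist_dil_left_sq hs, K.dist_dil_left_sq hs, K.dist_dil_left_sq hs] at h3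
    nlinarith [h3]
  linarith

/-- the inner product is Lipschitz -/
theorem ip_lipschitz (y w w' : C) :
    ip K.o y w - ip K.o y w' ≤ dist K.o y * dist w w' := by
  have h : 2 * (ip K.o y w - ip K.o y w' - dist K.o y * dist w w') ≤ 0 := by
    apply nonpos_of_forall_mul_le (c := ip K.o w w - ip K.o w' w' +
      2 * dist w w' * dist K.o w + dist w w' ^ 2)
    intro s hs
    have hB : dist (K.dil s y) w' ≤ dist (K.dil s y) w + dist w w' := dist_triangle _ _ _
    have hA : dist (K.dil s y) w ≤ s * dist K.o y + dist K.o w := by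
      rw [← K.dist_o_dil hs, dist_comm K.o]
      exact dist_triangle _ _ _
    have h1 := K.dist_dil_left_sq hs y w
    have h2 := K.dist_dil_left_sq hs y w'
    have h3 : dist (K.dil s y) w' ^ 2 ≤ (dist (K.dil s y) w + dist w w') ^ 2 :=
      pow_le_pow_left₀ dist_nonneg hB 2
    have h4 : 2 * dist w w' * dist (K.dil s y) w ≤
        2 * dist w w' * (s * dist K.o y + dist K.o w) :=
      mul_le_mul_of_nonneg_left hA (by positivity)
    nlinarith [h1, h2, h3, h4]
  linarith

/-- opposite points -/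
def Opp (y y' : C) : Prop := dist K.o y' = dist K.o y ∧ dist y y' = 2 * dist K.o y

variable {K}

theorem Opp.symm {y y' : C} (h : K.Opp y y') : K.Opp y' y :=
  ⟨h.1.symm, by rw [dist_comm, h.2, h.1]⟩

theorem Opp.ip_neg {y y' : C} (h : K.Opp y y') (z : C) : ip K.o z y' = -ip K.o z y := by
  have h1 : 0 ≤ ip K.o z y + ip K.o z y' := by
    have := K.ip_mid_le (z := z) (a := y) (b := y') (u := K.o)
      (by rw [h.2, dist_comm]; ring) (by rw [h.2, h.1]; ring)
    rw [ip_base_right] at this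
    linarith
  have h2 : ip K.o z y + ip K.o z y' ≤ 0 := by
    apply nonpos_of_forall_mul_le (c := ip K.o z z)
    intro s hs
    have e1 : dist (K.dil s y) (K.dil s y') = 2 * (s * dist K.o y) := by
      rw [K.dist_dil_dil hs, h.2]
      ring
    have e2 : dist (K.dil s y) (K.dil s y') ≤ dist (K.dil s y) z + dist (K.dil s y') z := by
      rw [dist_comm (K.dil s y') z]
      exact dist_triangle _ _ _
    have e3 := K.dist_dil_left_sq hs y z
    have e4 := K.dist_dil_left_sq hs y' z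
    rw [ip_self K.o y, ip_comm K.o y z] at e3
    rw [ip_self K.o y', h.1, ip_comm K.o y' z] at e4
    have e5 : (2 * (s * dist K.o y)) ^ 2 ≤ (dist (K.dil s y) z + dist (K.dil s y') z) ^ 2 :=
      pow_le_pow_left₀ (by positivity) (e1 ▸ e2) 2
    nlinarith [e3, e4, e5, sq_nonneg (dist (K.dil s y) z - dist (K.dil s y') z)]
  linarith

theorem Opp.of_ip {y y' : C} (h : ∀ z, ip K.o z y' = -ip K.o z y) : K.Opp y y' := by
  have h1 : ip K.o y' y' = ip K.o y y := by
    rw [h y', ip_comm, h y, neg_neg]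
  have h2 : dist K.o y' = dist K.o y := by
    rw [ip_self, ip_self] at h1
    exact (pow_left_inj₀ dist_nonneg dist_nonneg two_ne_zero).mp h1
  refine ⟨h2, ?_⟩
  have h3 : dist y y' ^ 2 = (2 * dist K.o y) ^ 2 := by
    rw [dist_sq K.o, h1, h y, ip_self]
    ring
  exact (pow_left_inj₀ dist_nonneg (by positivity) two_ne_zero).mp h3

theorem Opp.step {v v' : C} (h : K.Opp v v') (w : C) : ∃ w1, (∀ z, ip K.o z w1 ≤
    ip K.o z w + ip K.o z v) ∧ ip K.o v w1 = ip K.o v w + ip K.o v v ∧
      dist w w1 = dist K.o v := by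
  obtain ⟨u, hu1, hu2⟩ := K.mid w v
  have i1 : ∀ z, ip K.o z (K.dil 2 u) ≤ ip K.o z w + ip K.o z v := by
    intro z
    rw [K.ip_dil_right zero_le_two]
    exact K.ip_mid_le hu1 hu2
  have i2 : ip K.o v (K.dil 2 u) = ip K.o v w + ip K.o v v := by
    apply le_antisymm (i1 v)
    have h1 := i1 v'
    rw [ip_comm K.o v' (K.dil 2 u), ip_comm K.o v' w, ip_comm K.o v' v, h.ip_neg, h.ip_neg,
      h.ip_neg, ip_comm K.o w v, ip_comm K.o (K.dil 2 u) v] at h1
    linarith
  refine ⟨K.dil 2 u, i1, i2, ?_⟩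
  have e1 : dist w u ^ 2 = dist w v ^ 2 / 4 := by rw [hu1]; ring
  have e2 : dist u v ^ 2 = dist w v ^ 2 / 4 := by rw [hu2]; ring
  rw [dist_sq K.o] at e1 e2
  rw [dist_sq K.o w v] at e1 e2
  rw [K.ip_dil_right zero_le_two] at i2
  have e3 : dist w (K.dil 2 u) ^ 2 = dist K.o v ^ 2 := by
    rw [dist_comm, K.dist_dil_left_sq zero_le_two, ← ip_self]
    rw [ip_comm K.o u w]
    rw [ip_comm K.o u v] at e2
    rw [ip_comm K.o w v] at e1 e2
    linarith
  exact (pow_left_inj₀ dist_nonneg dist_nonneg two_ne_zero).mp e3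

/-- translations along lines through the apex -/
theorem Opp.exists_add {v v' : C} (h : K.Opp v v') (w : C) :
    ∃ w1, ∀ z, ip K.o z w1 = ip K.o z w + ip K.o z v := by
  rcases eq_or_ne v K.o with rfl | hv
  · exact ⟨w, fun z => by rw [ip_base_right, add_zero]⟩
  have hv0 : 0 < dist K.o v := dist_pos.mpr (Ne.symm hv)
  obtain ⟨w1, a1, a2, a3⟩ := h.step w
  obtain ⟨q, b1, b2, b3⟩ := h.step w1
  obtain ⟨w2, c1, c2, c3⟩ := h.symm.step w1
  have c2' : ip K.o v w2 = ip K.o v w := by
    rw [ip_comm K.o v' w2, ip_comm K.o v' w1, h.ip_neg, h.ip_neg, ip_self, h.1,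
      ip_comm K.o w2 v, ip_comm K.o w1 v, a2, ip_self] at c2
    linarith
  have key : ∀ p : C, ip K.o v p = ip K.o v w → dist w1 p = dist K.o v →
      dist q p = 2 * dist K.o v := by
    intro p hp hp1
    apply le_antisymm
    · calc dist q p ≤ dist q w1 + dist w1 p := dist_triangle _ _ _
        _ = 2 * dist K.o v := by rw [dist_comm q w1, b3, hp1]; ring
    · have h1 := K.ip_lipschitz v q p
      rw [b2, a2, hp, ip_self] at h1
      have h2 : dist K.o v * (2 * dist K.o v) ≤ dist K.o v * dist q p := by nlinarith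
      exact le_of_mul_le_mul_left h2 hv0
  have d1 := key w rfl (by rw [dist_comm, a3])
  have c3' : dist w1 w2 = dist K.o v := by rw [c3, h.1]
  have d2 := key w2 c2' c3'
  have d3 := K.conc w2 q w w1 (by rw [d1, dist_comm, b3]; ring)
    (by rw [d1, dist_comm, a3]; ring)
  rw [dist_comm w2 q, d2, d1, dist_comm w2 w1, c3'] at d3
  have d4 : dist w2 w = 0 := by
    have : dist w2 w ^ 2 ≤ 0 := by nlinarith
    nlinarith [sq_nonneg (dist w2 w), dist_nonneg (x := w2) (y := w)]
  have d5 : w2 = w := dist_eq_zero.mp d4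
  refine ⟨w1, fun z => le_antisymm (a1 z) ?_⟩
  have e1 := c1 z
  rw [d5, h.ip_neg] at e1
  linarith

end ConeSp

end Run7.h642
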