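import Pool.Agent.Run7.h642.Split

/-!
# The Euclidean factor of a cone
-/

open Metric Topology

namespace Run7.h642

namespace ConeSp

variable {C : Type} [MetricSpace C] (K : ConeSp C)

/-- the points with an opposite point -/
def V : Set C := {v | ∃ v', K.Opp v v'}

/-- the functions given by inner products with points having an opposite -/
def W : Submodule ℝ (C → ℝ) where
  carrier := {f | ∃ v ∈ K.V, ∀ z, f z = ip K.o z v}
  add_mem' := by
    rintro f g ⟨v, ⟨v', hv⟩, hf⟩ ⟨w, ⟨w', hw⟩, hg⟩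
    obtain ⟨a, ha⟩ := hv.exists_add w
    obtain ⟨b, hb⟩ := hv.symm.exists_add w'
    refine ⟨a, ⟨b, Opp.of_ip fun z => ?_⟩, fun z => ?_⟩
    · rw [hb, ha, hv.ip_neg, hw.ip_neg]
      ring
    · rw [Pi.add_apply, hf, hg, ha]
      ring
  zero_mem' := ⟨K.o, ⟨K.o, by rw [Opp, dist_self]; simp⟩, fun z => by
    rw [ip_base_right]; rfl⟩
  smul_mem' := by
    rintro c f ⟨v, ⟨v', hv⟩, hf⟩
    rcases le_total 0 c with hc | hc
    · refine ⟨K.dil c v, ⟨K.dil c v', Opp.of_ip fun z => ?_⟩, fun z => ?_⟩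
      · rw [K.ip_dil_right hc, K.ip_dil_right hc, hv.ip_neg]
        ring
      · rw [Pi.smul_apply, hf, K.ip_dil_right hc, smul_eq_mul]
    · have hc' : 0 ≤ -c := by linarith
      refine ⟨K.dil (-c) v', ⟨K.dil (-c) v, Opp.of_ip fun z => ?_⟩, fun z => ?_⟩
      · rw [K.ip_dil_right hc', K.ip_dil_right hc', hv.ip_neg]
        ring
      · rw [Pi.smul_apply, hf, K.ip_dil_right hc', smul_eq_mul, hv.ip_neg]
        ring

/-- the Euclidean factor, as a vector space -/
def WS : Type := K.W

noncomputable instance : AddCommGroup K.WS := inferInstanceAs (AddCommGroup K.W)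

noncomputable instance : Module ℝ K.WS := inferInstanceAs (Module ℝ K.W)

variable {K}

/-- evaluation -/
def ev (g : K.WS) (z : C) : ℝ := (show K.W from g).1 z

theorem ev_add (g h : K.WS) (z : C) : ev (g + h) z = ev g z + ev h z := rfl

theorem ev_smul (c : ℝ) (g : K.WS) (z : C) : ev (c • g) z = c * ev g z := rfl

theorem ev_zero (z : C) : ev (0 : K.WS) z = 0 := rfl

theorem ev_neg (g : K.WS) (z : C) : ev (-g) z = -ev g z := rfl

theorem ev_sub (g h : K.WS) (z : C) : ev (g - h) z = ev g z - ev h z := rfl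

theorem ev_ext {g h : K.WS} (H : ∀ z, ev g z = ev h z) : g = h :=
  Subtype.ext (funext H)

/-- the point corresponding to a vector -/
noncomputable def toV (g : K.WS) : C := (show K.W from g).2.choose

theorem toV_mem (g : K.WS) : toV g ∈ K.V := (show K.W from g).2.choose_spec.1

theorem ev_eq (g : K.WS) (z : C) : ev g z = ip K.o z (toV g) :=
  (show K.W from g).2.choose_spec.2 z

theorem exists_toV {v : C} (hv : v ∈ K.V) : ∃ g : K.WS, toV g = v := by
  let g : K.WS := (⟨fun z => ip K.o z v, v, hv, fun z => rfl⟩ : K.W)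
  refine ⟨g, ?_⟩
  apply eq_of_ip (o := K.o)
  intro z
  rw [← ev_eq]
  rfl

theorem exists_tr (g : K.WS) (z : C) : ∃ w : C, ∀ y, ip K.o y w = ip K.o y z + ev g y := by
  obtain ⟨v', hv⟩ := toV_mem g
  obtain ⟨w, hw⟩ := hv.exists_add z
  exact ⟨w, fun y => by rw [hw, ev_eq]⟩

/-- translations -/
noncomputable def tr (g : K.WS) (z : C) : C := (exists_tr g z).choose

theorem ip_tr_right (g : K.WS) (y z : C) : ip K.o y (tr g z) = ip K.o y z + ev g y :=
  (exists_tr g z).choose_spec y

theorem ip_tr_left (g : K.WS) (y z : C) : ip K.o (tr g y) z = ip K.o y z + ev g z := by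
  rw [ip_comm, ip_tr_right, ip_comm]

variable (K) in
/-- the inner product structure -/
@[instance_reducible]
noncomputable def coreW : InnerProductSpace.Core ℝ K.WS where
  inner g h := ev g (toV h)
  conj_inner_symm g h := by
    change ev h (toV g) = ev g (toV h)
    rw [ev_eq, ev_eq, ip_comm]
  re_inner_nonneg g := by
    change 0 ≤ ev g (toV g)
    rw [ev_eq, ip_self]
    positivity
  add_left g h l := rfl
  smul_left g h c := rfl
  definite g hg := by
    apply ev_ext
    intro z
    have h1 : ev g (toV g) = 0 := hg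
    rw [ev_eq, ip_self] at h1
    have h2 : K.o = toV g := dist_eq_zero.mp (pow_eq_zero_iff two_ne_zero |>.mp h1)
    rw [ev_eq, ← h2, ip_base_right, ev_zero]

noncomputable instance : NormedAddCommGroup K.WS := K.coreW.toNormedAddCommGroup

noncomputable instance : InnerProductSpace ℝ K.WS := InnerProductSpace.ofCore K.coreW.toCore

theorem inner_eq (g h : K.WS) : inner ℝ g h = ev g (toV h) := rfl

theorem ip_toV (g h : K.WS) : ip K.o (toV g) (toV h) = inner ℝ g h := by
  rw [inner_eq, ev_eq, ip_comm]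

theorem norm_sq_eq (g : K.WS) : ‖g‖ ^ 2 = dist K.o (toV g) ^ 2 := by
  rw [← real_inner_self_eq_norm_sq, ← ip_toV, ip_self]

theorem norm_eq (g : K.WS) : ‖g‖ = dist K.o (toV g) :=
  (pow_left_inj₀ (norm_nonneg _) dist_nonneg two_ne_zero).mp (norm_sq_eq g)

theorem isometry_toV : Isometry (toV : K.WS → C) := by
  apply Isometry.of_dist_eq
  intro g h
  have h1 : dist (toV g) (toV h) ^ 2 = dist g h ^ 2 := by
    rw [dist_sq K.o, ip_toV, ip_toV, ip_toV, dist_eq_norm, norm_sub_sq_real,
      real_inner_self_eq_norm_sq, real_inner_self_eq_norm_sq]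
    ring
  exact (pow_left_inj₀ dist_nonneg dist_nonneg two_ne_zero).mp h1

theorem range_toV : Set.range (toV : K.WS → C) = K.V := by
  ext v
  constructor
  · rintro ⟨g, rfl⟩
    exact toV_mem g
  · exact exists_toV

theorem isClosed_V [ProperSpace C] : IsClosed K.V := by
  rw [← isSeqClosed_iff_isClosed]
  intro x v hx hv
  choose x' hx' using hx
  have hb : Filter.Tendsto (fun n => dist K.o (x n)) Filter.atTop (𝓝 (dist K.o v)) :=
    tendsto_const_nhds.dist hv
  obtain ⟨R, hR⟩ := hb.bddAbove_range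
  have h1 : ∀ n, x' n ∈ closedBall K.o R := fun n => by
    rw [mem_closedBall, dist_comm, (hx' n).1]
    exact hR ⟨n, rfl⟩
  obtain ⟨v', -, φ, hφ, hlim⟩ := (isCompact_closedBall K.o R).tendsto_subseq h1
  have hv2 := hv.comp hφ.tendsto_atTop
  refine ⟨v', ?_, ?_⟩
  · have a1 : Filter.Tendsto (fun n => dist K.o (x' (φ n))) Filter.atTop (𝓝 (dist K.o v')) :=
      tendsto_const_nhds.dist hlim
    have a2 : Filter.Tendsto (fun n => dist K.o (x (φ n))) Filter.atTop (𝓝 (dist K.o v)) :=
      tendsto_const_nhds.dist hv2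
    have a3 : (fun n => dist K.o (x' (φ n))) = fun n => dist K.o (x (φ n)) :=
      funext fun n => (hx' (φ n)).1
    rw [a3] at a1
    exact tendsto_nhds_unique a1 a2
  · have a1 : Filter.Tendsto (fun n => dist (x (φ n)) (x' (φ n))) Filter.atTop
        (𝓝 (dist v v')) := hv2.dist hlim
    have a2 : Filter.Tendsto (fun n => 2 * dist K.o (x (φ n))) Filter.atTop
        (𝓝 (2 * dist K.o v)) := (tendsto_const_nhds.dist hv2).const_mul 2
    have a3 : (fun n => dist (x (φ n)) (x' (φ n))) = fun n => 2 * dist K.o (x (φ n)) :=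
      funext fun n => (hx' (φ n)).2
    rw [a3] at a1
    exact tendsto_nhds_unique a1 a2

instance [ProperSpace C] : FiniteDimensional ℝ K.WS := by
  apply FiniteDimensional.of_isCompact_closedBall₀ ℝ (r := 1) one_pos
  have h1 : IsClosedEmbedding (toV : K.WS → C) :=
    ⟨isometry_toV.isEmbedding, by rw [range_toV]; exact isClosed_V⟩
  have h2 := h1.isCompact_preimage (isCompact_closedBall K.o 1)
  have h3 : closedBall (0 : K.WS) 1 = toV ⁻¹' closedBall K.o 1 := by
    ext g
    rw [mem_closedBall_zero_iff, Set.mem_preimage, mem_closedBall, dist_comm, norm_eq]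
  rw [h3]
  exact h2

/-! ### translations -/

theorem dist_tr_tr_sq (g h : K.WS) (z w : C) : dist (tr g z) (tr h w) ^ 2 =
    dist z w ^ 2 + ‖g - h‖ ^ 2 + 2 * ev (g - h) z - 2 * ev (g - h) w := by
  have e : ∀ a b : K.WS, ∀ y : C, ev a (tr b y) = ev a y + inner ℝ a b := by
    intro a b y
    rw [ev_eq, ip_tr_left, ← ev_eq, inner_eq, ← inner_eq, ← inner_eq, real_inner_comm]
  rw [dist_sq K.o, dist_sq K.o z w, ip_tr_right, ip_tr_left, ip_tr_right, ip_tr_left,
    ip_tr_right, ip_tr_left, e, e, e, norm_sub_sq_real, real_inner_self_eq_norm_sq,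
    real_inner_self_eq_norm_sq, ev_sub, ev_sub, real_inner_comm]
  ring

theorem dist_tr_tr (g : K.WS) (z w : C) : dist (tr g z) (tr g w) = dist z w := by
  have h1 := dist_tr_tr_sq g g z w
  rw [sub_self, norm_zero, ev_zero, ev_zero] at h1
  have h2 : dist (tr g z) (tr g w) ^ 2 = dist z w ^ 2 := by rw [h1]; ring
  exact (pow_left_inj₀ dist_nonneg dist_nonneg two_ne_zero).mp h2

theorem tr_zero (z : C) : tr (0 : K.WS) z = z := by
  apply eq_of_ip (o := K.o)
  intro y
  rw [ip_tr_right, ev_zero, add_zero]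

theorem tr_tr (g h : K.WS) (z : C) : tr g (tr h z) = tr (g + h) z := by
  apply eq_of_ip (o := K.o)
  intro y
  rw [ip_tr_right, ip_tr_right, ip_tr_right, ev_add]
  ring

theorem tr_o (g : K.WS) : tr g K.o = toV g := by
  apply eq_of_ip (o := K.o)
  intro y
  rw [ip_tr_right, ip_base_right, zero_add, ev_eq]

theorem dil_tr {s : ℝ} (hs : 0 ≤ s) (g : K.WS) (z : C) :
    K.dil s (tr g z) = tr (s • g) (K.dil s z) := by
  apply eq_of_ip (o := K.o)
  intro y
  rw [K.ip_dil_right hs, ip_tr_right, ip_tr_right, K.ip_dil_right hs, ev_smul]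
  ring

theorem ev_tr (g h : K.WS) (z : C) : ev g (tr h z) = ev g z + inner ℝ g h := by
  rw [ev_eq, ip_tr_left, ← ev_eq, inner_eq, ← inner_eq, ← inner_eq, real_inner_comm]

theorem ev_dil {s : ℝ} (hs : 0 ≤ s) (g : K.WS) (z : C) : ev g (K.dil s z) = s * ev g z := by
  rw [ev_eq, K.ip_dil s hs, ev_eq]

theorem ev_o (g : K.WS) : ev g K.o = 0 := by
  rw [ev_eq, ip_base_left]

/-! ### the orthogonal complement -/

variable (K) in
/-- the points orthogonal to the Euclidean factor -/
def C0 : Set C := {z | ∀ g : K.WS, ev g z = 0}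

theorem exists_proj [ProperSpace C] (z : C) : ∃ h : K.WS, ∀ g : K.WS, inner ℝ h g = ev g z := by
  have : CompleteSpace K.WS := FiniteDimensional.complete ℝ K.WS
  let l : K.WS →ₗ[ℝ] ℝ :=
    { toFun := fun g => ev g z
      map_add' := fun g h => rfl
      map_smul' := fun c g => rfl }
  refine ⟨(InnerProductSpace.toDual ℝ K.WS).symm (LinearMap.toContinuousLinearMap l),
    fun g => ?_⟩
  rw [InnerProductSpace.toDual_symm_apply]
  rfl

/-- the projection to the Euclidean factor -/
noncomputable def proj [ProperSpace C] (z : C) : K.WS := (exists_proj z).choose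

theorem inner_proj [ProperSpace C] (z : C) (g : K.WS) : inner ℝ (proj z) g = ev g z :=
  (exists_proj z).choose_spec g

theorem proj_eq [ProperSpace C] {z : C} {h : K.WS} (H : ∀ g : K.WS, inner ℝ h g = ev g z) :
    proj z = h := by
  apply ext_inner_right ℝ
  intro g
  rw [inner_proj, H]

theorem tr_neg_proj_mem [ProperSpace C] (z : C) : tr (-proj (K := K) z) z ∈ K.C0 := by
  intro g
  rw [ev_tr, inner_neg_right, real_inner_comm, inner_proj]
  ring

theorem proj_tr [ProperSpace C] (g : K.WS) {z : C} (hz : z ∈ K.C0) : proj (tr g z) = g := by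
  apply proj_eq
  intro h
  rw [ev_tr, hz h, zero_add, real_inner_comm]

theorem dist_C0_sq (g h : K.WS) {z w : C} (hz : z ∈ K.C0) (hw : w ∈ K.C0) :
    dist (tr g z) (tr h w) ^ 2 = dist z w ^ 2 + ‖g - h‖ ^ 2 := by
  rw [dist_tr_tr_sq, hz, hw]
  ring

theorem dil_mem_C0 {s : ℝ} (hs : 0 ≤ s) {z : C} (hz : z ∈ K.C0) : K.dil s z ∈ K.C0 := by
  intro g
  rw [ev_dil hs, hz g, mul_zero]

theorem o_mem_C0 : K.o ∈ K.C0 := fun g => ev_o g

theorem isClosed_C0 : IsClosed K.C0 := by
  have h1 : K.C0 = ⋂ g : K.WS, {z | ev g z = 0} := by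
    ext z
    simp [C0]
  rw [h1]
  apply isClosed_iInter
  intro g
  apply isClosed_eq _ continuous_const
  have : ev g = fun z => ip K.o z (toV g) := funext fun z => ev_eq g z
  rw [this]
  unfold ip
  fun_prop

end ConeSp

end Run7.h642
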