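import Pool.Agent.Run7.h642.Split2
import Pool.Agent.Run7.h642.Cone

/-!
# The product chart of a cone
-/

open Metric Topology Filter

namespace Run7.h642

open OCone

theorem isCompact_rad_le {L : Type} [TopologicalSpace L] [CompactSpace L] (R : ℝ) :
    IsCompact {w : OCone L | rad w ≤ R} := by
  intro F hF hFR
  by_cases h : ClusterPt apex F
  · rcases le_or_gt 0 R with hR | hR
    · exact ⟨apex, by rw [Set.mem_ofPred_eq, rad_apex]; exact hR, h⟩
    · exfalso
      have : {w : OCone L | rad w ≤ R} = ∅ := by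
        ext w
        simp only [Set.mem_ofPred_eq, Set.mem_empty_iff_false, iff_false, not_le]
        exact hR.trans_le (rad_nonneg w)
      rw [this, principal_empty, le_bot_iff] at hFR
      exact hF.ne hFR
  · rw [clusterPt_iff_nonempty] at h
    push Not at h
    obtain ⟨U, hU, V, hV, hUV⟩ := h
    obtain ⟨U', hU'U, hU', hmem⟩ := mem_nhds_iff.mp hU
    obtain ⟨ε, hε, h1⟩ := hU'.2 hmem
    have hc : IsCompact (pt '' {z : L × Set.Ioi (0 : ℝ) | ε ≤ z.2.1 ∧ z.2.1 ≤ R}) := by
      apply IsCompact.image _ continuous_pt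
      have e2 : IsCompact {t : Set.Ioi (0 : ℝ) | ε ≤ t.1 ∧ t.1 ≤ R} := by
        rw [Subtype.isCompact_iff]
        have : Subtype.val '' {t : Set.Ioi (0 : ℝ) | ε ≤ t.1 ∧ t.1 ≤ R} = Set.Icc ε R := by
          ext t
          constructor
          · rintro ⟨a, ha, rfl⟩
            exact ha
          · intro ht
            exact ⟨⟨t, hε.trans_le ht.1⟩, ht, rfl⟩
        rw [this]
        exact isCompact_Icc
      have e3 := (isCompact_univ (X := L)).prod e2
      convert e3 using 1
      ext z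
      simp
    have hFc : F ≤ 𝓟 (pt '' {z : L × Set.Ioi (0 : ℝ) | ε ≤ z.2.1 ∧ z.2.1 ≤ R}) := by
      rw [le_principal_iff]
      have h2 : {w : OCone L | rad w ≤ R} ∈ F := le_principal_iff.mp hFR
      filter_upwards [h2, hV] with w hw hwV
      rcases eq_apex_or w with rfl | ⟨z, rfl⟩
      · exfalso
        have : apex ∈ U ∩ V := ⟨hU'U hmem, hwV⟩
        rw [hUV] at this
        exact this
      · refine ⟨z, ⟨?_, hw⟩, rfl⟩
        by_contra hlt
        push Not at hlt
        have : pt z ∈ U ∩ V := ⟨hU'U (h1 z hlt), hwV⟩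
        rw [hUV] at this
        exact this
    obtain ⟨w, ⟨z, hz, rfl⟩, hw⟩ := hc hFc
    exact ⟨_, hz.2, hw⟩

namespace ConeSp

variable {C : Type} [MetricSpace C] {K : ConeSp C}

theorem continuous_dil {A : Type*} [TopologicalSpace A] {s : A → ℝ} {z : A → C}
    (hs : Continuous s) (hs0 : ∀ a, 0 ≤ s a) (hz : Continuous z) :
    Continuous fun a => K.dil (s a) (z a) := by
  rw [continuous_iff_continuousAt]
  intro a
  rw [ContinuousAt, tendsto_iff_dist_tendsto_zero]
  have h1 : Tendsto (fun b => s b * dist (z b) (z a) + |s b - s a| * dist K.o (z a)) (𝓝 a)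
      (𝓝 0) := by
    have : Continuous fun b => s b * dist (z b) (z a) + |s b - s a| * dist K.o (z a) := by
      fun_prop
    have h2 := this.tendsto a
    simpa using h2
  apply squeeze_zero (fun _ => dist_nonneg) _ h1
  intro b
  calc dist (K.dil (s b) (z b)) (K.dil (s a) (z a)) ≤
        dist (K.dil (s b) (z b)) (K.dil (s b) (z a)) +
          dist (K.dil (s b) (z a)) (K.dil (s a) (z a)) := dist_triangle _ _ _
    _ = _ := by rw [K.dist_dil_dil (hs0 b), K.dist_dil_same (hs0 b) (hs0 a)]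

theorem continuous_tr : Continuous fun p : K.WS × C => tr p.1 p.2 := by
  rw [continuous_iff_continuousAt]
  rintro ⟨g, z⟩
  rw [ContinuousAt, tendsto_iff_dist_tendsto_zero]
  have h1 : Tendsto (fun p : K.WS × C => dist p.2 z + ‖p.1 - g‖) (𝓝 (g, z)) (𝓝 0) := by
    have : Continuous fun p : K.WS × C => dist p.2 z + ‖p.1 - g‖ := by fun_prop
    have h2 := this.tendsto (g, z)
    simpa using h2
  apply squeeze_zero (fun _ => dist_nonneg) _ h1
  rintro ⟨h, w⟩
  have h2 : dist (tr h z) (tr g z) = ‖h - g‖ := by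
    have h3 := dist_tr_tr_sq h g z z
    rw [dist_self] at h3
    have h4 : dist (tr h z) (tr g z) ^ 2 = ‖h - g‖ ^ 2 := by rw [h3]; ring
    exact (pow_left_inj₀ dist_nonneg (norm_nonneg _) two_ne_zero).mp h4
  calc dist (tr h w) (tr g z) ≤ dist (tr h w) (tr h z) + dist (tr h z) (tr g z) :=
        dist_triangle _ _ _
    _ = dist w z + ‖h - g‖ := by rw [dist_tr_tr, h2]

variable (K) in
/-- the link of the orthogonal complement -/
def Lk : Type := {z : C // z ∈ K.C0 ∧ dist K.o z = 1}

instance : TopologicalSpace K.Lk := inferInstanceAs (TopologicalSpace {z : C // _})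

theorem continuous_lk : Continuous fun l : K.Lk => l.1 := continuous_subtype_val

instance [ProperSpace C] : CompactSpace K.Lk := by
  have h1 : IsCompact {z : C | z ∈ K.C0 ∧ dist K.o z = 1} := by
    apply (isCompact_closedBall K.o 1).of_isClosed_subset
    · exact isClosed_C0.inter (isClosed_eq (by fun_prop) continuous_const)
    · intro z hz
      rw [mem_closedBall, dist_comm, hz.2]
  exact isCompact_iff_compactSpace.mp h1

/-- points of the orthogonal complement in polar coordinates -/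
def cpt : OCone K.Lk → C
  | none => K.o
  | some z => K.dil z.2.1 z.1.1

theorem cpt_apex : cpt (apex : OCone K.Lk) = K.o := rfl

theorem cpt_pt (z : K.Lk × Set.Ioi (0 : ℝ)) : cpt (pt z) = K.dil z.2.1 z.1.1 := rfl

theorem dist_cpt (w : OCone K.Lk) : dist K.o (cpt w) = rad w := by
  rcases eq_apex_or w with rfl | ⟨z, rfl⟩
  · rw [cpt_apex, dist_self, rad_apex]
  · rw [cpt_pt, K.dist_o_dil (le_of_lt z.2.2), z.1.2.2, mul_one, rad_pt]

theorem cpt_mem (w : OCone K.Lk) : cpt w ∈ K.C0 := by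
  rcases eq_apex_or w with rfl | ⟨z, rfl⟩
  · exact o_mem_C0
  · exact dil_mem_C0 (le_of_lt z.2.2) z.1.2.1

theorem continuous_cpt : Continuous (cpt : OCone K.Lk → C) := by
  rw [continuous_iff_continuousAt]
  intro w
  rcases eq_apex_or w with rfl | ⟨z, rfl⟩
  · rw [ContinuousAt, cpt_apex, tendsto_iff_dist_tendsto_zero]
    have h1 := continuous_rad.tendsto (apex : OCone K.Lk)
    rw [rad_apex] at h1
    refine h1.congr fun w => ?_
    rw [dist_comm, dist_cpt]
  · have h2 : ContinuousAt (cpt ∘ pt) z := by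
      apply Continuous.continuousAt
      exact continuous_dil (K := K) (continuous_subtype_val.comp continuous_snd)
        (fun a => le_of_lt a.2.2) (continuous_lk.comp continuous_fst)
    exact (isOpenEmbedding_pt.continuousAt_iff).mp h2

theorem cpt_injective : Function.Injective (cpt : OCone K.Lk → C) := by
  intro w w' h
  have h0 : rad w = rad w' := by rw [← dist_cpt, ← dist_cpt, h]
  rcases eq_apex_or w with rfl | ⟨z, rfl⟩
  · rcases eq_apex_or w' with rfl | ⟨z', rfl⟩
    · rfl
    · rw [rad_apex, rad_pt] at h0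
      exact absurd z'.2.2 (by rw [← h0]; simp)
  · rcases eq_apex_or w' with rfl | ⟨z', rfl⟩
    · rw [rad_apex, rad_pt] at h0
      exact absurd z.2.2 (by rw [h0]; simp)
    · rw [rad_pt, rad_pt] at h0
      rw [cpt_pt, cpt_pt, ← h0] at h
      have ht : (0 : ℝ) < z.2.1 := z.2.2
      have h1 := congrArg (K.dil (z.2.1)⁻¹) h
      rw [K.dil_dil (by positivity) ht.le, K.dil_dil (by positivity) ht.le,
        inv_mul_cancel₀ ht.ne', K.dil_one, K.dil_one] at h1
      congr 1
      exact Prod.ext (Subtype.ext h1) (Subtype.ext h0)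

theorem cpt_surj {z : C} (hz : z ∈ K.C0) : ∃ w : OCone K.Lk, cpt w = z := by
  rcases eq_or_ne z K.o with rfl | h
  · exact ⟨apex, rfl⟩
  · have h0 : 0 < dist K.o z := dist_pos.mpr (Ne.symm h)
    refine ⟨pt (⟨K.dil (dist K.o z)⁻¹ z, dil_mem_C0 (by positivity) hz, ?_⟩, ⟨dist K.o z, h0⟩), ?_⟩
    · rw [K.dist_o_dil (by positivity), inv_mul_cancel₀ h0.ne']
    · rw [cpt_pt]
      dsimp only
      rw [K.dil_dil h0.le (by positivity), mul_inv_cancel₀ h0.ne', K.dil_one]

/-- product coordinates -/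
noncomputable def psi (p : K.WS × OCone K.Lk) : C := tr p.1 (cpt p.2)

theorem continuous_psi : Continuous (psi : K.WS × OCone K.Lk → C) :=
  continuous_tr.comp (continuous_fst.prodMk (continuous_cpt.comp continuous_snd))

theorem psi_sq (p q : K.WS × OCone K.Lk) :
    dist (psi p) (psi q) ^ 2 = dist (cpt p.2) (cpt q.2) ^ 2 + ‖p.1 - q.1‖ ^ 2 :=
  dist_C0_sq _ _ (cpt_mem _) (cpt_mem _)

theorem psi_bijective [ProperSpace C] : Function.Bijective (psi : K.WS × OCone K.Lk → C) := by
  constructor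
  · rintro ⟨g, w⟩ ⟨h, w'⟩ e
    have h1 := psi_sq (⟨g, w⟩ : K.WS × OCone K.Lk) ⟨h, w'⟩
    rw [e, dist_self] at h1
    dsimp only at h1
    have h2 : dist (cpt w) (cpt w') ^ 2 = 0 := by
      nlinarith [sq_nonneg (dist (cpt w) (cpt w')), sq_nonneg ‖g - h‖]
    have h3 : ‖g - h‖ ^ 2 = 0 := by
      nlinarith [sq_nonneg (dist (cpt w) (cpt w')), sq_nonneg ‖g - h‖]
    have h4 := dist_eq_zero.mp (pow_eq_zero_iff two_ne_zero |>.mp h2)
    have h5 := sub_eq_zero.mp (norm_eq_zero.mp (pow_eq_zero_iff two_ne_zero |>.mp h3))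
    rw [h5, cpt_injective h4]
  · intro z
    obtain ⟨w, hw⟩ := cpt_surj (tr_neg_proj_mem (K := K) z)
    refine ⟨(proj z, w), ?_⟩
    change tr (proj z) (cpt w) = z
    rw [hw, tr_tr, add_neg_cancel, tr_zero]

theorem psi_isHomeomorph [ProperSpace C] : IsHomeomorph (psi : K.WS × OCone K.Lk → C) := by
  rw [isHomeomorph_iff_continuous_isClosedMap_bijective]
  refine ⟨continuous_psi, ?_, psi_bijective⟩
  have : ProperSpace K.WS := FiniteDimensional.proper ℝ K.WS
  apply IsProperMap.isClosedMap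
  rw [isProperMap_iff_isCompact_preimage]
  refine ⟨continuous_psi, fun A hA => ?_⟩
  obtain ⟨R, hR⟩ := hA.isBounded.subset_closedBall K.o
  have hc : IsCompact (closedBall (0 : K.WS) R ×ˢ {w : OCone K.Lk | rad w ≤ R}) :=
    (isCompact_closedBall _ _).prod (isCompact_rad_le R)
  apply hc.of_isClosed_subset (hA.isClosed.preimage continuous_psi)
  rintro ⟨g, w⟩ h
  have h1 : dist (psi (g, w)) K.o ≤ R := hR h
  have hR0 : 0 ≤ R := dist_nonneg.trans h1
  have h2 := psi_sq (g, w) ((0 : K.WS), (apex : OCone K.Lk))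
  have h3 : psi ((0 : K.WS), (apex : OCone K.Lk)) = K.o := by
    change tr (0 : K.WS) K.o = K.o
    rw [tr_zero]
  rw [h3] at h2
  dsimp only at h2
  rw [cpt_apex, sub_zero, dist_comm (cpt w), dist_cpt] at h2
  have h4 : dist (psi (g, w)) K.o ^ 2 ≤ R ^ 2 := pow_le_pow_left₀ dist_nonneg h1 2
  constructor
  · rw [mem_closedBall_zero_iff]
    exact abs_le_of_sq_le_sq' (by nlinarith [sq_nonneg (rad w)]) hR0 |>.2
  · exact abs_le_of_sq_le_sq' (by nlinarith [sq_nonneg ‖g‖]) hR0 |>.2

/-! ### radial compression -/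

/-- radial compression of the cone to the ball of radius `ρ` -/
noncomputable def cmp (K : ConeSp C) (ρ : ℝ) (z : C) : C := K.dil (ρ / (1 + dist K.o z)) z

theorem dist_cmp {ρ : ℝ} (hρ : 0 < ρ) (z : C) :
    dist K.o (K.cmp ρ z) = ρ * dist K.o z / (1 + dist K.o z) := by
  have h0 : 0 ≤ dist K.o z := dist_nonneg
  rw [cmp, K.dist_o_dil (by positivity)]
  ring

theorem dist_cmp_lt {ρ : ℝ} (hρ : 0 < ρ) (z : C) : dist K.o (K.cmp ρ z) < ρ := by
  have h0 : 0 ≤ dist K.o z := dist_nonneg
  rw [dist_cmp hρ, div_lt_iff₀ (by positivity)]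
  nlinarith

theorem continuous_cmp {ρ : ℝ} (hρ : 0 < ρ) : Continuous (K.cmp ρ) := by
  apply continuous_dil _ _ continuous_id
  · apply Continuous.div continuous_const (by fun_prop)
    intro z
    have h0 : 0 ≤ dist K.o z := dist_nonneg
    positivity
  · intro z
    positivity

theorem cmp_mem {ρ : ℝ} (hρ : 0 < ρ) (z : C) : K.cmp ρ z ∈ ball K.o ρ := by
  rw [mem_ball, dist_comm]
  exact dist_cmp_lt hρ z

theorem cmp_left {ρ : ℝ} (hρ : 0 < ρ) (z : C) :
    K.dil (ρ - dist K.o (K.cmp ρ z))⁻¹ (K.cmp ρ z) = z := by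
  have h0 : 0 ≤ dist K.o z := dist_nonneg
  rw [dist_cmp hρ, cmp]
  have e1 : ρ - ρ * dist K.o z / (1 + dist K.o z) = ρ / (1 + dist K.o z) := by
    field_simp
    ring
  rw [e1, K.dil_dil (by positivity) (by positivity), inv_mul_cancel₀ (by positivity), K.dil_one]

theorem cmp_right {ρ : ℝ} (hρ : 0 < ρ) {w : C} (hw : dist K.o w < ρ) :
    K.cmp ρ (K.dil (ρ - dist K.o w)⁻¹ w) = w := by
  have h1 : 0 < ρ - dist K.o w := by linarith
  have h0 : 0 ≤ dist K.o w := dist_nonneg
  rw [cmp, K.dist_o_dil (by positivity), K.dil_dil (by positivity) (by positivity)]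
  have h2 : 1 + (ρ - dist K.o w)⁻¹ * dist K.o w = ρ * (ρ - dist K.o w)⁻¹ := by
    field_simp
    ring
  have e1 : ρ / (1 + (ρ - dist K.o w)⁻¹ * dist K.o w) * (ρ - dist K.o w)⁻¹ = 1 := by
    rw [h2]
    field_simp
  rw [e1, K.dil_one]

/-- radial compression as a homeomorphism -/
noncomputable def cmpHomeo (K : ConeSp C) {ρ : ℝ} (hρ : 0 < ρ) : C ≃ₜ ball K.o ρ where
  toFun z := ⟨K.cmp ρ z, cmp_mem hρ z⟩
  invFun w := K.dil (ρ - dist K.o w.1)⁻¹ w.1
  left_inv z := cmp_left hρ z
  right_inv w := Subtype.ext (cmp_right hρ (by rw [dist_comm]; exact w.2))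
  continuous_toFun := (continuous_cmp hρ).subtype_mk _
  continuous_invFun := by
    apply continuous_dil _ _ continuous_subtype_val
    · apply Continuous.inv₀ (by fun_prop)
      intro w
      have hw : dist K.o w.1 < ρ := by rw [dist_comm]; exact w.2
      linarith
    · intro w
      have hw : dist K.o w.1 < ρ := by rw [dist_comm]; exact w.2
      have : 0 < ρ - dist K.o w.1 := by linarith
      positivity

end ConeSp

end Run7.h642
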