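import Pool.Agent.Run7.h642.Base

/-!
# Morphisms from stalk maps, evaluation of germs of sheaves of functions
-/

open CategoryTheory TopologicalSpace Opposite TopCat Limits

namespace Run7.h642

variable {k : Type} [Field k] {X : TopCat.{0}}

section homMk

/-- a morphism of sheaves from a compatible family of stalk maps -/
theorem exists_homMk {F G : Sh k X}
    (φ : ∀ y, F.presheaf.stalk y →ₗ[k] G.presheaf.stalk y)
    (h : ∀ (U : Opens X) (s : F.1.obj (op U)) (y : X) (_ : y ∈ U), ∃ (V : Opens X) (hV : V ≤ U)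
      (_ : y ∈ V) (t : G.1.obj (op V)), ∀ (z : X) (hz : z ∈ V),
        grm G z hz t = φ z (grm F z (hV hz) s)) :
    ∃ f : F ⟶ G, ∀ (y : X) (s : F.presheaf.stalk y), stk f y s = φ y s := by
  have key : ∀ (U : Opens X) (s : F.1.obj (op U)), ∃ t : G.1.obj (op U),
      ∀ (z : X) (hz : z ∈ U), grm G z hz t = φ z (grm F z hz s) := by
    intro U s
    classical
    obtain ⟨t, ht⟩ := exists_section_of_grm G (U := U)
      (fun y => if hy : y ∈ U then φ y (grm F y hy s) else 0) (by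
        intro y hy
        obtain ⟨V, hV, hyV, t, ht⟩ := h U s y hy
        refine ⟨V, hV, hyV, t, fun z hz => ?_⟩
        rw [ht z hz, dif_pos (hV hz)])
    refine ⟨t, fun z hz => ?_⟩
    rw [ht z hz, dif_pos hz]
  choose g hg using key
  refine ⟨⟨⟨fun U => ModuleCat.ofHom
    { toFun := g U.unop
      map_add' := fun a b => ?_
      map_smul' := fun c a => ?_ }, ?_⟩⟩, ?_⟩
  · apply ext_grm
    intro z hz
    rw [hg, map_add, map_add, map_add, hg, hg]
  · apply ext_grm
    intro z hz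
    rw [hg, map_smul, map_smul, RingHom.id_apply, map_smul, hg]
  · intro U V i
    ext s
    have h1 : g V.unop (res F i.unop.le s) = res G i.unop.le (g U.unop s) := by
      apply ext_grm
      intro z hz
      rw [hg, grm_res, grm_res, hg]
    exact h1
  · intro y s
    obtain ⟨U, hy, s, rfl⟩ := exists_grm_eq F y s
    rw [stk_grm]
    exact hg U s y hy

/-- a morphism of sheaves from a compatible family of stalk maps -/
noncomputable def homMk {F G : Sh k X}
    (φ : ∀ y, F.presheaf.stalk y →ₗ[k] G.presheaf.stalk y)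
    (h : ∀ (U : Opens X) (s : F.1.obj (op U)) (y : X) (_ : y ∈ U), ∃ (V : Opens X) (hV : V ≤ U)
      (_ : y ∈ V) (t : G.1.obj (op V)), ∀ (z : X) (hz : z ∈ V),
        grm G z hz t = φ z (grm F z (hV hz) s)) : F ⟶ G :=
  (exists_homMk φ h).choose

theorem stk_homMk {F G : Sh k X}
    (φ : ∀ y, F.presheaf.stalk y →ₗ[k] G.presheaf.stalk y)
    (h : ∀ (U : Opens X) (s : F.1.obj (op U)) (y : X) (_ : y ∈ U), ∃ (V : Opens X) (hV : V ≤ U)
      (_ : y ∈ V) (t : G.1.obj (op V)), ∀ (z : X) (hz : z ∈ V),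
        grm G z hz t = φ z (grm F z (hV hz) s)) (y : X) (s : F.presheaf.stalk y) :
    stk (homMk φ h) y s = φ y s :=
  (exists_homMk φ h).choose_spec y s

theorem stk_add {F G : Sh k X} (f g : F ⟶ G) (y : X) (s : F.presheaf.stalk y) :
    stk (f + g) y s = stk f y s + stk g y s := by
  obtain ⟨U, hy, s, rfl⟩ := exists_grm_eq F y s
  rw [stk_grm, sec_add, map_add, ← stk_grm, ← stk_grm]

end homMk

section desc

/-- linear maps out of a stalk -/
theorem exists_stkDesc (F : Sh k X) (y : X) (M : Type) [AddCommGroup M] [Module k M]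
    (φ : ∀ U : Opens X, y ∈ U → F.1.obj (op U) →ₗ[k] M)
    (h : ∀ (U V : Opens X) (hUV : U ≤ V) (hy : y ∈ U) (s : F.1.obj (op V)),
      φ U hy (res F hUV s) = φ V (hUV hy) s) :
    ∃ f : F.presheaf.stalk y →ₗ[k] M, ∀ (U : Opens X) (hy : y ∈ U) (s : F.1.obj (op U)),
      f (grm F y hy s) = φ U hy s := by
  have hx : ∀ x : F.presheaf.stalk y, ∃ m : M, ∀ (U : Opens X) (hy : y ∈ U) (s : F.1.obj (op U)),
      grm F y hy s = x → φ U hy s = m := by
    intro x
    obtain ⟨U, hy, s, rfl⟩ := exists_grm_eq F y x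
    refine ⟨φ U hy s, ?_⟩
    intro V hV t ht
    obtain ⟨W, h1, h2, hyW, h3⟩ := exists_res_eq_of_grm F y hV hy t s ht
    rw [← h W V h1 hyW, ← h W U h2 hyW, h3]
  choose f hf using hx
  have hf' : ∀ (U : Opens X) (hy : y ∈ U) (s : F.1.obj (op U)), f (grm F y hy s) = φ U hy s :=
    fun U hy s => (hf _ U hy s rfl).symm
  refine ⟨{ toFun := f, map_add' := ?_, map_smul' := ?_ }, hf'⟩
  · intro a b
    obtain ⟨U, hU, s, rfl⟩ := exists_grm_eq F y a
    obtain ⟨V, hV, t, rfl⟩ := exists_grm_eq F y b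
    have hW : y ∈ U ⊓ V := ⟨hU, hV⟩
    rw [← grm_res F (inf_le_left : U ⊓ V ≤ U) y hW, ← grm_res F (inf_le_right : U ⊓ V ≤ V) y hW,
      ← map_add, hf', hf', hf', map_add]
  · intro c a
    obtain ⟨U, hU, s, rfl⟩ := exists_grm_eq F y a
    rw [← map_smul, hf', hf', map_smul]
    rfl

end desc

section ev

variable {N : X → Type} [∀ x, AddCommGroup (N x)] [∀ x, Module k (N x)]

theorem LocSub.exists_ev (P : LocSub k N) (y : X) :
    ∃ f : P.sheaf.presheaf.stalk y →ₗ[k] N y, ∀ (U : Opens X) (hy : y ∈ U) (s : P.S U),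
      f (grm P.sheaf y hy s) = s.1 ⟨y, hy⟩ := by
  obtain ⟨f, hf⟩ := exists_stkDesc P.sheaf y (N y)
    (fun U hy =>
      { toFun := fun s => (show P.S U from s).1 ⟨y, hy⟩
        map_add' := fun _ _ => rfl
        map_smul' := fun _ _ => rfl }) (by
      intro U V hUV hy s
      rfl)
  exact ⟨f, fun U hy s => hf U hy s⟩

/-- evaluation of germs -/
noncomputable def LocSub.ev (P : LocSub k N) (y : X) : P.sheaf.presheaf.stalk y →ₗ[k] N y :=
  (P.exists_ev y).choose

theorem LocSub.ev_grm (P : LocSub k N) (y : X) (U : Opens X) (hy : y ∈ U) (s : P.S U) :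
    P.ev y (grm P.sheaf y hy s) = s.1 ⟨y, hy⟩ :=
  (P.exists_ev y).choose_spec U hy s

/-- sections with zero value are locally zero -/
def LocSub.Disc (P : LocSub k N) : Prop :=
  ∀ (U : Opens X) (s : ∀ y : U, N y), s ∈ P.S U → ∀ (y : X) (hy : y ∈ U), s ⟨y, hy⟩ = 0 →
    ∃ (V : Opens X) (hV : V ≤ U), y ∈ V ∧ ∀ (z : X) (hz : z ∈ V), s ⟨z, hV hz⟩ = 0

theorem LocSub.ev_injective (P : LocSub k N) (hP : P.Disc) (y : X) :
    Function.Injective (P.ev y) := by
  rw [injective_iff_map_eq_zero]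
  intro a ha
  obtain ⟨U, hy, s, rfl⟩ := exists_grm_eq P.sheaf y a
  have h1 : (show P.S U from s).1 ⟨y, hy⟩ = 0 := by rw [← P.ev_grm]; exact ha
  obtain ⟨V, hV, hyV, h2⟩ := hP U _ (show P.S U from s).2 y hy h1
  rw [← grm_res P.sheaf hV y hyV]
  have : res P.sheaf hV s = 0 := by
    apply Subtype.ext
    funext z
    exact h2 z.1 z.2
  rw [this, map_zero]

/-- a morphism into a sheaf of functions -/
theorem LocSub.exists_lift (P : LocSub k N) {F : Sh k X}
    (ψ : ∀ y, F.presheaf.stalk y →ₗ[k] N y)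
    (h : ∀ (U : Opens X) (s : F.1.obj (op U)), (fun y : U => ψ y.1 (grm F y.1 y.2 s)) ∈ P.S U) :
    ∃ f : F ⟶ P.sheaf, ∀ (y : X) (s : F.presheaf.stalk y), P.ev y (stk f y s) = ψ y s := by
  refine ⟨⟨⟨fun U => ModuleCat.ofHom
    { toFun := fun s => (⟨_, h U.unop s⟩ : P.S U.unop)
      map_add' := fun a b => ?_
      map_smul' := fun c a => ?_ }, ?_⟩⟩, ?_⟩
  · apply Subtype.ext
    funext z
    have : ψ z.1 (grm F z.1 z.2 (a + b)) = ψ z.1 (grm F z.1 z.2 a) + ψ z.1 (grm F z.1 z.2 b) := by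
      rw [map_add, map_add]
    exact this
  · apply Subtype.ext
    funext z
    have : ψ z.1 (grm F z.1 z.2 (c • a)) = c • ψ z.1 (grm F z.1 z.2 a) := by
      rw [map_smul, map_smul]
    exact this
  · intro U V i
    ext s
    apply Subtype.ext
    funext z
    exact congrArg _ (grm_res F i.unop.le z.1 z.2 s)
  · intro y s
    obtain ⟨U, hy, s, rfl⟩ := exists_grm_eq F y s
    rw [stk_grm]
    exact P.ev_grm y U hy _

end ev

end Run7.h642
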