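import Pool.Agent.Run7.h642.Hmt2

/-!
# Finiteness of images: the ladder lemma and compact sets
-/

open CategoryTheory TopologicalSpace Opposite TopCat Limits Abelian

namespace Run7.h642

section algebra

theorem finite_range_of_ladder {E E' F E'' : Type*} [AddCommGroup E] [AddCommGroup E']
    [AddCommGroup F] [AddCommGroup E''] (u : E →+ E') (v : E' →+ F) (w : E' →+ E'')
    (h1 : (Set.range (fun e => v (u e))).Finite)
    (h2 : (w '' {e | v e = 0}).Finite) : (Set.range (fun e => w (u e))).Finite := by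
  classical
  have h3 : ∀ s : Set.range (fun e => v (u e)), ∃ e : E, v (u e) = s.1 := fun s => s.2
  choose rep hrep using h3
  have hfin : (Set.image2 (fun a b => a + b)
      (Set.range (fun s : Set.range (fun e => v (u e)) => w (u (rep s))))
      (w '' {e | v e = 0})).Finite := by
    apply Set.Finite.image2 _ _ h2
    have : Finite (Set.range (fun e => v (u e))) := h1
    exact Set.finite_range _
  apply hfin.subset
  rintro _ ⟨e, rfl⟩
  let s : Set.range (fun e => v (u e)) := ⟨v (u e), ⟨e, rfl⟩⟩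
  refine ⟨w (u (rep s)), ⟨s, rfl⟩, w (u e - u (rep s)), ⟨u e - u (rep s), ?_, rfl⟩, ?_⟩
  · change v (u e - u (rep s)) = 0
    rw [map_sub, hrep s, sub_self]
  · change w (u (rep s)) + w (u e - u (rep s)) = w (u e)
    rw [map_sub]
    abel

variable {C : Type*} [Category C] [Abelian C] [HasExt.{0} C]

/-- precomposition on Ext groups -/
noncomputable def pre {A B : C} (f : A ⟶ B) (N : C) (n : ℕ) :
    Ext.{0} B N n →+ Ext.{0} A N n where
  toFun a := (Ext.mk₀ f).comp a (zero_add n)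
  map_zero' := by rw [Ext.comp_zero]
  map_add' a b := by rw [Ext.comp_add]

theorem pre_apply {A B : C} (f : A ⟶ B) (N : C) (n : ℕ) (a : Ext.{0} B N n) :
    pre f N n a = (Ext.mk₀ f).comp a (zero_add n) := rfl

theorem pre_comp {A B D : C} (f : A ⟶ B) (g : B ⟶ D) (N : C) (n : ℕ) (a : Ext.{0} D N n) :
    pre f N n (pre g N n a) = pre (f ≫ g) N n a := by
  rw [pre_apply, pre_apply, pre_apply, ← Ext.comp_assoc_of_second_deg_zero, Ext.mk₀_comp_mk₀]

/-- the ladder lemma -/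
theorem ladder {T T' T'' : Sq C} (φ : SqHom T' T) (ψ : SqHom T'' T') (N : C) :
    ∀ (m : ℕ) (_ : (Set.range (pre φ.p N m)).Finite) (_ : (Set.range (pre φ.b N m)).Finite)
      (_ : ∀ n, n + 1 = m → (Set.range (pre ψ.a N n)).Finite),
      (Set.range (pre (ψ.d ≫ φ.d) N m)).Finite := by
  intro m hp hb ha
  have h := finite_range_of_ladder (pre φ.d N m)
    (AddMonoidHom.prod (pre T'.j N m) (pre T'.g N m)) (pre ψ.d N m) ?_ ?_
  · have e : (fun e => pre ψ.d N m (pre φ.d N m e)) = pre (ψ.d ≫ φ.d) N m := by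
      funext e
      exact pre_comp _ _ _ _ _
    rw [e] at h
    exact h
  · have hf : (Set.range (pre φ.p N m) ×ˢ Set.range (pre φ.b N m)).Finite := hp.prod hb
    apply hf.subset
    rintro _ ⟨e, rfl⟩
    refine ⟨⟨pre T.j N m e, ?_⟩, ⟨pre T.g N m e, ?_⟩⟩
    · change pre φ.p N m (pre T.j N m e) = pre T'.j N m (pre φ.d N m e)
      rw [pre_comp, pre_comp, φ.hj]
    · change pre φ.b N m (pre T.g N m e) = pre T'.g N m (pre φ.d N m e)
      rw [pre_comp, pre_comp, φ.hg]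
  · rcases m with _ | n
    · apply (Set.finite_singleton (0 : Ext.{0} T''.D N 0)).subset
      rintro _ ⟨e, he, rfl⟩
      have h1 : pre T'.j N 0 e = 0 := congrArg Prod.fst he
      have h2 : pre T'.g N 0 e = 0 := congrArg Prod.snd he
      obtain ⟨e, rfl⟩ := (Ext.mk₀_bijective _ _).2 e
      rw [pre_apply, Ext.mk₀_comp_mk₀] at h1 h2
      have h3 : T'.j ≫ e = 0 := (Ext.mk₀_eq_zero_iff _).mp h1
      have h4 : T'.g ≫ e = 0 := (Ext.mk₀_eq_zero_iff _).mp h2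
      have h5 : e = 0 := T'.jointly_epi e h3 h4
      rw [h5, Ext.mk₀_zero, map_zero]
      rfl
    · have hfin : ((fun c => T''.cls.comp c (add_comm 1 n)) '' Set.range (pre ψ.a N n)).Finite :=
        (ha n rfl).image _
      apply hfin.subset
      rintro _ ⟨e, he, rfl⟩
      have h1 : pre T'.j N (n + 1) e = 0 := congrArg Prod.fst he
      have h2 : pre T'.g N (n + 1) e = 0 := congrArg Prod.snd he
      obtain ⟨b, hb⟩ := T'.exists_of_res_eq_zero (add_comm 1 n) e h1 h2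
      refine ⟨pre ψ.a N n b, ⟨b, rfl⟩, ?_⟩
      rw [← hb]
      exact ψ.cls_naturality_assoc b (add_comm 1 n)

/-- squares are pushouts -/
theorem Sq.exists_desc (T : Sq C) {N : C} (a : T.B ⟶ N) (b : T.P ⟶ N) (h : T.i ≫ a = T.f ≫ b) :
    ∃ c : T.D ⟶ N, T.g ≫ c = a ∧ T.j ≫ c = b := by
  have hiso := T.iso
  have n1 := ShortComplex.ShortExact.extClass_naturality.{0} T.h1 T.h2 T.r
  have h1 : T.h2.extClass.comp (Ext.mk₀ b) (add_zero 1) = 0 := by
    apply ext_cancel_left T.r.τ₃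
    rw [← Ext.comp_assoc (a₁₂ := 1) (a₂₃ := 1) _ _ _ (by lia) (by lia) (by lia), ← n1,
      Ext.comp_assoc_of_third_deg_zero, Ext.mk₀_comp_mk₀]
    have h2 : T.r.τ₁ ≫ b = T.S1.f ≫ a := h.symm
    rw [h2, ← Ext.mk₀_comp_mk₀, ← Ext.comp_assoc_of_third_deg_zero, T.h1.extClass_comp,
      Ext.zero_comp]
  obtain ⟨c', hc'⟩ := Ext.contravariant_sequence_exact₁ T.h2 N (Ext.mk₀ b) (add_zero 1) h1
  obtain ⟨c', rfl⟩ := (Ext.mk₀_bijective _ _).2 c'
  rw [Ext.mk₀_comp_mk₀] at hc'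
  have hc2 : T.S2.f ≫ c' = b := (Ext.mk₀_bijective _ _).1 hc'
  have h3 : T.S1.f ≫ (T.g ≫ c' - a) = 0 := by
    rw [Preadditive.comp_sub, sub_eq_zero, ← Category.assoc]
    have := T.comm
    have e1 : T.S1.f ≫ T.g = T.f ≫ T.j := this
    rw [e1, Category.assoc]
    have e2 : T.j ≫ c' = b := hc2
    rw [e2]
    exact h.symm
  have := T.h1.epi_g
  have := T.h2.epi_g
  have hq : T.S1.g ≫ T.h1.exact.desc _ h3 = T.g ≫ c' - a := T.h1.exact.g_desc _ h3
  set q := T.h1.exact.desc _ h3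
  refine ⟨c' - T.S2.g ≫ inv T.r.τ₃ ≫ q, ?_, ?_⟩
  · rw [Preadditive.comp_sub]
    have e3 : T.g ≫ T.S2.g ≫ inv T.r.τ₃ ≫ q = T.S1.g ≫ q := by
      have e4 : T.g ≫ T.S2.g = T.S1.g ≫ T.r.τ₃ := T.r.comm₂₃
      rw [← Category.assoc, e4, Category.assoc, IsIso.hom_inv_id_assoc]
    rw [e3, hq]
    abel
  · rw [Preadditive.comp_sub]
    have e5 : T.j ≫ T.S2.g ≫ inv T.r.τ₃ ≫ q = 0 := by
      have e6 : T.j ≫ T.S2.g = 0 := T.S2.zero
      rw [← Category.assoc, e6, zero_comp]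
    rw [e5, sub_zero]
    exact hc2

end algebra

variable {k : Type} [Field k] {X : TopCat.{0}}

/-- finiteness of the image of a restriction map -/
def FinIm (G N : Sh k X) (n : ℕ) {U V : Opens X} (h : V ≤ U) : Prop :=
  (Set.range (fun a : Ext.{0} (cut G U) N n => rs h a)).Finite

theorem finIm_iff (G N : Sh k X) (n : ℕ) {U V : Opens X} (h : V ≤ U) :
    FinIm G N n h ↔ (Set.range (pre (cutMap G h) N n)).Finite := Iff.rfl

theorem FinIm.mono {G N : Sh k X} {n : ℕ} {U V U' V' : Opens X} {h : V ≤ U}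
    (hf : FinIm G N n h) (hU : U ≤ U') (hV : V' ≤ V) : FinIm G N n (hV.trans (h.trans hU)) := by
  have h1 : ((fun b => rs hV b) '' Set.range (fun a : Ext.{0} (cut G U) N n => rs h a)).Finite :=
    hf.image _
  apply h1.subset
  rintro _ ⟨a, rfl⟩
  refine ⟨rs h (rs hU a), ⟨rs hU a, rfl⟩, ?_⟩
  dsimp only
  rw [rs_rs, rs_rs]

/-- local finiteness at a point -/
def LFin (G N : Sh k X) (x : X) : Prop :=
  ∀ (n : ℕ) (U : Opens X), x ∈ U → ∃ (V : Opens X) (h : V ≤ U), x ∈ V ∧ FinIm G N n h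

theorem finIm_bot (G N : Sh k X) (n : ℕ) {U : Opens X} (h : ⊥ ≤ U) : FinIm G N n h := by
  apply (Set.finite_singleton (0 : Ext.{0} (cut G ⊥) N n)).subset
  rintro _ ⟨a, rfl⟩
  have h1 : cutMap G h = 0 := by
    apply hom_ext_stk
    intro y s
    rw [cut_stalk_eq_zero G ⊥ y (fun h => h) s, map_zero, map_zero]
  dsimp only
  unfold rs
  rw [h1, Ext.mk₀_zero, Ext.zero_comp]
  rfl

theorem exists_separate [T2Space X] {K1 K2 : Set X} (h1 : IsCompact K1) (h2 : IsCompact K2)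
    {V1 V2 W0 : Opens X} (hV1 : K1 ⊆ V1) (hV2 : K2 ⊆ V2) (h : K1 ∩ K2 ⊆ W0) :
    ∃ (W1 W2 : Opens X), W1 ≤ V1 ∧ W2 ≤ V2 ∧ K1 ⊆ W1 ∧ K2 ⊆ W2 ∧ W1 ⊓ W2 ≤ W0 := by
  obtain ⟨O1, O2, hO1, hO2, e1, e2, hd⟩ := SeparatedNhds.of_isCompact_isCompact
    (h1.diff W0.2) (h2.diff W0.2) (by
    rw [Set.disjoint_left]
    intro x hx hx'
    exact hx.2 (h ⟨hx.1, hx'.1⟩))
  refine ⟨(⟨O1, hO1⟩ ⊔ W0) ⊓ V1, (⟨O2, hO2⟩ ⊔ W0) ⊓ V2, inf_le_right, inf_le_right, ?_, ?_, ?_⟩
  · intro x hx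
    refine ⟨?_, hV1 hx⟩
    by_cases hw : x ∈ (W0 : Set X)
    · exact Or.inr hw
    · exact Or.inl (e1 ⟨hx, hw⟩)
  · intro x hx
    refine ⟨?_, hV2 hx⟩
    by_cases hw : x ∈ (W0 : Set X)
    · exact Or.inr hw
    · exact Or.inl (e2 ⟨hx, hw⟩)
  · rintro x ⟨⟨hx1, -⟩, ⟨hx2, -⟩⟩
    rcases hx1 with hx1 | hx1
    · rcases hx2 with hx2 | hx2
      · exact absurd hx2 (Set.disjoint_left.mp hd hx1)
      · exact hx2
    · exact hx1

/-- finiteness of images near compact sets -/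
theorem wilder [CompactSpace X] [T2Space X] {G N : Sh k X} : ∀ (n : ℕ) {U : Opens X}
    (_ : ∀ x ∈ U, LFin G N x) {K : Set X} (_ : IsCompact K) (_ : K ⊆ U),
    ∃ (V : Opens X) (h : V ≤ U), K ⊆ V ∧ FinIm G N n h := by
  intro n
  induction n using Nat.strong_induction_on with
  | _ n ih =>
  intro U hU K hK hKU
  have key : ∃ K' : Set X, IsCompact K' ∧ K ⊆ K' ∧ K' ⊆ U ∧
      ∃ (V : Opens X) (h : V ≤ U), K' ⊆ V ∧ FinIm G N n h := by
    refine hK.induction_on (p := fun S => ∃ K' : Set X, IsCompact K' ∧ S ⊆ K' ∧ K' ⊆ U ∧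
      ∃ (V : Opens X) (h : V ≤ U), K' ⊆ V ∧ FinIm G N n h) ?_ ?_ ?_ ?_
    · exact ⟨∅, isCompact_empty, le_rfl, Set.empty_subset _, ⊥, bot_le, Set.empty_subset _,
        finIm_bot G N n _⟩
    · rintro s t hst ⟨K', h1, h2, h3⟩
      exact ⟨K', h1, hst.trans h2, h3⟩
    · rintro s t ⟨K1, hK1, hs, hK1U, V1, hV1, hKV1, f1⟩ ⟨K2, hK2, ht, hK2U, V2, hV2, hKV2, f2⟩
      have hW : ∃ W0 : Opens X, K1 ∩ K2 ⊆ W0 ∧ ∀ m, m + 1 = n →
          ∃ h : W0 ≤ V1 ⊓ V2, FinIm G N m h := by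
        rcases n with _ | m
        · exact ⟨⊤, fun _ _ => trivial, fun m hm => absurd hm (by lia)⟩
        · obtain ⟨W0, hW0, hKW0, f0⟩ := ih m (by lia) (U := V1 ⊓ V2)
            (fun x hx => hU x (hV1 hx.1)) (hK1.inter hK2) (fun x hx => ⟨hKV1 hx.1, hKV2 hx.2⟩)
          refine ⟨W0, hKW0, fun m' hm' => ?_⟩
          have : m' = m := by lia
          subst this
          exact ⟨hW0, f0⟩
      obtain ⟨W0, hKW0, hf0⟩ := hW
      obtain ⟨W1, W2, hW1, hW2, hKW1, hKW2, hW12⟩ := exists_separate hK1 hK2 hKV1 hKV2 hKW0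
      have hlad := ladder (mvMap G hV1 hV2) (mvMap G hW1 hW2) N n f2 f1 (by
        intro m hm
        obtain ⟨hle, hfin⟩ := hf0 m hm
        have h5 := hfin.mono (le_refl (V1 ⊓ V2)) hW12
        exact h5)
      have h6 : (mvMap G hW1 hW2).d ≫ (mvMap G hV1 hV2).d =
          cutMap G ((sup_le_sup hW1 hW2).trans (sup_le_sup hV1 hV2)) :=
        cutMap_comp G (sup_le_sup hW1 hW2) (sup_le_sup hV1 hV2)
      rw [h6] at hlad
      have h7 : FinIm G N n ((sup_le_sup hW1 hW2).trans (sup_le_sup hV1 hV2)) := hlad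
      refine ⟨K1 ∪ K2, hK1.union hK2, Set.union_subset_union hs ht,
        Set.union_subset hK1U hK2U, W1 ⊔ W2, (sup_le (hW1.trans hV1) (hW2.trans hV2)), ?_, ?_⟩
      · rintro x (hx | hx)
        · exact Or.inl (hKW1 hx)
        · exact Or.inr (hKW2 hx)
      · exact h7.mono (sup_le le_rfl le_rfl) le_rfl
    · intro x hx
      obtain ⟨V, hV, hxV, hf⟩ := hU x (hKU hx) n U (hKU hx)
      obtain ⟨C, hC, hxC, hCV⟩ := exists_compact_subset V.2 hxV
      exact ⟨C, mem_nhdsWithin_of_mem_nhds (mem_interior_iff_mem_nhds.mp hxC),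
        C, hC, le_rfl, hCV.trans hV, V, hV, hCV, hf⟩
  obtain ⟨K', hK', h1, h2, V, hV, h3, h4⟩ := key
  exact ⟨V, hV, h1.trans h3, h4⟩

end Run7.h642
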